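import Pool.Agent.Lib.MP_bc213e_ag.TCI.Basic

/-! Derivations and transcendence bases. -/

namespace Pool.Agent.Lib.MP_bc213e_ag.TCI

variable {E : Type} [Field E] [Algebra ℂ E] {A : Type}

/-- Sketch: make `E` an algebra over `P = MvPolynomial A ℂ` by `aeval τ` (injective), and over
`FractionRing P` (`FractionRing.liftAlgebra`); `E` is algebraic, hence separable, over
`FractionRing P`. So `E` is formally etale over `P` (`Algebra.FormallyEtale.of_isLocalization`,
`Algebra.FormallyEtale.of_isSeparable`, `Algebra.FormallyEtale.comp`). Take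
`((KaehlerDifferential.mvPolynomialBasis ℂ A).baseChange E).map
(KaehlerDifferential.tensorKaehlerEquivOfFormallyEtale ℂ P E)`. -/
theorem exists_kaehler_basis (τ : A → E) (hτ : IsTranscendenceBasis ℂ τ) :
    ∃ b : Module.Basis A E (Ω[E⁄ℂ]), ∀ a, b a = KaehlerDifferential.D ℂ E (τ a) := by
  let P := MvPolynomial A ℂ
  let φ : P →ₐ[ℂ] E := MvPolynomial.aeval τ
  have hφ : Function.Injective φ := hτ.1
  let _ : Algebra P E := φ.toRingHom.toAlgebra
  have : IsScalarTower ℂ P E := IsScalarTower.of_algebraMap_eq fun c => (φ.commutes c).symm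
  have : FaithfulSMul P E := (faithfulSMul_iff_algebraMap_injective P E).2 hφ
  let _ : Algebra (FractionRing P) E := FractionRing.liftAlgebra P E
  have : IsScalarTower P (FractionRing P) E := FractionRing.isScalarTower_liftAlgebra P E
  have halg : Algebra.IsAlgebraic P E := by
    have h1 := hτ.isAlgebraic
    refine ⟨fun a => ?_⟩
    exact (isAlgebraic_ringHom_iff_of_comp_eq hτ.1.aevalEquiv.toRingEquiv (RingHom.id E)
      Function.injective_id (RingHom.ext fun x => hτ.1.algebraMap_aevalEquiv x)).1
      (h1.isAlgebraic a)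
  have : Algebra.IsAlgebraic (FractionRing P) E :=
    Algebra.IsAlgebraic.extendScalars (R := P) (IsFractionRing.injective P (FractionRing P))
  have : Algebra.FormallyEtale P (FractionRing P) :=
    Algebra.FormallyEtale.of_isLocalization (nonZeroDivisors P)
  have : Algebra.FormallyEtale (FractionRing P) E := Algebra.FormallyEtale.of_isSeparable _ _
  have : Algebra.FormallyEtale P E := Algebra.FormallyEtale.comp P (FractionRing P) E
  refine ⟨((KaehlerDifferential.mvPolynomialBasis ℂ A).baseChange E).map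
    (KaehlerDifferential.tensorKaehlerEquivOfFormallyEtale ℂ P E), fun a => ?_⟩
  rw [Module.Basis.map_apply, Module.Basis.baseChange_apply,
    KaehlerDifferential.mvPolynomialBasis_apply, ← LinearEquiv.eq_symm_apply]
  have e : τ a = algebraMap P E (MvPolynomial.X a) := (MvPolynomial.aeval_X τ a).symm
  rw [e, KaehlerDifferential.tensorKaehlerEquivOfFormallyEtale_symm_D_algebraMap]

section

variable {M : Type} [AddCommGroup M] [Module E M] [Module ℂ M] [IsScalarTower ℂ E M]

/-- Sketch: `(b.constr E c).compDer (KaehlerDifferential.D ℂ E)`. -/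
theorem exists_der (τ : A → E) (hτ : IsTranscendenceBasis ℂ τ) (c : A → M) :
    ∃ δ : Derivation ℂ E M, ∀ a, δ (τ a) = c a := by
  obtain ⟨b, hb⟩ := exists_kaehler_basis τ hτ
  refine ⟨(b.constr E c).compDer (KaehlerDifferential.D ℂ E), fun a => ?_⟩
  change b.constr E c (KaehlerDifferential.D ℂ E (τ a)) = c a
  rw [← hb, Module.Basis.constr_basis]

/-- Sketch: `δ.liftKaehlerDifferential` vanishes on the basis. -/
theorem der_eq_zero (τ : A → E) (hτ : IsTranscendenceBasis ℂ τ) (δ : Derivation ℂ E M)
    (h : ∀ a, δ (τ a) = 0) : δ = 0 := by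
  obtain ⟨b, hb⟩ := exists_kaehler_basis τ hτ
  have h0 : δ.liftKaehlerDifferential = 0 := b.ext fun a => by
    rw [hb, Derivation.liftKaehlerDifferential_comp_D, h, LinearMap.zero_apply]
  ext u
  rw [← Derivation.liftKaehlerDifferential_comp_D, h0]
  rfl

end

theorem exists_dual [DecidableEq A] (τ : A → E) (hτ : IsTranscendenceBasis ℂ τ) :
    ∃ d : A → Derivation ℂ E E, ∀ a b, d a (τ b) = if a = b then 1 else 0 := by
  choose d hd using fun a : A => exists_der τ hτ fun b => if a = b then (1 : E) else 0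
  exact ⟨d, hd⟩

/-- Sketch: `δ - ∑ b, δ (τ b) • d b` vanishes on `τ`. -/
theorem der_expand [Fintype A] [DecidableEq A] (τ : A → E) (hτ : IsTranscendenceBasis ℂ τ)
    (d : A → Derivation ℂ E E) (hd : ∀ a b, d a (τ b) = if a = b then 1 else 0)
    (δ : Derivation ℂ E E) (u : E) : δ u = ∑ b, δ (τ b) * d b u := by
  have hs : ∀ v, (∑ b, δ (τ b) • d b) v = ∑ b, δ (τ b) * d b v := fun v => by
    have := congrFun (map_sum (Derivation.coeFnAddMonoidHom (R := ℂ) (A := E) (M := E))
      (fun b => δ (τ b) • d b) Finset.univ) v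
    rw [Finset.sum_apply] at this
    exact this
  have h0 := der_eq_zero τ hτ (δ - ∑ b, δ (τ b) • d b) fun a => by
    rw [Derivation.sub_apply, hs]
    simp [hd]
  have h1 := congrArg (fun D : Derivation ℂ E E => D u) h0
  simp only [Derivation.sub_apply, hs, Derivation.zero_apply] at h1
  exact sub_eq_zero.1 h1

theorem det_der_expand [Fintype A] [DecidableEq A] (τ : A → E) (hτ : IsTranscendenceBasis ℂ τ)
    (d : A → Derivation ℂ E E) (hd : ∀ a b, d a (τ b) = if a = b then 1 else 0)
    (δ : A → Derivation ℂ E E) (u : A → E) :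
    (Matrix.of fun a b => δ a (u b)).det =
      (Matrix.of fun a b => δ a (τ b)).det * (Matrix.of fun a b => d a (u b)).det := by
  rw [← Matrix.det_mul]
  congr 1
  ext a b
  rw [Matrix.mul_apply, Matrix.of_apply, der_expand τ hτ d hd]
  rfl

theorem exists_trBasis {n : ℕ} (h : Algebra.trdeg ℂ E = n) :
    ∃ τ : Fin n → E, IsTranscendenceBasis ℂ τ := by
  obtain ⟨ι, x, hx⟩ := exists_isTranscendenceBasis' ℂ E
  have h1 := hx.cardinalMk_eq_trdeg
  rw [h, ← Cardinal.mk_fin, Cardinal.eq] at h1
  obtain ⟨e⟩ := h1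
  exact ⟨x ∘ e.symm, (isTranscendenceBasis_equiv e.symm).2 hx⟩

/-- `AlgebraicIndependent.isTranscendenceBasis_of_trdeg_le_of_finite`. -/
theorem isTrBasis_of_card [Fintype A] (τ : A → E) (hτ : AlgebraicIndependent ℂ τ)
    (h : Algebra.trdeg ℂ E ≤ Fintype.card A) : IsTranscendenceBasis ℂ τ := by
  refine hτ.isTranscendenceBasis_of_trdeg_le_of_finite ?_
  rwa [Cardinal.mk_fintype]

theorem trdeg_eq_card [Fintype A] (τ : A → E) (hτ : IsTranscendenceBasis ℂ τ) :
    Algebra.trdeg ℂ E = Fintype.card A := by
  rw [← hτ.cardinalMk_eq_trdeg, Cardinal.mk_fintype]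

/-- An element of value `< 1` is transcendental over a subfield of the valuation ring. Sketch:
the minimal polynomial of a nonzero algebraic `s` has nonzero constant term, of value `1`
(`val_eq_one_of_field`), but this term is `-s * (polynomial in s)`, of value `< 1`. -/
theorem transcendental_of_val {F Γ : Type} [Field F] [Algebra F E]
    [LinearOrderedCommGroupWithZero Γ] (w : Valuation E Γ)
    (hF : ∀ c : F, w (algebraMap F E c) ≤ 1) {s : E} (hs0 : s ≠ 0) (hs : w s < 1) :
    Transcendental F s := by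
  intro halg
  have hint : IsIntegral F s := halg.isIntegral
  have h0 : (minpoly F s).coeff 0 ≠ 0 := minpoly.coeff_zero_ne_zero hint hs0
  have h1 := val_eq_one_of_field w hF h0
  have h2 : ∀ p : Polynomial F, w (Polynomial.aeval s p) ≤ 1 := fun p =>
    val_le_one_of_mem_adjoin w hF (T := {s}) (fun t ht => by rw [ht]; exact hs.le)
      (Polynomial.aeval_mem_adjoin_singleton F s)
  have h3 := congrArg (Polynomial.aeval s) (Polynomial.divX_mul_X_add (minpoly F s))
  rw [minpoly.aeval, map_add, map_mul, Polynomial.aeval_X, Polynomial.aeval_C] at h3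
  have h4 : algebraMap F E ((minpoly F s).coeff 0) =
      -(Polynomial.aeval s (minpoly F s).divX * s) := eq_neg_of_add_eq_zero_right h3
  rw [h4, Valuation.map_neg, map_mul] at h1
  have h5 : w (Polynomial.aeval s (minpoly F s).divX) * w s ≤ w s := mul_le_of_le_one_left' (h2 _)
  rw [h1] at h5
  exact absurd hs (not_lt.2 h5)

end Pool.Agent.Lib.MP_bc213e_ag.TCI
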