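import Pool.Agent.Lib.MP_bc213e_ag.TCI.ADefs

/-! Residually independent elements. -/

namespace Pool.Agent.Lib.MP_bc213e_ag.TCI

open WithZero MvPolynomial

theorem Trp_core {κ V A X : Type} [Field κ] [Algebra ℂ κ] [Fintype V] [Fintype A] [Fintype X]
    (t : A → κ) (ht : AlgebraicIndependent ℂ t) (y : V → κ) (ζ : X → κ)
    (h : ∀ a, IsAlgebraic (Algebra.adjoin ℂ (Set.range y ∪ Set.range ζ)) (t a)) {d : ℕ}
    (hd : d + Fintype.card X ≤ Fintype.card A) :
    ∃ s : Fin d → V, AlgebraicIndependent ℂ fun a => y (s a) := by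
  classical
  let M := AlgebraicIndependent.matroid ℂ κ
  obtain ⟨I, hI⟩ := M.exists_isBasis (Set.range y)
  have hind : M.Indep (Set.range t) := ht.to_subtype_range
  have hsub : Set.range t ⊆ M.closure (Set.range y ∪ Set.range ζ) := by
    rintro _ ⟨a, rfl⟩
    rw [AlgebraicIndependent.matroid_closure_eq]
    exact h a
  have h1 : (Set.range t).encard ≤ I.encard + (Set.range ζ).encard := by
    refine (hind.encard_le_eRk_of_subset hsub).trans ?_
    rw [M.eRk_closure_eq, ← hI.eRk_eq_encard]
    exact M.eRk_union_le_eRk_add_encard _ _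
  have hIf : I.Finite := (Set.finite_range y).subset hI.subset
  have h2 : (Set.range t).encard = Fintype.card A := by
    rw [← Set.image_univ, ht.injective.encard_image, Set.encard_univ, ENat.card_eq_coe_fintype_card]
  have h3 : (Set.range ζ).encard ≤ Fintype.card X := by
    rw [← Set.image_univ]
    refine (Set.encard_image_le _ _).trans ?_
    rw [Set.encard_univ, ENat.card_eq_coe_fintype_card]
  have h4 : d ≤ I.ncard := by
    have h5 : ((Fintype.card A : ℕ) : ℕ∞) ≤ (I.ncard : ℕ) + (Fintype.card X : ℕ) := by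
      rw [← h2, hIf.cast_ncard_eq]
      exact h1.trans (add_le_add_right h3 _)
    have h6 : Fintype.card A ≤ I.ncard + Fintype.card X := by exact_mod_cast h5
    omega
  have := hIf.fintype
  have h7 : Fintype.card (Fin d) ≤ Fintype.card I := by
    rw [Fintype.card_fin, ← Nat.card_eq_fintype_card, Nat.card_coe_set_eq]
    exact h4
  obtain ⟨e⟩ := Function.Embedding.nonempty_of_card_le h7
  have hex : ∀ a, ∃ l, y l = e a := fun a => hI.subset (e a).2
  choose s hs using hex
  refine ⟨s, ?_⟩
  have h8 : AlgebraicIndependent ℂ ((↑) : I → κ) := hI.indep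
  have h9 := h8.comp e e.injective
  convert h9 using 1
  funext a
  exact hs a

theorem Trp_le_trdeg {F E A : Type} [Field F] [Algebra ℂ F] [Field E] [Algebra ℂ E] [Algebra F E]
    [IsScalarTower ℂ F E] (t : A → E) (ht : AlgebraicIndependent ℂ t)
    (h : ∀ a, IsAlgebraic F (t a)) : Cardinal.mk A ≤ Algebra.trdeg ℂ F := by
  let L := algebraicClosure F E
  let t' : A → L := fun a => ⟨t a, mem_algebraicClosure_iff.2 (h a)⟩
  have hti : AlgebraicIndependent ℂ t' :=
    AlgebraicIndependent.of_comp (L.val.restrictScalars ℂ) ht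
  have h3 := hti.cardinalMk_le_trdeg
  rwa [← trdeg_add_eq ℂ F (A := L), trdeg_eq_zero (R := F) (A := L), add_zero] at h3

/-- Sketch: let `κ` be the residue field of `w.valuationSubring`, a `ℂ`-algebra through
`ℂ →+* w.valuationSubring` (`RingHom.codRestrict`, `toAlgebra`); for `α` in the ring, the residue
is nonzero iff `w α = 1`, and residues commute with `aeval`. In the matroid
`M = AlgebraicIndependent.matroid ℂ κ` the residues of the `aeval z (T a)` form an independent set
with `card A` elements (`hT`, `algebraicIndependent_iff`), contained in the closure of the residues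
of the `y l` and `ζ j` (the residue of `z l` has a power in the subalgebra generated by them, so it
is algebraic over it; `AlgebraicIndependent.matroid_closure_eq`). So
`card A ≤ eRk (range y) + card X`; take an independent subset of `range y` with `d` elements and
enumerate it. An alternative to matroids: `exists_isTranscendenceBasis_subset` in the algebraic
closure of the subalgebra and `AlgebraicIndependent.lift_cardinalMk_le_trdeg`. -/
theorem res_indep {E V A X : Type} [Field E] [Algebra ℂ E] [Fintype V] [Fintype A] [Fintype X]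
    (w : Valuation E ℤᵐ⁰) (hw : ∀ a : ℂ, w (algebraMap ℂ E a) ≤ 1) (z y : V → E) (ζ : X → E)
    (hz : ∀ l, w (z l) ≤ 1) (hy : ∀ l, w (y l) ≤ 1) (hζ : ∀ j, w (ζ j) ≤ 1)
    (h : ∀ l, ∃ (N : ℕ) (s : X → ℕ), 0 < N ∧ z l ^ N = y l * ∏ j, ζ j ^ s j)
    (T : A → MvPolynomial V ℂ)
    (hT : ∀ Q : MvPolynomial A ℂ, Q ≠ 0 → w (aeval (fun a => aeval z (T a)) Q) = 1) {d : ℕ}
    (hd : d + Fintype.card X ≤ Fintype.card A) :
    ∃ s : Fin d → V, ∀ Q : MvPolynomial (Fin d) ℂ, Q ≠ 0 → w (aeval (fun a => y (s a)) Q) = 1 := by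
  classical
  let O := w.valuationSubring
  let φ : ℂ →+* O := (algebraMap ℂ E).codRestrict O hw
  let _ : Algebra ℂ O := φ.toAlgebra
  let κ := IsLocalRing.ResidueField O
  let π : O →ₐ[ℂ] κ := IsScalarTower.toAlgHom ℂ O κ
  let ι : O →ₐ[ℂ] E := { O.subtype with commutes' := fun _ => rfl }
  have hπ : ∀ α : O, π α ≠ 0 ↔ w (ι α) = 1 := fun α => by
    change IsLocalRing.residue O α ≠ 0 ↔ w (α : E) = 1
    rw [Ne, IsLocalRing.residue_eq_zero_iff, Valuation.mem_maximalIdeal_iff, not_lt]
    exact ⟨fun h1 => le_antisymm α.2 h1, fun h1 => h1.ge⟩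
  have key : ∀ {B : Type} (u : B → O) (Q : MvPolynomial B ℂ),
      aeval (fun b => π (u b)) Q ≠ 0 ↔ w (aeval (fun b => ι (u b)) Q) = 1 := fun u Q => by
    rw [← comp_aeval_apply, ← comp_aeval_apply, hπ]
  let z' : V → O := fun l => ⟨z l, hz l⟩
  let y' : V → O := fun l => ⟨y l, hy l⟩
  let ζ' : X → O := fun j => ⟨ζ j, hζ j⟩
  have ht : AlgebraicIndependent ℂ fun a => π (aeval z' (T a)) := by
    rw [algebraicIndependent_iff]
    intro Q hQ
    by_contra hQ0
    refine (key (fun a => aeval z' (T a)) Q).2 ?_ hQ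
    have : (fun a => ι (aeval z' (T a))) = fun a => aeval z (T a) := by
      funext a
      rw [comp_aeval_apply]
      rfl
    rw [this]
    exact hT Q hQ0
  let S := Algebra.adjoin ℂ (Set.range (fun l => π (y' l)) ∪ Set.range fun j => π (ζ' j))
  have hzS : ∀ l, IsAlgebraic S (π (z' l)) := fun l => by
    obtain ⟨N, s, hN, hs⟩ := h l
    have h1 : z' l ^ N = y' l * ∏ j, ζ' j ^ s j := by
      apply Subtype.ext
      push_cast
      exact hs
    refine IsAlgebraic.of_pow hN ?_
    have h2 : π (z' l) ^ N ∈ S := by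
      rw [← map_pow, h1, map_mul, map_prod]
      refine S.mul_mem (Algebra.subset_adjoin (Or.inl ⟨l, rfl⟩)) (S.prod_mem fun j _ => ?_)
      rw [map_pow]
      exact S.pow_mem (Algebra.subset_adjoin (Or.inr ⟨j, rfl⟩)) _
    exact isAlgebraic_algebraMap (⟨_, h2⟩ : S)
  have halg : ∀ P : MvPolynomial V ℂ, IsAlgebraic S (π (aeval z' P)) := fun P => by
    induction P using MvPolynomial.induction_on with
    | C c =>
      rw [aeval_C, AlgHom.commutes]
      exact isAlgebraic_algebraMap (⟨_, S.algebraMap_mem c⟩ : S)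
    | add P Q hP hQ => rw [map_add, map_add]; exact hP.add hQ
    | mul_X P l hP => rw [map_mul, map_mul, aeval_X]; exact hP.mul (hzS l)
  obtain ⟨s, hs⟩ := Trp_core _ ht (fun l => π (y' l)) (fun j => π (ζ' j)) (fun a => halg (T a)) hd
  refine ⟨s, fun Q hQ => ?_⟩
  rw [algebraicIndependent_iff] at hs
  exact (key (fun a => y' (s a)) Q).1 fun h0 => hQ (hs Q h0)

/-- The trivial valuation. Apply `exists_isTranscendenceBasis_subset` to `range x`; the basis has
`n` elements (`IsTranscendenceBasis.cardinalMk_eq_trdeg`); `mono_single`. -/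
theorem exists_triv {S K : Type} [Fintype S] [Field K] [Algebra ℂ K] {n : ℕ} (x : S → Kˣ)
    (gen : IntermediateField.adjoin ℂ (Set.range fun l => (x l : K)) = ⊤)
    (dim : Algebra.trdeg ℂ K = n) :
    ∃ w : Valuation K ℤᵐ⁰, (∀ α, w α ≤ 1) ∧ Trop (n - 1) x w := by
  classical
  have halg : Algebra.IsAlgebraic (Algebra.adjoin ℂ (Set.range fun l => (x l : K))) K := by
    rw [← IntermediateField.isAlgebraic_adjoin_iff_top, gen, Algebra.isAlgebraic_iff_isIntegral]
    exact Algebra.isIntegral_of_surjective IntermediateField.topEquiv.surjective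
  obtain ⟨t, ht, hb⟩ := exists_isTranscendenceBasis_subset (R := ℂ) (Set.range fun l => (x l : K))
  have hc := hb.cardinalMk_eq_trdeg
  rw [dim, ← Cardinal.mk_fin, Cardinal.eq] at hc
  obtain ⟨e⟩ := hc
  have hex : ∀ a : Fin n, ∃ l, (x l : K) = e.symm a := fun a => ht (e.symm a).2
  choose s hs using hex
  let c : Fin (n - 1) → Fin n := Fin.castLE (Nat.sub_le n 1)
  have hi : AlgebraicIndependent ℂ fun a => (x (s (c a)) : K) := by
    have := hb.1.comp (fun a => e.symm (c a)) (e.symm.injective.comp (Fin.castLE_injective _))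
    convert this using 1
    funext a
    exact hs _
  refine ⟨1, fun α => Valuation.one_apply_le_one α, fun a => Pi.single (s (c a)) 1, fun Q hQ => ?_⟩
  simp only [mono_single]
  rw [algebraicIndependent_iff] at hi
  exact Valuation.one_apply_of_ne_zero fun h0 => hQ (hi Q h0)

/-- If all `z l` outside a set of elements algebraic over `F` had positive order, `K` would be
algebraic over `F`. Compare `exists_unit` in the old file `NPa`. Put `z⁰ l = z l` if `p l` fails and
`0` otherwise, `t⁰ a = aeval z⁰ (T a)`; by `val_aeval_sub_lt_one` (twice) and `hT` the `t⁰ a` are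
algebraically independent over `ℂ`. They are algebraic over `F` (`Algebra F E` through `K`; work in
`algebraicClosure F E`), so `n ≤ trdeg ℂ F`, and `trdeg ℂ F + trdeg F K = n` (`trdeg_add_eq`)
forces `trdeg F K = 0` (`trdeg_eq_zero_iff`). -/
theorem exists_unit {K E V A : Type} [Field K] [Algebra ℂ K] [Field E] [Algebra ℂ E] [Algebra K E]
    [IsScalarTower ℂ K E] [Fintype A] {n : ℕ} (dim : Algebra.trdeg ℂ K = n)
    (F : IntermediateField ℂ K) (nalg : ¬ Algebra.IsAlgebraic F K) (z : V → E) (p : V → Prop)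
    (hz : ∀ l, ¬ p l → ∃ N : ℕ, 0 < N ∧ ∃ y ∈ F, z l ^ N = algebraMap K E y)
    (w : Valuation E ℤᵐ⁰) (hw : ∀ a : ℂ, w (algebraMap ℂ E a) ≤ 1) (hv : ∀ l, w (z l) ≤ 1)
    (hA : Fintype.card A = n) (T : A → MvPolynomial V ℂ)
    (hT : ∀ Q : MvPolynomial A ℂ, Q ≠ 0 → w (aeval (fun a => aeval z (T a)) Q) = 1) :
    ∃ l, p l ∧ w (z l) = 1 := by
  classical
  by_contra hcon
  push Not at hcon
  let z0 : V → E := fun l => if p l then 0 else z l
  have hv0 : ∀ l, w (z0 l) ≤ 1 := fun l => by
    by_cases hp : p l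
    · simp [z0, hp]
    · simpa [z0, hp] using hv l
  have h1 : ∀ l, w (z l - z0 l) < 1 := fun l => by
    by_cases hp : p l
    · simpa [z0, hp] using lt_of_le_of_ne (hv l) (hcon l hp)
    · simp [z0, hp]
  have hi : AlgebraicIndependent ℂ fun a => aeval z0 (T a) := by
    rw [algebraicIndependent_iff]
    intro Q hQ
    by_contra hQ0
    have h2 := val_aeval_sub_lt_one w hw (fun a => val_aeval_le_one w hw hv (T a))
      (fun a => val_aeval_le_one w hw hv0 (T a))
      (fun a => val_aeval_sub_lt_one w hw hv hv0 h1 (T a)) Q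
    rw [hQ, sub_zero, hT Q hQ0] at h2
    exact lt_irrefl _ h2
  have hle : Algebra.trdeg ℂ F + Algebra.trdeg F K = n := by rw [trdeg_add_eq ℂ F (A := K), dim]
  have hz0 : ∀ l, IsAlgebraic F (z0 l) := fun l => by
    by_cases hp : p l
    · simpa [z0, hp] using isAlgebraic_zero
    · obtain ⟨N, hN, y, hy, hzy⟩ := hz l hp
      have : z0 l = z l := by simp [z0, hp]
      rw [this]
      refine IsAlgebraic.of_pow hN ?_
      rw [hzy]
      exact isAlgebraic_algebraMap (⟨y, hy⟩ : F)
  have ht0 : ∀ P : MvPolynomial V ℂ, IsAlgebraic F (aeval z0 P) := fun P => by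
    induction P using MvPolynomial.induction_on with
    | C c =>
      rw [aeval_C, IsScalarTower.algebraMap_apply ℂ F E]
      exact isAlgebraic_algebraMap _
    | add P Q hP hQ => rw [map_add]; exact hP.add hQ
    | mul_X P l hP => rw [map_mul, aeval_X]; exact hP.mul (hz0 l)
  have h3 := Trp_le_trdeg (F := F) _ hi fun a => ht0 (T a)
  rw [Cardinal.mk_fintype, hA, ← hle] at h3
  have h4 : Algebra.trdeg ℂ F < Cardinal.aleph0 :=
    lt_of_le_of_lt (le_self_add.trans hle.le) (Cardinal.natCast_lt_aleph0)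
  have h5 : Algebra.trdeg F K = 0 := by
    have h6 : Algebra.trdeg F K + Algebra.trdeg ℂ F ≤ 0 + Algebra.trdeg ℂ F := by
      rwa [zero_add, add_comm]
    exact le_antisymm ((Cardinal.add_le_add_iff_of_lt_aleph0 h4).1 h6) zero_le
  exact nalg (trdeg_eq_zero_iff.1 h5)

end Pool.Agent.Lib.MP_bc213e_ag.TCI
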