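import Pool.Agent.Lib.MP_bc213e_ag.TCI.WStep

/-! Theorem W: the residue form of a generically reduced component of a system with the expected
number of equations has no zeros on the normalisation, in the form of a Hartogs statement. -/

namespace Pool.Agent.Lib.MP_bc213e_ag.TCI

open WithZero Matrix

/-- Noether normalisation. Sketch: `exists_integral_inj_algHom_of_fg ℂ A₀` for
`A₀ = Algebra.adjoin ℂ (range v)` (finite type: `Algebra.FiniteType.adjoin_of_finite` or
`Subalgebra.fg_adjoin_of_finite`) gives `g : MvPolynomial (Fin s) ℂ →ₐ A₀` injective and integral.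
`t₀ a = g (X a)` is algebraically independent (`algebraicIndependent_iff_injective_aeval`), the
`v l` are integral over `Algebra.adjoin ℂ (range t₀)` (the range of `g`), so `E` is algebraic over it
and `t₀` is a transcendence basis (`AlgebraicIndependent.isTranscendenceBasis_iff_isAlgebraic`;
`E` is generated by algebraic elements, or use `IsFractionRing A₀ E`). So `s = card A`
(`trdeg_eq_card`); reindex by an equivalence `A ≃ Fin s`. `T a` exists since elements of `A₀` are
values of polynomials (`Algebra.adjoin_range_eq_range_aeval`). -/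
theorem exists_noether {E A V : Type} [Field E] [Algebra ℂ E] [Fintype A] [Fintype V] (v : V → E)
    (gen : IntermediateField.adjoin ℂ (Set.range v) = ⊤)
    (dim : Algebra.trdeg ℂ E = Fintype.card A) :
    ∃ (T : A → MvPolynomial V ℂ) (t : A → E), (∀ a, MvPolynomial.aeval v (T a) = t a) ∧
      IsTranscendenceBasis ℂ t ∧ ∀ l, IsIntegral (Algebra.adjoin ℂ (Set.range t)) (v l) := by
  have : Algebra.FiniteType ℂ (Algebra.adjoin ℂ (Set.range v)) :=
    Algebra.FiniteType.adjoin_of_finite (Set.finite_range v)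
  obtain ⟨s, g, ginj, gint⟩ :=
    exists_integral_inj_algHom_of_fg ℂ (Algebra.adjoin ℂ (Set.range v))
  obtain ⟨t0, ht0⟩ : ∃ t0 : Fin s → E, t0 = fun a => (g (MvPolynomial.X a) : E) := ⟨_, rfl⟩
  have hG : (Algebra.adjoin ℂ (Set.range v)).val.comp g = MvPolynomial.aeval t0 := by
    refine MvPolynomial.algHom_ext fun a => ?_
    rw [MvPolynomial.aeval_X, ht0]
    rfl
  have hind : AlgebraicIndependent ℂ t0 := by
    rw [algebraicIndependent_iff_injective_aeval, ← hG]
    exact Subtype.val_injective.comp ginj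
  have hmem : ∀ q : MvPolynomial (Fin s) ℂ,
      MvPolynomial.aeval t0 q ∈ Algebra.adjoin ℂ (Set.range t0) := fun q => by
    rw [Algebra.adjoin_range_eq_range_aeval]
    exact ⟨q, rfl⟩
  have hint : ∀ x ∈ Algebra.adjoin ℂ (Set.range v),
      IsIntegral (Algebra.adjoin ℂ (Set.range t0)) x := by
    intro x hx
    obtain ⟨p, hp, hpx⟩ := gint ⟨x, hx⟩
    refine ⟨p.map ((MvPolynomial.aeval t0).codRestrict _ hmem).toRingHom, hp.map _, ?_⟩
    rw [Polynomial.eval₂_map]
    have h1 := Polynomial.hom_eval₂ p g.toRingHom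
      (Algebra.adjoin ℂ (Set.range v)).val.toRingHom ⟨x, hx⟩
    have h2 : (Algebra.adjoin ℂ (Set.range v)).val.toRingHom.comp g.toRingHom =
        (algebraMap (Algebra.adjoin ℂ (Set.range t0)) E).comp
          ((MvPolynomial.aeval t0).codRestrict _ hmem).toRingHom := by
      refine RingHom.ext fun q => ?_
      exact DFunLike.congr_fun hG q
    rw [h2] at h1
    refine h1.symm.trans ?_
    have h3 : Polynomial.eval₂ g.toRingHom ⟨x, hx⟩ p = 0 := hpx
    rw [h3, map_zero]
  have hb : IsTranscendenceBasis ℂ t0 := by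
    refine hind.isTranscendenceBasis_iff_isAlgebraic.2 ⟨fun y => ?_⟩
    have hy : y ∈ IntermediateField.adjoin ℂ (Set.range v) := by
      rw [gen]
      exact IntermediateField.mem_top
    obtain ⟨r, hr, u, hu, rfl⟩ := IntermediateField.mem_adjoin_iff_div.1 hy
    rw [div_eq_mul_inv]
    exact (hint r hr).isAlgebraic.mul (hint u hu).isAlgebraic.inv
  have hcard : Fintype.card A = Fintype.card (Fin s) := by
    have h1 := trdeg_eq_card t0 hb
    rw [dim] at h1
    exact_mod_cast h1
  let e : A ≃ Fin s := Fintype.equivOfCardEq hcard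
  have hT : ∀ a : A, ∃ T : MvPolynomial V ℂ, MvPolynomial.aeval v T = t0 (e a) := by
    intro a
    have h1 : t0 (e a) ∈ Algebra.adjoin ℂ (Set.range v) := by
      rw [ht0]
      exact (g (MvPolynomial.X (e a))).2
    rw [Algebra.adjoin_range_eq_range_aeval] at h1
    exact h1
  choose T hT using hT
  refine ⟨T, t0 ∘ e, hT, (isTranscendenceBasis_equiv e).2 hb, fun l => ?_⟩
  rw [e.surjective.range_comp]
  exact hint _ (Algebra.subset_adjoin ⟨l, rfl⟩)

/-- Sketch: with `exists_noether`, `w_step` and `mem_adjoin_of_forall_sub` all coefficients of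
`minpoly K₀ Φ` (monic, `Φ` is algebraic over `K₀ = adjoin ℂ (range t)` by
`IsTranscendenceBasis.isAlgebraic_field`) lie in `Algebra.adjoin ℂ (range t)`, which is contained
in `Algebra.adjoin ℂ (range v)`. Lift the polynomial (`Polynomial.toSubring`, or
`Polynomial.lifts_and_degree_eq_and_monic` for the image in `E[X]`). -/
theorem thmW {E A B V : Type} [Field E] [Algebra ℂ E] [Fintype A] [DecidableEq A] [Fintype B]
    [DecidableEq B] [Fintype V] [DecidableEq V] (e : A ⊕ B ≃ V) (v : V → E)
    (gen : IntermediateField.adjoin ℂ (Set.range v) = ⊤)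
    (dim : Algebra.trdeg ℂ E = Fintype.card A)
    (G : B → MvPolynomial V ℂ) (hG : ∀ i, MvPolynomial.aeval v (G i) = 0)
    (δ : A → Derivation ℂ E E) (ϖ : E)
    (hϖ : ∀ H : Matrix A V E,
      (H * (Matrix.of fun a l => δ a (v l))ᵀ).det = ϖ * det2 e H (jac G v))
    (Φ : E) (hΦ : ∀ w, GoodVal v δ ϖ w → w Φ ≤ 1) :
    IsIntegral (Algebra.adjoin ℂ (Set.range v)) Φ := by
  obtain ⟨T, t, hT, ht, hint⟩ := exists_noether (A := A) v gen dim
  have halg : IsIntegral (IntermediateField.adjoin ℂ (Set.range t)) Φ :=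
    (ht.isAlgebraic_field.isAlgebraic Φ).isIntegral
  have hle : Algebra.adjoin ℂ (Set.range t) ≤ Algebra.adjoin ℂ (Set.range v) := by
    refine Algebra.adjoin_le ?_
    rintro _ ⟨a, rfl⟩
    rw [SetLike.mem_coe, Algebra.adjoin_range_eq_range_aeval]
    exact ⟨T a, hT a⟩
  have hl : (minpoly (IntermediateField.adjoin ℂ (Set.range t)) Φ).map
      (algebraMap (IntermediateField.adjoin ℂ (Set.range t)) E) ∈
      Polynomial.lifts (algebraMap (Algebra.adjoin ℂ (Set.range v)) E) := by
    rw [Polynomial.lifts_iff_coeff_lifts]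
    intro m
    rw [Polynomial.coeff_map]
    refine ⟨⟨_, hle (mem_adjoin_of_forall_sub ht.1
      ((minpoly (IntermediateField.adjoin ℂ (Set.range t)) Φ).coeff m).2 fun i => ?_)⟩, rfl⟩
    exact w_step e v gen T t hT ht hint G hG δ ϖ hϖ Φ hΦ i m
  obtain ⟨q, hq, -, hqm⟩ := Polynomial.lifts_and_degree_eq_and_monic hl
    ((minpoly.monic halg).map _)
  refine ⟨q, hqm, ?_⟩
  rw [← Polynomial.eval_map, hq, Polynomial.eval_map_algebraMap]
  exact minpoly.aeval _ _

end Pool.Agent.Lib.MP_bc213e_ag.TCI
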