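import Pool.Agent.Lib.MP_bc213e_ag.TCI.Tan

/-! Auxiliary definitions for the abundance theorem (not part of the final statement). -/

namespace Pool.Agent.Lib.MP_bc213e_ag.TCI

open WithZero

/-- The additive valuation (junk value `0` at `0`). -/
noncomputable def ord {E : Type} [Field E] (w : Valuation E ℤᵐ⁰) (α : E) : ℚ :=
  ((-log (w α) : ℤ) : ℚ)

/-- `α` vanishes to order at least `s`. -/
def OrdGe {E : Type} [Field E] (w : Valuation E ℤᵐ⁰) (α : E) (s : ℚ) : Prop :=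
  α ≠ 0 → s ≤ ord w α

section lattice

variable {S R : Type} [Fintype S]

/-- The functional `v` is nonzero on `Λ`. -/
def Surv (Λ : Submodule ℤ (S → ℤ)) (v : S → ℤ) : Prop := ∃ u ∈ Λ, u ⬝ᵥ v ≠ 0

/-- `m / r` is a feasible point of the linear program with right hand sides `γ`. -/
structure FeasAt (Λ : Submodule ℤ (S → ℤ)) (ray : R → S → ℤ) (γ : R → ℚ) (r : ℕ) (m : S → ℤ) :
    Prop where
  pos : 0 < r
  mem : m ∈ Λ
  le : ∀ ρ, Surv Λ (ray ρ) → r * γ ρ ≤ (m ⬝ᵥ ray ρ : ℤ)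

/-- The rays span positively. -/
def PosSpan [Fintype R] (ray : R → S → ℤ) : Prop :=
  ∀ v : S → ℤ, ∃ N : ℕ, 0 < N ∧ ∃ ν : R → ℕ, N • v = ∑ ρ, ν ρ • ray ρ

/-- The functionals `nn j` are independent on `Λ`. -/
def Indep {J : Type} [Fintype J] (Λ : Submodule ℤ (S → ℤ)) (nn : J → S → ℤ) : Prop :=
  ∀ β : J → ℚ, (∀ u ∈ Λ, ∑ j, β j * ((u ⬝ᵥ nn j : ℤ) : ℚ) = 0) → β = 0

/-- The functionals `nn l` are a rational basis of the dual of `Λ`. -/
structure IsBas {V : Type} [Fintype V] (Λ : Submodule ℤ (S → ℤ)) (nn : V → S → ℤ) : Prop where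
  card : Fintype.card V = Module.finrank ℤ Λ
  inj : ∀ u ∈ Λ, (∀ l, u ⬝ᵥ nn l = 0) → u = 0

open Classical in
/-- Push forward of weights. -/
noncomputable def push {X : Type} [Fintype X] (r : X → R) (μ : X → ℚ) : R → ℚ :=
  fun ρ => ∑ l with r l = ρ, μ l

theorem push_dot [Fintype R] {X : Type} [Fintype X] (r : X → R) (μ : X → ℚ) (F : R → ℚ) :
    push r μ ⬝ᵥ F = ∑ l, μ l * F (r l) := by
  classical
  simp only [dotProduct, push, Finset.sum_mul]
  rw [← Finset.sum_fiberwise (s := Finset.univ) (g := r)]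
  refine Finset.sum_congr rfl fun ρ _ => Finset.sum_congr (by congr) fun l hl => ?_
  rw [(Finset.mem_filter.1 hl).2]

theorem push_nonneg {X : Type} [Fintype X] (r : X → R) {μ : X → ℚ} (h : ∀ l, 0 ≤ μ l) (ρ : R) :
    0 ≤ push r μ ρ := Finset.sum_nonneg fun l _ => h l

@[simp] theorem push_zero {X : Type} [Fintype X] (r : X → R) : push r 0 = 0 := by
  funext ρ
  simp [push]

/-- Span of the characters with pairing at least `h ρ` against all nonzero rays of `C`. -/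
def lq {K : Type} [Field K] [Algebra ℂ K] (ray : R → S → ℤ) (C : Set R) (x : S → Kˣ) (h : R → ℚ) :
    Submodule ℂ K :=
  Submodule.span ℂ (mono x '' {m | ∀ ρ ∈ C, ray ρ ≠ 0 → h ρ ≤ (m ⬝ᵥ ray ρ : ℤ)})

end lattice

namespace Data

variable {n k : ℕ} {R ι K : Type} [Fintype R] [Field K] [Algebra ℂ K] (D : Data n k R ι K)

/-- `gam` as a rational vector. -/
def gq (I : Finset (Fin k)) : R → ℚ := fun ρ => D.gam I ρ

/-- Pairings of a character with the rays. -/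
def pq (u : Fin n ⊕ Fin k → ℤ) : R → ℚ := fun ρ => (u ⬝ᵥ D.ray ρ : ℤ)

/-- The normalised logarithmic derivative of `f i` along a ray. -/
noncomputable def ng (i : Fin k) (ρ : R) : K :=
  (logGrad D.x (D.f i) ⬝ᵥ fun l => (D.ray ρ l : K)) / mono D.x (D.base i)

/-- The determinant in the definition of the residue form. -/
noncomputable def d0 (μ : Fin n → Fin n ⊕ Fin k → ℤ) : K :=
  (Matrix.fromRows (Matrix.of fun a l => (μ a l : K))
    (Matrix.of fun i => logGrad D.x (D.f i))).det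

/-- `J` is the logarithmic Jacobian of the equations in `I` relative to `Λ`. -/
def IsJac (Λ : Submodule ℤ (Fin n ⊕ Fin k → ℤ)) (I : Finset (Fin k)) (J : K) : Prop :=
  ∃ (β : Fin (Module.finrank ℤ Λ) → Fin n ⊕ Fin k → ℤ)
    (e : Fin (Module.finrank ℤ Λ) ⊕ I ≃ Fin n ⊕ Fin k), (∀ a, β a ∈ Λ) ∧
    (∀ u ∈ Λ, ∃ t : Fin (Module.finrank ℤ Λ) → ℤ, u = ∑ a, t a • β a) ∧
    J = det2 e (Matrix.of fun a l => (β a l : K)) (Matrix.of fun i : I => logGrad D.x (D.f i))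

/-- A choice of the logarithmic Jacobian. -/
noncomputable def jacI (Λ : Submodule ℤ (Fin n ⊕ Fin k → ℤ)) (I : Finset (Fin k)) : K :=
  Classical.epsilon (D.IsJac Λ I)

/-- The quotient of the residue forms of the reduced and of the original system. -/
noncomputable def phi (Λ : Submodule ℤ (Fin n ⊕ Fin k → ℤ)) (I : Finset (Fin k)) : K :=
  D.jacI Λ I * mono D.x (∑ i ∈ Iᶜ, D.base i)

/-- On `Λ`, the weight of `w` is the nonnegative combination `μ` of the rays. -/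
structure Dec (Λ : Submodule ℤ (Fin n ⊕ Fin k → ℤ)) (w : Valuation K ℤᵐ⁰) (μ : R → ℚ) : Prop where
  base : ∀ c : ℂ, w (algebraMap ℂ K c) ≤ 1
  nonneg : ∀ ρ, 0 ≤ μ ρ
  eq : ∀ u ∈ Λ, ord w (mono D.x u) = μ ⬝ᵥ D.pq u

/-- The valuations that test integrality on a model. -/
structure Nice (Λ : Submodule ℤ (Fin n ⊕ Fin k → ℤ)) (I : Finset (Fin k)) (w : Valuation K ℤᵐ⁰)
    (μ : R → ℚ) : Prop where
  dec : D.Dec Λ w μ
  trop : Trop (n - 1) D.x w
  win : ∀ r u, IsResidue D.x D.f r u → (∀ a, w (u a) ≤ 1) →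
    r ≠ 0 ∧ ord w r ≤ -(μ ⬝ᵥ D.gq I) - ord w (D.phi Λ I)
  unit : (∀ l, w (D.x l) = 1) → μ = 0

open Classical in
/-- The invariant of the induction, for the class `lam (K_P + ∑ D_i) + B`: the multiplier is
`H ^ (1 / e)`, the linear program has right hand sides `γ`. -/
structure Inv (Λ : Submodule ℤ (Fin n ⊕ Fin k → ℤ)) (I : Finset (Fin k)) (lam : ℚ) (e : ℕ) (H : K)
    (γ : R → ℚ) : Prop where
  st : D.State Λ I
  epos : 0 < e
  hne : H ≠ 0
  lam0 : 0 ≤ lam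
  lev : ∀ σ, H ∈ lq D.ray (D.cone σ) D.x fun ρ =>
    e * (-(lam * D.kappa ρ + D.b ρ) - if Surv Λ (D.ray ρ) then γ ρ else 0)
  ig : ∀ w μ, D.Dec Λ w μ → μ ⬝ᵥ γ - lam * (μ ⬝ᵥ D.gq I) ≤
    ord w (lval D.x D.g) - ord w H / e + lam * ord w (D.phi Λ I)
  it : ∀ w : Valuation K ℤᵐ⁰, (∀ c : ℂ, w (algebraMap ℂ K c) ≤ 1) → (∀ l, w (D.x l) = 1) →
    ord w (D.phi Λ I) ≤ 0 → ord w H ≤ 0

/-- The conclusion of the theorem. -/
def Concl : Prop :=
  ∃ N : ℕ, 0 < N ∧ ∃ H : Finset K, H.Nonempty ∧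
    (∀ h ∈ H, h ≠ 0 ∧ Sec D.ray D.cone D.x D.kap N h) ∧
    ∀ (b : R → ℤ) (w : Valuation K ℤᵐ⁰), (∀ c : ℂ, w (algebraMap ℂ K c) ≤ 1) →
      ∃ h ∈ H, ∃ C : ℕ, ∀ (t M : ℕ) (φ : K), 0 < M →
        Sec D.ray D.cone D.x (fun ρ => t * D.kap ρ + b ρ) M φ →
          w φ ^ N ≤ w h ^ (t * M) * exp ((C * M : ℕ) : ℤ)

theorem posSpan : PosSpan D.ray := fun v => by
  obtain ⟨_, N, hN, ν, _, h⟩ := D.complete v
  exact ⟨N, hN, ν, h⟩

end Data

end Pool.Agent.Lib.MP_bc213e_ag.TCI
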