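import Pool.Agent.Lib.MP_bc213e_ag.TCI.Defs

/-!
Auxiliary definitions (not part of the final statement) and elementary lemmas.
-/

namespace Pool.Agent.Lib.MP_bc213e_ag.TCI

open WithZero

section mono

variable {S K : Type} [Fintype S] [Field K]

theorem mono_ne_zero (x : S → Kˣ) (u : S → ℤ) : mono x u ≠ 0 :=
  Finset.prod_ne_zero_iff.2 fun l _ => zpow_ne_zero _ (x l).ne_zero

@[simp] theorem mono_zero (x : S → Kˣ) : mono x 0 = 1 := by simp [mono]

theorem mono_add (x : S → Kˣ) (u u' : S → ℤ) : mono x (u + u') = mono x u * mono x u' := by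
  simp only [mono, Pi.add_apply, ← Finset.prod_mul_distrib]
  exact Finset.prod_congr rfl fun l _ => zpow_add₀ (x l).ne_zero _ _

theorem mono_neg (x : S → Kˣ) (u : S → ℤ) : mono x (-u) = (mono x u)⁻¹ := by
  simp only [mono, Pi.neg_apply, zpow_neg, Finset.prod_inv_distrib]

theorem mono_sub (x : S → Kˣ) (u u' : S → ℤ) : mono x (u - u') = mono x u / mono x u' := by
  rw [sub_eq_add_neg, mono_add, mono_neg, div_eq_mul_inv]

theorem mono_zsmul (x : S → Kˣ) (N : ℤ) (u : S → ℤ) : mono x (N • u) = mono x u ^ N := by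
  simp only [mono, Pi.smul_apply, smul_eq_mul, ← Finset.prod_zpow, ← zpow_mul, mul_comm N]

theorem mono_nsmul (x : S → Kˣ) (N : ℕ) (u : S → ℤ) : mono x (N • u) = mono x u ^ N := by
  rw [← natCast_zsmul, mono_zsmul, zpow_natCast]

theorem mono_sum {α : Type*} (x : S → Kˣ) (s : Finset α) (u : α → S → ℤ) :
    mono x (∑ a ∈ s, u a) = ∏ a ∈ s, mono x (u a) := by
  classical
  induction s using Finset.induction_on with
  | empty => simp
  | insert a s ha ih => rw [Finset.sum_insert ha, Finset.prod_insert ha, mono_add, ih]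

theorem mono_single [DecidableEq S] (x : S → Kˣ) (l : S) : mono x (Pi.single l 1) = x l := by
  rw [mono, Finset.prod_eq_single l] <;> simp +contextual

theorem map_mono {E : Type} [Field E] (φ : K →+* E) (x : S → Kˣ) (u : S → ℤ) :
    φ (mono x u) = mono (fun l => Units.map (φ : K →* E) (x l)) u := by
  simp [mono, map_prod, map_zpow₀]

theorem mono_natCast (x : S → Kˣ) (u : S → ℕ) :
    mono x (fun l => (u l : ℤ)) = ∏ l, (x l : K) ^ u l := by
  simp [mono]

theorem val_mono {Γ : Type} [LinearOrderedCommGroupWithZero Γ] (w : Valuation K Γ)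
    (x : S → Kˣ) (u : S → ℤ) : w (mono x u) = ∏ l, w (x l) ^ u l := by
  simp [mono, map_prod, map_zpow₀]

end mono

section val

variable {E Γ : Type} [Field E] [LinearOrderedCommGroupWithZero Γ]

/-- An element integral over a subalgebra of the valuation ring lies in the valuation ring. -/
theorem val_le_one_of_isIntegral {F : Type} [CommRing F] [Algebra F E] (w : Valuation E Γ)
    (A : Subalgebra F E) (hA : ∀ α ∈ A, w α ≤ 1) {Φ : E} (h : IsIntegral A Φ) : w Φ ≤ 1 := by
  let φ : A →+* w.integer := (A.val : A →+* E).codRestrict w.integer fun a => hA a a.2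
  have : IsIntegral w.integer Φ := by
    obtain ⟨p, hp, h0⟩ := h
    refine ⟨p.map φ, hp.map _, ?_⟩
    rw [Polynomial.eval₂_map]
    exact h0
  exact (Valuation.integer.integers w).mem_of_integral this

theorem val_le_one_of_mem_adjoin {F : Type} [CommRing F] [Algebra F E] (w : Valuation E Γ)
    (hF : ∀ c : F, w (algebraMap F E c) ≤ 1) {T : Set E} (hT : ∀ t ∈ T, w t ≤ 1) {α : E}
    (h : α ∈ Algebra.adjoin F T) : w α ≤ 1 := by
  induction h using Algebra.adjoin_induction with
  | mem t ht => exact hT t ht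
  | algebraMap c => exact hF c
  | add a b _ _ ha hb => exact (w.map_add a b).trans (max_le ha hb)
  | mul a b _ _ ha hb => rw [map_mul]; exact mul_le_one' ha hb

theorem val_aeval_le_one {F V : Type} [CommRing F] [Algebra F E] (w : Valuation E Γ)
    (hF : ∀ c : F, w (algebraMap F E c) ≤ 1) {v : V → E} (hv : ∀ l, w (v l) ≤ 1)
    (P : MvPolynomial V F) : w (MvPolynomial.aeval v P) ≤ 1 := by
  induction P using MvPolynomial.induction_on with
  | C c => simpa using hF c
  | add P Q hP hQ => rw [map_add]; exact (w.map_add _ _).trans (max_le hP hQ)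
  | mul_X P l hP => rw [map_mul, map_mul, MvPolynomial.aeval_X]; exact mul_le_one' hP (hv l)

/-- Congruent points of the valuation ring have congruent values. -/
theorem val_aeval_sub_lt_one {F V : Type} [CommRing F] [Algebra F E] (w : Valuation E Γ)
    (hF : ∀ c : F, w (algebraMap F E c) ≤ 1) {v v' : V → E} (hv : ∀ l, w (v l) ≤ 1)
    (hv' : ∀ l, w (v' l) ≤ 1) (h : ∀ l, w (v l - v' l) < 1) (P : MvPolynomial V F) :
    w (MvPolynomial.aeval v P - MvPolynomial.aeval v' P) < 1 := by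
  induction P using MvPolynomial.induction_on with
  | C c => simp
  | add P Q hP hQ =>
    rw [map_add, map_add, add_sub_add_comm]
    exact (w.map_add _ _).trans_lt (max_lt hP hQ)
  | mul_X P l hP =>
    have : MvPolynomial.aeval v (P * MvPolynomial.X l) - MvPolynomial.aeval v' (P * MvPolynomial.X l)
        = (MvPolynomial.aeval v P - MvPolynomial.aeval v' P) * v l +
          MvPolynomial.aeval v' P * (v l - v' l) := by
      simp only [map_mul, MvPolynomial.aeval_X]; ring
    rw [this]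
    refine (w.map_add _ _).trans_lt (max_lt ?_ ?_)
    · rw [map_mul]; exact mul_lt_one_of_lt_of_le hP (hv l)
    · rw [map_mul]; rw [mul_comm]; exact mul_lt_one_of_lt_of_le (h l) (val_aeval_le_one w hF hv' P)

/-- A valuation that is at most one on a subfield is trivial on it. -/
theorem val_eq_one_of_field {F : Type} [Field F] [Algebra F E] (w : Valuation E Γ)
    (hF : ∀ c : F, w (algebraMap F E c) ≤ 1) {c : F} (hc : c ≠ 0) : w (algebraMap F E c) = 1 := by
  refine le_antisymm (hF c) ?_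
  have h1 : w (algebraMap F E c) * w (algebraMap F E c⁻¹) = 1 := by
    rw [← map_mul, ← map_mul, mul_inv_cancel₀ hc, map_one, map_one]
  calc (1 : Γ) = w (algebraMap F E c) * w (algebraMap F E c⁻¹) := h1.symm
    _ ≤ w (algebraMap F E c) * 1 := mul_le_mul_right (hF _) _
    _ = _ := mul_one _

end val

/-- Determinant of the square matrix obtained by stacking `H` on `g`. -/
def det2 {A B V F : Type} [Fintype A] [Fintype B] [DecidableEq A] [DecidableEq B] [CommRing F]
    (e : A ⊕ B ≃ V) (H : Matrix A V F) (g : Matrix B V F) : F :=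
  ((Matrix.fromRows H g).submatrix id e).det

/-- The Jacobian matrix of polynomials at a point. -/
noncomputable def jac {B V E : Type} [CommRing E] [Algebra ℂ E] (G : B → MvPolynomial V ℂ)
    (v : V → E) : Matrix B V E :=
  Matrix.of fun i l => MvPolynomial.aeval v (MvPolynomial.pderiv l (G i))

/-- The sublattice of `Λ` orthogonal to the vectors `nn j`. -/
def perp {S J : Type} [Fintype S] (Λ : Submodule ℤ (S → ℤ)) (nn : J → S → ℤ) :
    Submodule ℤ (S → ℤ) where
  carrier := {u | u ∈ Λ ∧ ∀ j, u ⬝ᵥ nn j = 0}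
  add_mem' := fun ha hb => ⟨Λ.add_mem ha.1 hb.1, fun j => by
    rw [add_dotProduct, ha.2 j, hb.2 j, add_zero]⟩
  zero_mem' := ⟨Λ.zero_mem, fun j => zero_dotProduct _⟩
  smul_mem' := fun c u hu => ⟨Λ.smul_mem c hu.1, fun j => by
    rw [smul_dotProduct, hu.2 j, smul_zero]⟩

theorem mem_perp {S J : Type} [Fintype S] {Λ : Submodule ℤ (S → ℤ)} {nn : J → S → ℤ}
    {u : S → ℤ} : u ∈ perp Λ nn ↔ u ∈ Λ ∧ ∀ j, u ⬝ᵥ nn j = 0 := Iff.rfl

/-- The functionals `nn j` on `Λ` form a positive circuit with primitive relation `c`. -/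
structure Circuit {S : Type} [Fintype S] {ℓ : ℕ} (Λ : Submodule ℤ (S → ℤ))
    (nn : Fin (ℓ + 1) → S → ℤ) (c : Fin (ℓ + 1) → ℕ) : Prop where
  pos : ∀ j, 0 < c j
  rel : ∀ u ∈ Λ, ∑ j, (c j : ℤ) * (u ⬝ᵥ nn j) = 0
  gcd : Finset.univ.gcd c = 1
  uniq : ∀ β : Fin (ℓ + 1) → ℚ, (∀ u ∈ Λ, ∑ j, β j * ((u ⬝ᵥ nn j : ℤ) : ℚ) = 0) →
    ∃ s : ℚ, ∀ j, β j = s * c j

/-- All data and hypotheses of the theorem except pseudo-effectivity, together with
a chosen exponent `base i` of each equation and the independence of the gradients. -/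
structure Data (n k : ℕ) (R ι K : Type) [Fintype R] [Field K] [Algebra ℂ K] where
  ray : R → Fin n ⊕ Fin k → ℤ
  cone : ι → Set R
  a : Fin k → R → ℤ
  f : Fin k → (Fin n ⊕ Fin k → ℤ) →₀ ℂ
  x : Fin n ⊕ Fin k → Kˣ
  base : Fin k → Fin n ⊕ Fin k → ℤ
  b : R → ℤ
  g : (Fin n ⊕ Fin k → ℤ) →₀ ℂ
  q : ℕ
  complete : ∀ v : Fin n ⊕ Fin k → ℤ, ∃ σ, ∃ N : ℕ, 0 < N ∧ ∃ ν : R → ℕ,
    (∀ ρ, ρ ∉ cone σ → ν ρ = 0) ∧ N • v = ∑ ρ, ν ρ • ray ρ
  cartier : ∀ i σ, ∃ N : ℕ, 0 < N ∧ ∃ m, LocEq ray (cone σ) (a i) N m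
  hf : ∀ i, ∀ u ∈ (f i).support, ∀ ρ, 0 ≤ u ⬝ᵥ ray ρ + a i ρ
  gen : IntermediateField.adjoin ℂ (Set.range fun l => (x l : K)) = ⊤
  dim : Algebra.trdeg ℂ K = n
  van : ∀ i, lval x (f i) = 0
  hg : ∀ u ∈ g.support, ∀ ρ, 0 ≤ u ⬝ᵥ ray ρ + b ρ
  gne : lval x g ≠ 0
  can : Can ray cone x f (lval x g) q fun ρ => q * (∑ i, a i ρ - 1) + b ρ
  indep : LinearIndependent K fun i => logGrad x (f i)
  hbase : ∀ i, base i ∈ (f i).support

namespace Data

variable {n k : ℕ} {R ι K : Type} [Fintype R] [Field K] [Algebra ℂ K] (D : Data n k R ι K)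

/-- The divisor `K_P + ∑ D_i`. -/
def kappa : R → ℤ := fun ρ => ∑ i, D.a i ρ - 1

/-- The divisor `q (K_P + ∑ D_i) + B`. -/
def kap : R → ℤ := fun ρ => D.q * (∑ i, D.a i ρ - 1) + D.b ρ

/-- Right hand sides of the linear program attached to the set `I` of eliminated equations. -/
def gam (I : Finset (Fin k)) : R → ℤ := fun ρ => 1 - ∑ i ∈ Iᶜ, (D.a i ρ + D.base i ⬝ᵥ D.ray ρ)

/-- The subfield generated by the characters in `Λ`. -/
noncomputable def fld (Λ : Submodule ℤ (Fin n ⊕ Fin k → ℤ)) : IntermediateField ℂ K :=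
  IntermediateField.adjoin ℂ (mono D.x '' (Λ : Set (Fin n ⊕ Fin k → ℤ)))

/-- Induction state: the characters in `Λ` generate `K`, the equations in `I` are eliminated and
the others only involve characters of `Λ` (up to a monomial factor). -/
structure State (Λ : Submodule ℤ (Fin n ⊕ Fin k → ℤ)) (I : Finset (Fin k)) : Prop where
  rank : Module.finrank ℤ Λ + I.card = n + k
  gen : D.fld Λ = ⊤
  diff : ∀ i, i ∉ I → ∀ u ∈ (D.f i).support, u - D.base i ∈ Λ

end Data

/-- The function field `E` of the cone given by a relation `c` between the functionals `nn l`, with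
Cox coordinates `z`, and the valuation `w0` of the scaling parameter. -/
structure Cone {S K V : Type} [Fintype S] [Field K] [Fintype V] (x : S → Kˣ)
    (Λ : Submodule ℤ (S → ℤ)) (nn : V → S → ℤ) (c : V → ℕ)
    (E : Type) [Field E] [Algebra K E] where
  z : V → Eˣ
  w0 : Valuation E ℤᵐ⁰
  gen : IntermediateField.adjoin K (Set.range fun j => (z j : E)) = ⊤
  split : ∀ u ∈ Λ, ∃ u' ∈ perp Λ nn,
    algebraMap K E (mono x u) = algebraMap K E (mono x u') * mono z (fun j => u ⬝ᵥ nn j)
  w0_base : ∀ α : K, w0 (algebraMap K E α) ≤ 1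
  w0_z : ∀ j, w0 (z j) = exp (-(c j : ℤ))
  dim : Algebra.trdeg K E ≤ 1

end Pool.Agent.Lib.MP_bc213e_ag.TCI
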