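import Pool.Agent.Lib.MP_bc213e_ag.TCI.LA

/-! Bezoutians. -/

namespace Pool.Agent.Lib.MP_bc213e_ag.TCI

open MvPolynomial

variable {J F : Type} [Fintype J] [DecidableEq J] [CommRing F]

/-- The substitution `Z ↦ p`, `Z' ↦ q ν^c` into polynomials in `ν`. -/
noncomputable def evNu (c : J → ℕ) (p q : J → F) : MvPolynomial (J ⊕ J) F →ₐ[F] Polynomial F :=
  aeval (Sum.elim (fun j => Polynomial.C (p j))
    fun j => Polynomial.C (q j) * Polynomial.X ^ c j)

theorem Bez_mono (c : J → ℕ) (a : F) (n : ℕ) : ∀ m : J →₀ ℕ, ∑ j, m j = n →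
    (∀ p q, (evNu c p q (rename Sum.inr (monomial m a))).natDegree ≤ ∑ j, c j * m j) ∧
    ∃ B : J → MvPolynomial (J ⊕ J) F,
      rename Sum.inl (monomial m a) - rename Sum.inr (monomial m a)
        = ∑ j, B j * (X (Sum.inl j) - X (Sum.inr j)) ∧
      ∀ j p q, (evNu c p q (B j) * Polynomial.X ^ c j).natDegree ≤ ∑ j, c j * m j := by
  induction n with
  | zero =>
    intro m hm
    have h0 : m = 0 := by
      ext j
      exact (Finset.sum_eq_zero_iff.1 hm) j (Finset.mem_univ j)
    subst h0
    refine ⟨fun p q => ?_, 0, ?_, fun j p q => ?_⟩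
    · simp [evNu]
    · simp
    · simp
  | succ n ih =>
    intro m hm
    obtain ⟨i, -, hi⟩ := Finset.exists_ne_zero_of_sum_ne_zero
      (show ∑ j, m j ≠ 0 by rw [hm]; exact Nat.succ_ne_zero n)
    obtain ⟨m', rfl⟩ : ∃ m', m = Finsupp.single i 1 + m' :=
      ⟨m - Finsupp.single i 1, (add_tsub_cancel_of_le
        (Finsupp.single_le_iff.2 (Nat.one_le_iff_ne_zero.2 hi))).symm⟩
    have e1 : ∑ j, (Finsupp.single i 1 + m' : J →₀ ℕ) j = 1 + ∑ j, m' j := by
      simp [Finset.sum_add_distrib, Finsupp.single_apply]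
    have e2 : ∑ j, c j * (Finsupp.single i 1 + m' : J →₀ ℕ) j = c i + ∑ j, c j * m' j := by
      simp [mul_add, Finset.sum_add_distrib, Finsupp.single_apply]
    obtain ⟨h1, B, h2, h3⟩ := ih m' (by omega)
    have e3 : (monomial (Finsupp.single i 1 + m') a : MvPolynomial J F)
        = X i * monomial m' a := by
      rw [monomial_single_add, pow_one]
    have hl : ∀ p q : J → F, evNu c p q (X (Sum.inl i)) = Polynomial.C (p i) := fun p q => by
      simp [evNu]
    have hr : ∀ p q : J → F,
        evNu c p q (X (Sum.inr i)) = Polynomial.C (q i) * Polynomial.X ^ c i := fun p q => by simp [evNu]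
    rw [e2, e3]
    refine ⟨fun p q => ?_, fun j => X (Sum.inl i) * B j +
      if j = i then rename Sum.inr (monomial m' a) else 0, ?_, fun j p q => ?_⟩
    · rw [map_mul, rename_X, map_mul, hr]
      exact Polynomial.natDegree_mul_le.trans
        (Nat.add_le_add (Polynomial.natDegree_C_mul_X_pow_le _ _) (h1 p q))
    · simp only [add_mul, Finset.sum_add_distrib, mul_assoc, ← Finset.mul_sum, ← h2, ite_mul,
        zero_mul, Finset.sum_ite_eq', Finset.mem_univ, if_true, map_mul, rename_X]
      ring
    · rw [map_add, add_mul, map_mul, hl, mul_assoc]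
      refine Polynomial.natDegree_add_le_of_degree_le
        ((Polynomial.natDegree_C_mul_le _ _).trans ((h3 j p q).trans (Nat.le_add_left _ _))) ?_
      split_ifs with h
      · subst h
        refine Polynomial.natDegree_mul_le.trans ?_
        rw [add_comm]
        exact Nat.add_le_add (Polynomial.natDegree_X_pow_le _) (h1 p q)
      · simp

/-- Divided differences with a weight bound. Sketch: the property is closed under sums (same `w`),
so write `G` as the sum of its monomials (`G.as_sum`). For a monomial use induction on the exponent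
`m = m' + single j 1` (for all `w`): with `G = X j * G'`,
`X j * G'(Z) - X' j * G'(Z') = (X j - X' j) * G'(Z') + X j * (G'(Z) - G'(Z'))`, so add
`rename inr G'` to the `j`-th entry and multiply the old entries by `X (inl j)`;
`evNu (rename inr (monomial m' a))` has degree at most `∑ c * m'` and `evNu (X (inl j))` is a
constant. -/
theorem exists_bez (c : J → ℕ) (w : ℕ) (G : MvPolynomial J F)
    (hG : ∀ m ∈ G.support, ∑ j, c j * m j ≤ w) :
    ∃ B : J → MvPolynomial (J ⊕ J) F,
      rename Sum.inl G - rename Sum.inr G = ∑ j, B j * (X (Sum.inl j) - X (Sum.inr j)) ∧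
      ∀ j p q, (evNu c p q (B j) * Polynomial.X ^ c j).natDegree ≤ w := by
  choose B hB1 hB2 using fun m : J →₀ ℕ => (Bez_mono c (coeff m G) _ m rfl).2
  refine ⟨fun j => ∑ m ∈ G.support, B m j, ?_, fun j p q => ?_⟩
  · simp only [Finset.sum_mul]
    rw [Finset.sum_comm]
    simp only [← hB1]
    rw [Finset.sum_sub_distrib, ← map_sum, ← map_sum, ← G.as_sum]
  · rw [map_sum, Finset.sum_mul]
    exact Polynomial.natDegree_sum_le_of_forall_le _ _ fun m hm => (hB2 m j p q).trans (hG m hm)

/-- On the diagonal divided differences are the derivatives. Sketch: apply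
`pderiv (Sum.inl j)` to the identity (`pderiv_rename`, and `pderiv (inl j) (rename inr G) = 0`)
and then `aeval (Sum.elim v v)`. -/
theorem bez_diag {G : MvPolynomial J F} {B : J → MvPolynomial (J ⊕ J) F}
    (h : rename Sum.inl G - rename Sum.inr G = ∑ j, B j * (X (Sum.inl j) - X (Sum.inr j)))
    {E : Type} [CommRing E] [Algebra F E] (v : J → E) (j : J) :
    aeval (Sum.elim v v) (B j) = aeval v (pderiv j G) := by
  have h0 : pderiv (Sum.inl j) (rename (Sum.inr : J → J ⊕ J) G) = 0 := by
    apply pderiv_eq_zero_of_notMem_vars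
    intro hm
    obtain ⟨i, -, hi⟩ := mem_vars_rename _ _ hm
    exact Sum.inr_ne_inl hi
  have h1 := congrArg (fun P => aeval (Sum.elim v v) (pderiv (Sum.inl j) P)) h
  simp only [map_sub, h0, pderiv_rename Sum.inl_injective, aeval_rename, Sum.elim_comp_inl,
    sub_zero, map_sum, Derivation.leibniz, smul_eq_mul, map_add, map_mul, aeval_X,
    Sum.elim_inl, Sum.elim_inr, sub_self, zero_mul, add_zero] at h1
  rw [h1, Finset.sum_eq_single j]
  · simp
  · intro i _ hi
    rw [pderiv_X_of_ne (fun e => hi (Sum.inl_injective e)), pderiv_X_of_ne Sum.inr_ne_inl]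
    simp
  · simp

theorem bez_eval {G : MvPolynomial J F} {B : J → MvPolynomial (J ⊕ J) F}
    (h : rename Sum.inl G - rename Sum.inr G = ∑ j, B j * (X (Sum.inl j) - X (Sum.inr j)))
    {E : Type} [CommRing E] [Algebra F E] (v v' : J → E) :
    aeval v G - aeval v' G = ∑ j, aeval (Sum.elim v v') (B j) * (v j - v' j) := by
  have h1 := congrArg (aeval (Sum.elim v v')) h
  simpa only [map_sub, aeval_rename, Sum.elim_comp_inl, Sum.elim_comp_inr, map_sum, map_mul,
    aeval_X, Sum.elim_inl, Sum.elim_inr] using h1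

end Pool.Agent.Lib.MP_bc213e_ag.TCI
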