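import Pool.Agent.Lib.MP_bc213e_ag.TCI.Basic

/-! The rings `ℂ(t_a : a ≠ i)[t_i]` and their intersection. -/

namespace Pool.Agent.Lib.MP_bc213e_ag.TCI

open Polynomial

variable {E A : Type} [Field E] [Algebra ℂ E]

/-- The field generated by all `t a` with `a ≠ i`. -/
noncomputable def sub (t : A → E) (i : A) : IntermediateField ℂ E :=
  IntermediateField.adjoin ℂ (Set.range fun a : {a // a ≠ i} => t a)

omit [Field E] [Algebra ℂ E] in
theorem Cap_range_eq (t : A → E) (i : A) :
    Set.range (fun a : {a // a ≠ i} => t a) = t '' {i}ᶜ := by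
  ext x
  constructor
  · rintro ⟨⟨a, ha⟩, rfl⟩
    exact ⟨a, ha, rfl⟩
  · rintro ⟨a, ha, rfl⟩
    exact ⟨⟨a, ha⟩, rfl⟩

theorem Cap_mem_sub (t : A → E) {i a : A} (h : a ≠ i) : t a ∈ sub t i :=
  IntermediateField.subset_adjoin _ _ ⟨⟨a, h⟩, rfl⟩

theorem Cap_aeval_mv (t : A → E) (i : A) (p : MvPolynomial A ℂ) :
    ∃ μ : (sub t i)[X], MvPolynomial.aeval t p = aeval (t i) μ := by
  induction p using MvPolynomial.induction_on with
  | C c =>
    refine ⟨C (algebraMap ℂ (sub t i) c), ?_⟩
    rw [MvPolynomial.aeval_C, aeval_C, ← IsScalarTower.algebraMap_apply]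
  | add p q hp hq =>
    obtain ⟨μ, hμ⟩ := hp
    obtain ⟨ν, hν⟩ := hq
    exact ⟨μ + ν, by rw [map_add, map_add, hμ, hν]⟩
  | mul_X p a hp =>
    obtain ⟨μ, hμ⟩ := hp
    by_cases ha : a = i
    · subst ha
      exact ⟨μ * X, by rw [map_mul, map_mul, hμ, MvPolynomial.aeval_X, aeval_X]⟩
    · refine ⟨μ * C ⟨t a, Cap_mem_sub t ha⟩, ?_⟩
      rw [map_mul, map_mul, hμ, MvPolynomial.aeval_X, aeval_C]
      rfl

theorem Cap_sub_le (t : A → E) (i : A) :
    sub t i ≤ IntermediateField.adjoin ℂ (Set.range t) := by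
  refine IntermediateField.adjoin.mono _ _ _ ?_
  rintro _ ⟨a, rfl⟩
  exact ⟨a, rfl⟩

/-- Sketch: `AlgebraicIndependent.transcendental_adjoin` gives transcendence over the algebra
generated by the other variables; pass to the field (`IntermediateField.transcendental_adjoin_iff`
or `IsLocalization`/`isAlgebraic_iff` lemmas; note `Set.range (fun a : {a // a ≠ i} => t a)`
is `t '' {a | a ≠ i}`). -/
theorem transcendental_sub {t : A → E} (ht : AlgebraicIndependent ℂ t) (i : A) :
    Transcendental (sub t i) (t i) := by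
  unfold sub
  rw [IntermediateField.transcendental_adjoin_iff, Cap_range_eq]
  exact ((AlgebraicIndependent.iff_transcendental_adjoin_image i).1 ht).2

/-- Sketch: `α = aeval t p / aeval t q` (`IntermediateField.mem_adjoin_range_iff`), and every
`aeval t p` is of the form `aeval (t i) μ` (induction on `p`). -/
theorem exists_div_sub (t : A → E) (i : A) {α : E}
    (hα : α ∈ IntermediateField.adjoin ℂ (Set.range t)) :
    ∃ μ ν : (sub t i)[X], α = aeval (t i) μ / aeval (t i) ν := by
  obtain ⟨p, q, rfl⟩ := (IntermediateField.mem_adjoin_range_iff ℂ t α).1 hα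
  obtain ⟨μ, hμ⟩ := Cap_aeval_mv t i p
  obtain ⟨ν, hν⟩ := Cap_aeval_mv t i q
  exact ⟨μ, ν, by rw [hμ, hν]⟩

theorem aeval_sub_mem (t : A → E) (i : A) (μ : (sub t i)[X]) :
    aeval (t i) μ ∈ IntermediateField.adjoin ℂ (Set.range t) := by
  induction μ using Polynomial.induction_on' with
  | add p q hp hq => rw [map_add]; exact add_mem hp hq
  | monomial n c =>
    rw [aeval_monomial]
    refine mul_mem (Cap_sub_le t i c.2) (pow_mem ?_ n)
    exact IntermediateField.subset_adjoin _ _ ⟨i, rfl⟩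

theorem exists_aeval_sub (t : A → E) (i : A) {α : E} (hα : α ∈ Algebra.adjoin ℂ (Set.range t)) :
    ∃ μ : (sub t i)[X], α = aeval (t i) μ := by
  rw [Algebra.adjoin_range_eq_range_aeval] at hα
  obtain ⟨p, rfl⟩ := hα
  exact Cap_aeval_mv t i p

/-- Replacing `t i` by an element transcendental over the field of the others. Sketch:
`AlgebraicIndependent.option_iff` for the family indexed by `{a // a ≠ i}` and reindex with
`Equiv.optionSubtypeNe` (`algebraicIndependent_equiv`); transcendence over the subalgebra follows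
from transcendence over the field (`Transcendental.of_tower_top` style, or directly). -/
theorem algebraicIndependent_update [DecidableEq A] {t : A → E} (ht : AlgebraicIndependent ℂ t)
    (i : A) {s : E} (hs : Transcendental (sub t i) s) :
    AlgebraicIndependent ℂ (Function.update t i s) := by
  rw [AlgebraicIndependent.iff_transcendental_adjoin_image i]
  have h1 := ((AlgebraicIndependent.iff_transcendental_adjoin_image i).1 ht).1
  have e1 : (fun j : {j // j ≠ i} => Function.update t i s j) = fun j : {j // j ≠ i} => t j := by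
    funext j
    exact Function.update_of_ne j.2 _ _
  have e2 : Function.update t i s '' {i}ᶜ = t '' {i}ᶜ := by
    rw [← Cap_range_eq, ← Cap_range_eq, e1]
  refine ⟨by rw [e1]; exact h1, ?_⟩
  rw [e2, Function.update_self, ← Cap_range_eq, ← IntermediateField.transcendental_adjoin_iff]
  exact hs

theorem Cap_degreeOf_rename (i : A) (p : MvPolynomial {a // a ≠ i} ℂ) :
    (MvPolynomial.rename Subtype.val p).degreeOf i = 0 := by
  by_contra h
  obtain ⟨a, -, ha⟩ := MvPolynomial.mem_vars_rename _ _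
    (MvPolynomial.mem_vars_iff_degreeOf_ne_zero.2 h)
  exact a.2 ha

theorem Cap_clear_coeff (t : A → E) (i : A) (c : sub t i) :
    ∃ p q : MvPolynomial A ℂ, q ≠ 0 ∧ q.degreeOf i = 0 ∧
      MvPolynomial.aeval t q * (c : E) = MvPolynomial.aeval t p := by
  obtain ⟨r, s, hrs⟩ := (IntermediateField.mem_adjoin_range_iff ℂ _ (c : E)).1 c.2
  by_cases hs : MvPolynomial.aeval (fun a : {a // a ≠ i} => t a) s = 0
  · refine ⟨0, 1, one_ne_zero, by simp, ?_⟩
    rw [hrs, hs, div_zero, mul_zero, map_zero]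
  · refine ⟨MvPolynomial.rename Subtype.val r, MvPolynomial.rename Subtype.val s, ?_,
      Cap_degreeOf_rename i s, ?_⟩
    · intro h0
      apply hs
      have := congrArg (MvPolynomial.aeval t) h0
      rwa [MvPolynomial.aeval_rename, map_zero] at this
    · rw [MvPolynomial.aeval_rename, MvPolynomial.aeval_rename, hrs]
      exact mul_div_cancel₀ _ hs

theorem Cap_clear (t : A → E) (i : A) (μ : (sub t i)[X]) :
    ∃ p q : MvPolynomial A ℂ, q ≠ 0 ∧ q.degreeOf i = 0 ∧
      MvPolynomial.aeval t q * aeval (t i) μ = MvPolynomial.aeval t p := by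
  induction μ using Polynomial.induction_on' with
  | add μ ν hμ hν =>
    obtain ⟨p, q, hq, hd, he⟩ := hμ
    obtain ⟨p', q', hq', hd', he'⟩ := hν
    refine ⟨q' * p + q * p', q * q', mul_ne_zero hq hq', ?_, ?_⟩
    · rw [MvPolynomial.degreeOf_mul_eq hq hq', hd, hd']
    · rw [map_add, map_add, map_mul, map_mul, map_mul, ← he, ← he']
      ring
  | monomial n c =>
    obtain ⟨p, q, hq, hd, he⟩ := Cap_clear_coeff t i c
    refine ⟨p * MvPolynomial.X i ^ n, q, hq, hd, ?_⟩
    rw [aeval_monomial, map_mul, map_pow, MvPolynomial.aeval_X, ← he, mul_assoc]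
    rfl

/-- Sketch: (i) for every `i` there are `q ≠ 0` with `degreeOf i q = 0` and `p` in
`MvPolynomial A ℂ` with `aeval t q * α = aeval t p` (induction on `μ`; an element of `sub t i` is a
quotient of values of polynomials in the other variables, use `rename Subtype.val`).
(ii) write `α = aeval t p₀ / aeval t q₀` with `p₀, q₀` relatively prime in the UFD
(`UniqueFactorizationMonoid.exists_reduced_factors'` or `extract_gcd`); injectivity of `aeval t`
gives `q * p₀ = p * q₀`, so `q₀ ∣ q` (`IsRelPrime.dvd_of_dvd_mul_right`) and `degreeOf i q₀ = 0`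
(`MvPolynomial.degreeOf_mul_eq`). Hence `q₀` is a nonzero constant (`totalDegree = 0`, or
`MvPolynomial.vars` empty) and `α = aeval t (C _ * p₀)`. -/
theorem mem_adjoin_of_forall_sub {t : A → E} (ht : AlgebraicIndependent ℂ t) {α : E}
    (hα : α ∈ IntermediateField.adjoin ℂ (Set.range t))
    (h : ∀ i, ∃ μ : (sub t i)[X], α = aeval (t i) μ) : α ∈ Algebra.adjoin ℂ (Set.range t) := by
  classical
  have hinj : Function.Injective (MvPolynomial.aeval t : MvPolynomial A ℂ →ₐ[ℂ] E) := ht
  obtain ⟨p₁, q₁, hpq⟩ := (IntermediateField.mem_adjoin_range_iff ℂ t α).1 hα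
  by_cases hq₁ : q₁ = 0
  · rw [hpq, hq₁, map_zero, div_zero]
    exact zero_mem _
  obtain ⟨p₀, q₀, c, hrel, hp, hq⟩ := UniqueFactorizationMonoid.exists_reduced_factors' p₁ q₁ hq₁
  have hc : c ≠ 0 := by
    rintro rfl
    exact hq₁ (by rw [← hq, zero_mul])
  have hq₀ : q₀ ≠ 0 := by
    rintro rfl
    exact hq₁ (by rw [← hq, mul_zero])
  have hcE : MvPolynomial.aeval t c ≠ 0 := fun h0 => hc (hinj (by rw [h0, map_zero]))
  have hq₀E : MvPolynomial.aeval t q₀ ≠ 0 := fun h0 => hq₀ (hinj (by rw [h0, map_zero]))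
  have hα₀ : α = MvPolynomial.aeval t p₀ / MvPolynomial.aeval t q₀ := by
    rw [hpq, ← hp, ← hq, map_mul, map_mul, mul_div_mul_left _ _ hcE]
  have hdeg : ∀ i, q₀.degreeOf i = 0 := by
    intro i
    obtain ⟨μ, hμ⟩ := h i
    obtain ⟨p, q, hq0, hqd, hpq'⟩ := Cap_clear t i μ
    rw [← hμ, hα₀, ← mul_div_assoc, div_eq_iff hq₀E, ← map_mul, ← map_mul] at hpq'
    have heq : q * p₀ = p * q₀ := hinj hpq'
    have hdvd : q₀ ∣ q := hrel.symm.dvd_of_dvd_mul_right ⟨p, by rw [heq, mul_comm]⟩
    obtain ⟨r, rfl⟩ := hdvd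
    have hr : r ≠ 0 := by
      rintro rfl
      exact hq0 (mul_zero _)
    rw [MvPolynomial.degreeOf_mul_eq hq₀ hr] at hqd
    omega
  have hvars : q₀.vars = ∅ := by
    ext i
    simp [MvPolynomial.mem_vars_iff_degreeOf_ne_zero, hdeg i]
  have hC := MvPolynomial.vars_eq_empty_iff_eq_C.1 hvars
  rw [Algebra.adjoin_range_eq_range_aeval]
  refine ⟨MvPolynomial.C (q₀.coeff 0)⁻¹ * p₀, ?_⟩
  change MvPolynomial.aeval t _ = α
  rw [hα₀, map_mul, MvPolynomial.aeval_C, map_inv₀, div_eq_inv_mul]
  congr 2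
  conv_rhs => rw [hC, MvPolynomial.aeval_C]

end Pool.Agent.Lib.MP_bc213e_ag.TCI
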