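import Pool.Agent.Lib.MP_bc213e_ag.TCI.Basic

/-! Linear algebra lemmas about `det2`. -/

namespace Pool.Agent.Lib.MP_bc213e_ag.TCI

open Matrix

variable {A B V F : Type} [Fintype A] [Fintype B] [Fintype V] [DecidableEq A] [DecidableEq B]
  [DecidableEq V]

omit [Fintype A] [DecidableEq A] [DecidableEq V] in
theorem LA_right_inv [Field F] (g : Matrix B V F) (hg : LinearIndependent F fun i => g i) :
    ∃ W : Matrix V B F, g * W = 1 := by
  rw [← Matrix.mulVec_surjective_iff_exists_right_inverse]
  have h2 : g.rank = Fintype.card B := LinearIndependent.rank_matrix hg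
  have h3 : LinearMap.range g.mulVecLin = ⊤ := by
    apply Submodule.eq_top_of_finrank_eq
    rw [Module.finrank_fintype_fun_eq_card]
    exact h2
  exact LinearMap.range_eq_top.1 h3

omit [DecidableEq A] [DecidableEq B] [DecidableEq V] in
theorem LA_sub_mulVec [CommRing F] (e : A ⊕ B ≃ V) (H : Matrix A V F) (g : Matrix B V F)
    (u : A ⊕ B → F) :
    (Matrix.fromRows H g).submatrix id e *ᵥ u =
      Sum.elim (H *ᵥ (u ∘ e.symm)) (g *ᵥ (u ∘ e.symm)) := by
  rw [Matrix.submatrix_mulVec_equiv, Matrix.fromRows_mulVec]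
  rfl

omit [Fintype V] [DecidableEq V] in
theorem LA_det2_apply [CommRing F] (e : A ⊕ B ≃ V) (H : Matrix A V F) (g : Matrix B V F) :
    det2 e H g = ∑ σ : Equiv.Perm (A ⊕ B), ((Equiv.Perm.sign σ : ℤ) : F) *
      ((∏ a, H a (e (σ (Sum.inl a)))) * ∏ i, g i (e (σ (Sum.inr i)))) := by
  rw [det2, ← Matrix.det_transpose, Matrix.det_apply']
  refine Finset.sum_congr rfl fun σ _ => ?_
  rw [Fintype.prod_sum_type]
  rfl

/-- Sketch: `g` has a right inverse `W : Matrix V B F` (independent rows over a field). Then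
`fromRows H g * fromCols Ξᵀ W = fromBlocks (H * Ξᵀ) (H * W) 0 1` (`Matrix.fromRows_mul_fromCols`),
with determinant `det (H * Ξᵀ)` (`Matrix.det_fromBlocks_zero₂₁`). Take
`ϖ = ((fromCols Ξᵀ W).submatrix e id).det` and use `Matrix.submatrix_mul_equiv`. -/
theorem exists_varpi [Field F] (e : A ⊕ B ≃ V) (Ξ : Matrix A V F) (g : Matrix B V F)
    (hg : LinearIndependent F fun i => g i) (h : g * Ξᵀ = 0) :
    ∃ ϖ : F, ∀ H : Matrix A V F, (H * Ξᵀ).det = ϖ * det2 e H g := by
  obtain ⟨W, hW⟩ := LA_right_inv g hg
  refine ⟨((Matrix.fromCols Ξᵀ W).submatrix e id).det, fun H => ?_⟩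
  have h1 : (Matrix.fromRows H g).submatrix id e * (Matrix.fromCols Ξᵀ W).submatrix e id =
      Matrix.fromBlocks (H * Ξᵀ) (H * W) 0 1 := by
    rw [Matrix.submatrix_mul_equiv, Matrix.fromRows_mul_fromCols, h, hW]
    rfl
  have h2 := congrArg Matrix.det h1
  rw [Matrix.det_mul, Matrix.det_fromBlocks_zero₂₁, Matrix.det_one, mul_one] at h2
  rw [← h2, det2, mul_comm]

theorem det2_mul_diagonal [CommRing F] (e : A ⊕ B ≃ V) (H : Matrix A V F) (g : Matrix B V F)
    (v : V → F) :
    det2 e (H * Matrix.diagonal v) (g * Matrix.diagonal v) = det2 e H g * ∏ l, v l := by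
  have h1 : (Matrix.fromRows (H * Matrix.diagonal v) (g * Matrix.diagonal v)).submatrix id e =
      (Matrix.fromRows H g).submatrix id e * Matrix.diagonal (fun j => v (e j)) := by
    ext i j
    rcases i with i | i <;> simp [Matrix.mul_diagonal]
  rw [det2, det2, h1, Matrix.det_mul, Matrix.det_diagonal, Equiv.prod_comp e v]

omit [Fintype V] [DecidableEq V] in
theorem det2_diagonal_mul [CommRing F] (e : A ⊕ B ≃ V) (H : Matrix A V F) (g : Matrix B V F)
    (γ : B → F) : det2 e H (Matrix.diagonal γ * g) = (∏ i, γ i) * det2 e H g := by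
  have h1 : (Matrix.fromRows H (Matrix.diagonal γ * g)).submatrix id e =
      Matrix.diagonal (Sum.elim (fun _ : A => (1 : F)) γ) *
        (Matrix.fromRows H g).submatrix id e := by
    ext i j
    rcases i with i | i <;> simp [Matrix.diagonal_mul]
  rw [det2, det2, h1, Matrix.det_mul, Matrix.det_diagonal, Fintype.prod_sum_type]
  simp

omit [Fintype V] [DecidableEq V] in
theorem det2_map [CommRing F] {F' : Type} [CommRing F'] (φ : F →+* F') (e : A ⊕ B ≃ V)
    (H : Matrix A V F) (g : Matrix B V F) :
    φ (det2 e H g) = det2 e (H.map φ) (g.map φ) := by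
  rw [det2, det2, RingHom.map_det]
  congr 1
  ext i j
  rcases i with i | i <;> simp

omit [DecidableEq V] in
/-- Sketch: `Matrix.exists_mulVec_eq_zero_iff`, transport vectors along `e`. -/
theorem det2_eq_zero_iff [Field F] (e : A ⊕ B ≃ V) (H : Matrix A V F) (g : Matrix B V F) :
    det2 e H g = 0 ↔ ∃ v : V → F, v ≠ 0 ∧ H *ᵥ v = 0 ∧ g *ᵥ v = 0 := by
  rw [det2, ← Matrix.exists_mulVec_eq_zero_iff]
  constructor
  · rintro ⟨u, hu, h0⟩
    refine ⟨u ∘ e.symm, fun hc => hu ?_, ?_⟩
    · funext j
      have := congrFun hc (e j)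
      simpa using this
    · rw [LA_sub_mulVec] at h0
      constructor
      · funext a
        exact congrFun h0 (Sum.inl a)
      · funext b
        exact congrFun h0 (Sum.inr b)
  · rintro ⟨v, hv, h1, h2⟩
    refine ⟨v ∘ e, fun hc => hv ?_, ?_⟩
    · funext l
      have := congrFun hc (e.symm l)
      simpa using this
    · rw [LA_sub_mulVec]
      have : (v ∘ e) ∘ e.symm = v := by
        funext l
        simp
      rw [this, h1, h2]
      funext i
      rcases i with i | i <;> rfl

omit [DecidableEq V] in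
theorem det2_surj [Field F] (e : A ⊕ B ≃ V) (H : Matrix A V F) (g : Matrix B V F)
    (h : det2 e H g ≠ 0) (η : B → F) : ∃ v : V → F, H *ᵥ v = 0 ∧ g *ᵥ v = η := by
  have hu : IsUnit ((Matrix.fromRows H g).submatrix id e) :=
    (Matrix.isUnit_iff_isUnit_det _).2 (isUnit_iff_ne_zero.2 h)
  obtain ⟨u, hu⟩ := Matrix.mulVec_surjective_iff_isUnit.2 hu (Sum.elim 0 η)
  rw [LA_sub_mulVec] at hu
  refine ⟨u ∘ e.symm, ?_, ?_⟩
  · funext a
    exact congrFun hu (Sum.inl a)
  · funext b
    exact congrFun hu (Sum.inr b)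

omit [Fintype V] [DecidableEq V] in
/-- Multilinear expansion in the rows of the lower block. Sketch: the map
`g ↦ det2 e H g` is a `MultilinearMap` in the rows of `g` (for instance
`(Matrix.detRowAlternating.toMultilinearMap.currySum) (rows of H)` precomposed with `e`), then
`MultilinearMap.map_sum_finset` and `MultilinearMap.map_smul_univ`. Or expand `Matrix.det_apply'`
and use `Finset.prod_univ_sum`. -/
theorem det2_sum [CommRing F] {U : Type} [DecidableEq U] (e : A ⊕ B ≃ V) (H : Matrix A V F)
    (T : B → Finset U) (α : B → U → F) (r : B → U → V → F) :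
    det2 e H (Matrix.of fun i l => ∑ u ∈ T i, α i u * r i u l) =
      ∑ π ∈ Fintype.piFinset T, (∏ i, α i (π i)) * det2 e H (Matrix.of fun i => r i (π i)) := by
  simp only [LA_det2_apply, Matrix.of_apply, Finset.prod_univ_sum, Finset.mul_sum]
  rw [Finset.sum_comm]
  refine Finset.sum_congr rfl fun π _ => Finset.sum_congr rfl fun σ _ => ?_
  rw [Finset.prod_mul_distrib]
  ring

/-- A family of vectors not contained in a hyperplane contains a basis. Sketch: the span of the
range of `w` is `⊤` (else a nonzero functional kills it, and functionals on `A → F` are dot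
products); `exists_linearIndependent` gives a basis inside the range, of cardinality `card A`;
reindex, and independent rows give `det ≠ 0` (`Matrix.linearIndependent_rows_iff_isUnit`). -/
theorem exists_det_ne_zero [Field F] {X : Type} (w : X → A → F)
    (h : ∀ β : A → F, (∀ ξ, ∑ b, β b * w ξ b = 0) → β = 0) :
    ∃ s : A → X, (Matrix.of fun a b => w (s a) b).det ≠ 0 := by
  have htop : Submodule.span F (Set.range w) = ⊤ := by
    by_contra hne
    obtain ⟨φ, hφ0, hφ⟩ := Submodule.exists_le_ker_of_lt_top _ (lt_top_iff_ne_top.2 hne)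
    have h0 := h (fun b => φ (fun j => if b = j then 1 else 0)) fun ξ => by
      have h1 : φ (w ξ) = 0 := hφ (Submodule.subset_span ⟨ξ, rfl⟩)
      rw [LinearMap.pi_apply_eq_sum_univ] at h1
      refine Eq.trans (Finset.sum_congr rfl fun b _ => ?_) h1
      rw [smul_eq_mul, mul_comm]
    refine hφ0 (LinearMap.ext fun x => ?_)
    rw [LinearMap.pi_apply_eq_sum_univ]
    refine Finset.sum_eq_zero fun b _ => ?_
    have := congrFun h0 b
    simp only [Pi.zero_apply] at this
    rw [this, smul_zero]
  obtain ⟨κ, a, -, hsp, hli⟩ := exists_linearIndependent' F w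
  rw [htop] at hsp
  let bs : Module.Basis κ F (A → F) := Module.Basis.mk hli hsp.ge
  let ε : κ ≃ A := bs.indexEquiv (Pi.basisFun F A)
  refine ⟨fun x => a (ε.symm x), ?_⟩
  have h2 : LinearIndependent F (Matrix.of fun x b => w (a (ε.symm x)) b).row :=
    hli.comp ε.symm ε.symm.injective
  exact isUnit_iff_ne_zero.1
    ((Matrix.isUnit_iff_isUnit_det _).1 (Matrix.linearIndependent_rows_iff_isUnit.1 h2))

theorem det_sum_unit_row [CommRing F] (M : Matrix (A ⊕ Unit) (A ⊕ Unit) F)
    (h : ∀ b, M (Sum.inr ()) (Sum.inl b) = 0) :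
    M.det = (Matrix.of fun a b => M (Sum.inl a) (Sum.inl b)).det *
      M (Sum.inr ()) (Sum.inr ()) := by
  have h1 : M.toBlocks₂₁ = 0 := by
    ext i b
    exact h b
  conv_lhs => rw [← Matrix.fromBlocks_toBlocks M, h1, Matrix.det_fromBlocks_zero₂₁]
  rw [Matrix.det_unique (M.toBlocks₂₂)]
  rfl

theorem det_sum_unit_col [CommRing F] (M : Matrix (A ⊕ Unit) (A ⊕ Unit) F)
    (h : ∀ a, M (Sum.inl a) (Sum.inr ()) = 0) :
    M.det = (Matrix.of fun a b => M (Sum.inl a) (Sum.inl b)).det *
      M (Sum.inr ()) (Sum.inr ()) := by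
  have h1 : M.toBlocks₁₂ = 0 := by
    ext a i
    exact h a
  conv_lhs => rw [← Matrix.fromBlocks_toBlocks M, h1, Matrix.det_fromBlocks_zero₁₂]
  rw [Matrix.det_unique (M.toBlocks₂₂)]
  rfl

omit [DecidableEq A] [DecidableEq B] [DecidableEq V] in
/-- Dimension count: the kernel of `g` has dimension `card V - card B = card A` and contains the
independent rows of `Ξ`. -/
theorem mem_span_of_ker [Field F] (e : A ⊕ B ≃ V) (Ξ : Matrix A V F) (g : Matrix B V F)
    (hΞ : LinearIndependent F fun a => Ξ a) (hg : LinearIndependent F fun i => g i)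
    (h : g * Ξᵀ = 0) (v : V → F) (hv : g *ᵥ v = 0) : ∃ β : A → F, v = ∑ a, β a • Ξ a := by
  have hle : Submodule.span F (Set.range fun a => Ξ a) ≤ LinearMap.ker g.mulVecLin := by
    rw [Submodule.span_le]
    rintro _ ⟨a, rfl⟩
    change g *ᵥ (Ξ a) = 0
    funext i
    exact congrFun (congrFun h i) a
  have h1 : Module.finrank F (Submodule.span F (Set.range fun a => Ξ a)) = Fintype.card A :=
    finrank_span_eq_card hΞ
  have h2 : g.rank = Fintype.card B := LinearIndependent.rank_matrix hg
  have h3 := LinearMap.finrank_range_add_finrank_ker g.mulVecLin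
  have h4 : Fintype.card V = Fintype.card A + Fintype.card B := by
    rw [← Fintype.card_congr e, Fintype.card_sum]
  have h5 : Module.finrank F (V → F) = Fintype.card V := Module.finrank_fintype_fun_eq_card F
  have h6 : Module.finrank F (LinearMap.range g.mulVecLin) = Fintype.card B := h2
  have heq := Submodule.eq_of_le_of_finrank_le hle (by omega)
  have hv' : v ∈ Submodule.span F (Set.range fun a => Ξ a) := by
    rw [heq]
    exact hv
  obtain ⟨β, hβ⟩ := (Submodule.mem_span_range_iff_exists_fun F).1 hv'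
  exact ⟨β, hβ.symm⟩

omit [DecidableEq B] [DecidableEq V] in
/-- Independence survives field extension. Sketch: apply `exists_det_ne_zero` to the columns of
`g` to get a nonzero maximal minor, map it to `E`; or apply `F`-linear functionals `E → F`
(`Module.forall_dual_apply_eq_zero_iff`) to a relation over `E`. -/
theorem linearIndependent_map [Field F] {E : Type} [Field E] [Algebra F E] (g : B → V → F)
    (hg : LinearIndependent F g) : LinearIndependent E fun i l => algebraMap F E (g i l) := by
  rw [Fintype.linearIndependent_iff] at hg ⊢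
  intro c hc i
  refine (Module.forall_dual_apply_eq_zero_iff F (c i)).1 fun φ => ?_
  refine hg (fun i => φ (c i)) ?_ i
  funext l
  have h1 := congrArg φ (congrFun hc l)
  simp only [Finset.sum_apply, Pi.smul_apply, smul_eq_mul, Pi.zero_apply, map_sum,
    map_zero] at h1 ⊢
  rw [← h1]
  refine Finset.sum_congr rfl fun j _ => ?_
  rw [mul_comm (c j), ← Algebra.smul_def, map_smul, smul_eq_mul, mul_comm]

/-- The lower rows of a nonsingular matrix are independent. -/
theorem linearIndependent_of_det_fromRows [Field F] (H : Matrix A (A ⊕ B) F)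
    (g : Matrix B (A ⊕ B) F) (h : (Matrix.fromRows H g).det ≠ 0) :
    LinearIndependent F fun i => g i := by
  have h1 : LinearIndependent F (Matrix.fromRows H g).row :=
    Matrix.linearIndependent_rows_iff_isUnit.2
      ((Matrix.isUnit_iff_isUnit_det _).2 (isUnit_iff_ne_zero.2 h))
  exact h1.comp Sum.inr Sum.inr_injective

end Pool.Agent.Lib.MP_bc213e_ag.TCI
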