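import Pool.Agent.Lib.MP_bc213e_ag.TCI.Farkas
import Pool.Agent.Lib.MP_bc213e_ag.TCI.LA

/-! Circuits. -/

namespace Pool.Agent.Lib.MP_bc213e_ag.TCI

variable {S R : Type} [Fintype S] [Fintype R]

/-- The support of a vector of natural numbers. -/
def circSupp (c : R → ℕ) : Finset R := Finset.univ.filter fun ρ => c ρ ≠ 0

omit [Fintype S] in
theorem circ_mem {c : R → ℕ} {ρ : R} : ρ ∈ circSupp c ↔ c ρ ≠ 0 := by simp [circSupp]

omit [Fintype S] in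
/-- Clearing denominators. -/
theorem circ_den (β : R → ℚ) (h0 : ∀ ρ, 0 ≤ β ρ) :
    ∃ N : ℕ, 0 < N ∧ ∃ c : R → ℕ, ∀ ρ, (c ρ : ℚ) = N * β ρ := by
  refine ⟨∏ ρ, (β ρ).den, Finset.prod_pos fun ρ _ => (β ρ).den_pos, ?_⟩
  have : ∀ ρ, ∃ m : ℕ, (m : ℚ) = ((∏ ρ, (β ρ).den : ℕ) : ℚ) * β ρ := by
    intro ρ
    obtain ⟨k, hk⟩ := Finset.dvd_prod_of_mem (fun ρ => (β ρ).den) (Finset.mem_univ ρ)
    obtain ⟨m, hm⟩ := Int.eq_ofNat_of_zero_le (Rat.num_nonneg.2 (h0 ρ))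
    refine ⟨k * m, ?_⟩
    have h1 : β ρ * (β ρ).den = m := by rw [Rat.mul_den_eq_num, hm, Int.cast_natCast]
    rw [hk, Nat.cast_mul, Nat.cast_mul, ← h1]
    ring
  choose c hc using this
  exact ⟨c, hc⟩

/-- A nonnegative rational certificate gives an integral one with the same support. -/
theorem circ_rat {Λ : Submodule ℤ (S → ℤ)} {ray : R → S → ℤ} {γ : R → ℤ} (β : R → ℚ)
    (h0 : ∀ ρ, 0 ≤ β ρ) (h1 : ∀ ρ, β ρ ≠ 0 → ∃ u ∈ Λ, u ⬝ᵥ ray ρ ≠ 0)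
    (h2 : ∀ u ∈ Λ, ∑ ρ, β ρ * ((u ⬝ᵥ ray ρ : ℤ) : ℚ) = 0) (h3 : 0 < ∑ ρ, β ρ * (γ ρ : ℚ)) :
    ∃ c, Bad Λ ray γ c ∧ ∀ ρ, c ρ ≠ 0 → β ρ ≠ 0 := by
  obtain ⟨N, hN, c, hc⟩ := circ_den β h0
  have hs : ∀ ρ, c ρ ≠ 0 → β ρ ≠ 0 := by
    intro ρ hρ hβ
    have := hc ρ
    rw [hβ, mul_zero] at this
    exact hρ (by exact_mod_cast this)
  have key : ∀ x : R → ℤ, ((∑ ρ, (c ρ : ℤ) * x ρ : ℤ) : ℚ) = N * ∑ ρ, β ρ * (x ρ : ℚ) := by
    intro x
    rw [Finset.mul_sum, Int.cast_sum]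
    refine Finset.sum_congr rfl fun ρ _ => ?_
    rw [Int.cast_mul, Int.cast_natCast, hc, mul_assoc]
  refine ⟨c, ⟨fun ρ hρ => h1 ρ (hs ρ hρ), fun u hu => ?_, ?_⟩, hs⟩
  · have := key fun ρ => u ⬝ᵥ ray ρ
    rw [h2 u hu, mul_zero] at this
    exact_mod_cast this
  · have h4 : (0 : ℚ) < ((∑ ρ, (c ρ : ℤ) * γ ρ : ℤ) : ℚ) := by
      rw [key]
      exact mul_pos (by exact_mod_cast hN) h3
    exact_mod_cast h4

/-- A relation on a minimal support with vanishing `γ`-sum has no negative entry. -/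
theorem circ_nonneg {Λ : Submodule ℤ (S → ℤ)} {ray : R → S → ℤ} {γ : R → ℤ} {c : R → ℕ}
    (hc : Bad Λ ray γ c) (hmin : ∀ c', Bad Λ ray γ c' → (circSupp c).card ≤ (circSupp c').card)
    (β : R → ℚ) (h1 : ∀ ρ, c ρ = 0 → β ρ = 0)
    (h2 : ∀ u ∈ Λ, ∑ ρ, β ρ * ((u ⬝ᵥ ray ρ : ℤ) : ℚ) = 0) (h3 : ∑ ρ, β ρ * (γ ρ : ℚ) = 0) (ρ : R) :
    0 ≤ β ρ := by
  by_contra hneg
  obtain ⟨ρ0, hρ0, hm⟩ := Finset.exists_min_image (Finset.univ.filter fun ρ => β ρ < 0)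
    (fun ρ => (c ρ : ℚ) / (-β ρ)) ⟨ρ, by simpa using hneg⟩
  have hb0 : β ρ0 < 0 := by simpa using hρ0
  obtain ⟨t, ht⟩ : ∃ t : ℚ, t = (c ρ0 : ℚ) / (-β ρ0) := ⟨_, rfl⟩
  have ht0 : 0 ≤ t := ht ▸ div_nonneg (Nat.cast_nonneg _) (by linarith)
  have key : ∀ x : R → ℤ, ∑ ρ, ((c ρ : ℚ) + t * β ρ) * (x ρ : ℚ) =
      ((∑ ρ, (c ρ : ℤ) * x ρ : ℤ) : ℚ) + t * ∑ ρ, β ρ * (x ρ : ℚ) := by
    intro x
    rw [Finset.mul_sum, Int.cast_sum, ← Finset.sum_add_distrib]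
    refine Finset.sum_congr rfl fun ρ _ => ?_
    push_cast
    ring
  have hs : ∀ ρ, (c ρ : ℚ) + t * β ρ ≠ 0 → c ρ ≠ 0 := by
    intro ρ hρ h
    apply hρ
    rw [h1 ρ h, h, mul_zero, Nat.cast_zero, add_zero]
  obtain ⟨c', hc', hs'⟩ := circ_rat (Λ := Λ) (ray := ray) (γ := γ) (fun ρ => (c ρ : ℚ) + t * β ρ)
    (fun ρ => by
      rcases le_or_gt 0 (β ρ) with h | h
      · positivity
      · have h4 := hm ρ (by simpa using h)
        rw [← ht, le_div_iff₀ (by linarith)] at h4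
        linarith)
    (fun ρ hρ => hc.supp ρ (hs ρ hρ))
    (fun u hu => by rw [key fun ρ => u ⬝ᵥ ray ρ, h2 u hu, hc.rel u hu]; simp)
    (by rw [key, h3, mul_zero, add_zero]; exact_mod_cast hc.pos)
  refine absurd (hmin c' hc') (not_le.2 (Finset.card_lt_card ⟨fun ρ hρ => ?_, fun h => ?_⟩))
  · exact circ_mem.2 (hs ρ (hs' ρ (circ_mem.1 hρ)))
  · have h5 : c ρ0 ≠ 0 := fun h0 => hb0.ne (h1 ρ0 h0)
    refine hs' ρ0 (circ_mem.1 (h (circ_mem.2 h5))) ?_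
    have : β ρ0 ≠ 0 := hb0.ne
    rw [ht]
    field_simp
    ring

theorem circ_uniq {Λ : Submodule ℤ (S → ℤ)} {ray : R → S → ℤ} {γ : R → ℤ} {c : R → ℕ}
    (hc : Bad Λ ray γ c) (hmin : ∀ c', Bad Λ ray γ c' → (circSupp c).card ≤ (circSupp c').card)
    (β : R → ℚ) (h1 : ∀ ρ, c ρ = 0 → β ρ = 0)
    (h2 : ∀ u ∈ Λ, ∑ ρ, β ρ * ((u ⬝ᵥ ray ρ : ℤ) : ℚ) = 0) : ∃ s : ℚ, ∀ ρ, β ρ = s * c ρ := by
  have hpos : (0 : ℚ) < ((∑ ρ, (c ρ : ℤ) * γ ρ : ℤ) : ℚ) := by exact_mod_cast hc.pos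
  obtain ⟨s, hs⟩ : ∃ s : ℚ, s * ((∑ ρ, (c ρ : ℤ) * γ ρ : ℤ) : ℚ) = ∑ ρ, β ρ * (γ ρ : ℚ) :=
    ⟨_, div_mul_cancel₀ _ hpos.ne'⟩
  have key : ∀ (e : ℚ) (x : R → ℤ), ∑ ρ, e * (β ρ - s * c ρ) * (x ρ : ℚ) =
      e * (∑ ρ, β ρ * (x ρ : ℚ) - s * ((∑ ρ, (c ρ : ℤ) * x ρ : ℤ) : ℚ)) := by
    intro e x
    rw [Int.cast_sum, Finset.mul_sum, ← Finset.sum_sub_distrib, Finset.mul_sum]
    refine Finset.sum_congr rfl fun ρ _ => ?_
    push_cast
    ring
  have h3 : ∀ (e : ℚ) (ρ : R), 0 ≤ e * (β ρ - s * c ρ) := fun e =>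
    circ_nonneg hc hmin (fun ρ => e * (β ρ - s * c ρ)) (fun ρ h => by simp [h1 ρ h, h])
      (fun u hu => by rw [key e fun ρ => u ⬝ᵥ ray ρ, h2 u hu, hc.rel u hu]; simp)
      (by rw [key, hs, sub_self, mul_zero])
  refine ⟨s, fun ρ => ?_⟩
  have h4 := h3 1 ρ
  have h5 := h3 (-1) ρ
  linarith

/-- Sketch: among bad `c` minimise first the size of the support, then `∑ c`. The support has at
least two elements (it is nonempty by `pos`; a single nonzero functional has no relation); enumerate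
it by `r : Fin (ℓ + 1) → R` (`Finset.equivFin`, sums over `R` equal sums over `Fin (ℓ + 1)`).
gcd: dividing by the gcd `g ≥ 1` keeps badness and the support and lowers `∑ c` if `g > 1`.
uniq: given a rational relation `β` on the support put `s = (∑ β γ) / (∑ c γ)`, `β' = β - s c`, so
`∑ β' γ = 0`. If `β' ≠ 0`, replacing `β'` by `-β'` assume some entry is negative, let `t > 0` be the
minimum of `c j / (-β' j)` over the negative entries; `c + t β' ≥ 0` is a relation with the same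
`γ`-sum and smaller support; clear denominators to contradict minimality. -/
theorem exists_circuit (Λ : Submodule ℤ (S → ℤ)) (ray : R → S → ℤ) (γ : R → ℤ)
    (h : ∃ c, Bad Λ ray γ c) :
    ∃ ℓ : ℕ, 0 < ℓ ∧ ∃ (r : Fin (ℓ + 1) → R) (c : Fin (ℓ + 1) → ℕ),
      Circuit Λ (fun j => ray (r j)) c ∧ 0 < ∑ j, (c j : ℤ) * γ (r j) := by
  classical
  obtain ⟨c, hc, hmin⟩ : ∃ c, Bad Λ ray γ c ∧
      ∀ c', Bad Λ ray γ c' → (circSupp c).card ≤ (circSupp c').card :=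
    ⟨Function.argminOn (fun c => (circSupp c).card) {c | Bad Λ ray γ c} h,
      Function.argminOn_mem _ _ h, fun c' hc' =>
        Function.argminOn_le (fun c => (circSupp c).card) {c | Bad Λ ray γ c} hc'⟩
  have hne : (circSupp c).Nonempty := by
    obtain ⟨ρ, -, hρ⟩ := Finset.exists_ne_zero_of_sum_ne_zero hc.pos.ne'
    exact ⟨ρ, circ_mem.2 fun h0 => hρ (by simp [h0])⟩
  obtain ⟨ℓ, hℓ⟩ : ∃ ℓ, (circSupp c).card = ℓ + 1 :=
    ⟨_, (Nat.succ_pred_eq_of_pos hne.card_pos).symm⟩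
  let e := (circSupp c).equivFinOfCardEq hℓ
  let r : Fin (ℓ + 1) → R := fun j => (e.symm j : R)
  have hr : Function.Injective r := Subtype.val_injective.comp e.symm.injective
  have hr0 : ∀ j, c (r j) ≠ 0 := fun j => circ_mem.1 (e.symm j).2
  have hr1 : ∀ ρ, c ρ ≠ 0 → ∃ j, r j = ρ := fun ρ hρ => ⟨e ⟨ρ, circ_mem.2 hρ⟩, by simp [r]⟩
  have hsum : ∀ {M : Type} [AddCommMonoid M] (F : R → M), (∀ ρ, c ρ = 0 → F ρ = 0) →
      ∑ j, F (r j) = ∑ ρ, F ρ := fun F hF =>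
    Fintype.sum_of_injective r hr _ _ (fun ρ hρ => hF ρ (by_contra fun h0 => hρ (hr1 ρ h0)))
      fun _ => rfl
  obtain ⟨g, hg⟩ : ∃ g, g = Finset.univ.gcd fun j => c (r j) := ⟨_, rfl⟩
  have hdvd : ∀ j, g ∣ c (r j) := fun j => hg ▸ Finset.gcd_dvd (Finset.mem_univ j)
  have hg0 : 0 < g := Nat.pos_of_dvd_of_pos (hdvd 0) (Nat.pos_of_ne_zero (hr0 0))
  have key : ∀ x : R → ℤ, (g : ℤ) * ∑ j, ((c (r j) / g : ℕ) : ℤ) * x (r j) =
      ∑ ρ, (c ρ : ℤ) * x ρ := by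
    intro x
    rw [← hsum (fun ρ => (c ρ : ℤ) * x ρ) fun ρ h0 => by simp [h0], Finset.mul_sum]
    refine Finset.sum_congr rfl fun j _ => ?_
    rw [← mul_assoc, ← Nat.cast_mul, Nat.mul_div_cancel' (hdvd j)]
  have hg1 : (0 : ℤ) < g := by exact_mod_cast hg0
  have hrel : ∀ u ∈ Λ, ∑ j, ((c (r j) / g : ℕ) : ℤ) * (u ⬝ᵥ ray (r j)) = 0 := by
    intro u hu
    have := key fun ρ => u ⬝ᵥ ray ρ
    rw [hc.rel u hu] at this
    exact (mul_eq_zero.1 this).resolve_left hg1.ne'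
  have hpos : ∀ j, 0 < c (r j) / g := fun j =>
    Nat.div_pos (Nat.le_of_dvd (Nat.pos_of_ne_zero (hr0 j)) (hdvd j)) hg0
  refine ⟨ℓ, ?_, r, fun j => c (r j) / g, ⟨hpos, hrel, ?_, fun β hβ => ?_⟩, ?_⟩
  · refine Nat.pos_of_ne_zero ?_
    rintro rfl
    obtain ⟨u, hu, hu0⟩ := hc.supp _ (hr0 0)
    have := hrel u hu
    rw [Fin.sum_univ_succ, Finset.univ_eq_empty, Finset.sum_empty, add_zero] at this
    exact hu0 ((mul_eq_zero.1 this).resolve_left (by exact_mod_cast (hpos 0).ne'))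
  · rw [hg]
    exact Finset.gcd_div_eq_one (Finset.mem_univ 0) (hr0 0)
  · have h0 : ∀ ρ, c ρ = 0 → Function.extend r β 0 ρ = 0 := fun ρ hρ =>
      Function.extend_apply' _ _ _ (by rintro ⟨j, rfl⟩; exact hr0 j hρ)
    obtain ⟨s, hs⟩ := circ_uniq hc hmin (Function.extend r β 0) h0 fun u hu => by
      rw [← hsum _ fun ρ hρ => by rw [h0 ρ hρ, zero_mul], ← hβ u hu]
      exact Finset.sum_congr rfl fun j _ => by rw [hr.extend_apply]
    refine ⟨s * g, fun j => ?_⟩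
    rw [mul_assoc, ← Nat.cast_mul, Nat.mul_div_cancel' (hdvd j), ← hs, hr.extend_apply]
  · exact (mul_pos_iff_of_pos_left hg1).1 ((key γ).symm ▸ hc.pos)

variable {ℓ : ℕ} {Λ : Submodule ℤ (S → ℤ)} {nn : Fin (ℓ + 1) → S → ℤ} {c : Fin (ℓ + 1) → ℕ}

/-- Sketch: for every `ℚ`-linear `θ : F → ℚ` the vector `θ ∘ β` is a rational relation, so
`θ (β j * c 0 - β 0 * c j) = 0`; conclude with `Module.forall_dual_apply_eq_zero_iff`,
`s = β 0 / c 0`. -/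
theorem Circuit.uniq_field (hc : Circuit Λ nn c) {F : Type} [Field F] [CharZero F]
    (β : Fin (ℓ + 1) → F) (h : ∀ u ∈ Λ, ∑ j, β j * ((u ⬝ᵥ nn j : ℤ) : F) = 0) :
    ∃ s : F, ∀ j, β j = s * c j := by
  have hc0 : (c 0 : F) ≠ 0 := by exact_mod_cast (hc.pos 0).ne'
  refine ⟨β 0 / c 0, fun j => ?_⟩
  have h1 : (c 0 : ℚ) • β j - (c j : ℚ) • β 0 = 0 := by
    refine (Module.forall_dual_apply_eq_zero_iff ℚ _).1 fun θ => ?_
    obtain ⟨s, hs⟩ := hc.uniq (fun j => θ (β j)) fun u hu => by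
      have h2 := congrArg θ (h u hu)
      rw [map_sum, map_zero] at h2
      rw [← h2]
      refine Finset.sum_congr rfl fun j _ => ?_
      rw [mul_comm (β j), ← zsmul_eq_mul, map_zsmul, zsmul_eq_mul, mul_comm]
    rw [map_sub, map_smul, map_smul, hs j, hs 0, smul_eq_mul, smul_eq_mul]
    ring
  rw [Nat.cast_smul_eq_nsmul, Nat.cast_smul_eq_nsmul, nsmul_eq_mul, nsmul_eq_mul] at h1
  field_simp
  linear_combination h1

/-- Sketch: `orderOf ν` divides every `c j`, hence the gcd. -/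
theorem Circuit.root_one (hc : Circuit Λ nn c) {F : Type} [Field F] (ν : F)
    (h : ∀ j, ν ^ c j = 1) : ν = 1 := by
  have : orderOf ν ∣ Finset.univ.gcd c :=
    Finset.dvd_gcd fun j _ => orderOf_dvd_of_pow_eq_one (h j)
  rw [hc.gcd, Nat.dvd_one] at this
  exact orderOf_eq_one_iff.1 this

/-- Sketch: `N₀ : Λ →ₗ[ℤ] (Fin ℓ → ℤ)`, `u ↦ fun j => u ⬝ᵥ nn j.succ` has kernel
`(perp Λ nn).comap Λ.subtype` (the `0`-th pairing vanishes by `rel` and `pos`), which is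
isomorphic to `perp Λ nn` (`Submodule.comapSubtypeEquivOfLe`). Its range has rank `ℓ`: at most
`ℓ` as a submodule of `Fin ℓ → ℤ`; at least `ℓ` since `exists_det_ne_zero` over `ℚ` (hypothesis
from `uniq` applied to `Fin.cons 0 β`) gives `ℓ` elements with independent images. Rank-nullity over
`ℤ`: `Submodule.finrank_quotient_add_finrank` with `LinearMap.quotKerEquivRange`. -/
theorem Circuit.finrank_perp (hc : Circuit Λ nn c) :
    Module.finrank ℤ (perp Λ nn) + ℓ = Module.finrank ℤ Λ := by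
  let N : Λ →ₗ[ℤ] (Fin ℓ → ℤ) :=
    { toFun := fun u j => (u : S → ℤ) ⬝ᵥ nn j.succ
      map_add' := fun u v => funext fun j => add_dotProduct _ _ _
      map_smul' := fun a u => funext fun j => smul_dotProduct _ _ _ }
  have hker : LinearMap.ker N = (perp Λ nn).comap Λ.subtype := by
    ext u
    rw [LinearMap.mem_ker, Submodule.mem_comap, mem_perp]
    refine ⟨fun hu => ⟨u.2, fun j => ?_⟩, fun hu => funext fun j => hu.2 _⟩
    have h1 : ∀ j : Fin ℓ, (u : S → ℤ) ⬝ᵥ nn j.succ = 0 := fun j => congrFun hu j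
    refine Fin.cases ?_ h1 j
    have h2 := hc.rel u u.2
    rw [Fin.sum_univ_succ, Finset.sum_eq_zero fun j _ => by rw [h1, mul_zero], add_zero] at h2
    exact (mul_eq_zero.1 h2).resolve_left (by exact_mod_cast (hc.pos 0).ne')
  have hle : perp Λ nn ≤ Λ := fun u hu => hu.1
  have h1 : Module.finrank ℤ (LinearMap.ker N) = Module.finrank ℤ (perp Λ nn) := by
    rw [hker]
    exact (Submodule.comapSubtypeEquivOfLe hle).finrank_eq
  have h2 : Module.finrank ℤ (LinearMap.range N) = ℓ := by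
    refine le_antisymm ((Submodule.finrank_le _).trans (by simp)) ?_
    obtain ⟨s, hs⟩ := exists_det_ne_zero (F := ℚ) (fun (u : Λ) b => (N u b : ℚ)) fun β hβ => by
      obtain ⟨t, ht⟩ := hc.uniq (Fin.cons 0 β) fun u hu => by
        rw [Fin.sum_univ_succ, Fin.cons_zero, zero_mul, zero_add]
        exact hβ ⟨u, hu⟩
      have h3 : t = 0 := by
        have h4 := ht 0
        rw [Fin.cons_zero] at h4
        exact (mul_eq_zero.1 h4.symm).resolve_right (by exact_mod_cast (hc.pos 0).ne')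
      funext b
      simpa [h3] using ht b.succ
    have h5 : (Matrix.of fun a b => N (s a) b).det ≠ 0 := by
      intro h0
      apply hs
      have := (Int.castRingHom ℚ).map_det (Matrix.of fun a b => N (s a) b)
      rw [h0, map_zero] at this
      exact this.symm
    have h6 : LinearIndependent ℤ fun a => (⟨N (s a), s a, rfl⟩ : LinearMap.range N) :=
      LinearIndependent.of_comp (LinearMap.range N).subtype
        (Matrix.linearIndependent_rows_of_det_ne_zero h5)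
    simpa using h6.fintype_card_le_finrank
  have h7 := Submodule.finrank_quotient_add_finrank (LinearMap.ker N)
  rw [N.quotKerEquivRange.finrank_eq, h1, h2, add_comm] at h7
  exact h7

end Pool.Agent.Lib.MP_bc213e_ag.TCI
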