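import Pool.Agent.Lib.MP_bc213e_ag.TCI.Basic

/-! Cox coordinates. -/

namespace Pool.Agent.Lib.MP_bc213e_ag.TCI

open WithZero

theorem CoxBaerUnits (F : Type) [Field F] [IsAlgClosed F] : Module.Baer ℤ (Additive Fˣ) := by
  have hN : DivisibleBy (Additive Fˣ) ℕ := divisibleByOfSMulRightSurj _ _ fun {n} hn a => by
    obtain ⟨z, hz⟩ := IsAlgClosed.exists_pow_nat_eq ((Additive.toMul a : Fˣ) : F)
      (Nat.pos_of_ne_zero hn)
    have hz0 : z ≠ 0 := by
      rintro rfl
      rw [zero_pow hn] at hz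
      exact (Additive.toMul a).ne_zero hz.symm
    refine ⟨Additive.ofMul (Units.mk0 z hz0), ?_⟩
    apply Additive.toMul.injective
    apply Units.ext
    simpa using hz
  have hZ : DivisibleBy (Additive Fˣ) ℤ := AddGroup.divisibleByIntOfDivisibleByNat _
  exact Module.Baer.of_divisible _

theorem CoxBaerRat (S : Type) : Module.Baer ℤ (S → ℚ) := by
  have hZ : DivisibleBy (S → ℚ) ℤ := divisibleByOfSMulRightSurj _ _ fun {n} hn a => by
    refine ⟨fun l => a l / n, funext fun l => ?_⟩
    have : (n : ℚ) ≠ 0 := by exact_mod_cast hn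
    simp only [Pi.smul_apply, zsmul_eq_mul]
    field_simp
  exact Module.Baer.of_divisible _

/-- The character map as a linear map. -/
def CoxMono {S F : Type} [Fintype S] [Field F] (x : S → Fˣ) : (S → ℤ) →ₗ[ℤ] Additive Fˣ :=
  AddMonoidHom.toIntLinearMap
    { toFun := fun u => Additive.ofMul (Units.mk0 (mono x u) (mono_ne_zero x u))
      map_zero' := by
        apply Additive.toMul.injective
        apply Units.ext
        simp
      map_add' := fun u u' => by
        apply Additive.toMul.injective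
        apply Units.ext
        simp [mono_add] }

theorem CoxMono_val {S F : Type} [Fintype S] [Field F] (x : S → Fˣ) (u : S → ℤ) :
    ((Additive.toMul (CoxMono x u) : Fˣ) : F) = mono x u := rfl

theorem CoxExpand {J M : Type} [Fintype J] [DecidableEq J] [AddCommGroup M]
    (h : (J → ℤ) →ₗ[ℤ] M) (γ : J → ℤ) : h γ = ∑ j, γ j • h (Pi.single j 1) := by
  conv_lhs => rw [← Finset.univ_sum_single γ]
  rw [map_sum]
  refine Finset.sum_congr rfl fun j _ => ?_
  rw [← map_smul, ← Pi.single_smul, smul_eq_mul, mul_one]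

/-- Sketch: `N : Λ →ₗ[ℤ] (J → ℤ)`, `u ↦ fun j => u ⬝ᵥ nn j`; its range `Γ` is free, so
`N.rangeRestrict` has a linear section `s : Γ →ₗ[ℤ] Λ` (`Module.projective_lifting_property` or
`LinearMap.exists_rightInverse_of_surjective`). The `ℤ`-linear maps `Γ → Additive Fˣ`,
`γ ↦ ∏ l, x l ^ (s γ) l` and `Γ → (S → ℚ)`, `γ ↦ s γ`, extend to `J → ℤ` because both targets are
divisible (`Module.Baer.of_divisible`, `Module.Baer.extension_property`; `Fˣ` is rootable since `F`
is algebraically closed, `IsAlgClosed.exists_pow_nat_eq`; one may build `DivisibleBy` by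
`divisibleByOfSMulRightSurj`). `p j`, `Q j` are the images of `Pi.single j 1`, and
`u' = u - s (N u)`. -/
theorem exists_cox {S J : Type} [Fintype S] [Fintype J] (Λ : Submodule ℤ (S → ℤ))
    (nn : J → S → ℤ) {F : Type} [Field F] [IsAlgClosed F] (x : S → Fˣ) :
    ∃ (p : J → Fˣ) (Q : J → S → ℚ), ∀ u ∈ Λ, ∃ u' ∈ perp Λ nn,
      mono x u = mono x u' * mono p (fun j => u ⬝ᵥ nn j) ∧
      ∀ l, (u l : ℚ) = u' l + ∑ j, ((u ⬝ᵥ nn j : ℤ) : ℚ) * Q j l := by
  classical
  let N : Λ →ₗ[ℤ] (J → ℤ) :=
    { toFun := fun u j => u.1 ⬝ᵥ nn j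
      map_add' := fun u u' => funext fun j => add_dotProduct _ _ _
      map_smul' := fun a u => funext fun j => smul_dotProduct _ _ _ }
  obtain ⟨s, hs⟩ := LinearMap.exists_rightInverse_of_surjective N.rangeRestrict
    (LinearMap.range_rangeRestrict N)
  let cast : (S → ℤ) →ₗ[ℤ] (S → ℚ) :=
    { toFun := fun u l => (u l : ℚ)
      map_add' := fun u u' => funext fun l => by simp
      map_smul' := fun a u => funext fun l => by simp }
  obtain ⟨h1, hh1⟩ := (CoxBaerUnits F).extension_property (LinearMap.range N).subtype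
    (Submodule.injective_subtype _) (CoxMono x ∘ₗ Λ.subtype ∘ₗ s)
  obtain ⟨h2, hh2⟩ := (CoxBaerRat S).extension_property (LinearMap.range N).subtype
    (Submodule.injective_subtype _) (cast ∘ₗ Λ.subtype ∘ₗ s)
  refine ⟨fun j => Additive.toMul (h1 (Pi.single j 1)), fun j => h2 (Pi.single j 1),
    fun u hu => ?_⟩
  set γ := N.rangeRestrict ⟨u, hu⟩ with hγ
  have e0 : N (s γ) = N ⟨u, hu⟩ := congrArg Subtype.val (LinearMap.congr_fun hs γ)
  have e1 : h1 (N ⟨u, hu⟩) = CoxMono x (s γ).1 := LinearMap.congr_fun hh1 γ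
  have e2 : h2 (N ⟨u, hu⟩) = cast (s γ).1 := LinearMap.congr_fun hh2 γ
  refine ⟨u - (s γ).1, ⟨Λ.sub_mem hu (s γ).2, fun j => ?_⟩, ?_, fun l => ?_⟩
  · rw [sub_dotProduct, sub_eq_zero]
    exact (congrFun e0 j).symm
  · have e3 : mono x (s γ).1
        = mono (fun j => Additive.toMul (h1 (Pi.single j 1))) (fun j => u ⬝ᵥ nn j) := by
      rw [← CoxMono_val, ← e1, CoxExpand h1, toMul_sum, Units.coe_prod, mono]
      refine Finset.prod_congr rfl fun j _ => ?_
      rw [toMul_zsmul, Units.val_zpow_eq_zpow_val]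
      rfl
    rw [← e3, ← mono_add, sub_add_cancel]
  · have e3 := congrFun e2 l
    rw [CoxExpand h2, Finset.sum_apply] at e3
    have e4 : ∑ j, ((u ⬝ᵥ nn j : ℤ) : ℚ) * h2 (Pi.single j 1) l = ((s γ).1 l : ℚ) := by
      refine Eq.trans (Finset.sum_congr rfl fun j _ => ?_) e3
      rw [Pi.smul_apply, zsmul_eq_mul]
      rfl
    rw [e4, Pi.sub_apply, Int.cast_sub, sub_add_cancel]

theorem CoxAux {S K F L V : Type} [Fintype S] [Field K] [Field F] [Field L] [IsAlgClosed F]
    [Algebra K F] [Algebra F L] [Algebra K L] [IsScalarTower K F L] [Fintype V] (x : S → Kˣ)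
    (Λ : Submodule ℤ (S → ℤ)) (nn : V → S → ℤ) (c : V → ℕ)
    (hc : ∀ u ∈ Λ, ∑ j, (c j : ℤ) * (u ⬝ᵥ nn j) = 0) (t : L) (ht : t ≠ 0) (v : Valuation L ℤᵐ⁰)
    (hv : ∀ a : F, v (algebraMap F L a) ≤ 1) (hvt : v t = exp (-1 : ℤ))
    (hdim : Algebra.trdeg K L ≤ 1) :
    ∃ E : IntermediateField K L, Nonempty (Cone x Λ nn c E) := by
  classical
  obtain ⟨p, Q, hpQ⟩ := exists_cox Λ nn
    (fun l => Units.map ((algebraMap K F : K →+* F) : K →* F) (x l))
  let z0 : V → L := fun j => algebraMap F L (p j) * t ^ c j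
  have hz0 : ∀ j, z0 j ≠ 0 := fun j =>
    mul_ne_zero ((map_ne_zero _).2 (p j).ne_zero) (pow_ne_zero _ ht)
  let E := IntermediateField.adjoin K (Set.range z0)
  let z : V → Eˣ := fun j =>
    Units.mk0 ⟨z0 j, IntermediateField.subset_adjoin _ _ ⟨j, rfl⟩⟩
      (fun h => hz0 j (congrArg Subtype.val h))
  have hz : ∀ j, algebraMap E L (z j) = z0 j := fun j => rfl
  refine ⟨E, ⟨z, v.comap (algebraMap E L), ?_, fun u hu => ?_, fun α => ?_, fun j => ?_, ?_⟩⟩
  · apply IntermediateField.lift_injective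
    rw [IntermediateField.lift_adjoin, IntermediateField.lift_top, ← Set.range_comp]
    rfl
  · obtain ⟨u', hu', e1, -⟩ := hpQ u hu
    refine ⟨u', hu', ?_⟩
    apply (algebraMap E L).injective
    have e3 : algebraMap E L (mono z fun j => u ⬝ᵥ nn j)
        = algebraMap F L (mono p fun j => u ⬝ᵥ nn j) := by
      have e4 : ∏ j, (t ^ c j) ^ (u ⬝ᵥ nn j) = 1 := by
        have e5 : ∀ s : Finset V, ∏ j ∈ s, (t ^ c j) ^ (u ⬝ᵥ nn j)
            = t ^ ∑ j ∈ s, (c j : ℤ) * (u ⬝ᵥ nn j) := by
          intro s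
          induction s using Finset.induction_on with
          | empty => simp
          | insert a s ha ih =>
            rw [Finset.prod_insert ha, Finset.sum_insert ha, ih, zpow_add₀ ht, zpow_mul,
              zpow_natCast]
        rw [e5, hc u hu, zpow_zero]
      simp only [mono, map_prod, map_zpow₀, hz, z0, mul_zpow, Finset.prod_mul_distrib, e4,
        mul_one]
    rw [map_mul, e3, ← IsScalarTower.algebraMap_apply, ← IsScalarTower.algebraMap_apply,
      IsScalarTower.algebraMap_apply K F L, IsScalarTower.algebraMap_apply K F L, ← map_mul,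
      map_mono (algebraMap K F) x u, map_mono (algebraMap K F) x u', e1]
  · rw [Valuation.comap_apply, ← IsScalarTower.algebraMap_apply,
      IsScalarTower.algebraMap_apply K F L]
    exact hv _
  · rw [Valuation.comap_apply, hz]
    simp only [z0, map_mul, map_pow, hvt, val_eq_one_of_field v hv (p j).ne_zero, one_mul]
    rw [← exp_nsmul]
    simp
  · exact (trdeg_le_of_injective E.val Subtype.val_injective).trans hdim

/-- Sketch: `F = AlgebraicClosure K`, `L = RatFunc F`, `p, Q` from `exists_cox` (for the image of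
`x` in `F`, see `map_mono`), `z j = C (p j) * X ^ c j ∈ L`, `E = IntermediateField.adjoin K (range z)`
inside `L` (an algebra over `K`; make it a `ℂ`-algebra through `K` if no instance is found),
`w0` = the `X`-adic valuation `(Polynomial.idealX F).valuation L` pulled back to `E`
(`Valuation.comap`; `Polynomial.valuation_X_eq_neg_one`, constants have value `≤ 1` by
`valuation_le_one` and nonzero constants value `1` by `val_eq_one_of_field`).
`mono z N = C (mono p N) * X ^ (∑ c j * N j)` and the exponent is `0` by `hc`.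
`gen`: `IntermediateField.adjoin_adjoin` style lemma, e.g. via `IntermediateField.lift_injective`,
`IntermediateField.lift_adjoin`, `IntermediateField.lift_top`.
`trdeg K E ≤ trdeg K L = trdeg K F + trdeg F L = 0 + 1` (`trdeg_le_of_injective`, `trdeg_add_eq`,
`trdeg_eq_zero`, `Polynomial.trdeg_of_isDomain`, `L` algebraic over `F[X]`). -/
theorem exists_cone {S K V : Type} [Fintype S] [Field K] [Algebra ℂ K] [Fintype V] (x : S → Kˣ)
    (Λ : Submodule ℤ (S → ℤ)) (nn : V → S → ℤ) (c : V → ℕ)
    (hc : ∀ u ∈ Λ, ∑ j, (c j : ℤ) * (u ⬝ᵥ nn j) = 0) :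
    ∃ (E : Type) (_ : Field E) (_ : Algebra ℂ E) (_ : Algebra K E) (_ : IsScalarTower ℂ K E),
      Nonempty (Cone x Λ nn c E) := by
  have h1 : Algebra.trdeg (AlgebraicClosure K) (RatFunc (AlgebraicClosure K)) = 1 := by
    have : Algebra.IsAlgebraic (Polynomial (AlgebraicClosure K)) (RatFunc (AlgebraicClosure K)) :=
      IsLocalization.isAlgebraic _ (nonZeroDivisors (Polynomial (AlgebraicClosure K)))
    rw [← trdeg_add_eq (AlgebraicClosure K) (Polynomial (AlgebraicClosure K)),
      Polynomial.trdeg_of_isDomain, trdeg_eq_zero, add_zero]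
  have h2 : Algebra.trdeg K (RatFunc (AlgebraicClosure K)) = 1 := by
    rw [← trdeg_add_eq K (AlgebraicClosure K), h1, trdeg_eq_zero, zero_add]
  obtain ⟨E, hE⟩ := CoxAux (F := AlgebraicClosure K) (L := RatFunc (AlgebraicClosure K)) x Λ nn c
    hc RatFunc.X RatFunc.X_ne_zero
    ((Polynomial.idealX (AlgebraicClosure K)).valuation (RatFunc (AlgebraicClosure K)))
    (fun a => by
      rw [IsScalarTower.algebraMap_apply (AlgebraicClosure K) (Polynomial (AlgebraicClosure K))
        (RatFunc (AlgebraicClosure K))]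
      exact IsDedekindDomain.HeightOneSpectrum.valuation_le_one _ _)
    (Polynomial.valuation_X_eq_neg_one _) h2.le
  let inst : Algebra ℂ E := ((algebraMap K E).comp (algebraMap ℂ K)).toAlgebra
  exact ⟨E, inferInstance, inst, inferInstance, IsScalarTower.of_algebraMap_eq' rfl, hE⟩

end Pool.Agent.Lib.MP_bc213e_ag.TCI
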