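import Mathlib

/-!
Definitions for the abundance theorem for complete intersections in toric varieties.
`x` is the generic point of `X` in the torus, `K` is the function field of `X`.
-/

namespace Pool.Agent.Lib.MP_bc213e_ag.TCI

variable {S R ι K : Type} [Fintype S] [Field K] [Algebra ℂ K]

/-- The character `x^u`, as a rational function on `X`. -/
def mono (x : S → Kˣ) (u : S → ℤ) : K := ∏ l, (x l : K) ^ u l

/-- The value of a Laurent polynomial at the generic point. -/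
noncomputable def lval (x : S → Kˣ) (f : (S → ℤ) →₀ ℂ) : K := f.sum fun u c => c • mono x u

/-- The logarithmic gradient `(x_l ∂f/∂x_l)_l` of a Laurent polynomial at the generic point. -/
noncomputable def logGrad (x : S → Kˣ) (f : (S → ℤ) →₀ ℂ) : S → K :=
  fun l => f.sum fun u c => c • ((u l : K) * mono x u)

/-- The coordinate ring of `X` in the affine toric chart of the cone spanned by the rays in `C`. -/
def chart (ray : R → S → ℤ) (C : Set R) (x : S → Kˣ) : Subalgebra ℂ K :=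
  Algebra.adjoin ℂ (mono x '' {m | ∀ ρ ∈ C, 0 ≤ m ⬝ᵥ ray ρ})

/-- `x^m` is a local equation of `N * ∑ b_ρ D_ρ` on the chart of the cone `C`. -/
def LocEq (ray : R → S → ℤ) (C : Set R) (b : R → ℤ) (N : ℕ) (m : S → ℤ) : Prop :=
  ∀ ρ ∈ C, m ⬝ᵥ ray ρ = N * b ρ

/-- `φ` is a section of `N * ∑ b_ρ D_ρ` on (the normalisation of) `X`. -/
def Sec (ray : R → S → ℤ) (cone : ι → Set R) (x : S → Kˣ) (b : R → ℤ) (N : ℕ) (φ : K) : Prop :=
  ∀ σ, ∃ m, LocEq ray (cone σ) b N m ∧ IsIntegral (chart ray (cone σ) x) (φ * mono x m)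

/-- The exterior product `ω_1 ∧ ... ∧ ω_n`. -/
def wedge (K : Type) {M : Type} [Field K] [AddCommGroup M] [Module K M] {n : ℕ} (ω : Fin n → M) :
    ExteriorAlgebra K M :=
  ExteriorAlgebra.ιMulti K n ω

/-- The equation `α_1 ∧ ... ∧ α_n = c • β_1 ∧ ... ∧ β_n`. -/
def WedgeEq (K : Type) {M : Type} [Field K] [AddCommGroup M] [Module K M] {n : ℕ} (α : Fin n → M)
    (c : K) (β : Fin n → M) : Prop :=
  wedge K α = c • wedge K β

/-- The Kähler differential `dα`. -/
noncomputable def dd (α : K) : Ω[K⁄ℂ] := KaehlerDifferential.D ℂ K α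

/-- The logarithmic differential `dα / α`. -/
noncomputable def dlog (α : K) : Ω[K⁄ℂ] := α⁻¹ • dd α

/-- `g du_1 ∧ ... ∧ du_n` is the Poincaré residue on `X` of the form
`dlog x_1 ∧ ... ∧ dlog x_(n+k) / (f_1 ... f_k)`. -/
def IsResidue {n k : ℕ} (x : Fin n ⊕ Fin k → Kˣ) (f : Fin k → (Fin n ⊕ Fin k → ℤ) →₀ ℂ)
    (g : K) (u : Fin n → K) : Prop :=
  ∀ μ : Fin n → Fin n ⊕ Fin k → ℤ,
    WedgeEq K (fun a => dlog (mono x (μ a)))
      ((Matrix.fromRows (Matrix.of fun a l => (μ a l : K))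
        (Matrix.of fun i => logGrad x (f i))).det * g) fun a => dd (u a)

/-- The residues of `d` characters are algebraically independent. For `d = dim X - 1`: `w` is
trivial or belongs to a prime divisor on the closure of `X` in some toric variety. -/
def Trop (d : ℕ) (x : S → Kˣ) (w : Valuation K (WithZero (Multiplicative ℤ))) : Prop :=
  ∃ μ : Fin d → S → ℤ, ∀ Q : MvPolynomial (Fin d) ℂ, Q ≠ 0 →
    w (MvPolynomial.aeval (fun a => mono x (μ a)) Q) = 1

/-- At every such valuation the residue form is `r du_1 ∧ ... ∧ du_n` with `w (u_a) ≤ 1`, and the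
discrepancy of the pair `(X, (div g + b) / q)` is nonnegative (`κ = q (K_P + ∑ D_i) + b`), or
the centre of `w` is in the torus and the residue form is regular. -/
def Can {n k : ℕ} (ray : R → Fin n ⊕ Fin k → ℤ) (cone : ι → Set R)
    (x : Fin n ⊕ Fin k → Kˣ) (f : Fin k → (Fin n ⊕ Fin k → ℤ) →₀ ℂ) (g : K) (q : ℕ)
    (κ : R → ℤ) : Prop :=
  ∀ σ (w : Valuation K (WithZero (Multiplicative ℤ))), (∀ α ∈ chart ray (cone σ) x, w α ≤ 1) →
    Trop (n - 1) x w → ∃ (r : K) (u : Fin n → K) (N : ℕ) (m : Fin n ⊕ Fin k → ℤ),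
      IsResidue x f r u ∧ (∀ a, w (u a) ≤ 1) ∧ 0 < N ∧ LocEq ray (cone σ) κ N m ∧
      (w (r ^ (q * N)) ≤ w (mono x m * g ^ N) ∨ (∀ l, w (x l) = 1) ∧ w r ≤ 1)

end Pool.Agent.Lib.MP_bc213e_ag.TCI
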