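import Pool.Agent.Lib.MP_bc213e_ag.TCI.Bez

/-! A weighted Bezout bound: `ℓ` weighted homogeneous equations in a weighted projective space of
dimension `ℓ` with a simple zero. -/

namespace Pool.Agent.Lib.MP_bc213e_ag.TCI

open MvPolynomial

theorem Delta_roots {F : Type} [Field F] [IsAlgClosed F] [CharZero F] {n : ℕ} (hn : 0 < n) {a : F}
    (ha : a ≠ 0) : ∃ S : Finset F, S.card = n ∧ ∀ ν ∈ S, ν ^ n = a := by
  classical
  have hs := Polynomial.separable_X_pow_sub_C a (Nat.cast_ne_zero.2 hn.ne') ha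
  refine ⟨(Polynomial.X ^ n - Polynomial.C a).roots.toFinset, ?_, fun ν hν => ?_⟩
  · rw [Multiset.toFinset_card_of_nodup (Polynomial.nodup_roots hs),
      IsAlgClosed.card_roots_eq_natDegree, Polynomial.natDegree_X_pow_sub_C]
  · have := Polynomial.isRoot_of_mem_roots (Multiset.mem_toFinset.1 hν)
    simpa [sub_eq_zero] using this

theorem Delta_card {F : Type} [Field F] {P : Polynomial F} (hP : P ≠ 0) {S : Finset F}
    (h : ∀ ν ∈ S, P.eval ν = 0) : S.card ≤ P.natDegree :=
  Polynomial.card_le_degree_of_subset_roots fun ν hν => (Polynomial.mem_roots hP).2 (h ν hν)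

theorem Delta_ev {J F : Type} [Fintype J] [DecidableEq J] [CommRing F] (c : J → ℕ) (p q : J → F)
    (ν : F) (P : MvPolynomial (J ⊕ J) F) :
    (evNu c p q P).eval ν = aeval (Sum.elim p fun j => q j * ν ^ c j) P := by
  have : (Polynomial.aeval ν).comp (evNu c p q) =
      (aeval (Sum.elim p fun j => q j * ν ^ c j) : MvPolynomial (J ⊕ J) F →ₐ[F] F) := by
    ext (j | j) <;> simp [evNu]
  rw [← this, AlgHom.comp_apply, Polynomial.coe_aeval_eq_eval]

theorem Delta_hom {J F : Type} [Fintype J] [CommRing F] {c : J → ℕ} {w : ℕ} {G : MvPolynomial J F}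
    (hG : ∀ m ∈ G.support, ∑ j, c j * m j = w) (q : J → F) (ν : F) :
    eval (fun j => q j * ν ^ c j) G = ν ^ w * eval q G := by
  rw [eval_eq', eval_eq', Finset.mul_sum]
  refine Finset.sum_congr rfl fun m hm => ?_
  simp only [mul_pow, ← pow_mul, Finset.prod_mul_distrib, Finset.prod_pow_eq_pow_sum, hG m hm]
  ring

theorem Delta_deg {F : Type} [Field F] {ℓ : ℕ} (A : Matrix (Fin ℓ) (Fin ℓ) (Polynomial F))
    (c w : Fin ℓ → ℕ) (h : ∀ i j, (A i j * Polynomial.X ^ c j).natDegree ≤ w i) (hA : A.det ≠ 0) :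
    A.det.natDegree + ∑ j, c j ≤ ∑ i, w i := by
  have h1 := Matrix.det_mul_row (fun j => (Polynomial.X : Polynomial F) ^ c j) A
  rw [Finset.prod_pow_eq_pow_sum] at h1
  have h2 := congrArg Polynomial.natDegree h1
  rw [Polynomial.natDegree_X_pow_mul _ hA] at h2
  rw [← h2, Matrix.det_apply]
  refine Polynomial.natDegree_sum_le_of_forall_le _ _ fun σ _ => ?_
  refine (Polynomial.natDegree_smul_le _ _).trans ((Polynomial.natDegree_prod_le _ _).trans ?_)
  rw [← Equiv.sum_comp σ w]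
  refine Finset.sum_le_sum fun j _ => ?_
  rw [Matrix.of_apply, mul_comm]
  exact h _ _

/-- Sketch. Take `B i j` from `exists_bez c (w i) (G i)` and for `q` put
`E q = det (fun i j : Fin ℓ => evNu c p q (B i j.succ)) : F[X]`.
(1) If `E q ≠ 0` then `natDegree (E q) + ∑ j, c j.succ ≤ ∑ w i`: multiply column `j` by
`X ^ c j.succ` (`Matrix.det_mul_row` or `det_mul_column`), all entries of row `i` then have degree
`≤ w i` (expand with `Matrix.det_apply`, `natDegree_prod_le`, `natDegree_sum_le_of_forall_le`).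
(2) If `G q = 0` and `ν` satisfies `q 0 * ν ^ c 0 = p 0`, then `q' j = q j * ν ^ c j` is a zero too
(homogeneity: `eval q' (G i) = ν ^ w i * eval q (G i)`), so by `bez_eval` the matrix
`aeval (Sum.elim p q') (B i j.succ)` kills the vector `p j.succ - q' j.succ`; hence either `p = q'`
or `(E q).eval ν = 0` (note `(evNu c p q P).eval ν = aeval (Sum.elim p q') P`).
(3) `(E p).eval 1 = det ≠ 0` by `bez_diag`. For the `c 0 - 1` roots of unity `ν ≠ 1` with
`ν ^ c 0 = 1` we have `p ≠ p ν^c` (by `hroot`, `hp`), so they are roots of `E p`: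
`c 0 - 1 ≤ natDegree (E p)` (`Polynomial.card_le_degree_of_subset_roots`; count roots with
`IsAlgClosed.card_roots_eq_natDegree`/separability of `X ^ n - C a`, `Polynomial.nthRoots`,
`IsPrimitiveRoot.card_nthRoots`). With (1) this is the first claim.
(4) If `∑ w < ∑ c` then every `E q` has degree `≤ c 0 - 1`. `(E p).eval 0 ≠ 0`, since otherwise
`E p` has the `c 0` distinct roots `0` and `ν ≠ 1`. `(E q).eval 0 = (E p).eval 0` because
`c j > 0`. If no `ν` works for `q`, then the `c 0` solutions of `q 0 * ν ^ c 0 = p 0` are roots of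
`E q`, so `E q = 0`, a contradiction. -/
theorem delta {F : Type} [Field F] [IsAlgClosed F] [CharZero F] {ℓ : ℕ} (c : Fin (ℓ + 1) → ℕ)
    (hc : ∀ j, 0 < c j) (hroot : ∀ ν : F, (∀ j, ν ^ c j = 1) → ν = 1) (w : Fin ℓ → ℕ)
    (G : Fin ℓ → MvPolynomial (Fin (ℓ + 1)) F)
    (hG : ∀ i, ∀ m ∈ (G i).support, ∑ j, c j * m j = w i) (p : Fin (ℓ + 1) → F)
    (hp : ∀ j, p j ≠ 0) (h0 : ∀ i, eval p (G i) = 0)
    (hdet : (Matrix.of fun i j : Fin ℓ => eval p (pderiv j.succ (G i))).det ≠ 0) :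
    ∑ j, c j ≤ ∑ i, w i + 1 ∧ (∑ i, w i < ∑ j, c j → ∀ q : Fin (ℓ + 1) → F, q 0 ≠ 0 →
      (∀ i, eval q (G i) = 0) → ∃ ν : F, ν ≠ 0 ∧ ∀ j, p j = q j * ν ^ c j) := by
  classical
  choose B hB1 hB2 using fun i => exists_bez c (w i) (G i) fun m hm => (hG i m hm).le
  obtain ⟨E, hE⟩ : ∃ E : (Fin (ℓ + 1) → F) → Polynomial F, ∀ q,
      E q = (Matrix.of fun i j : Fin ℓ => evNu c p q (B i j.succ)).det := ⟨_, fun _ => rfl⟩
  have hdeg : ∀ q, E q ≠ 0 → (E q).natDegree + ∑ j : Fin ℓ, c j.succ ≤ ∑ i, w i := by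
    intro q hq
    rw [hE] at hq ⊢
    exact Delta_deg _ (fun j => c j.succ) w (fun i j => hB2 i j.succ p q) hq
  have hev : ∀ q ν, (E q).eval ν = (Matrix.of fun i j : Fin ℓ =>
      aeval (Sum.elim p fun j => q j * ν ^ c j) (B i j.succ)).det := by
    intro q ν
    rw [hE, ← Polynomial.coe_evalRingHom, RingHom.map_det]
    refine congrArg Matrix.det (Matrix.ext fun i j => ?_)
    exact Delta_ev c p q ν _
  have hrt : ∀ q, (∀ i, eval q (G i) = 0) → ∀ ν, q 0 * ν ^ c 0 = p 0 →
      (¬ ∀ j, p j = q j * ν ^ c j) → (E q).eval ν = 0 := by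
    intro q hq ν h1 h2
    rw [hev, ← Matrix.exists_mulVec_eq_zero_iff]
    refine ⟨fun j => p j.succ - q j.succ * ν ^ c j.succ, fun e => h2 fun j => ?_, ?_⟩
    · refine Fin.cases h1.symm (fun j => ?_) j
      exact sub_eq_zero.1 (congrFun e j)
    · funext i
      have h3 := bez_eval (hB1 i) p fun j => q j * ν ^ c j
      rw [aeval_eq_eval p, aeval_eq_eval fun j => q j * ν ^ c j, h0,
        Delta_hom (hG i), hq, mul_zero, sub_zero, Fin.sum_univ_succ, h1,
        sub_self, mul_zero, zero_add] at h3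
      exact h3.symm
  have hp1 : (E p).eval 1 ≠ 0 := by
    rw [hev]
    refine fun e => hdet (Eq.trans (congrArg Matrix.det (Matrix.ext fun i j => ?_)) e)
    simp only [Matrix.of_apply, one_pow, mul_one]
    rw [bez_diag (hB1 i) p, aeval_eq_eval]
  have hEp : E p ≠ 0 := fun e => hp1 (by rw [e, Polynomial.eval_zero])
  obtain ⟨S, hS, hS1⟩ := Delta_roots (hc 0) (one_ne_zero (α := F))
  have hSr : ∀ ν ∈ S.erase 1, (E p).eval ν = 0 := by
    intro ν hν
    obtain ⟨h1, h2⟩ := Finset.mem_erase.1 hν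
    refine hrt p h0 ν (by rw [hS1 ν h2, mul_one]) fun e => h1 (hroot ν fun j => ?_)
    exact (mul_right_inj' (hp j)).1 ((e j).symm.trans (mul_one _).symm)
  have hSc : c 0 - 1 ≤ (S.erase 1).card := hS ▸ Finset.pred_card_le_card_erase
  have hc0 := hc 0
  have hd1 := hdeg p hEp
  rw [Fin.sum_univ_succ c]
  refine ⟨?_, fun hlt q hq0 hq => ?_⟩
  · have := Delta_card hEp hSr
    omega
  have hp0 : (E p).eval 0 ≠ 0 := by
    intro e
    have h1 : (0 : F) ∉ S.erase 1 := fun h => by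
      have := hS1 0 (Finset.mem_of_mem_erase h)
      rw [zero_pow hc0.ne'] at this
      exact zero_ne_one this
    have h2 := Delta_card hEp (S := insert 0 (S.erase 1)) fun ν hν => by
      rcases Finset.mem_insert.1 hν with rfl | h
      · exact e
      · exact hSr ν h
    rw [Finset.card_insert_of_notMem h1] at h2
    omega
  have hq1 : (E q).eval 0 = (E p).eval 0 := by
    rw [hev, hev]
    simp only [zero_pow (hc _).ne', mul_zero]
  have hEq : E q ≠ 0 := fun e => hp0 (by rw [← hq1, e, Polynomial.eval_zero])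
  by_contra hno
  obtain ⟨T, hT, hT1⟩ := Delta_roots (hc 0) (div_ne_zero (hp 0) hq0)
  have h1 := Delta_card hEq (S := T) fun ν hν => by
    have h2 : q 0 * ν ^ c 0 = p 0 := by rw [hT1 ν hν, mul_div_cancel₀ _ hq0]
    refine hrt q hq ν h2 fun e => hno ⟨ν, ?_, e⟩
    rintro rfl
    rw [zero_pow hc0.ne', mul_zero] at h2
    exact hp 0 h2.symm
  have hd2 := hdeg q hEq
  omega

end Pool.Agent.Lib.MP_bc213e_ag.TCI
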