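import Pool.Agent.Lib.MP_bc213e_ag.TCI.LA

/-! Computations with derivations. -/

namespace Pool.Agent.Lib.MP_bc213e_ag.TCI

variable {K E : Type} [Field K] [Algebra ℂ K] [Field E] [Algebra ℂ E]

section

variable {M : Type} [AddCommGroup M] [Module K M] [Module ℂ M] [IsScalarTower ℂ K M]

/-- `IntermediateField.adjoin_induction`, `Derivation.leibniz_inv`. -/
theorem der_adjoin_eq_zero (δ : Derivation ℂ K M) {T : Set K} (h : ∀ t ∈ T, δ t = 0) {α : K}
    (hα : α ∈ IntermediateField.adjoin ℂ T) : δ α = 0 := by
  induction hα using IntermediateField.adjoin_induction with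
  | mem t ht => exact h t ht
  | algebraMap c => exact δ.map_algebraMap c
  | add a b _ _ ha hb => rw [map_add, ha, hb, add_zero]
  | inv a _ ha => rw [δ.leibniz_inv, ha, smul_zero]
  | mul a b _ _ ha hb => rw [δ.leibniz, ha, hb, smul_zero, smul_zero, add_zero]

theorem Der2_aeval (δ : Derivation ℂ K M) (F : IntermediateField ℂ K) (h : ∀ α ∈ F, δ α = 0)
    (α : K) (P : Polynomial F) :
    δ (Polynomial.aeval α P) = Polynomial.aeval α (Polynomial.derivative P) • δ α := by
  induction P using Polynomial.induction_on' with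
  | add P Q hP hQ => rw [map_add, map_add, hP, hQ, map_add, map_add, add_smul]
  | monomial m c =>
    have hc : δ (algebraMap F K c) = 0 := h _ c.2
    rw [Polynomial.derivative_monomial, Polynomial.aeval_monomial, Polynomial.aeval_monomial,
      δ.leibniz, hc, smul_zero, add_zero, δ.leibniz_pow, map_mul, map_natCast,
      ← Nat.cast_smul_eq_nsmul K, smul_smul, smul_smul]

/-- Sketch: for `α` with minimal polynomial `μ` over `F`, `0 = δ (aeval α μ) = aeval α μ' • δ α`
(induction on polynomials, the coefficients are killed) and `aeval α μ' ≠ 0` by separability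
(characteristic zero). -/
theorem der_eq_zero_of_algebraic (δ : Derivation ℂ K M) (F : IntermediateField ℂ K)
    (hF : Algebra.IsAlgebraic F K) (h : ∀ α ∈ F, δ α = 0) : δ = 0 := by
  ext α
  have : CharZero F := algebraRat.charZero F
  have hs : IsSeparable F α := (minpoly.irreducible (hF.isAlgebraic α).isIntegral).separable
  have h1 := Der2_aeval δ F h α (minpoly F α)
  rw [minpoly.aeval, map_zero] at h1
  exact (smul_eq_zero.1 h1.symm).resolve_left (hs.aeval_derivative_ne_zero (minpoly.aeval F α))

end

theorem der_adjoin_mem (δ : Derivation ℂ E E) {T : Set E}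
    (h : ∀ t ∈ T, δ t ∈ IntermediateField.adjoin ℂ T) {α : E}
    (hα : α ∈ IntermediateField.adjoin ℂ T) : δ α ∈ IntermediateField.adjoin ℂ T := by
  induction hα using IntermediateField.adjoin_induction with
  | mem t ht => exact h t ht
  | algebraMap c => rw [δ.map_algebraMap]; exact zero_mem _
  | add a b _ _ ha hb => rw [map_add]; exact add_mem ha hb
  | inv a h1 ha =>
    rw [δ.leibniz_inv, smul_eq_mul]
    exact mul_mem (neg_mem (pow_mem (inv_mem h1) 2)) ha
  | mul a b h1 h2 ha hb =>
    rw [δ.leibniz, smul_eq_mul, smul_eq_mul]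
    exact add_mem (mul_mem h1 hb) (mul_mem h2 ha)

/-- Chain rule. -/
theorem der_aeval {V : Type} [Fintype V] (δ : Derivation ℂ E E) (v : V → E)
    (P : MvPolynomial V ℂ) :
    δ (MvPolynomial.aeval v P) =
      ∑ l, MvPolynomial.aeval v (MvPolynomial.pderiv l P) * δ (v l) := by
  classical
  induction P using MvPolynomial.induction_on with
  | C c => simp
  | add P Q hP hQ => simp only [map_add, hP, hQ, add_mul, Finset.sum_add_distrib]
  | mul_X P i hP =>
    have e : ∑ l, MvPolynomial.aeval v P *
        MvPolynomial.aeval v (MvPolynomial.pderiv l (MvPolynomial.X i : MvPolynomial V ℂ)) *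
          δ (v l) = MvPolynomial.aeval v P * δ (v i) := by
      rw [Finset.sum_eq_single i]
      · rw [MvPolynomial.pderiv_X_self, map_one, mul_one]
      · intro l _ hl
        rw [MvPolynomial.pderiv_X_of_ne hl.symm, map_zero, mul_zero, zero_mul]
      · intro h
        exact absurd (Finset.mem_univ i) h
    simp only [MvPolynomial.pderiv_mul, map_add, map_mul, MvPolynomial.aeval_X, add_mul,
      Finset.sum_add_distrib, e]
    rw [δ.leibniz, hP, smul_eq_mul, smul_eq_mul, Finset.mul_sum, add_comm]
    congr 1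
    exact Finset.sum_congr rfl fun l _ => by ring

variable [Algebra K E] [IsScalarTower ℂ K E] {S : Type} [Fintype S]

/-- Logarithmic derivative of a character (`Derivation.leibniz_zpow`, induction on the product). -/
theorem der_mono (δ : Derivation ℂ K E) (x : S → Kˣ) (u : S → ℤ) :
    δ (mono x u) = algebraMap K E (mono x u) *
      ∑ l, (u l : E) * ((algebraMap K E (x l))⁻¹ * δ (x l)) := by
  classical
  unfold mono
  induction (Finset.univ : Finset S) using Finset.induction_on with
  | empty => simp
  | insert a s ha ih =>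
    have h0 : algebraMap K E (x a) ≠ 0 := (map_ne_zero _).2 (x a).ne_zero
    rw [Finset.prod_insert ha, Finset.sum_insert ha, δ.leibniz, ih, δ.leibniz_zpow, map_mul]
    simp only [Algebra.smul_def, zsmul_eq_mul, map_zpow₀, eq_intCast]
    rw [zpow_sub_one₀ h0]
    ring

theorem der_mono_self (δ : Derivation ℂ K K) (x : S → Kˣ) (u : S → ℤ) :
    δ (mono x u) = mono x u * ∑ l, (u l : K) * ((x l : K)⁻¹ * δ (x l)) :=
  der_mono δ x u

/-- Sketch: let `L : Ω[K⁄ℂ] →ₗ[K] (Fin n → E)` be `LinearMap.pi` of the maps
`(δ b).liftKaehlerDifferential`. The determinant is a `K`-alternating map on `Fin n → E`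
(restrict scalars of `Matrix.detRowAlternating`, or build it by hand); compose with `L` and apply
`exteriorPower.alternatingMapLinearEquiv` of it to both sides of `h μ`
(`exteriorPower.alternatingMapLinearEquiv_apply_ιMulti`). -/
theorem det_of_isResidue {n k : ℕ} {x : Fin n ⊕ Fin k → Kˣ}
    {f : Fin k → (Fin n ⊕ Fin k → ℤ) →₀ ℂ} {g : K} {u : Fin n → K} (h : IsResidue x f g u)
    (δ : Fin n → Derivation ℂ K E) (μ : Fin n → Fin n ⊕ Fin k → ℤ) :
    (Matrix.of fun a b => (algebraMap K E (mono x (μ a)))⁻¹ * δ b (mono x (μ a))).det =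
      algebraMap K E ((Matrix.fromRows (Matrix.of fun a l => (μ a l : K))
          (Matrix.of fun i => logGrad x (f i))).det * g) *
        (Matrix.of fun a b => δ b (u a)).det := by
  let L : Ω[K⁄ℂ] →ₗ[K] (Fin n → E) := LinearMap.pi fun b => (δ b).liftKaehlerDifferential
  let A : (Fin n → E) [⋀^Fin n]→ₗ[K] E :=
    { (Matrix.detRowAlternating : (Fin n → E) [⋀^Fin n]→ₗ[E] E).toMultilinearMap.restrictScalars
        K with
      map_eq_zero_of_eq' := fun v i j hv hij =>
        (Matrix.detRowAlternating : (Fin n → E) [⋀^Fin n]→ₗ[E] E).map_eq_zero_of_eq v hv hij }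
  have hA : ∀ v : Fin n → Ω[K⁄ℂ], A.compLinearMap L v =
      (Matrix.of fun a b => (δ b).liftKaehlerDifferential (v a)).det := fun v => rfl
  have h0 : exteriorPower.ιMulti K n
        (fun a => (mono x (μ a))⁻¹ • KaehlerDifferential.D ℂ K (mono x (μ a))) =
      ((Matrix.fromRows (Matrix.of fun a l => (μ a l : K))
          (Matrix.of fun i => logGrad x (f i))).det * g) •
        exteriorPower.ιMulti K n fun a => KaehlerDifferential.D ℂ K (u a) := Subtype.ext (h μ)
  have h1 := congrArg (exteriorPower.alternatingMapLinearEquiv (A.compLinearMap L)) h0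
  rw [map_smul, exteriorPower.alternatingMapLinearEquiv_apply_ιMulti,
    exteriorPower.alternatingMapLinearEquiv_apply_ιMulti, hA, hA] at h1
  simpa only [map_smul, Derivation.liftKaehlerDifferential_comp_D, Algebra.smul_def, map_inv₀]
    using h1

theorem Der2_sum {n : ℕ} (δ : Fin n → Derivation ℂ K E) (β : Fin n → E) (α : K) :
    (∑ b, β b • δ b) α = ∑ b, β b * δ b α := by
  induction (Finset.univ : Finset (Fin n)) using Finset.induction_on with
  | empty => simp
  | insert a s ha ih =>
    rw [Finset.sum_insert ha, Finset.sum_insert ha, Derivation.add_apply, ih,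
      Derivation.smul_apply, smul_eq_mul]

/-- Sketch: `exists_det_ne_zero` with `X = Λ`; if `β` kills all vectors then the derivation
`∑ b, β b • δ b` kills all `mono x u`, `u ∈ Λ`, hence `K` by `der_adjoin_eq_zero`. -/
theorem exists_lambda {n : ℕ} (x : S → Kˣ) (Λ : Submodule ℤ (S → ℤ))
    (gen : IntermediateField.adjoin ℂ (mono x '' (Λ : Set (S → ℤ))) = ⊤)
    (δ : Fin n → Derivation ℂ K E)
    (hδ : ∀ β : Fin n → E, (∀ α : K, ∑ b, β b * δ b α = 0) → β = 0) :
    ∃ μ : Fin n → S → ℤ, (∀ a, μ a ∈ Λ) ∧
      (Matrix.of fun a b => (algebraMap K E (mono x (μ a)))⁻¹ * δ b (mono x (μ a))).det ≠ 0 := by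
  obtain ⟨s, hs⟩ := exists_det_ne_zero (X := Λ)
    (fun ξ b => (algebraMap K E (mono x ξ))⁻¹ * δ b (mono x ξ)) fun β hβ => hδ β fun α => by
      have h1 := der_adjoin_eq_zero (∑ b, β b • δ b) (T := mono x '' (Λ : Set (S → ℤ)))
        (α := α) ?_ (gen ▸ IntermediateField.mem_top)
      · simpa only [Der2_sum] using h1
      · rintro _ ⟨u, hu, rfl⟩
        have h2 := hβ ⟨u, hu⟩
        have h0 : (algebraMap K E (mono x u))⁻¹ ≠ 0 :=
          inv_ne_zero ((map_ne_zero _).2 (mono_ne_zero x u))
        rw [Der2_sum]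
        refine (mul_eq_zero.1 ?_).resolve_left h0
        rw [← h2, Finset.mul_sum]
        exact Finset.sum_congr rfl fun b _ => by ring
  exact ⟨fun a => s a, fun a => (s a).2, hs⟩

end Pool.Agent.Lib.MP_bc213e_ag.TCI
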