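import Pool.Agent.Lib.MP_bc213e_ag.TCI.FStepA
import Pool.Agent.Lib.MP_bc213e_ag.TCI.Delta

/-! The generically finite case: eliminate `ℓ` equations. -/

namespace Pool.Agent.Lib.MP_bc213e_ag.TCI

/-- Galois descent. Sketch: `Ω = AlgebraicClosure K` is an algebraic closure of `F`
(`IsAlgClosure`, `Algebra.IsAlgebraic.trans`), Galois over `F` in characteristic zero;
`InfiniteGalois.mem_range_algebraMap_iff_fixed` (or `InfiniteGalois.mem_bot_iff_fixed`). -/
theorem mem_of_fixed {K : Type} [Field K] [Algebra ℂ K] (F : IntermediateField ℂ K)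
    (alg : Algebra.IsAlgebraic F K) (α : K)
    (h : ∀ σ : AlgebraicClosure K →+* AlgebraicClosure K,
      (∀ β ∈ F, σ (algebraMap K (AlgebraicClosure K) β) = algebraMap K (AlgebraicClosure K) β) →
      σ (algebraMap K (AlgebraicClosure K) α) = algebraMap K (AlgebraicClosure K) α) : α ∈ F := by
  have : CharZero F := charZero_of_injective_algebraMap (algebraMap ℂ F).injective
  have : Algebra.IsAlgebraic F (AlgebraicClosure K) :=
    Algebra.IsAlgebraic.trans F K (AlgebraicClosure K)
  have : IsAlgClosure F (AlgebraicClosure K) := ⟨inferInstance, inferInstance⟩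
  have key : algebraMap K (AlgebraicClosure K) α ∈ Set.range (algebraMap F (AlgebraicClosure K)) := by
    rw [InfiniteGalois.mem_range_algebraMap_iff_fixed]
    intro f
    refine h (f : AlgebraicClosure K →+* AlgebraicClosure K) (fun β hβ => ?_)
    exact f.commutes (⟨β, hβ⟩ : F)
  obtain ⟨β, hβ⟩ := key
  rw [IsScalarTower.algebraMap_apply F K (AlgebraicClosure K)] at hβ
  rw [← (algebraMap K (AlgebraicClosure K)).injective hβ]
  exact β.2

namespace Data

variable {n k : ℕ} {R ι K : Type} [Fintype R] [Field K] [Algebra ℂ K] {D : Data n k R ι K}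
  {Λ : Submodule ℤ (Fin n ⊕ Fin k → ℤ)} {I : Finset (Fin k)}

/-- Sketch. `act = {i ∉ I | ∃ u ∈ supp (f i), u - base i ∉ perp}`, `I' = I ∪ act`.
`M i j = logGrad (f i) ⬝ᵥ n_j`. Inactive rows vanish (`grad_inactive`), so by `ker_finite` applied to
`Fin.cons 0 β` and `exists_det_ne_zero` there is `s : Fin ℓ → act` with `det (M (s a) b.succ) ≠ 0`;
`s` is injective (`Matrix.det_zero_of_row_eq`). With `cox_poly`, the matrix
`eval p (pderiv b.succ (G (s a)))` is `diag γ * M * diag p⁻¹`, so it is nonsingular, and `delta`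
applies (`Circuit.root_one`; `σ = id` gives `h0`). `sum_gam` and `hγ` give
`∑ i ∈ Iᶜ, wt i < ∑ c`, while `∑ c ≤ ∑ a, wt (s a) + 1`; as `wt i ≥ 1` on `act` (`wt_pos`), the image
of `s` is all of `act`, so `act.card = ℓ`, and `rank` follows from `Circuit.finrank_perp`.
`gen`: for `u ∈ Λ` and `σ` fixing the small field, `σ ∘ p` is a zero, so `p j = σ (p j) * ν ^ c j`,
hence `mono p N = σ (mono p N) * ν ^ (∑ c j * N j)` with exponent `0` (`hc.rel`); so `mono x u` is
fixed and `mem_of_fixed` puts it in the small field; conclude with `st.gen`. -/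
theorem State.fstep (st : D.State Λ I) {ℓ : ℕ} {r : Fin (ℓ + 1) → R} {c : Fin (ℓ + 1) → ℕ}
    (hc : Circuit Λ (fun j => D.ray (r j)) c) (hγ : 0 < ∑ j, (c j : ℤ) * D.gam I (r j))
    (alg : Algebra.IsAlgebraic (D.fld (perp Λ fun j => D.ray (r j))) K) :
    ∃ I', I ⊆ I' ∧ D.State (perp Λ fun j => D.ray (r j)) I' := by
  classical
  have : CharZero K := charZero_of_injective_algebraMap (algebraMap ℂ K).injective
  set Λ' := perp Λ fun j => D.ray (r j) with hΛ'
  set act : Finset (Fin k) := Iᶜ.filter (fun i => ∃ u ∈ (D.f i).support, u - D.base i ∉ Λ') with hact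
  have actI : ∀ i ∈ act, i ∉ I := fun i hi => Finset.mem_compl.1 (Finset.mem_filter.1 hi).1
  have inact : ∀ i, i ∉ I → i ∉ act → ∀ u ∈ (D.f i).support, u - D.base i ∈ Λ' := by
    intro i h1 h2 u hu
    by_contra hcon
    exact h2 (Finset.mem_filter.2 ⟨Finset.mem_compl.2 h1, u, hu, hcon⟩)
  set M : Fin k → Fin (ℓ + 1) → K :=
    fun i j => logGrad D.x (D.f i) ⬝ᵥ fun l => (D.ray (r j) l : K) with hM
  obtain ⟨s, hs⟩ := exists_det_ne_zero (F := K) (X := act) (fun i (b : Fin ℓ) => M i b.succ) (by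
    intro β hβ
    obtain ⟨t, ht⟩ := st.ker_finite hc alg (Fin.cons 0 β) (by
      intro i hi
      rw [Fin.sum_univ_succ, Fin.cons_zero, zero_mul, zero_add]
      simp only [Fin.cons_succ]
      by_cases e : i ∈ act
      · exact hβ ⟨i, e⟩
      · refine Finset.sum_eq_zero (fun b _ => ?_)
        rw [D.grad_inactive i _ (fun u hu => (mem_perp.1 (inact i hi e u hu)).2 b.succ), mul_zero])
    have h0 := ht 0
    rw [Fin.cons_zero] at h0
    have c0 : (c 0 : K) ≠ 0 := Nat.cast_ne_zero.2 (hc.pos 0).ne'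
    have t0 : t = 0 := (mul_eq_zero.1 h0.symm).resolve_right c0
    funext b
    have := ht b.succ
    rw [Fin.cons_succ, t0, zero_mul] at this
    exact this)
  have sinj : Function.Injective (fun a => (s a : Fin k)) := by
    intro a b e
    by_contra hne
    refine hs (Matrix.det_zero_of_row_eq hne ?_)
    funext j
    simp only [Matrix.of_apply]
    rw [show (s a : Fin k) = s b from e]
  obtain ⟨p, G, γ, hp, hG⟩ := st.cox_poly hc
  have sI : ∀ a, (s a : Fin k) ∉ I := fun a => actI _ (s a).2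
  have hdet : (Matrix.of fun a b : Fin ℓ => MvPolynomial.eval (fun j => (p j : AlgebraicClosure K))
      (MvPolynomial.pderiv b.succ (G (s a)))).det ≠ 0 := by
    have e : (Matrix.of fun a b : Fin ℓ => MvPolynomial.eval (fun j => (p j : AlgebraicClosure K))
        (MvPolynomial.pderiv b.succ (G (s a)))) *
          Matrix.diagonal (fun b : Fin ℓ => (p b.succ : AlgebraicClosure K)) =
        Matrix.diagonal (fun a => γ (s a)) * (algebraMap K (AlgebraicClosure K)).mapMatrix
          (Matrix.of fun a b : Fin ℓ => M (s a) b.succ) := by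
      ext a b
      rw [Matrix.mul_diagonal, Matrix.diagonal_mul, Matrix.of_apply, mul_comm,
        (hG _ (sI a)).2.2.1 b.succ]
      rfl
    intro h0
    have e2 := congrArg Matrix.det e
    rw [Matrix.det_mul, Matrix.det_mul, h0, zero_mul, Matrix.det_diagonal, ← RingHom.map_det] at e2
    refine mul_ne_zero (Finset.prod_ne_zero_iff.2 fun a _ => (hG _ (sI a)).1) ?_ e2.symm
    exact (map_ne_zero _).2 hs
  obtain ⟨d1, d2⟩ := delta c hc.pos (fun ν hν => hc.root_one ν hν) (fun a => D.wt r c (s a))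
    (fun a => G (s a)) (fun a => (hG _ (sI a)).2.1) (fun j => (p j : AlgebraicClosure K))
    (fun j => (p j).ne_zero) (fun a => (hG _ (sI a)).2.2.2 (RingHom.id _) (fun _ _ => rfl)) hdet
  have hlt : ∑ i ∈ Iᶜ, D.wt r c i < ∑ j, c j := by
    rw [D.sum_gam] at hγ
    omega
  set J : Finset (Fin k) := Finset.univ.image (fun a => (s a : Fin k)) with hJ
  have hJs : ∑ i ∈ J, D.wt r c i = ∑ a, D.wt r c (s a) :=
    Finset.sum_image (fun a _ b _ e => sinj e)
  have Jact : J ⊆ act := by
    intro i hi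
    obtain ⟨a, _, rfl⟩ := Finset.mem_image.1 hi
    exact (s a).2
  have actc : act ⊆ Iᶜ := Finset.filter_subset _ _
  have hle : ∑ i ∈ act, D.wt r c i ≤ ∑ i ∈ Iᶜ, D.wt r c i :=
    Finset.sum_le_sum_of_subset actc
  have hle2 : ∑ i ∈ J, D.wt r c i ≤ ∑ i ∈ act, D.wt r c i := Finset.sum_le_sum_of_subset Jact
  have Jeq : J = act := by
    by_contra hne
    obtain ⟨i, hi1, hi2⟩ := Finset.exists_of_ssubset (Finset.ssubset_iff_subset_ne.2 ⟨Jact, hne⟩)
    obtain ⟨u, hu, hu'⟩ := (Finset.mem_filter.1 hi1).2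
    have w0 := st.wt_pos hc (actI i hi1) hu hu'
    have := Finset.sum_lt_sum_of_subset Jact hi1 hi2 w0 (fun _ _ _ => Nat.zero_le _)
      (f := fun i => D.wt r c i)
    omega
  have actcard : act.card = ℓ := by
    rw [← Jeq, hJ, Finset.card_image_of_injective _ sinj, Finset.card_univ, Fintype.card_fin]
  refine ⟨I ∪ act, Finset.subset_union_left, ?_, ?_, ?_⟩
  · rw [Finset.card_union_of_disjoint (Finset.disjoint_right.2 actI), actcard]
    have h1 := hc.finrank_perp
    have h2 := st.rank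
    rw [← hΛ'] at h1
    omega
  · rw [eq_top_iff, ← st.gen]
    refine IntermediateField.adjoin_le_iff.2 ?_
    rintro _ ⟨u, hu, rfl⟩
    refine mem_of_fixed (D.fld Λ') alg _ (fun σ hσ => ?_)
    obtain ⟨u', hu', e⟩ := hp u hu
    obtain ⟨ν, ν0, hν⟩ := d2 (by omega) (fun j => σ (p j)) ((map_ne_zero σ).2 (p 0).ne_zero)
      (fun a => (hG _ (sI a)).2.2.2 σ hσ)
    have k1 : σ (mono p fun j => u ⬝ᵥ D.ray (r j)) = mono p fun j => u ⬝ᵥ D.ray (r j) := by
      have k2 : (mono p fun j => u ⬝ᵥ D.ray (r j)) =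
          σ (mono p fun j => u ⬝ᵥ D.ray (r j)) * ν ^ (∑ j, (c j : ℤ) * (u ⬝ᵥ D.ray (r j))) := by
        have k3 : ∀ T : Finset (Fin (ℓ + 1)), ν ^ (∑ j ∈ T, (c j : ℤ) * (u ⬝ᵥ D.ray (r j))) =
            ∏ j ∈ T, ν ^ ((c j : ℤ) * (u ⬝ᵥ D.ray (r j))) := by
          intro T
          induction T using Finset.induction_on with
          | empty => simp
          | insert a T ha ih => rw [Finset.sum_insert ha, Finset.prod_insert ha, zpow_add₀ ν0, ih]
        rw [k3]
        simp only [mono, map_prod, map_zpow₀]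
        rw [← Finset.prod_mul_distrib]
        refine Finset.prod_congr rfl (fun j _ => ?_)
        rw [zpow_mul, zpow_natCast, ← mul_zpow, ← hν j]
      rw [hc.rel u hu, zpow_zero, mul_one] at k2
      exact k2.symm
    rw [e, map_mul, k1, hσ _ (IntermediateField.subset_adjoin ℂ _ ⟨u', hu', rfl⟩)]
  · intro i hi u hu
    rw [Finset.mem_union, not_or] at hi
    exact inact i hi.1 hi.2 u hu

end Data

end Pool.Agent.Lib.MP_bc213e_ag.TCI
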