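import Pool.Agent.Lib.MP_bc213e_ag.TCI.Tan
import Pool.Agent.Lib.MP_bc213e_ag.TCI.Cox

/-! The equations in Cox coordinates of a circuit, over the algebraic closure. -/

namespace Pool.Agent.Lib.MP_bc213e_ag.TCI.Data

open MvPolynomial

variable {n k : ℕ} {R ι K : Type} [Fintype R] [Field K] [Algebra ℂ K] {D : Data n k R ι K}
  {Λ : Submodule ℤ (Fin n ⊕ Fin k → ℤ)} {I : Finset (Fin k)}

/-- The degree of the `i`-th equation with respect to the circuit. -/
def wt (D : Data n k R ι K) {ℓ : ℕ} (r : Fin (ℓ + 1) → R) (c : Fin (ℓ + 1) → ℕ) (i : Fin k) : ℕ :=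
  ∑ j, c j * (D.a i (r j) + D.base i ⬝ᵥ D.ray (r j)).toNat

theorem FStepA_wt (D : Data n k R ι K) {ℓ : ℕ} (r : Fin (ℓ + 1) → R) (c : Fin (ℓ + 1) → ℕ)
    (i : Fin k) :
    (D.wt r c i : ℤ) = ∑ j, (c j : ℤ) * (D.a i (r j) + D.base i ⬝ᵥ D.ray (r j)) := by
  rw [wt, Nat.cast_sum]
  refine Finset.sum_congr rfl fun j _ => ?_
  rw [Nat.cast_mul, Int.toNat_of_nonneg]
  rw [add_comm]
  exact D.hf i _ (D.hbase i) _

omit [Algebra ℂ K] in
theorem FStepA_dot (u v : Fin n ⊕ Fin k → ℤ) :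
    ∑ l, (u l : K) * (v l : K) = ((u ⬝ᵥ v : ℤ) : K) := by
  simp [dotProduct]

/-- `D.hf` at `base i`, `Int.toNat_of_nonneg`, `Finset.sum_comm`. -/
theorem sum_gam (D : Data n k R ι K) (I : Finset (Fin k)) {ℓ : ℕ} (r : Fin (ℓ + 1) → R)
    (c : Fin (ℓ + 1) → ℕ) :
    ∑ j, (c j : ℤ) * D.gam I (r j) = (∑ j, c j : ℕ) - (∑ i ∈ Iᶜ, D.wt r c i : ℕ) := by
  rw [Nat.cast_sum, Nat.cast_sum, Finset.sum_congr rfl fun i _ => FStepA_wt D r c i,
    Finset.sum_comm, ← Finset.sum_sub_distrib]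
  refine Finset.sum_congr rfl fun j _ => ?_
  rw [gam, mul_sub, mul_one, Finset.mul_sum]

/-- An equation that involves the circuit has positive degree. Sketch: some
`(u - base i) ⬝ᵥ ray (r j) ≠ 0`; `wt = ∑ c j * (a + base·n_j) = ∑ c j * (a + u·n_j)` by `hc.rel`, all
terms are nonnegative (`D.hf`), and one of `a + base·n_j`, `a + u·n_j` is positive. -/
theorem State.wt_pos (st : D.State Λ I) {ℓ : ℕ} {r : Fin (ℓ + 1) → R} {c : Fin (ℓ + 1) → ℕ}
    (hc : Circuit Λ (fun j => D.ray (r j)) c) {i : Fin k} (hi : i ∉ I) {u : Fin n ⊕ Fin k → ℤ}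
    (hu : u ∈ (D.f i).support) (hu' : u - D.base i ∉ perp Λ fun j => D.ray (r j)) :
    0 < D.wt r c i := by
  rw [Nat.pos_iff_ne_zero]
  intro h0
  have h1 := FStepA_wt D r c i
  rw [h0, Nat.cast_zero] at h1
  have hc0 : ∀ j, (0 : ℤ) < c j := fun j => by exact_mod_cast hc.pos j
  have h2 : ∀ j, D.a i (r j) + D.base i ⬝ᵥ D.ray (r j) = 0 := fun j =>
    (mul_eq_zero.1 ((Finset.sum_eq_zero_iff_of_nonneg fun j _ => mul_nonneg (hc0 j).le (by
      rw [add_comm]
      exact D.hf i _ (D.hbase i) _)).1 h1.symm j (Finset.mem_univ j))).resolve_left (hc0 j).ne'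
  have h3 := hc.rel _ (st.diff i hi u hu)
  refine hu' ⟨st.diff i hi u hu, fun j => ?_⟩
  refine (mul_eq_zero.1 ((Finset.sum_eq_zero_iff_of_nonneg fun j _ =>
    mul_nonneg (hc0 j).le ?_).1 h3 j (Finset.mem_univ j))).resolve_left (hc0 j).ne'
  have h4 := D.hf i u hu (r j)
  have h5 := h2 j
  rw [sub_dotProduct]
  linarith

/-- `logGrad_dot` with `γ = -(base i ⬝ᵥ nn)`. -/
theorem grad_inactive (D : Data n k R ι K) (i : Fin k) (nn : Fin n ⊕ Fin k → ℤ)
    (h : ∀ u ∈ (D.f i).support, (u - D.base i) ⬝ᵥ nn = 0) :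
    (logGrad D.x (D.f i) ⬝ᵥ fun l => (nn l : K)) = 0 := by
  rw [D.logGrad_dot i _ (-((D.base i ⬝ᵥ nn : ℤ) : K))]
  refine Finset.sum_eq_zero fun u hu => ?_
  rw [FStepA_dot, ← sub_eq_add_neg, ← Int.cast_sub, ← sub_dotProduct, h u hu, Int.cast_zero,
    mul_zero, smul_zero]

/-- Sketch: `F = AlgebraicClosure K`; `p` from `exists_cox` for the image of `x` (`map_mono`);
choose `P u ∈ perp` for `u ∈ Λ`. For `i ∉ I` let `G i = ∑ u ∈ supp (f i), monomial (ex i u)
(algebraMap K F (f i u • mono x (P (u - base i))))` with `ex i u j = (u ⬝ᵥ n_j + a i (r j)).toNat`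
(`Finsupp.equivFunOnFinite.symm`), and `G i = 0` for `i ∈ I`. The value of the `u`-term at `p` is
`γ i * (f i u • mono x u)` with `γ i = mono p (base i·n_j + a) / mono x (base i)`
(`mono_natCast`, `mono_add`, `mono_sub`). `p j * pderiv j` multiplies a monomial by its exponent
(`pderiv_monomial`), and `logGrad_dot` with `γ = a i (r j)` identifies the sum. A `σ` fixing
`D.fld (perp ..)` pointwise fixes the coefficients, so `eval (σ ∘ p) (G i) = σ (eval p (G i))`. -/
theorem State.cox_poly (st : D.State Λ I) {ℓ : ℕ} {r : Fin (ℓ + 1) → R} {c : Fin (ℓ + 1) → ℕ}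
    (hc : Circuit Λ (fun j => D.ray (r j)) c) :
    ∃ (p : Fin (ℓ + 1) → (AlgebraicClosure K)ˣ)
      (G : Fin k → MvPolynomial (Fin (ℓ + 1)) (AlgebraicClosure K))
      (γ : Fin k → AlgebraicClosure K),
      (∀ u ∈ Λ, ∃ u' ∈ perp Λ fun j => D.ray (r j), algebraMap K (AlgebraicClosure K) (mono D.x u) =
        algebraMap K (AlgebraicClosure K) (mono D.x u') * mono p fun j => u ⬝ᵥ D.ray (r j)) ∧
      ∀ i, i ∉ I → γ i ≠ 0 ∧ (∀ m ∈ (G i).support, ∑ j, c j * m j = D.wt r c i) ∧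
        (∀ j, (p j : AlgebraicClosure K) * eval (fun j => (p j : AlgebraicClosure K))
          (pderiv j (G i)) = γ i * algebraMap K (AlgebraicClosure K)
            (logGrad D.x (D.f i) ⬝ᵥ fun l => (D.ray (r j) l : K))) ∧
        ∀ σ : AlgebraicClosure K →+* AlgebraicClosure K,
          (∀ α ∈ D.fld (perp Λ fun j => D.ray (r j)), σ (algebraMap K (AlgebraicClosure K) α) =
            algebraMap K (AlgebraicClosure K) α) →
          eval (fun j => σ (p j)) (G i) = 0 := by
  classical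
  obtain ⟨p, Q, hp⟩ := exists_cox Λ (fun j => D.ray (r j))
    (fun l => Units.map (algebraMap K (AlgebraicClosure K) : K →* AlgebraicClosure K) (D.x l))
  have hp' : ∀ u ∈ Λ, ∃ u' ∈ perp Λ fun j => D.ray (r j),
      algebraMap K (AlgebraicClosure K) (mono D.x u) =
        algebraMap K (AlgebraicClosure K) (mono D.x u') * mono p fun j => u ⬝ᵥ D.ray (r j) := by
    intro u hu
    obtain ⟨u', h1, h2, -⟩ := hp u hu
    exact ⟨u', h1, by rw [map_mono, map_mono]; exact h2⟩
  have hp'' := hp'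
  choose! P hP1 hP2 using hp''
  obtain ⟨ex, hex⟩ : ∃ ex : Fin k → (Fin n ⊕ Fin k → ℤ) → Fin (ℓ + 1) →₀ ℕ,
      ∀ i, ∀ u ∈ (D.f i).support, ∀ j, (ex i u j : ℤ) = u ⬝ᵥ D.ray (r j) + D.a i (r j) :=
    ⟨fun i u => Finsupp.equivFunOnFinite.symm fun j => (u ⬝ᵥ D.ray (r j) + D.a i (r j)).toNat,
      fun i u hu j => Int.toNat_of_nonneg (D.hf i u hu (r j))⟩
  refine ⟨p, fun i => ∑ u ∈ (D.f i).support, monomial (ex i u)
      (algebraMap K (AlgebraicClosure K) (D.f i u • mono D.x (P (u - D.base i)))),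
    fun i => (mono p fun j => D.base i ⬝ᵥ D.ray (r j) + D.a i (r j)) /
      algebraMap K (AlgebraicClosure K) (mono D.x (D.base i)), hp', fun i hi => ?_⟩
  have hb0 : algebraMap K (AlgebraicClosure K) (mono D.x (D.base i)) ≠ 0 :=
    (map_ne_zero _).2 (mono_ne_zero _ _)
  have key : ∀ u ∈ (D.f i).support, eval (fun j => (p j : AlgebraicClosure K)) (monomial (ex i u)
      (algebraMap K (AlgebraicClosure K) (D.f i u • mono D.x (P (u - D.base i)))))
      = (mono p fun j => D.base i ⬝ᵥ D.ray (r j) + D.a i (r j)) /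
        algebraMap K (AlgebraicClosure K) (mono D.x (D.base i)) *
          algebraMap K (AlgebraicClosure K) (D.f i u • mono D.x u) := by
    intro u hu
    have e1 : (fun j => (ex i u j : ℤ)) = (fun j => (u - D.base i) ⬝ᵥ D.ray (r j)) +
        fun j => D.base i ⬝ᵥ D.ray (r j) + D.a i (r j) := by
      funext j
      rw [hex i u hu, Pi.add_apply, sub_dotProduct]
      ring
    have e2 := hP2 _ (st.diff i hi u hu)
    rw [mono_sub, map_div₀, div_eq_iff hb0] at e2
    rw [eval_monomial, Finsupp.prod_fintype _ _ (by simp), ← mono_natCast, e1, mono_add,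
      Algebra.smul_def, Algebra.smul_def, map_mul, map_mul, e2]
    field_simp
  refine ⟨div_ne_zero (mono_ne_zero _ _) hb0, fun m hm => ?_, fun j => ?_, fun σ hσ => ?_⟩
  · obtain ⟨u, hu, hm'⟩ := Finset.mem_biUnion.1 (support_sum hm)
    rw [Finset.mem_singleton.1 (support_monomial_subset hm')]
    apply Nat.cast_injective (R := ℤ)
    have h3 := hc.rel _ (st.diff i hi u hu)
    rw [FStepA_wt, Nat.cast_sum, ← add_zero (∑ j, (c j : ℤ) * (_ + _)), ← h3,
      ← Finset.sum_add_distrib]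
    refine Finset.sum_congr rfl fun j _ => ?_
    rw [Nat.cast_mul, hex i u hu, sub_dotProduct]
    ring
  · rw [D.logGrad_dot i _ (D.a i (r j) : K), map_sum, map_sum, map_sum, Finset.mul_sum,
      Finset.mul_sum]
    refine Finset.sum_congr rfl fun u hu => ?_
    have e3 := congrArg (eval fun j => (p j : AlgebraicClosure K))
      (X_mul_pderiv_monomial (i := j) (m := ex i u)
        (r := algebraMap K (AlgebraicClosure K) (D.f i u • mono D.x (P (u - D.base i)))))
    rw [map_mul, eval_X, map_nsmul, key u hu] at e3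
    rw [e3, FStepA_dot, ← Int.cast_add, ← hex i u hu, Int.cast_natCast, nsmul_eq_mul,
      ← smul_mul_assoc, map_mul, map_natCast]
    ring
  · have e4 : ∀ u ∈ (D.f i).support, eval (fun j => σ (p j)) (monomial (ex i u)
        (algebraMap K (AlgebraicClosure K) (D.f i u • mono D.x (P (u - D.base i)))))
        = σ (eval (fun j => (p j : AlgebraicClosure K)) (monomial (ex i u)
          (algebraMap K (AlgebraicClosure K) (D.f i u • mono D.x (P (u - D.base i)))))) := by
      intro u hu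
      have hm : D.f i u • mono D.x (P (u - D.base i)) ∈ D.fld (perp Λ fun j => D.ray (r j)) :=
        IntermediateField.smul_mem _ (IntermediateField.subset_adjoin ℂ _
          (Set.mem_image_of_mem _ (hP1 _ (st.diff i hi u hu))))
      rw [eval_monomial, eval_monomial, map_mul, hσ _ hm, Finsupp.prod_fintype _ _ (by simp),
        Finsupp.prod_fintype _ _ (by simp), map_prod]
      simp only [map_pow]
    rw [map_sum, Finset.sum_congr rfl e4, ← map_sum, Finset.sum_congr rfl key, ← Finset.mul_sum,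
      ← map_sum]
    have e5 : ∑ u ∈ (D.f i).support, D.f i u • mono D.x u = 0 := D.van i
    rw [e5, map_zero, mul_zero, map_zero]

end Pool.Agent.Lib.MP_bc213e_ag.TCI.Data
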