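import Pool.Agent.Lib.MP_bc213e_ag.TCI.Basic

/-! Farkas lemma over `ℚ` and for sublattices. -/

namespace Pool.Agent.Lib.MP_bc213e_ag.TCI

/-- A spanning family of a sublattice indexed by its rank (`Module.finBasis ℤ Λ`; submodules of
`S → ℤ` are free and finite). -/
theorem exists_basis {S : Type} [Fintype S] (Λ : Submodule ℤ (S → ℤ)) :
    ∃ β : Fin (Module.finrank ℤ Λ) → S → ℤ, (∀ a, β a ∈ Λ) ∧
      ∀ u ∈ Λ, ∃ t : Fin (Module.finrank ℤ Λ) → ℤ, u = ∑ a, t a • β a := by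
  let b := Module.finBasis ℤ Λ
  refine ⟨fun a => (b a : S → ℤ), fun a => (b a).2, fun u hu => ⟨b.repr ⟨u, hu⟩, ?_⟩⟩
  have h := congrArg Λ.subtype (b.sum_repr ⟨u, hu⟩)
  simp only [map_sum, map_smul, Submodule.subtype_apply] at h
  exact h.symm

/-- Homogeneous Farkas lemma (Bartl's proof). Induction on `s`, generalizing `α` and `γ`.
Insert `ρ₀`: if the hypothesis holds without `ρ₀` use the induction hypothesis (coefficient `0`).
Otherwise there is `v₀` with `0 ≤ α ρ v₀` for `ρ ∈ s`, `γ v₀ < 0`, hence `α ρ₀ v₀ < 0`; scale to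
`α ρ₀ v₀ = -1`. Let `T v = v + α ρ₀ v • v₀`, so `α ρ₀ (T v) = 0`; apply the induction hypothesis to
`α ρ ∘ T`, `γ ∘ T`. The new coefficient of `ρ₀` is `∑ c ρ * α ρ v₀ - γ v₀ ≥ 0`. -/
theorem farkas_hom {V R : Type} [AddCommGroup V] [Module ℚ V] (s : Finset R)
    (α : R → V →ₗ[ℚ] ℚ) (γ : V →ₗ[ℚ] ℚ) (h : ∀ v, (∀ ρ ∈ s, 0 ≤ α ρ v) → 0 ≤ γ v) :
    ∃ c : R → ℚ, (∀ ρ, 0 ≤ c ρ) ∧ ∀ v, γ v = ∑ ρ ∈ s, c ρ * α ρ v := by
  classical
  induction s using Finset.induction_on generalizing α γ with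
  | empty =>
    refine ⟨0, fun _ => le_rfl, fun v => ?_⟩
    have h1 := h v (by simp)
    have h2 := h (-v) (by simp)
    rw [map_neg] at h2
    rw [Finset.sum_empty]
    linarith
  | insert ρ₀ s hρ ih =>
    have hupd : ∀ (c : R → ℚ) (x : ℚ) (v : V),
        ∑ ρ ∈ insert ρ₀ s, Function.update c ρ₀ x ρ * α ρ v =
          x * α ρ₀ v + ∑ ρ ∈ s, c ρ * α ρ v := by
      intro c x v
      rw [Finset.sum_insert hρ, Function.update_self]
      congr 1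
      refine Finset.sum_congr rfl fun ρ hρ' => ?_
      rw [Function.update_of_ne (ne_of_mem_of_not_mem hρ' hρ)]
    have hnn : ∀ (c : R → ℚ) (x : ℚ), (∀ ρ, 0 ≤ c ρ) → 0 ≤ x →
        ∀ ρ, 0 ≤ Function.update c ρ₀ x ρ := by
      intro c x hc hx ρ
      rcases eq_or_ne ρ ρ₀ with rfl | hne
      · rwa [Function.update_self]
      · rw [Function.update_of_ne hne]
        exact hc ρ
    by_cases h' : ∀ v, (∀ ρ ∈ s, 0 ≤ α ρ v) → 0 ≤ γ v
    · obtain ⟨c, hc, hγ⟩ := ih α γ h'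
      exact ⟨Function.update c ρ₀ 0, hnn c 0 hc le_rfl, fun v => by
        rw [hupd, zero_mul, zero_add, hγ]⟩
    · push Not at h'
      obtain ⟨v₁, hv₁, hγ₁⟩ := h'
      have hneg : α ρ₀ v₁ < 0 := by
        by_contra hc
        refine absurd (h v₁ fun ρ hρ' => ?_) (not_le.mpr hγ₁)
        rcases Finset.mem_insert.mp hρ' with rfl | hρ'
        exacts [not_lt.mp hc, hv₁ ρ hρ']
      have hpos : 0 < (-α ρ₀ v₁)⁻¹ := inv_pos.mpr (neg_pos.mpr hneg)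
      obtain ⟨v₀, h0, h1, h2⟩ : ∃ v₀, α ρ₀ v₀ = -1 ∧ (∀ ρ ∈ s, 0 ≤ α ρ v₀) ∧ γ v₀ < 0 := by
        refine ⟨(-α ρ₀ v₁)⁻¹ • v₁, ?_, fun ρ hρ' => ?_, ?_⟩
        · rw [map_smul, smul_eq_mul, inv_neg, neg_mul, inv_mul_cancel₀ hneg.ne]
        · rw [map_smul, smul_eq_mul]
          exact mul_nonneg hpos.le (hv₁ ρ hρ')
        · rw [map_smul, smul_eq_mul]
          exact mul_neg_of_pos_of_neg hpos hγ₁
      let T : V →ₗ[ℚ] V := LinearMap.id + (α ρ₀).smulRight v₀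
      have hT : ∀ (φ : V →ₗ[ℚ] ℚ) (v : V), (φ ∘ₗ T) v = φ v + α ρ₀ v * φ v₀ := fun φ v => by
        simp [T]
      obtain ⟨c, hc, hγ⟩ := ih (fun ρ => α ρ ∘ₗ T) (γ ∘ₗ T) fun v hv => h (T v) fun ρ hρ' => by
        rcases Finset.mem_insert.mp hρ' with rfl | hρ'
        · have := hT (α ρ) v
          rw [h0] at this
          exact le_of_eq (by rw [← LinearMap.comp_apply, this]; ring)
        · exact hv ρ hρ'
      refine ⟨Function.update c ρ₀ (∑ ρ ∈ s, c ρ * α ρ v₀ - γ v₀), hnn c _ hc ?_, fun v => ?_⟩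
      · have := Finset.sum_nonneg fun ρ hρ' => mul_nonneg (hc ρ) (h1 ρ hρ')
        linarith
      · have h3 := hγ v
        simp only [hT, mul_add, Finset.sum_add_distrib, mul_left_comm _ (α ρ₀ v),
          ← Finset.mul_sum] at h3
        rw [hupd]
        linear_combination h3

theorem Farkas_den {ι : Type} [Fintype ι] (q : ι → ℚ) :
    ∃ N : ℕ, 0 < N ∧ ∃ z : ι → ℤ, ∀ i, (z i : ℚ) = N * q i := by
  refine ⟨∏ i, (q i).den, Finset.prod_pos fun i _ => (q i).den_pos, ?_⟩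
  have h : ∀ i, ∃ z : ℤ, (z : ℚ) = (∏ i, (q i).den : ℕ) * q i := fun i => by
    obtain ⟨k, hk⟩ := Finset.dvd_prod_of_mem (fun i => (q i).den) (Finset.mem_univ i)
    refine ⟨k * (q i).num, ?_⟩
    rw [hk]
    push_cast
    rw [← Rat.den_mul_eq_num]
    ring
  choose z hz using h
  exact ⟨z, hz⟩

/-- A certificate of infeasibility. -/
structure Bad {S R : Type} [Fintype S] [Fintype R] (Λ : Submodule ℤ (S → ℤ)) (ray : R → S → ℤ)
    (γ : R → ℤ) (c : R → ℕ) : Prop where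
  supp : ∀ ρ, c ρ ≠ 0 → ∃ u ∈ Λ, u ⬝ᵥ ray ρ ≠ 0
  rel : ∀ u ∈ Λ, ∑ ρ, (c ρ : ℤ) * (u ⬝ᵥ ray ρ) = 0
  pos : 0 < ∑ ρ, (c ρ : ℤ) * γ ρ

/-- Sketch: take `β` from `exists_basis`, `V = (Fin _ → ℚ) × ℚ`, `s` the rays that are nonzero on
`Λ`, `α ρ (t, τ) = ∑ a, t a * (β a ⬝ᵥ ray ρ) - τ * γ ρ`, functional `(t, τ) ↦ -τ`. If some `(t, τ)`
has all `α ρ ≥ 0` and `τ > 0`, clear denominators to get the first alternative. Otherwise
`farkas_hom` gives rational `c ≥ 0` with `∑ c ρ (β a ⬝ᵥ ray ρ) = 0` and `∑ c ρ γ ρ = 1`; clear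
denominators (`IsLocalization.exist_integer_multiples` or the product of the denominators) and set
`c ρ = 0` outside `s`. -/
theorem farkas_lat {S R : Type} [Fintype S] [Fintype R] (Λ : Submodule ℤ (S → ℤ))
    (ray : R → S → ℤ) (γ : R → ℤ) :
    (∃ r : ℕ, 0 < r ∧ ∃ m ∈ Λ, ∀ ρ, (∃ u ∈ Λ, u ⬝ᵥ ray ρ ≠ 0) → (r : ℤ) * γ ρ ≤ m ⬝ᵥ ray ρ) ∨
      ∃ c, Bad Λ ray γ c := by
  classical
  obtain ⟨β, hβ, hspan⟩ := exists_basis Λ
  let s : Finset R := Finset.univ.filter fun ρ => ∃ u ∈ Λ, u ⬝ᵥ ray ρ ≠ 0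
  have hs : ∀ ρ, ρ ∈ s ↔ ∃ u ∈ Λ, u ⬝ᵥ ray ρ ≠ 0 := fun ρ => by simp [s]
  let α : R → (Option (Fin (Module.finrank ℤ Λ)) → ℚ) →ₗ[ℚ] ℚ := fun ρ =>
    ∑ a, ((β a ⬝ᵥ ray ρ : ℤ) : ℚ) • LinearMap.proj (some a) - (γ ρ : ℚ) • LinearMap.proj none
  have hα : ∀ ρ v, α ρ v = ∑ a, ((β a ⬝ᵥ ray ρ : ℤ) : ℚ) * v (some a) - γ ρ * v none := by
    intro ρ v
    simp only [α, LinearMap.sub_apply, LinearMap.sum_apply, LinearMap.smul_apply,
      LinearMap.proj_apply, smul_eq_mul]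
  by_cases h : ∀ v, (∀ ρ ∈ s, 0 ≤ α ρ v) → 0 ≤ (-LinearMap.proj none :
      (Option (Fin (Module.finrank ℤ Λ)) → ℚ) →ₗ[ℚ] ℚ) v
  · right
    obtain ⟨c, hc, hγ⟩ := farkas_hom s α _ h
    obtain ⟨N, hN, z, hz⟩ := Farkas_den c
    have hz0 : ∀ ρ, 0 ≤ z ρ := fun ρ => by
      have : (0 : ℚ) ≤ z ρ := by
        rw [hz]
        exact mul_nonneg (Nat.cast_nonneg N) (hc ρ)
      exact_mod_cast this
    have hsum : ∀ w : R → ℤ, ((∑ ρ, (((if ρ ∈ s then (z ρ).toNat else 0 : ℕ) : ℤ)) * w ρ : ℤ) : ℚ) =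
        N * ∑ ρ ∈ s, c ρ * w ρ := by
      intro w
      rw [← Finset.sum_subset (Finset.subset_univ s) fun ρ _ hρ => by simp [hρ], Finset.mul_sum,
        Int.cast_sum]
      refine Finset.sum_congr rfl fun ρ hρ => ?_
      rw [if_pos hρ, Int.toNat_of_nonneg (hz0 ρ), Int.cast_mul, hz, mul_assoc]
    have h1 : ∀ a, ∑ ρ ∈ s, c ρ * ((β a ⬝ᵥ ray ρ : ℤ) : ℚ) = 0 := by
      intro a
      have := hγ (Pi.single (some a) 1)
      simp only [hα, Pi.single_apply, Option.some.injEq, mul_ite, mul_one, mul_zero,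
        Finset.sum_ite_eq', Finset.mem_univ, if_true, reduceCtorEq, if_false, sub_zero,
        LinearMap.neg_apply, LinearMap.proj_apply, neg_zero] at this
      exact this.symm
    have h2 : ∑ ρ ∈ s, c ρ * (γ ρ : ℚ) = 1 := by
      have := hγ (Pi.single none 1)
      simp only [hα, Pi.single_apply, mul_one, mul_zero, Finset.sum_const_zero,
        if_true, reduceCtorEq, if_false, zero_sub, mul_neg, Finset.sum_neg_distrib,
        LinearMap.neg_apply, LinearMap.proj_apply, neg_inj] at this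
      exact this.symm
    refine ⟨fun ρ => if ρ ∈ s then (z ρ).toNat else 0, fun ρ hρ => ?_, fun u hu => ?_, ?_⟩
    · by_contra hn
      exact hρ (if_neg fun hρ' => hn ((hs ρ).mp hρ'))
    · obtain ⟨t, rfl⟩ := hspan u hu
      simp only [sum_dotProduct, smul_dotProduct, smul_eq_mul, Finset.mul_sum]
      rw [Finset.sum_comm]
      refine Finset.sum_eq_zero fun a _ => ?_
      have h3 := hsum fun ρ => β a ⬝ᵥ ray ρ
      rw [h1, mul_zero, Int.cast_eq_zero] at h3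
      simp only [mul_left_comm _ (t a), ← Finset.mul_sum, h3, mul_zero]
    · have h3 := hsum γ
      rw [h2, mul_one] at h3
      have h4 : (0 : ℚ) < N := by exact_mod_cast hN
      rw [← h3] at h4
      exact_mod_cast h4
  · left
    push Not at h
    obtain ⟨v, hv, hτ⟩ := h
    obtain ⟨N, hN, z, hz⟩ := Farkas_den v
    have hN' : (0 : ℚ) < N := by exact_mod_cast hN
    have hz0 : 0 < z none := by
      have : (0 : ℚ) < z none := by
        rw [hz]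
        exact mul_pos hN' (neg_neg_iff_pos.mp hτ)
      exact_mod_cast this
    refine ⟨(z none).toNat, by omega, ∑ a, z (some a) • β a,
      Λ.sum_mem fun a _ => Λ.smul_mem _ (hβ a), fun ρ hρ => ?_⟩
    have h1 := mul_nonneg hN'.le (hv ρ ((hs ρ).mpr hρ))
    rw [hα, mul_sub, Finset.mul_sum, mul_left_comm, ← hz] at h1
    simp only [mul_left_comm (N : ℚ), ← hz] at h1
    rw [Int.toNat_of_nonneg hz0.le, sum_dotProduct]
    simp only [smul_dotProduct, smul_eq_mul, mul_comm (z _)]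
    exact_mod_cast sub_nonneg.mp h1

end Pool.Agent.Lib.MP_bc213e_ag.TCI
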