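import Pool.Agent.Lib.MP_bc213e_ag.TCI.LPb

/-! Comparison of logarithmic Jacobians. -/

namespace Pool.Agent.Lib.MP_bc213e_ag.TCI

open Matrix

/-- Reindexing rows changes `det2` by a sign (`Matrix.det_permute`, `det_submatrix_equiv_self`, or
`Matrix.det_reindex`). -/
theorem det2_congr {A B A' B' V F : Type} [Fintype A] [Fintype B] [Fintype A'] [Fintype B']
    [DecidableEq A] [DecidableEq B] [DecidableEq A'] [DecidableEq B'] [CommRing F]
    (e : A ⊕ B ≃ V) (e' : A' ⊕ B' ≃ V) (φ : A' ⊕ B' ≃ A ⊕ B) : ∃ ε : ℤ, (ε = 1 ∨ ε = -1) ∧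
      ∀ (H : Matrix A V F) (g : Matrix B V F) (H' : Matrix A' V F) (g' : Matrix B' V F),
        (∀ i, Matrix.fromRows H' g' i = Matrix.fromRows H g (φ i)) →
        det2 e' H' g' = ε * det2 e H g := by
  let ψ : A' ⊕ B' ≃ A ⊕ B := e'.trans e.symm
  let σ : Equiv.Perm (A ⊕ B) := ψ.symm.trans φ
  refine ⟨(Equiv.Perm.sign σ : ℤ), ?_, fun H g H' g' h => ?_⟩
  · rcases Int.units_eq_one_or (Equiv.Perm.sign σ) with h | h <;> simp [h]
  · have h1 : (Matrix.fromRows H' g').submatrix id e' =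
        (((Matrix.fromRows H g).submatrix id e).submatrix σ id).submatrix ψ ψ := by
      ext i j
      simp only [Matrix.submatrix_apply, id, σ, ψ, Equiv.trans_apply, Equiv.symm_apply_apply,
        Equiv.apply_symm_apply, Equiv.symm_trans_apply, Equiv.symm_symm]
      exact congrFun (h i) _
    rw [det2, det2, h1, Matrix.det_submatrix_equiv_self, Matrix.det_permute]

/-- Left multiplication of the first block: `fromRows (C * H) g = fromBlocks C 0 0 1 * fromRows H g`. -/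
theorem det2_mul_left {A B V F : Type} [Fintype A] [Fintype B] [DecidableEq A] [DecidableEq B]
    [CommRing F] (e : A ⊕ B ≃ V) (C : Matrix A A F) (H : Matrix A V F) (g : Matrix B V F) :
    det2 e (C * H) g = C.det * det2 e H g := by
  have h1 : (Matrix.fromRows (C * H) g).submatrix id e =
      Matrix.fromBlocks C 0 0 1 * (Matrix.fromRows H g).submatrix id e := by
    ext i j
    rcases i with i | i
    · simp [Matrix.mul_apply, Fintype.sum_sum_type]
    · simp [Matrix.mul_apply, Fintype.sum_sum_type, Matrix.one_apply]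
  rw [det2, det2, h1, Matrix.det_mul, Matrix.det_fromBlocks_zero₂₁, Matrix.det_one, mul_one]

theorem Jac_cast_dot {S K : Type} [Fintype S] [Field K] (u v : S → ℤ) :
    ((fun l => (u l : K)) ⬝ᵥ fun l => (v l : K)) = ((u ⬝ᵥ v : ℤ) : K) := by
  simp [dotProduct]

namespace Data

variable {n k : ℕ} {R ι K : Type} [Fintype R] [Field K] [Algebra ℂ K] {D : Data n k R ι K}
  {Λ : Submodule ℤ (Fin n ⊕ Fin k → ℤ)} {I : Finset (Fin k)}

/-- `exists_basis`, `Fintype.equivOfCardEq`, `Classical.epsilon_spec`. -/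
theorem State.isJac (st : D.State Λ I) : D.IsJac Λ I (D.jacI Λ I) := by
  obtain ⟨β, h1, h2⟩ := exists_basis Λ
  have hcard : Fintype.card (Fin (Module.finrank ℤ Λ) ⊕ I) = Fintype.card (Fin n ⊕ Fin k) := by
    simpa using st.rank
  exact Classical.epsilon_spec (p := D.IsJac Λ I) ⟨_, β, Fintype.equivOfCardEq hcard, h1, h2, rfl⟩

theorem State.jacI_ne (st : D.State Λ I) : D.jacI Λ I ≠ 0 := by
  obtain ⟨β, e, -, h2, h3⟩ := st.isJac
  rw [h3]
  exact st.jac_ne β h2 e

theorem State.phi_ne (st : D.State Λ I) : D.phi Λ I ≠ 0 :=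
  mul_ne_zero st.jacI_ne (mono_ne_zero _ _)

/-- Rows in `Λ`: `A ≃ Fin (finrank Λ)` by cardinality, `det2_congr`, `det2_mul_left` with the
integer coordinate matrix. -/
theorem State.jac_int (st : D.State Λ I) {A : Type} [Fintype A] [DecidableEq A]
    (e : A ⊕ I ≃ Fin n ⊕ Fin k) (η : A → Fin n ⊕ Fin k → ℤ) (hη : ∀ a, η a ∈ Λ) :
    ∃ c : ℤ, det2 e (Matrix.of fun a l => (η a l : K))
      (Matrix.of fun i : I => logGrad D.x (D.f i)) = c * D.jacI Λ I := by
  obtain ⟨β, e₁, -, h2, h3⟩ := st.isJac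
  have hcard : Fintype.card A = Fintype.card (Fin (Module.finrank ℤ Λ)) := by
    have h4 := Fintype.card_congr (e.trans e₁.symm)
    simp only [Fintype.card_sum] at h4
    omega
  let φ₀ : A ≃ Fin (Module.finrank ℤ Λ) := Fintype.equivOfCardEq hcard
  obtain ⟨ε, -, hε⟩ := det2_congr (F := K) e₁ e (φ₀.sumCongr (Equiv.refl I))
  choose t ht using fun a => h2 (η a) (hη a)
  let C : Matrix (Fin (Module.finrank ℤ Λ)) (Fin (Module.finrank ℤ Λ)) ℤ :=
    Matrix.of fun b b' => t (φ₀.symm b) b'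
  refine ⟨ε * C.det, ?_⟩
  rw [hε (C.map (Int.castRingHom K) * Matrix.of fun a l => (β a l : K))
    (Matrix.of fun i : I => logGrad D.x (D.f i)), det2_mul_left, ← h3]
  · have h5 := (Int.castRingHom K).map_det C
    rw [RingHom.mapMatrix_apply] at h5
    rw [← h5]
    simp [mul_assoc]
  · intro i
    rcases i with a | i
    · funext l
      have h6 := congrFun (ht a) l
      simp only [Finset.sum_apply, Pi.smul_apply, smul_eq_mul] at h6
      simp [Matrix.mul_apply, C, h6]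
    · rfl

/-- `η` lies in `Λ ⊗ K`. -/
def InK (Λ : Submodule ℤ (Fin n ⊕ Fin k → ℤ)) (η : Fin n ⊕ Fin k → K) : Prop :=
  ∀ v : Fin n ⊕ Fin k → K, (∀ u ∈ Λ, ∑ l, (u l : K) * v l = 0) → η ⬝ᵥ v = 0

theorem inK_cast {u : Fin n ⊕ Fin k → ℤ} (hu : u ∈ Λ) : InK Λ fun l => (u l : K) :=
  fun v hv => hv u hu

theorem State.inK_grad (st : D.State Λ I) {i : Fin k} (hi : i ∉ I) :
    InK Λ (logGrad D.x (D.f i)) := fun v hv => st.dot_eq_zero v hv hi

/-- Sketch: by `jac_surj` correct `nn a` to `Ξ a = nn a - ξ a` with `ξ a` orthogonal to `Λ` and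
`Ξ a` orthogonal to the gradients in `I`; `Ξ a` is also orthogonal to the `β b`. `exists_varpi`
gives `ϖ` with `(η * Ξᵀ).det = ϖ * det2 e η g`, and `η a ⬝ᵥ Ξ a' = η a ⬝ᵥ nn a'` for `η a` in
`Λ ⊗ K`. For the integer rows `η₀` of `Indep.exists_rows` the left side is a nonzero integer `d`,
and `det2 e η₀ g = ε * c₀ * jacI` (`det2_congr` along `Equiv.sumAssoc`, `jac_int` for `A ⊕ B`).
So `c₀ ≠ 0` and `ϖ * jacI = d / (ε * c₀)`. -/
theorem State.jac_varpi (st : D.State Λ I) {A B : Type} [Fintype A] [DecidableEq A] [Fintype B]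
    [DecidableEq B] (e : A ⊕ (B ⊕ I) ≃ Fin n ⊕ Fin k) (nn : A → Fin n ⊕ Fin k → ℤ)
    (hn : Indep Λ nn) (β : B → Fin n ⊕ Fin k → ℤ) (hβ : ∀ b, β b ∈ Λ)
    (orth : ∀ b a, β b ⬝ᵥ nn a = 0)
    (ind : LinearIndependent K (Sum.elim (fun b l => (β b l : K))
      fun i : I => logGrad D.x (D.f i))) :
    ∃ c : ℚ, c ≠ 0 ∧ ∀ η : A → Fin n ⊕ Fin k → K, (∀ a, InK Λ (η a)) →
      (Matrix.of fun a a' => η a ⬝ᵥ fun l => (nn a' l : K)).det * D.jacI Λ I =
        c * det2 e (Matrix.of η) (Matrix.of (Sum.elim (fun b l => (β b l : K))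
          fun i : I => logGrad D.x (D.f i))) := by
  have : CharZero K := charZero_of_injective_algebraMap (algebraMap ℂ K).injective
  choose ξ hξ1 hξ2 using fun a : A =>
    st.jac_surj fun i => logGrad D.x (D.f i) ⬝ᵥ fun l => (nn a l : K)
  let Ξ : Matrix A (Fin n ⊕ Fin k) K := Matrix.of fun a => (fun l => (nn a l : K)) - ξ a
  let g : Matrix (B ⊕ I) (Fin n ⊕ Fin k) K := Matrix.of (Sum.elim (fun b l => (β b l : K))
    fun i : I => logGrad D.x (D.f i))
  have hdot : ∀ η : Fin n ⊕ Fin k → K, InK Λ η → ∀ a, η ⬝ᵥ Ξ a = η ⬝ᵥ fun l => (nn a l : K) :=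
    fun η hη a => by
      change η ⬝ᵥ ((fun l => (nn a l : K)) - ξ a) = _
      rw [dotProduct_sub, hη _ (hξ1 a), sub_zero]
  have h0 : g * Ξᵀ = 0 := by
    ext i a
    change g i ⬝ᵥ Ξ a = 0
    rcases i with b | i
    · change (fun l => (β b l : K)) ⬝ᵥ Ξ a = 0
      rw [hdot _ (inK_cast (hβ b)), Jac_cast_dot, orth, Int.cast_zero]
    · change logGrad D.x (D.f i) ⬝ᵥ ((fun l => (nn a l : K)) - ξ a) = 0
      rw [dotProduct_sub, hξ2 a i i.2, sub_self]
  obtain ⟨ϖ, hϖ⟩ := exists_varpi e Ξ g ind h0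
  have key : ∀ η : A → Fin n ⊕ Fin k → K, (∀ a, InK Λ (η a)) →
      (Matrix.of fun a a' => η a ⬝ᵥ fun l => (nn a' l : K)).det =
        ϖ * det2 e (Matrix.of η) g := fun η hη => by
    rw [← hϖ]
    congr 1
    ext a a'
    exact (hdot _ (hη a) a').symm
  obtain ⟨η₀, h1, h2⟩ := hn.exists_rows
  obtain ⟨c₀, hc₀⟩ := st.jac_int ((Equiv.sumAssoc A B I).trans e) (Sum.elim η₀ β)
    (fun a => by rcases a with a | b; exacts [h1 a, hβ b])
  obtain ⟨ε, hε, hε'⟩ := det2_congr (F := K) ((Equiv.sumAssoc A B I).trans e) e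
    (Equiv.sumAssoc A B I).symm
  have h3 := hε' (Matrix.of fun a l => (Sum.elim η₀ β a l : K))
    (Matrix.of fun i : I => logGrad D.x (D.f i)) (Matrix.of fun a l => (η₀ a l : K)) g
    (fun i => by rcases i with a | b | i <;> rfl)
  have h4 := key (fun a l => (η₀ a l : K)) fun a => inK_cast (h1 a)
  have h5 : (Matrix.of fun a a' => (fun l => (η₀ a l : K)) ⬝ᵥ fun l => (nn a' l : K)).det =
      (((Matrix.of fun a l => η₀ a ⬝ᵥ nn l).det : ℤ) : K) := by
    have h6 := (Int.castRingHom K).map_det (Matrix.of fun a l => η₀ a ⬝ᵥ nn l)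
    rw [eq_intCast] at h6
    rw [h6]
    congr 1
    ext a a'
    exact (Jac_cast_dot (K := K) (η₀ a) (nn a')).trans (eq_intCast (Int.castRingHom K) _).symm
  rw [h5, h3, hc₀] at h4
  generalize (Matrix.of fun a l => η₀ a ⬝ᵥ nn l).det = d at h2 h4
  have hd : (d : K) ≠ 0 := Int.cast_ne_zero.2 h2
  have hec : ((ε * c₀ : ℤ) : K) ≠ 0 := fun h => hd (by
    rw [h4, ← mul_assoc (ε : K), ← Int.cast_mul, h, zero_mul, mul_zero])
  have hec' : ε * c₀ ≠ 0 := Int.cast_ne_zero.1 hec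
  refine ⟨(d : ℚ) / ((ε * c₀ : ℤ) : ℚ), div_ne_zero (Int.cast_ne_zero.2 h2)
    (Int.cast_ne_zero.2 hec'), fun η hη => ?_⟩
  rw [key η hη, Rat.cast_div, Rat.cast_intCast, Rat.cast_intCast, div_mul_eq_mul_div,
    eq_div_iff hec, h4]
  push_cast
  ring

/-- The index set of the stacked matrix in `mod_const`. -/
def Jac_equiv (n : ℕ) (I : Finset (Fin k)) :
    (Fin n ⊕ {i // i ∉ I}) ⊕ (Empty ⊕ I) ≃ Fin n ⊕ Fin k where
  toFun := Sum.elim (Sum.elim Sum.inl fun i => Sum.inr i.1)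
    (Sum.elim Empty.elim fun i => Sum.inr i.1)
  invFun := Sum.elim (fun a => Sum.inl (Sum.inl a)) fun i =>
    if h : i ∈ I then Sum.inr (Sum.inr ⟨i, h⟩) else Sum.inl (Sum.inr ⟨i, h⟩)
  left_inv x := by
    rcases x with (a | i) | (b | i)
    · rfl
    · simp [i.2]
    · exact b.elim
    · simp [i.2]
  right_inv x := by
    rcases x with a | i
    · rfl
    · by_cases h : i ∈ I <;> simp [h]

/-- Sketch: `jac_varpi` with `A = Fin n ⊕ {i // i ∉ I}`, `B = Empty`, `nn a = ray (r (e₀ a))`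
(`IsBas.reindex`, `IsBas.indep`), `η = Sum.elim μ grad`; independence from `D.indep`. The left
determinant is `det2 e₀` of the matrices with entries `μ a ⬝ᵥ ray` and
`mono (base i) * ng i (r l)` (`det2_diagonal_mul`), the right one is `± d0 μ` (`det2_congr` with
`Equiv.refl`; `{i // i ∉ I} ⊕ I ≃ Fin k` by `Equiv.sumCompl`). -/
theorem State.mod_const (st : D.State Λ I) {V : Type} [Fintype V] {r : V → R}
    (hb : IsBas Λ fun l => D.ray (r l)) (e₀ : Fin n ⊕ {i // i ∉ I} ≃ V) :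
    ∃ c : ℚ, c ≠ 0 ∧ ∀ μ : Fin n → Fin n ⊕ Fin k → ℤ, (∀ a, μ a ∈ Λ) →
      det2 e₀ (Matrix.of fun a l => ((μ a ⬝ᵥ D.ray (r l) : ℤ) : K))
        (Matrix.of fun (i : {i // i ∉ I}) l => D.ng i (r l)) * D.phi Λ I = c * D.d0 μ := by
  have : CharZero K := charZero_of_injective_algebraMap (algebraMap ℂ K).injective
  have hind : LinearIndependent K (Sum.elim (fun (b : Empty) l => ((b.elim : _ → ℤ) l : K))
      fun i : I => logGrad D.x (D.f i)) := by
    have h1 := D.indep.comp (Sum.elim (Empty.elim : Empty → Fin k) fun i : I => i.1) (by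
      rintro (b | i) (b' | i') h
      · exact b.elim
      · exact b.elim
      · exact b'.elim
      · exact congrArg Sum.inr (Subtype.ext h))
    convert h1 using 1
    funext i
    rcases i with b | i
    · exact b.elim
    · rfl
  obtain ⟨c, hc, h⟩ := st.jac_varpi (Jac_equiv n I) (fun a => D.ray (r (e₀ a)))
    (hb.reindex e₀).indep Empty.elim (fun b => b.elim) (fun b => b.elim) hind
  obtain ⟨ε, hε, hε'⟩ := det2_congr (F := K) (Equiv.refl (Fin n ⊕ Fin k)) (Jac_equiv n I)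
    (Jac_equiv n I)
  refine ⟨c * ε, mul_ne_zero hc (by rcases hε with h | h <;> simp [h]), fun μ hμ => ?_⟩
  have h1 := h (Sum.elim (fun a l => (μ a l : K)) fun i => logGrad D.x (D.f i)) (by
    rintro (a | i)
    · exact inK_cast (hμ a)
    · exact st.inK_grad i.2)
  rw [hε' (Matrix.of fun a l => (μ a l : K)) (Matrix.of fun i => logGrad D.x (D.f i)) _ _ (by
    rintro ((a | i) | (b | i))
    · rfl
    · rfl
    · exact b.elim
    · rfl)] at h1
  have h2 : (Matrix.of fun a a' => Sum.elim (fun a l => (μ a l : K))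
      (fun i : {i // i ∉ I} => logGrad D.x (D.f i)) a ⬝ᵥ fun l => (D.ray (r (e₀ a')) l : K)).det =
      det2 e₀ (Matrix.of fun a l => ((μ a ⬝ᵥ D.ray (r l) : ℤ) : K))
        (Matrix.diagonal (fun i : {i // i ∉ I} => mono D.x (D.base i)) *
          Matrix.of fun (i : {i // i ∉ I}) l => D.ng i (r l)) := by
    rw [det2]
    congr 1
    ext a a'
    rcases a with a | i
    · exact Jac_cast_dot (K := K) (μ a) (D.ray (r (e₀ a')))
    · simp only [Matrix.of_apply, Sum.elim_inr, Matrix.submatrix_apply, id,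
        Matrix.fromRows_apply_inr, Matrix.diagonal_mul, ng]
      rw [mul_div_cancel₀ _ (mono_ne_zero _ _)]
  rw [h2, det2_diagonal_mul] at h1
  have h3 : mono D.x (∑ i ∈ Iᶜ, D.base i) = ∏ i : {i // i ∉ I}, mono D.x (D.base i) := by
    rw [mono_sum, Finset.prod_subtype (p := fun i => i ∉ I) Iᶜ (fun i => Finset.mem_compl)]
  have h4 : det2 (Equiv.refl (Fin n ⊕ Fin k)) (Matrix.of fun a l => (μ a l : K))
      (Matrix.of fun i => logGrad D.x (D.f i)) = D.d0 μ := rfl
  rw [h4] at h1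
  rw [phi, h3]
  push_cast
  linear_combination h1

theorem State.card_bas (st : D.State Λ I) {V : Type} [Fintype V] {nn : V → Fin n ⊕ Fin k → ℤ}
    (hb : IsBas Λ nn) : Fintype.card (Fin n ⊕ {i // i ∉ I}) = Fintype.card V := by
  have hI : I.card ≤ k := by simpa using Finset.card_le_univ I
  have h1 := st.rank
  simp only [Fintype.card_sum, Fintype.card_fin, Fintype.card_subtype_compl, Fintype.card_coe,
    hb.card]
  omega

end Data

end Pool.Agent.Lib.MP_bc213e_ag.TCI
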