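import Pool.Agent.Lib.MP_bc213e_ag.TCI.Mod1
import Pool.Agent.Lib.MP_bc213e_ag.TCI.Jac
import Pool.Agent.Lib.MP_bc213e_ag.TCI.Trp
import Pool.Agent.Lib.MP_bc213e_ag.TCI.W
import Pool.Agent.Lib.MP_bc213e_ag.TCI.Cox

/-! The simplicial charts. -/

namespace Pool.Agent.Lib.MP_bc213e_ag.TCI.Data

open WithZero Matrix MvPolynomial

variable {n k : ℕ} {R ι K : Type} [Fintype R] [Field K] [Algebra ℂ K] {D : Data n k R ι K}
  {Λ : Submodule ℤ (Fin n ⊕ Fin k → ℤ)} {I : Finset (Fin k)} {V : Type} [Fintype V] {r : V → R}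

/-- The coordinate ring of the chart. -/
def bring (D : Data n k R ι K) (Λ : Submodule ℤ (Fin n ⊕ Fin k → ℤ)) (r : V → R) :
    Subalgebra ℂ K :=
  Algebra.adjoin ℂ (mono D.x '' {u | u ∈ Λ ∧ ∀ l, 0 ≤ u ⬝ᵥ D.ray (r l)})

/-- The field generated by `z` over `ℂ` contains the image of `K` (`st.gen`), as in `np_coord` of
the old file `NPb`. -/
theorem State.gen_top (st : D.State Λ I) {E : Type} [Field E] [Algebra ℂ E] [Algebra K E]
    [IsScalarTower ℂ K E] (z : V → Eˣ)
    (hz : ∀ u ∈ Λ, algebraMap K E (mono D.x u) = mono z fun l => u ⬝ᵥ D.ray (r l))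
    (gen : IntermediateField.adjoin K (Set.range fun l => (z l : E)) = ⊤) :
    IntermediateField.adjoin ℂ (Set.range fun l => (z l : E)) = ⊤ := by
  set F := IntermediateField.adjoin ℂ (Set.range fun l => (z l : E)) with hF
  have hv : ∀ l, (z l : E) ∈ F := fun l => IntermediateField.subset_adjoin _ _ ⟨l, rfl⟩
  have hK : ∀ α : K, algebraMap K E α ∈ F := by
    have h1 : D.fld Λ ≤ F.comap (IsScalarTower.toAlgHom ℂ K E) := by
      refine IntermediateField.adjoin_le_iff.2 ?_
      rintro _ ⟨u, hu, rfl⟩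
      change algebraMap K E (mono D.x u) ∈ F
      rw [hz u hu]
      exact prod_mem fun l _ => zpow_mem (hv l) _
    intro α
    exact h1 (st.gen ▸ IntermediateField.mem_top)
  refine eq_top_iff.2 fun w _ => ?_
  have hw : w ∈ IntermediateField.adjoin K (Set.range fun j => (z j : E)) :=
    gen ▸ IntermediateField.mem_top
  induction hw using IntermediateField.adjoin_induction with
  | mem w hw =>
    obtain ⟨j, rfl⟩ := hw
    exact hv j
  | algebraMap α => exact hK α
  | add a b _ _ ha hb => exact add_mem (ha trivial) (hb trivial)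
  | inv a _ ha => exact inv_mem (ha trivial)
  | mul a b _ _ ha hb => exact mul_mem (ha trivial) (hb trivial)

/-- `exists_cox` in `Ω = AlgebraicClosure K` (`perp Λ .. = ⊥` by `hb.inj`), `E` the intermediate
field generated by the `p l`; compare `CoxAux`, `exists_cone`. -/
theorem State.exists_bas (st : D.State Λ I) (hb : IsBas Λ fun l => D.ray (r l)) :
    ∃ (E : Type) (_ : Field E) (_ : Algebra ℂ E) (_ : Algebra K E) (_ : IsScalarTower ℂ K E)
      (z : V → Eˣ), Algebra.IsAlgebraic K E ∧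
      (∀ u ∈ Λ, algebraMap K E (mono D.x u) = mono z fun l => u ⬝ᵥ D.ray (r l)) ∧
      IntermediateField.adjoin ℂ (Set.range fun l => (z l : E)) = ⊤ := by
  classical
  obtain ⟨p, Q, hpQ⟩ := exists_cox Λ (fun l => D.ray (r l)) (F := AlgebraicClosure K) fun l =>
    Units.map ((algebraMap K (AlgebraicClosure K) : K →+* _) : K →* AlgebraicClosure K) (D.x l)
  let E := IntermediateField.adjoin K (Set.range fun j => (p j : AlgebraicClosure K))
  let z : V → Eˣ := fun j =>
    Units.mk0 ⟨p j, IntermediateField.subset_adjoin _ _ ⟨j, rfl⟩⟩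
      fun h => (p j).ne_zero (congrArg Subtype.val h)
  have hz0 : ∀ j, algebraMap E (AlgebraicClosure K) (z j) = p j := fun j => rfl
  have hz : ∀ u ∈ Λ, algebraMap K E (mono D.x u) = mono z fun l => u ⬝ᵥ D.ray (r l) := by
    intro u hu
    obtain ⟨u', hu', e1, -⟩ := hpQ u hu
    rw [hb.inj u' hu'.1 hu'.2, mono_zero, one_mul, ← map_mono] at e1
    apply (algebraMap E (AlgebraicClosure K)).injective
    rw [← IsScalarTower.algebraMap_apply, e1]
    simp only [mono, map_prod, map_zpow₀, hz0]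
  have gen : IntermediateField.adjoin K (Set.range fun l => (z l : E)) = ⊤ := by
    apply IntermediateField.lift_injective
    rw [IntermediateField.lift_adjoin, IntermediateField.lift_top, ← Set.range_comp]
    rfl
  exact ⟨E, inferInstance, inferInstance, inferInstance, inferInstance, z, inferInstance, hz,
    st.gen_top z hz gen⟩

/-- Denominators. With `N, U` from `IsBas.dual`, `mono u ^ N = ∏ mono (U l) ^ (u ⬝ᵥ n l)`
(`IsBas.expand`). More simply: for `u ∈ Λ`, `u = (u + M • ∑ U l) - M • ∑ U l` is a difference of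
two elements of the dual cone, so `K` is the fraction field of `bring` (`st.gen`,
`IntermediateField.mem_adjoin_iff_div`); take the product of the denominators. -/
theorem State.bring_den (st : D.State Λ I) (hb : IsBas Λ fun l => D.ray (r l)) {X : Type}
    [Fintype X] (α : X → K) :
    ∃ Θ ∈ D.bring Λ r, Θ ≠ 0 ∧ ∀ j, Θ * α j ∈ D.bring Λ r := by
  classical
  obtain ⟨N, hN, U, hU⟩ := hb.dual
  have hmem : ∀ u ∈ Λ, (∀ l, 0 ≤ u ⬝ᵥ D.ray (r l)) → mono D.x u ∈ D.bring Λ r :=
    fun u hu h => Algebra.subset_adjoin ⟨u, ⟨hu, h⟩, rfl⟩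
  have key : ∀ a ∈ D.fld Λ, ∃ Θ ∈ D.bring Λ r, Θ ≠ 0 ∧ Θ * a ∈ D.bring Λ r := by
    intro a ha
    induction ha using IntermediateField.adjoin_induction with
    | mem a ha =>
      obtain ⟨u, hu, rfl⟩ := ha
      have h1 : ∑ l, |u ⬝ᵥ D.ray (r l)| • U l ∈ Λ :=
        Λ.sum_mem fun l _ => Λ.smul_mem _ (hU l).1
      have h2 : ∀ l', |u ⬝ᵥ D.ray (r l')| ≤ (∑ l, |u ⬝ᵥ D.ray (r l)| • U l) ⬝ᵥ D.ray (r l') := by
        intro l'
        simp only [sum_dotProduct, smul_dotProduct, (hU _).2, smul_eq_mul, mul_ite, mul_zero,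
          Finset.sum_ite_eq', Finset.mem_univ, if_true]
        exact le_mul_of_one_le_right (abs_nonneg _) (by exact_mod_cast hN)
      refine ⟨_, hmem _ h1 fun l => (abs_nonneg _).trans (h2 l), mono_ne_zero _ _, ?_⟩
      rw [← mono_add]
      refine hmem _ (Λ.add_mem h1 hu) fun l => ?_
      rw [add_dotProduct]
      linarith [h2 l, neg_abs_le (u ⬝ᵥ D.ray (r l))]
    | algebraMap c => exact ⟨1, one_mem _, one_ne_zero, by rw [one_mul]; exact algebraMap_mem _ c⟩
    | add a b _ _ ha hb =>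
      obtain ⟨Θ, h1, h2, h3⟩ := ha
      obtain ⟨Θ', k1, k2, k3⟩ := hb
      refine ⟨Θ * Θ', mul_mem h1 k1, mul_ne_zero h2 k2, ?_⟩
      rw [show Θ * Θ' * (a + b) = Θ' * (Θ * a) + Θ * (Θ' * b) by ring]
      exact add_mem (mul_mem k1 h3) (mul_mem h1 k3)
    | inv a _ ha =>
      obtain ⟨Θ, h1, h2, h3⟩ := ha
      by_cases h0 : a = 0
      · exact ⟨1, one_mem _, one_ne_zero, by rw [h0, _root_.inv_zero, mul_zero]; exact zero_mem _⟩
      · exact ⟨Θ * a, h3, mul_ne_zero h2 h0, by rwa [mul_inv_cancel_right₀ h0]⟩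
    | mul a b _ _ ha hb =>
      obtain ⟨Θ, h1, h2, h3⟩ := ha
      obtain ⟨Θ', k1, k2, k3⟩ := hb
      refine ⟨Θ * Θ', mul_mem h1 k1, mul_ne_zero h2 k2, ?_⟩
      rw [mul_mul_mul_comm]
      exact mul_mem h3 k3
  choose Θ h1 h2 h3 using fun j => key (α j) (st.gen ▸ IntermediateField.mem_top)
  refine ⟨∏ j, Θ j, prod_mem fun j _ => h1 j, Finset.prod_ne_zero_iff.2 fun j _ => h2 j,
    fun j => ?_⟩
  rw [← Finset.prod_erase_mul _ _ (Finset.mem_univ j), mul_assoc]
  exact mul_mem (prod_mem fun i _ => h1 i) (h3 j)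

/-- Sketch: `E, z` from `exists_bas`; `trdeg ℂ E = n` (`trdeg_add_eq`); `τ` a transcendence basis
of `K`, its image is one of `E` (`isTrBasis_of_card`), `δ` dual to it (`exists_dual`), `μ` from
`exists_lambda` for the restricted derivations (as in `np_der` of the old file `NPa`),
`e₀` from `card_bas`, `G, ϖ` from `mod_sys` (`IsBas.psi`), `c` from `mod_const`. Apply `thmW` to
the image of `Φ`. For a `GoodVal` `w` put `μ₀ l = ord w (z l)` and `w' = w.comap`: `Dec` by `hz`,
`ord_mono`, `push_dot`; `Trop` by `res_indep` with `X = Empty`, `y l = algebraMap (mono (U l))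
= z l ^ N` (`IsBas.dual`; `card {a // a ≠ i} = n - 1`); `win` by `win_core` with
`Z = mono z (-gam)` and `GoodVal.form` (transpose); `unit`: `N * μ₀ l = ord (mono (U l)) = 0`.
Finally the `z l` are integral over `bring` (`z l ^ N` is in the image), so the image of `Φ` is
integral over `bring` (`isIntegral_trans` or `IsIntegral.of_mem_of_fg` style; `WStep_int`),
and `isIntegral_algebraMap_iff` descends to `K`. -/
theorem State.hartogs_bas (st : D.State Λ I) (hb : IsBas Λ fun l => D.ray (r l)) (Φ : K)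
    (hΦ : ∀ (w : Valuation K ℤᵐ⁰) (μ₀ : V → ℚ), D.Nice Λ I w (push r μ₀) →
      (∀ l, 0 ≤ μ₀ l) → w Φ ≤ 1) :
    IsIntegral (D.bring Λ r) Φ := by
  classical
  obtain ⟨E, _, _, _, _, z, halg, hz, gen⟩ := st.exists_bas hb
  have dimE : Algebra.trdeg ℂ E = Fintype.card (Fin n) := by
    rw [← trdeg_add_eq ℂ K (A := E), D.dim, trdeg_eq_zero, add_zero, Fintype.card_fin]
  obtain ⟨s, hs⟩ := exists_trBasis D.dim
  have hτ := isTrBasis_of_card (algebraMap K E ∘ s)
    (hs.1.map' (f := IsScalarTower.toAlgHom ℂ K E) (algebraMap K E).injective) dimE.le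
  obtain ⟨d, hd⟩ := exists_dual _ hτ
  obtain ⟨μ, hμ, hdet⟩ := exists_lambda D.x Λ st.gen
    (fun b => (d b).compAlgebraMap K) fun β hβ => by
      funext a
      have := hβ (s a)
      have h1 : ∀ b, ((d b).compAlgebraMap K) (s a) = if b = a then 1 else 0 := fun b => hd b a
      simpa [h1] using this
  let e₀ := Fintype.equivOfCardEq (st.card_bas hb)
  obtain ⟨Ψ, hΨ⟩ := hb.psi
  obtain ⟨G, ϖ, hG, hϖ, hform⟩ := st.mod_sys z hz Ψ hΨ e₀ d
  obtain ⟨c, hc, hconst⟩ := st.mod_const hb e₀
  obtain ⟨N, hN, U, hU⟩ := hb.dual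
  have hzN : ∀ l, algebraMap K E (mono D.x (U l)) = (z l : E) ^ N := fun l => by
    rw [hz _ (hU l).1, mono, Finset.prod_eq_single l]
    · rw [(hU l).2, if_pos rfl, zpow_natCast]
    · intro l' _ h
      rw [(hU l).2, if_neg (Ne.symm h), zpow_zero]
    · exact fun h => absurd (Finset.mem_univ l) h
  have hint : IsIntegral (Algebra.adjoin ℂ (Set.range fun l => (z l : E))) (algebraMap K E Φ) := by
    refine thmW e₀ _ gen dimE G hG d ϖ hϖ _ fun w hw => ?_
    have hnn : ∀ l, 0 ≤ ord w (z l : E) := fun l => ord_nonneg w (hw.gens l)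
    refine hΦ (w.comap (algebraMap K E)) (fun l => ord w (z l)) ⟨⟨fun a => ?_,
      push_nonneg r hnn, fun u hu => ?_⟩, ?_, fun r₀ u hr hu => ?_, fun hx => ?_⟩ hnn
    · rw [Valuation.comap_apply, ← IsScalarTower.algebraMap_apply]
      exact hw.base a
    · rw [ord_comap, hz u hu, ord_mono, push_dot]
      exact Finset.sum_congr rfl fun l _ => mul_comm _ _
    · obtain ⟨i, T, hT⟩ := hw.res
      obtain ⟨t, ht⟩ := res_indep (X := Empty) w hw.base (fun l => (z l : E))
        (fun l => algebraMap K E (mono D.x (U l))) Empty.elim hw.gens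
        (fun l => by rw [hzN, map_pow]; exact pow_le_one' (hw.gens l) N) (fun j => j.elim)
        (fun l => ⟨N, Empty.elim, hN, by simp [hzN]⟩) T hT (d := n - 1) (by simp)
      refine ⟨fun a => U (t a), fun Q hQ => ?_⟩
      rw [Valuation.comap_apply, ← MvPolynomial.aeval_algebraMap_apply]
      exact ht Q hQ
    · have h1 := hform fun a l => μ a ⬝ᵥ D.ray (r l)
      simp only [fun a => (hz _ (hμ a)).symm] at h1
      have h2 := hw.form (fun a => algebraMap K E (u a)) hu
      rw [← Matrix.det_transpose] at h2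
      obtain ⟨h3, h4⟩ := st.win_core (fun b => (d b).compAlgebraMap K) μ hc hdet h1 (hconst μ hμ)
        w hw.base hr h2
      refine ⟨h3, h4.trans (le_of_eq ?_)⟩
      rw [ord_comap, ord_mono, push_dot, ← Finset.sum_neg_distrib]
      refine congrArg (· - _) (Finset.sum_congr rfl fun l _ => ?_)
      rw [gq, Int.cast_neg]
      ring
    · have h0 : (fun l => ord w (z l : E)) = 0 := by
        funext l
        have h1 := ord_mono (w.comap (algebraMap K E)) D.x (U l)
        rw [ord_comap, hzN, ord_pow, Finset.sum_eq_zero fun i _ => by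
          rw [ord_eq_zero _ (hx i), mul_zero]] at h1
        exact (mul_eq_zero.1 h1).resolve_left (Nat.cast_ne_zero.2 hN.ne')
      rw [h0, push_zero]
  have hzi : ∀ l, IsIntegral (D.bring Λ r) (z l : E) := fun l => by
    refine IsIntegral.of_pow hN ?_
    have hm : mono D.x (U l) ∈ D.bring Λ r := Algebra.subset_adjoin ⟨U l, ⟨(hU l).1, fun l' => by
      rw [(hU l).2]
      split_ifs
      · exact Int.natCast_nonneg N
      · exact le_rfl⟩, rfl⟩
    rw [← hzN]
    exact isIntegral_algebraMap (x := (⟨_, hm⟩ : D.bring Λ r))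
  have h2 : IsIntegral (integralClosure (D.bring Λ r) E) (algebraMap K E Φ) := by
    refine WStep_int _ (fun α hα => ?_) hint
    have h3 : α ∈ integralClosure (D.bring Λ r) E := by
      induction hα using Algebra.adjoin_induction with
      | mem a ha =>
        obtain ⟨l, rfl⟩ := ha
        exact hzi l
      | algebraMap a =>
        rw [IsScalarTower.algebraMap_apply ℂ K E]
        exact isIntegral_algebraMap (x := (⟨_, algebraMap_mem _ a⟩ : D.bring Λ r))
      | add a b _ _ ha hb => exact add_mem ha hb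
      | mul a b _ _ ha hb => exact mul_mem ha hb
    exact ⟨⟨α, h3⟩, rfl⟩
  exact (isIntegral_algebraMap_iff (algebraMap K E).injective).1 (isIntegral_trans _ h2)

end Pool.Agent.Lib.MP_bc213e_ag.TCI.Data
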