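import Pool.Agent.Lib.MP_bc213e_ag.TCI.Inv
import Pool.Agent.Lib.MP_bc213e_ag.TCI.ModB

/-! The feasible case. -/

namespace Pool.Agent.Lib.MP_bc213e_ag.TCI.Data

open WithZero

variable {n k : ℕ} {R ι K : Type} [Fintype R] [Fintype ι] [Field K] [Algebra ℂ K]
  {D : Data n k R ι K} {Λ : Submodule ℤ (Fin n ⊕ Fin k → ℤ)} {I : Finset (Fin k)} {e : ℕ} {H : K}
  {γ : R → ℚ}

omit [Fintype ι] in
/-- A valuation that is nonnegative on the dual cone is at most one on `bring`. -/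
theorem Fin_le_one {V : Type} {r : V → R} {w : Valuation K ℤᵐ⁰}
    (hw : ∀ c : ℂ, w (algebraMap ℂ K c) ≤ 1)
    (h : ∀ u ∈ Λ, (∀ l, 0 ≤ u ⬝ᵥ D.ray (r l)) → 0 ≤ ord w (mono D.x u)) :
    ∀ α ∈ D.bring Λ r, w α ≤ 1 := fun _ hα =>
  val_le_one_of_mem_adjoin w hw (by
    rintro _ ⟨u, hu, rfl⟩
    exact le_one_of_ord w fun _ => h u hu.1 hu.2) hα

omit [Fintype R] in
/-- Rescaling of a feasible point. -/
theorem Fin_scale {S : Type} [Fintype S] {Λ : Submodule ℤ (S → ℤ)} {ray : R → S → ℤ} {r : ℕ}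
    {m : S → ℤ} (h : FeasAt Λ ray γ r m) {c : ℕ} (hc : 0 < c) :
    FeasAt Λ ray γ (c * r) (c • m) where
  pos := Nat.mul_pos hc h.pos
  mem := Λ.smul_of_tower_mem c h.mem
  le := fun ρ hρ => by
    rw [smul_dotProduct, nsmul_eq_mul]
    push_cast
    rw [mul_assoc]
    exact mul_le_mul_of_nonneg_left (h.le ρ hρ) (Nat.cast_nonneg c)

/-- One chart. Take `Θ` from `bring_den` for `α σ = mono (-m₀ σ)`, `s = N * ord w Θ ≥ 0`. Put
`h = (H ^ r₁ * mono (e • m)) ^ N'`, `N = e * r₁ * N'` and `Φ = (φ ^ N / h ^ (t * M)) ^ N₀ * Θ ^ (M * N)`.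
For a nice `w'` with weights `μ = push r μ₀`: `w' ≤ 1` on `bring`
(`val_le_one_of_mem_adjoin`, `Dec.eq`, `push_dot`), `ord w' (mono m) = r₁ * μ ⬝ᵥ γ` by tightness,
so `ord w' h = N * (μ ⬝ᵥ γ + ord w' H / e)` and `sec_bound` with `s = ord w' Θ` gives
`0 ≤ ord w' Φ`. By `hartogs_bas`, `Φ` is integral over `bring`, so `w Φ ≤ 1`; divide by `N₀ ≥ 1`. -/
theorem Inv.fin_chart (h : D.Inv Λ I D.q e H γ) {V : Type} [Fintype V] {r : V → R}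
    (hb : IsBas Λ fun l => D.ray (r l)) {r₁ : ℕ} {m : Fin n ⊕ Fin k → ℤ} (hm : m ∈ Λ)
    (ht : ∀ l, r₁ * γ (r l) = (m ⬝ᵥ D.ray (r l) : ℤ)) (N' : ℕ) {b : R → ℤ} {N₀ : ℕ}
    (hN₀ : 0 < N₀) {m₀ : ι → Fin n ⊕ Fin k → ℤ} (hm₀ : ∀ σ, LocEq D.ray (D.cone σ) b N₀ (m₀ σ))
    {w : Valuation K ℤᵐ⁰} (hw : ∀ α ∈ D.bring Λ r, w α ≤ 1) :
    ∃ s : ℚ, ∀ (t M : ℕ) (φ : K), φ ≠ 0 →
      Sec D.ray D.cone D.x (fun ρ => t * D.kap ρ + b ρ) M φ →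
        (t * M : ℕ) * ord w ((H ^ r₁ * mono D.x (e • m)) ^ N') - s * M ≤
          (e * r₁ * N' : ℕ) * ord w φ := by
  obtain ⟨Θ, hΘ, hΘ0, hΘα⟩ := h.st.bring_den hb fun σ => mono D.x (-m₀ σ)
  have he : (e : ℚ) ≠ 0 := Nat.cast_ne_zero.2 h.epos.ne'
  have hne : H ^ r₁ * mono D.x (e • m) ≠ 0 := mul_ne_zero (pow_ne_zero _ h.hne) (mono_ne_zero _ _)
  obtain ⟨hh, hhh⟩ : ∃ hh, hh = (H ^ r₁ * mono D.x (e • m)) ^ N' := ⟨_, rfl⟩
  have hh0 : hh ≠ 0 := hhh ▸ pow_ne_zero _ hne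
  obtain ⟨N, hN⟩ : ∃ N, N = e * r₁ * N' := ⟨_, rfl⟩
  rw [← hhh, ← hN]
  refine ⟨N * ord w Θ, fun t M φ hφ0 hφ => ?_⟩
  have hord : ∀ w' : Valuation K ℤᵐ⁰, ord w' ((φ ^ N / hh ^ (t * M)) ^ N₀ * Θ ^ (M * N)) =
      N₀ * (N * ord w' φ - (t * M : ℕ) * ord w' hh) + (M * N : ℕ) * ord w' Θ := fun w' => by
    rw [ord_mul w' (pow_ne_zero _ (div_ne_zero (pow_ne_zero _ hφ0) (pow_ne_zero _ hh0)))
      (pow_ne_zero _ hΘ0), ord_pow, ord_div w' (pow_ne_zero _ hφ0) (pow_ne_zero _ hh0), ord_pow,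
      ord_pow, ord_pow]
  have hint : IsIntegral (D.bring Λ r) ((φ ^ N / hh ^ (t * M)) ^ N₀ * Θ ^ (M * N)) := by
    refine h.st.hartogs_bas hb _ fun w' μ₀ hw' hμ => le_one_of_ord w' fun _ => ?_
    have h1 : ∀ α ∈ D.bring Λ r, w' α ≤ 1 := Fin_le_one hw'.dec.base fun u hu hu' => by
      rw [hw'.dec.eq u hu, push_dot]
      exact Finset.sum_nonneg fun l _ => mul_nonneg (hμ l) (by
        simp only [pq]
        exact_mod_cast hu' l)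
    have h2 : ∀ σ, 0 ≤ ord w' Θ + ord w' (mono D.x (-m₀ σ)) := fun σ => by
      rw [← ord_mul w' hΘ0 (mono_ne_zero _ _)]
      exact ord_nonneg w' (h1 _ (hΘα σ))
    have h3 := h.sec_bound hw' hm₀ h2 hφ0 hφ
    have h4 : ord w' (mono D.x m) = r₁ * (push r μ₀ ⬝ᵥ γ) := by
      rw [hw'.dec.eq m hm, push_dot, push_dot, Finset.mul_sum]
      refine Finset.sum_congr rfl fun l _ => ?_
      simp only [pq]
      rw [← ht l]
      ring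
    have h5 : ord w' hh = N * (push r μ₀ ⬝ᵥ γ + ord w' H / e) := by
      rw [hhh, ord_pow, ord_mul w' (pow_ne_zero _ h.hne) (mono_ne_zero _ _), ord_pow, mono_nsmul,
        ord_pow, h4, hN]
      push_cast
      field_simp
      ring
    rw [hord, h5]
    have h6 := mul_nonneg (Nat.cast_nonneg (α := ℚ) N) (sub_nonneg.2 h3)
    refine h6.trans (le_of_eq ?_)
    push_cast
    ring
  have h7 := ord_nonneg w (val_le_one_of_isIntegral w _ hw hint)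
  rw [hord] at h7
  have h8 : 0 ≤ ((M * N : ℕ) : ℚ) * ord w Θ :=
    mul_nonneg (Nat.cast_nonneg _) (ord_nonneg w (hw Θ hΘ))
  have h9 : (1 : ℚ) ≤ N₀ := by exact_mod_cast hN₀
  have h10 : 0 ≤ (N * ord w φ - (t * M : ℕ) * ord w hh) + ((M * N : ℕ) : ℚ) * ord w Θ := by
    by_contra hc
    nlinarith
  push_cast at h10 ⊢
  linarith

/-- Sketch: call `J : Fin (finrank Λ) → R` good if it is a basis with a tight feasible point;
choose `(r J, m J)` for good `J`, let `r₁` be the product of the `r J` (finite type of `J`) and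
rescale the `m J` to the common denominator `r₁`. `N'` from `exists_N0`, `N = e * r₁ * N'`, and the
finite set is the image of the good `J` under `J ↦ (H ^ r₁ * mono (e • m J)) ^ N'` (`Inv.up`); it
is nonempty by `vertex`. Given `b, w`: `v` from `exists_wt`, `J` from `vertex`, so `w ≤ 1` on
`bring`. If there is no section with `M > 0`, take `C = 0`; otherwise `exists_locEq`,
`fin_chart` and `val_le_of_ord`. -/
theorem Inv.fin (h : D.Inv Λ I D.q e H γ) {r₀ : ℕ} {m₀ : Fin n ⊕ Fin k → ℤ}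
    (hm : FeasAt Λ D.ray γ r₀ m₀) : D.Concl := by
  classical
  let good : (Fin (Module.finrank ℤ Λ) → R) → Prop := fun J =>
    ∃ r₁ m₁, FeasAt Λ D.ray γ r₁ m₁ ∧ ∀ l, r₁ * γ (J l) = (m₁ ⬝ᵥ D.ray (J l) : ℤ)
  have h1 : ∀ J : Fin (Module.finrank ℤ Λ) → R, ∃ r₁ m₁, FeasAt Λ D.ray γ r₁ m₁ ∧
      (good J → ∀ l, r₁ * γ (J l) = (m₁ ⬝ᵥ D.ray (J l) : ℤ)) := fun J => by
    by_cases hJ : good J
    · obtain ⟨r₁, m₁, h2, h3⟩ := hJ
      exact ⟨r₁, m₁, h2, fun _ => h3⟩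
    · exact ⟨r₀, m₀, hm, fun h2 => absurd h2 hJ⟩
  choose rr mm hf ht using h1
  obtain ⟨r₁, hr₁⟩ : ∃ r₁, r₁ = ∏ J, rr J := ⟨_, rfl⟩
  have h2 : ∀ J : Fin (Module.finrank ℤ Λ) → R, ∃ m₁, FeasAt Λ D.ray γ r₁ m₁ ∧
      (good J → ∀ l, r₁ * γ (J l) = (m₁ ⬝ᵥ D.ray (J l) : ℤ)) := fun J => by
    have h3 : (∏ J' ∈ Finset.univ.erase J, rr J') * rr J = r₁ := by
      rw [hr₁, Finset.prod_erase_mul _ _ (Finset.mem_univ J)]
    refine ⟨(∏ J' ∈ Finset.univ.erase J, rr J') • mm J,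
      h3 ▸ Fin_scale (hf J) (Finset.prod_pos fun J' _ => (hf J').pos), fun hJ l => ?_⟩
    rw [← h3, smul_dotProduct, nsmul_eq_mul, Nat.cast_mul, Int.cast_mul, Int.cast_natCast,
      mul_assoc, ht J hJ l]
  choose m hfm htm using h2
  obtain ⟨N', hN', hloc⟩ := D.exists_N0
  obtain ⟨J₀, -⟩ := vertex D.posSpan hm 0
  have hN : 0 < e * r₁ * N' := Nat.mul_pos (Nat.mul_pos h.epos (hfm J₀).pos) hN'
  have hne : ∀ J, (H ^ r₁ * mono D.x (e • m J)) ^ N' ≠ 0 := fun J =>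
    pow_ne_zero _ (mul_ne_zero (pow_ne_zero _ h.hne) (mono_ne_zero _ _))
  refine ⟨e * r₁ * N', hN, Finset.univ.image fun J => (H ^ r₁ * mono D.x (e • m J)) ^ N',
    ⟨_, Finset.mem_image_of_mem _ (Finset.mem_univ J₀)⟩, fun h' hh' => ?_, fun b w hw => ?_⟩
  · obtain ⟨J, -, rfl⟩ := Finset.mem_image.1 hh'
    exact ⟨hne J, h.up hloc (hfm J)⟩
  obtain ⟨v, hv⟩ := exists_wt w D.x
  obtain ⟨J, hb, hJ, hpos⟩ := vertex D.posSpan hm v
  refine ⟨_, Finset.mem_image_of_mem _ (Finset.mem_univ J), ?_⟩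
  by_cases hex : ∃ (t M : ℕ) (φ : K), 0 < M ∧
      Sec D.ray D.cone D.x (fun ρ => t * D.kap ρ + b ρ) M φ
  · obtain ⟨t₀, M₀, φ₀, hM₀, hφ₀⟩ := hex
    obtain ⟨N₀, hN₀, hm₀⟩ := D.exists_locEq hM₀ hφ₀
    choose mc hmc using hm₀
    have hw' : ∀ α ∈ D.bring Λ J, w α ≤ 1 := Fin_le_one hw fun u hu hu' => by
      rw [hv]
      exact_mod_cast hpos u hu hu'
    obtain ⟨s, hs⟩ := h.fin_chart hb (hfm J).mem (htm J hJ) N' hN₀ hmc hw'
    obtain ⟨C, hC⟩ := val_le_of_ord w s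
    exact ⟨C, fun t M φ _ hφ => hC φ _ _ (t * M) M hN (hne J) fun hφ0 => hs t M φ hφ0 hφ⟩
  · exact ⟨0, fun t M φ hM hφ => absurd ⟨t, M, φ, hM, hφ⟩ hex⟩

end Pool.Agent.Lib.MP_bc213e_ag.TCI.Data
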