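import Pool.Agent.Lib.MP_bc213e_ag.TCI.ADefs

/-! The additive valuation; valuations and charts. -/

namespace Pool.Agent.Lib.MP_bc213e_ag.TCI

open WithZero

section ord

variable {E : Type} [Field E] (w : Valuation E ℤᵐ⁰)

theorem ord_one : ord w 1 = 0 := by simp [ord]

theorem Ord_zero : ord w 0 = 0 := by simp [ord]

theorem Ord_ne {α : E} (hα : α ≠ 0) : w α ≠ 0 := (Valuation.ne_zero_iff w).2 hα

theorem ord_mul {α β : E} (hα : α ≠ 0) (hβ : β ≠ 0) : ord w (α * β) = ord w α + ord w β := by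
  rw [ord, ord, ord, map_mul, log_mul (Ord_ne w hα) (Ord_ne w hβ)]
  push_cast
  ring

theorem ord_inv (α : E) : ord w α⁻¹ = -ord w α := by
  rw [ord, ord, map_inv₀, log_inv]
  push_cast
  ring

theorem ord_div {α β : E} (hα : α ≠ 0) (hβ : β ≠ 0) : ord w (α / β) = ord w α - ord w β := by
  rw [div_eq_mul_inv, ord_mul w hα (inv_ne_zero hβ), ord_inv, sub_eq_add_neg]

theorem ord_pow (α : E) (N : ℕ) : ord w (α ^ N) = N * ord w α := by
  rw [ord, ord, map_pow, log_pow]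
  simp

theorem ord_zpow (α : E) (N : ℤ) : ord w (α ^ N) = N * ord w α := by
  rw [ord, ord, map_zpow₀, log_zpow]
  simp

theorem ord_neg (α : E) : ord w (-α) = ord w α := by
  rw [ord, ord, Valuation.map_neg]

theorem ord_prod {X : Type} (s : Finset X) (α : X → E) (h : ∀ i ∈ s, α i ≠ 0) :
    ord w (∏ i ∈ s, α i) = ∑ i ∈ s, ord w (α i) := by
  classical
  induction s using Finset.induction_on with
  | empty => simpa using ord_one w
  | insert a s ha ih =>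
    have h1 := fun i hi => h i (Finset.mem_insert_of_mem hi)
    rw [Finset.prod_insert ha, Finset.sum_insert ha, ord_mul w (h a (Finset.mem_insert_self _ _))
      (Finset.prod_ne_zero_iff.2 h1), ih h1]

theorem Ord_le_iff {α β : E} (hα : α ≠ 0) (hβ : β ≠ 0) : ord w β ≤ ord w α ↔ w α ≤ w β := by
  rw [ord, ord, Int.cast_le, neg_le_neg_iff, log_le_log (Ord_ne w hα) (Ord_ne w hβ)]

theorem ord_nonneg {α : E} (h : w α ≤ 1) : 0 ≤ ord w α := by
  rcases eq_or_ne α 0 with rfl | hα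
  · exact (Ord_zero w).ge
  · rw [← ord_one w, Ord_le_iff w hα one_ne_zero, map_one]
    exact h

theorem le_one_of_ord {α : E} (h : α ≠ 0 → 0 ≤ ord w α) : w α ≤ 1 := by
  rcases eq_or_ne α 0 with rfl | hα
  · simp
  · have h1 := h hα
    rwa [← ord_one w, Ord_le_iff w hα one_ne_zero, map_one] at h1

theorem ord_le_ord {α β : E} (hα : α ≠ 0) (h : w α ≤ w β) : ord w β ≤ ord w α := by
  have hβ : β ≠ 0 := fun h0 => Ord_ne w hα (by simpa [h0] using h)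
  exact (Ord_le_iff w hα hβ).2 h

theorem ord_eq_zero {α : E} (h : w α = 1) : ord w α = 0 := by simp [ord, h]

theorem eq_one_of_ord {α : E} (hα : α ≠ 0) (h : ord w α = 0) : w α = 1 := by
  have h1 : log (w α) = 0 := by simpa [ord] using h
  rw [← exp_log (Ord_ne w hα), h1, exp_zero]

theorem ord_exp {α : E} {s : ℤ} (h : w α = exp (-s)) : ord w α = s := by simp [ord, h]

theorem ord_comap {K : Type} [Field K] (φ : K →+* E) (α : K) :
    ord (w.comap φ) α = ord w (φ α) := rfl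
theorem ord_mono {S : Type} [Fintype S] (x : S → Eˣ) (u : S → ℤ) :
    ord w (mono x u) = ∑ l, (u l : ℚ) * ord w (x l) := by
  rw [mono, ord_prod w _ _ fun l _ => zpow_ne_zero _ (x l).ne_zero]
  exact Finset.sum_congr rfl fun l _ => ord_zpow w _ _

/-- The weight vector. -/
theorem exists_wt {S : Type} [Fintype S] (x : S → Eˣ) :
    ∃ v : S → ℤ, ∀ u, ord w (mono x u) = (u ⬝ᵥ v : ℤ) := by
  refine ⟨fun l => -log (w (x l)), fun u => ?_⟩
  rw [ord_mono, dotProduct, Int.cast_sum]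
  exact Finset.sum_congr rfl fun l _ => by rw [Int.cast_mul, ord]

/-- The final translation to multiplicative form; take `C = ⌈s⌉₊`. -/
theorem val_le_of_ord (s : ℚ) : ∃ C : ℕ, ∀ (φ h : E) (N a M : ℕ), 0 < N → h ≠ 0 →
    (φ ≠ 0 → a * ord w h - s * M ≤ N * ord w φ) → w φ ^ N ≤ w h ^ a * exp ((C * M : ℕ) : ℤ) := by
  refine ⟨⌈s⌉₊, fun φ h N a M hN hh H => ?_⟩
  rcases eq_or_ne φ 0 with rfl | hφ
  · simp [hN.ne']
  have h1 := H hφ
  have h2 : s * M ≤ ⌈s⌉₊ * M := mul_le_mul_of_nonneg_right (Nat.le_ceil s) (Nat.cast_nonneg _)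
  rw [← exp_log (Ord_ne w hφ), ← exp_log (Ord_ne w hh), ← exp_nsmul, ← exp_nsmul, ← exp_add,
    exp_le_exp, nsmul_eq_mul, nsmul_eq_mul, ← Int.cast_le (R := ℚ)]
  simp only [ord] at h1
  push_cast at h1 ⊢
  linarith

variable {w}

theorem OrdGe.mono {α : E} {s s' : ℚ} (h : OrdGe w α s) (hs : s' ≤ s) : OrdGe w α s' :=
  fun h0 => hs.trans (h h0)

theorem ordGe_self (α : E) : OrdGe w α (ord w α) := fun _ => le_rfl

theorem ordGe_zero (s : ℚ) : OrdGe w 0 s := fun h => absurd rfl h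

theorem OrdGe.add {α β : E} {s : ℚ} (h : OrdGe w α s) (h' : OrdGe w β s) : OrdGe w (α + β) s := by
  intro h0
  rcases le_max_iff.1 (w.map_add α β) with h1 | h1
  · have hα : α ≠ 0 := fun h2 => Ord_ne w h0 (by simpa [h2] using h1)
    exact (h hα).trans (ord_le_ord w h0 h1)
  · have hβ : β ≠ 0 := fun h2 => Ord_ne w h0 (by simpa [h2] using h1)
    exact (h' hβ).trans (ord_le_ord w h0 h1)

theorem OrdGe.neg {α : E} {s : ℚ} (h : OrdGe w α s) : OrdGe w (-α) s := fun h0 => by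
  rw [ord_neg]
  exact h (neg_ne_zero.1 h0)

theorem OrdGe.mul {α β : E} {s s' : ℚ} (h : OrdGe w α s) (h' : OrdGe w β s') :
    OrdGe w (α * β) (s + s') := fun h0 => by
  rw [ord_mul w (left_ne_zero_of_mul h0) (right_ne_zero_of_mul h0)]
  exact add_le_add (h (left_ne_zero_of_mul h0)) (h' (right_ne_zero_of_mul h0))

theorem OrdGe.sum {X : Type} (T : Finset X) (α : X → E) {s : ℚ} (h : ∀ i ∈ T, OrdGe w (α i) s) :
    OrdGe w (∑ i ∈ T, α i) s :=
  Finset.sum_induction α (fun β => OrdGe w β s) (fun _ _ => OrdGe.add) (ordGe_zero s) h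

theorem OrdGe.prod {X : Type} (T : Finset X) (α : X → E) (s : X → ℚ)
    (h : ∀ i ∈ T, OrdGe w (α i) (s i)) : OrdGe w (∏ i ∈ T, α i) (∑ i ∈ T, s i) := fun h0 => by
  have h1 := Finset.prod_ne_zero_iff.1 h0
  rw [ord_prod w _ _ h1]
  exact Finset.sum_le_sum fun i hi => h i hi (h1 i hi)

theorem ordGe_intCast (z : ℤ) : OrdGe w (z : E) 0 := fun _ =>
  ord_nonneg w (intCast_mem w.valuationSubring z)

theorem OrdGe.smul [Algebra ℂ E] (hw : ∀ c : ℂ, w (algebraMap ℂ E c) ≤ 1) (c : ℂ) {α : E} {s : ℚ}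
    (h : OrdGe w α s) : OrdGe w (c • α) s := by
  rw [Algebra.smul_def, ← zero_add s]
  exact OrdGe.mul (fun _ => ord_nonneg w (hw c)) h

theorem ord_ratCast [Algebra ℂ E] (hw : ∀ c : ℂ, w (algebraMap ℂ E c) ≤ 1) (c : ℚ) :
    ord w (c : E) = 0 := by
  rcases eq_or_ne c 0 with rfl | hc
  · simpa using Ord_zero w
  · refine ord_eq_zero w ?_
    have := val_eq_one_of_field w hw (c := (c : ℂ)) (by exact_mod_cast hc)
    simpa using this

/-- Expand the determinant (`Matrix.det_apply'`). -/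
theorem ordGe_det {A : Type} [Fintype A] [DecidableEq A] (M : Matrix A A E) (s t : A → ℚ)
    (h : ∀ a b, OrdGe w (M a b) (s a + t b)) : OrdGe w M.det (∑ a, s a + ∑ b, t b) := by
  rw [Matrix.det_apply']
  refine OrdGe.sum _ _ fun σ _ => ?_
  have h1 := (ordGe_intCast (w := w) (Equiv.Perm.sign σ : ℤ)).mul
    (OrdGe.prod Finset.univ (fun i => M (σ i) i) (fun i => s (σ i) + t i) fun i _ => h _ _)
  rwa [zero_add, Finset.sum_add_distrib, Equiv.sum_comp σ s] at h1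

end ord

namespace Data

variable {n k : ℕ} {R ι K : Type} [Fintype R] [Field K] [Algebra ℂ K] (D : Data n k R ι K)

/-- A discrete valuation is centred in some chart. Sketch: `v` from `exists_wt`; `D.complete v`
gives `σ, N, ν` and `N * (m ⬝ᵥ v) = ∑ ν ρ * (m ⬝ᵥ ray ρ) ≥ 0` for `m` in the dual cone;
`val_le_one_of_mem_adjoin`. (See `chart_le` in the old file `NPa`.) -/
theorem chart_le (w : Valuation K ℤᵐ⁰) (hw : ∀ a : ℂ, w (algebraMap ℂ K a) ≤ 1) :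
    ∃ σ, ∀ α ∈ chart D.ray (D.cone σ) D.x, w α ≤ 1 := by
  obtain ⟨v, hv⟩ := exists_wt w D.x
  obtain ⟨σ, N, hN, ν, hν, h⟩ := D.complete v
  refine ⟨σ, fun α hα => val_le_one_of_mem_adjoin w hw ?_ hα⟩
  rintro _ ⟨m, hm, rfl⟩
  have h2 : 0 ≤ m ⬝ᵥ (N • v) := by
    rw [h, dotProduct_sum]
    refine Finset.sum_nonneg fun ρ _ => ?_
    rw [dotProduct_smul]
    by_cases hρ : ρ ∈ D.cone σ
    · exact nsmul_nonneg (hm ρ hρ) _
    · rw [hν ρ hρ, zero_smul]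
  rw [dotProduct_smul, nsmul_eq_mul] at h2
  refine le_one_of_ord w fun _ => ?_
  rw [hv]
  exact_mod_cast (mul_nonneg_iff_of_pos_left (by exact_mod_cast hN)).mp h2

/-- Characters with the same pairings on a cone have the same order: `m - m'` and `m' - m` give
elements of the chart ring. -/
theorem ord_eq_of_cone {σ : ι} {w : Valuation K ℤᵐ⁰}
    (hσ : ∀ α ∈ chart D.ray (D.cone σ) D.x, w α ≤ 1) {m m' : Fin n ⊕ Fin k → ℤ}
    (h : ∀ ρ ∈ D.cone σ, m ⬝ᵥ D.ray ρ = m' ⬝ᵥ D.ray ρ) :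
    ord w (mono D.x m) = ord w (mono D.x m') := by
  have key : ∀ a b : Fin n ⊕ Fin k → ℤ, (∀ ρ ∈ D.cone σ, a ⬝ᵥ D.ray ρ = b ⬝ᵥ D.ray ρ) →
      ord w (mono D.x b) ≤ ord w (mono D.x a) := fun a b hab => by
    have h1 := ord_nonneg w (hσ _ (Algebra.subset_adjoin ⟨a - b, fun ρ hρ => by
      rw [sub_dotProduct, hab ρ hρ, sub_self], rfl⟩))
    rwa [mono_sub, ord_div w (mono_ne_zero _ _) (mono_ne_zero _ _), sub_nonneg] at h1
  exact le_antisymm (key _ _ fun ρ hρ => (h ρ hρ).symm) (key _ _ h)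

/-- A Laurent polynomial with exponents in `u₀ + Λ`. Each term `c • mono u` has order
`ord (mono u₀) + μ ⬝ᵥ pq (u - u₀)`, and `pq (u - u₀) ρ ≥ -(a ρ + u₀ ⬝ᵥ ray ρ) + κ ρ` if its
coefficient `t u` is nonzero. -/
theorem Dec.ordGe_sum {D : Data n k R ι K} {Λ : Submodule ℤ (Fin n ⊕ Fin k → ℤ)}
    {w : Valuation K ℤᵐ⁰} {μ : R → ℚ} (h : D.Dec Λ w μ) (T : Finset (Fin n ⊕ Fin k → ℤ))
    (c : (Fin n ⊕ Fin k → ℤ) → ℂ) (t : (Fin n ⊕ Fin k → ℤ) → ℤ) (u₀ : Fin n ⊕ Fin k → ℤ)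
    (hT : ∀ u ∈ T, u - u₀ ∈ Λ) (a : R → ℤ) (s : ℚ)
    (ha : ∀ u ∈ T, t u ≠ 0 → s ≤ μ ⬝ᵥ fun ρ => ((u ⬝ᵥ D.ray ρ + a ρ : ℤ) : ℚ)) :
    OrdGe w (∑ u ∈ T, c u • ((t u : K) * mono D.x u))
      (ord w (mono D.x u₀) - (μ ⬝ᵥ fun ρ => ((a ρ + u₀ ⬝ᵥ D.ray ρ : ℤ) : ℚ)) + s) := by
  refine OrdGe.sum _ _ fun u hu => OrdGe.smul h.base _ ?_
  by_cases ht : t u = 0
  · rw [ht, Int.cast_zero, zero_mul]
    exact ordGe_zero _
  refine ((ordGe_intCast (t u)).mul (ordGe_self _)).mono ?_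
  have h1 := h.eq _ (hT u hu)
  rw [mono_sub, ord_div w (mono_ne_zero _ _) (mono_ne_zero _ _)] at h1
  have h2 := ha u hu ht
  have h3 : μ ⬝ᵥ D.pq (u - u₀) = (μ ⬝ᵥ fun ρ => ((u ⬝ᵥ D.ray ρ + a ρ : ℤ) : ℚ)) -
      μ ⬝ᵥ fun ρ => ((a ρ + u₀ ⬝ᵥ D.ray ρ : ℤ) : ℚ) := by
    rw [← dotProduct_sub]
    congr 1
    funext ρ
    simp only [pq, sub_dotProduct, Pi.sub_apply]
    push_cast
    ring
  linarith

end Data

end Pool.Agent.Lib.MP_bc213e_ag.TCI
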