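import Pool.Agent.Lib.MP_bc213e_ag.TCI.Jac
import Pool.Agent.Lib.MP_bc213e_ag.TCI.Ord

/-! The order of the Jacobian of one elimination step. -/

namespace Pool.Agent.Lib.MP_bc213e_ag.TCI.Data

open WithZero

variable {n k : ℕ} {R ι K : Type} [Fintype R] [Field K] [Algebra ℂ K] {D : Data n k R ι K}
  {Λ : Submodule ℤ (Fin n ⊕ Fin k → ℤ)} {I I' : Finset (Fin k)}
  {ℓ : ℕ} {r : Fin (ℓ + 1) → R} {c : Fin (ℓ + 1) → ℕ}

/-- Sketch: the set `I' \ I` has `ℓ` elements (`st.rank`, `st'.rank`, `Circuit.finrank_perp`);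
let `s : Fin ℓ ≃ ↥(I' \ I)`. Take `β, e'` from `st'.isJac`. Apply `jac_varpi` with `A = Fin ℓ`,
`nn a = ray (r (j₀.succAbove a))` (`Circuit.indep`), `B = Fin (finrank Λ')`, `η a = grad (s a)`,
`e` built from `e'` and `Fin ℓ ⊕ (B ⊕ I) ≃ B ⊕ I'`; independence: `det2 e' .. ≠ 0` (`jacI_ne`)
makes all rows independent (`Matrix.linearIndependent_rows_iff_isUnit`), take a subfamily.
`det2_congr` identifies the right side with `± c * jacI Λ' I'`. -/
theorem State.jac_step (st : D.State Λ I) (hc : Circuit Λ (fun j => D.ray (r j)) c)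
    (st' : D.State (perp Λ fun j => D.ray (r j)) I') (hI : I ⊆ I') (j₀ : Fin (ℓ + 1)) :
    ∃ (s : Fin ℓ → Fin k) (c₀ : ℚ), Function.Injective s ∧ (∀ i, i ∈ I' \ I ↔ ∃ a, s a = i) ∧
      c₀ ≠ 0 ∧ (Matrix.of fun a a' => logGrad D.x (D.f (s a)) ⬝ᵥ
        fun l => (D.ray (r (j₀.succAbove a')) l : K)).det * D.jacI Λ I =
          c₀ * D.jacI (perp Λ fun j => D.ray (r j)) I' := by
  have : CharZero K := charZero_of_injective_algebraMap (algebraMap ℂ K).injective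
  have hcard : (I' \ I).card = ℓ := by
    have h1 := st.rank
    have h2 := st'.rank
    have h3 := hc.finrank_perp
    have h4 := Finset.card_sdiff_add_card_eq_card hI
    omega
  let s₀ : Fin ℓ ≃ ↥(I' \ I) := (Finset.equivFinOfCardEq hcard).symm
  let s : Fin ℓ → Fin k := fun a => s₀ a
  have hs : Function.Injective s := fun a b h => s₀.injective (Subtype.ext h)
  have hs1 : ∀ a, s a ∈ I' := fun a => (Finset.mem_sdiff.1 (s₀ a).2).1
  have hs2 : ∀ a, s a ∉ I := fun a => (Finset.mem_sdiff.1 (s₀ a).2).2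
  have hs3 : ∀ i, i ∈ I' \ I ↔ ∃ a, s a = i := fun i =>
    ⟨fun h => ⟨s₀.symm ⟨i, h⟩, by simp [s]⟩, by
      rintro ⟨a, rfl⟩
      exact (s₀ a).2⟩
  obtain ⟨β, e', hβ, -, hJ⟩ := st'.isJac
  let ψ : Fin ℓ ⊕ (Fin (Module.finrank ℤ (perp Λ fun j => D.ray (r j))) ⊕ I) →
      Fin (Module.finrank ℤ (perp Λ fun j => D.ray (r j))) ⊕ I' :=
    Sum.elim (fun a => Sum.inr ⟨s a, hs1 a⟩)
      (Sum.elim Sum.inl fun i => Sum.inr ⟨i, hI i.2⟩)
  have hψ : Function.Bijective ψ := by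
    constructor
    · rintro (a | b | i) (a' | b' | i') h
      · have h1 : s a = s a' :=
          congrArg (fun z : I' => (z : Fin k)) (@Sum.inr.inj _ _ (⟨s a, hs1 a⟩ : I') ⟨s a', hs1 a'⟩ h)
        rw [hs h1]
      · exact absurd h Sum.inr_ne_inl
      · have h1 : s a = i' := congrArg Subtype.val (Sum.inr.inj h)
        exact absurd (h1 ▸ i'.2) (hs2 a)
      · exact absurd h Sum.inl_ne_inr
      · rw [Sum.inl.inj h]
      · exact absurd h Sum.inl_ne_inr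
      · have h1 : (i : Fin k) = s a' := congrArg Subtype.val (Sum.inr.inj h)
        exact absurd (h1 ▸ i.2) (hs2 a')
      · exact absurd h Sum.inr_ne_inl
      · have h1 : (i : Fin k) = i' :=
          congrArg (fun z : I' => (z : Fin k)) (@Sum.inr.inj _ _ (⟨i, hI i.2⟩ : I') ⟨i', hI i'.2⟩ h)
        rw [Subtype.ext h1]
    · rintro (b | ⟨i, hi⟩)
      · exact ⟨Sum.inr (Sum.inl b), rfl⟩
      · by_cases h : i ∈ I
        · exact ⟨Sum.inr (Sum.inr ⟨i, h⟩), rfl⟩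
        · obtain ⟨a, rfl⟩ := (hs3 i).1 (Finset.mem_sdiff.2 ⟨hi, h⟩)
          exact ⟨Sum.inl a, rfl⟩
  let φ := Equiv.ofBijective ψ hψ
  have hall : LinearIndependent K fun i => Matrix.fromRows (Matrix.of fun a l => (β a l : K))
      (Matrix.of fun i : I' => logGrad D.x (D.f i)) i := by
    have h1 := st'.jacI_ne
    rw [hJ, det2] at h1
    have h2 := Matrix.linearIndependent_rows_iff_isUnit.2
      ((Matrix.isUnit_iff_isUnit_det _).2 (isUnit_iff_ne_zero.2 h1))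
    exact LinearIndependent.of_comp (LinearMap.funLeft K K e') h2
  have ind : LinearIndependent K (Sum.elim (fun b l => (β b l : K))
      fun i : I => logGrad D.x (D.f i)) := by
    have h1 := hall.comp (ψ ∘ Sum.inr) (hψ.1.comp Sum.inr_injective)
    convert h1 using 1
    funext i
    rcases i with b | i <;> rfl
  obtain ⟨c₁, hc₁, h⟩ := st.jac_varpi (φ.trans e') (fun a => D.ray (r (j₀.succAbove a)))
    (hc.indep j₀) β (fun b => (hβ b).1) (fun b a => (hβ b).2 _) ind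
  obtain ⟨ε, hε, h'⟩ := det2_congr (F := K) e' (φ.trans e') φ
  refine ⟨s, c₁ * ε, hs, hs3, mul_ne_zero hc₁ (by rcases hε with rfl | rfl <;> norm_num), ?_⟩
  rw [h (fun a => logGrad D.x (D.f (s a))) fun a => st.inK_grad (hs2 a), hJ,
    h' (Matrix.of fun a l => (β a l : K)) (Matrix.of fun i : I' => logGrad D.x (D.f i))]
  · push_cast
    ring
  · rintro (a | b | i) <;> rfl

/-- Sketch: with `ρ = r (j₀.succAbove a')`, the entry is
`∑ u ∈ supp, f i u • ((u ⬝ᵥ ray ρ + a i ρ) * mono u)` (`logGrad_dot`). If the integer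
`u ⬝ᵥ ray ρ + a i ρ` is nonzero it is at least `1` (`D.hf`), so with `μ' = μ + push r lam` we get
`lam (j₀.succAbove a') ≤ μ' ⬝ᵥ fun ρ => u ⬝ᵥ ray ρ + a i ρ` (`push_dot`, all terms are
nonnegative). `Dec.ordGe_sum` and `ordGe_det` bound the determinant by
`∑ i ∈ I' \ I, (ord (mono (base i)) - μ' ⬝ᵥ abar i) + ∑ j, lam j`, `abar i ρ = a i ρ + base i ⬝ᵥ ray ρ`
`≥ 0`. Finally `phi Λ' I' / phi Λ I = (jacI Λ' I' / jacI Λ I) / mono (∑ i ∈ I' \ I, base i)`,
`gam I = gam I' - ∑ i ∈ I' \ I, abar i` and `gam I' ≤ 1`. -/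
theorem State.jbound (st : D.State Λ I) (hc : Circuit Λ (fun j => D.ray (r j)) c)
    (st' : D.State (perp Λ fun j => D.ray (r j)) I') (hI : I ⊆ I') {w : Valuation K ℤᵐ⁰}
    {μ : R → ℚ} (hμ : ∀ ρ, 0 ≤ μ ρ) {lam : Fin (ℓ + 1) → ℚ} (hl : ∀ j, 0 ≤ lam j)
    {j₀ : Fin (ℓ + 1)} (h0 : lam j₀ = 0) (hd : D.Dec Λ w (μ + push r lam)) :
    (μ + push r lam) ⬝ᵥ D.gq I - μ ⬝ᵥ D.gq I' ≤
      ord w (D.phi (perp Λ fun j => D.ray (r j)) I') - ord w (D.phi Λ I) := by
  obtain ⟨s, c₀, hs, hs3, hc₀, hJ⟩ := st.jac_step hc st' hI j₀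
  have : CharZero K := charZero_of_injective_algebraMap (algebraMap ℂ K).injective
  set μ' := μ + push r lam with hμ'
  let abar : Fin k → R → ℚ := fun i ρ => ((D.a i ρ + D.base i ⬝ᵥ D.ray ρ : ℤ) : ℚ)
  have hab : ∀ i ρ, 0 ≤ abar i ρ := fun i ρ => by
    have := D.hf i _ (D.hbase i) ρ
    rw [add_comm] at this
    exact Int.cast_nonneg this
  have hs2 : ∀ a, s a ∉ I := fun a => (Finset.mem_sdiff.1 ((hs3 _).2 ⟨a, rfl⟩)).2
  have hsum : ∀ G : Fin k → ℚ, ∑ i ∈ Iᶜ, G i = ∑ i ∈ I'ᶜ, G i + ∑ a, G (s a) := by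
    intro G
    have h1 : I' \ I = Finset.univ.image s := by
      ext i
      rw [hs3]
      simp
    have h2 := Finset.sum_compl_add_sum I G
    have h3 := Finset.sum_compl_add_sum I' G
    have h4 := Finset.sum_sdiff (f := G) hI
    rw [h1, Finset.sum_image fun a _ b _ h => hs h] at h4
    linarith
  have hM := ordGe_det (w := w) (Matrix.of fun a a' => logGrad D.x (D.f (s a)) ⬝ᵥ
      fun l => (D.ray (r (j₀.succAbove a')) l : K))
    (fun a => ord w (mono D.x (D.base (s a))) - μ' ⬝ᵥ abar (s a))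
    (fun a' => lam (j₀.succAbove a')) fun a a' => by
      rw [Matrix.of_apply, D.logGrad_dot _ _ (D.a (s a) (r (j₀.succAbove a')) : K)]
      have h1 := hd.ordGe_sum (D.f (s a)).support (D.f (s a))
        (fun u => u ⬝ᵥ D.ray (r (j₀.succAbove a')) + D.a (s a) (r (j₀.succAbove a')))
        (D.base (s a)) (st.diff _ (hs2 a)) (D.a (s a)) (lam (j₀.succAbove a')) fun u hu ht => by
          have h2 : ∀ ρ, (0 : ℚ) ≤ ((u ⬝ᵥ D.ray ρ + D.a (s a) ρ : ℤ) : ℚ) := fun ρ => by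
            exact_mod_cast D.hf _ u hu ρ
          have h3 : (1 : ℚ) ≤ ((u ⬝ᵥ D.ray (r (j₀.succAbove a')) +
              D.a (s a) (r (j₀.succAbove a')) : ℤ) : ℚ) := by
            have := D.hf _ u hu (r (j₀.succAbove a'))
            exact_mod_cast (show (1 : ℤ) ≤ _ by omega)
          rw [hμ', add_dotProduct, push_dot]
          have h4 : 0 ≤ μ ⬝ᵥ fun ρ => ((u ⬝ᵥ D.ray ρ + D.a (s a) ρ : ℤ) : ℚ) :=
            Finset.sum_nonneg fun ρ _ => mul_nonneg (hμ ρ) (h2 ρ)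
          have h5 := Finset.single_le_sum
            (f := fun l => lam l * ((u ⬝ᵥ D.ray (r l) + D.a (s a) (r l) : ℤ) : ℚ))
            (fun l _ => mul_nonneg (hl l) (h2 _)) (Finset.mem_univ (j₀.succAbove a'))
          have h6 := le_mul_of_one_le_right (hl (j₀.succAbove a')) h3
          linarith
      convert h1 using 2 with u _
      congr 1
      rw [mul_comm]
      simp [dotProduct]
  have hc' : (c₀ : K) ≠ 0 := by exact_mod_cast hc₀
  have hdet : (Matrix.of fun a a' => logGrad D.x (D.f (s a)) ⬝ᵥ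
      fun l => (D.ray (r (j₀.succAbove a')) l : K)).det ≠ 0 := by
    intro h
    rw [h, zero_mul] at hJ
    exact mul_ne_zero hc' st'.jacI_ne hJ.symm
  have h1 := hM hdet
  have h2 := congrArg (ord w) hJ
  rw [ord_mul w hdet st.jacI_ne, ord_mul w hc' st'.jacI_ne, ord_ratCast hd.base] at h2
  have h3 : ∀ (Λ₁ : Submodule ℤ (Fin n ⊕ Fin k → ℤ)) (I₁ : Finset (Fin k)), D.State Λ₁ I₁ →
      ord w (D.phi Λ₁ I₁) = ord w (D.jacI Λ₁ I₁) + ∑ i ∈ I₁ᶜ, ord w (mono D.x (D.base i)) := by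
    intro Λ₁ I₁ h
    rw [phi, ord_mul w h.jacI_ne (mono_ne_zero _ _), mono_sum,
      ord_prod w _ _ fun i _ => mono_ne_zero _ _]
  have h4 : ∀ (I₁ : Finset (Fin k)) ρ, D.gq I₁ ρ = 1 - ∑ i ∈ I₁ᶜ, abar i ρ := by
    intro I₁ ρ
    simp only [gq, gam, abar]
    push_cast
    rfl
  have h5 : μ' ⬝ᵥ D.gq I = μ' ⬝ᵥ D.gq I' - ∑ a, μ' ⬝ᵥ abar (s a) := by
    simp only [dotProduct]
    rw [Finset.sum_comm, ← Finset.sum_sub_distrib]
    refine Finset.sum_congr rfl fun ρ _ => ?_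
    rw [h4, h4, hsum fun i => abar i ρ, ← Finset.mul_sum]
    ring
  have h6 : μ' ⬝ᵥ D.gq I' ≤ μ ⬝ᵥ D.gq I' + ∑ a', lam (j₀.succAbove a') := by
    have h7 : ∑ l, lam l * D.gq I' (r l) ≤ ∑ l, lam l := by
      refine Finset.sum_le_sum fun l _ => mul_le_of_le_one_right (hl l) ?_
      rw [h4]
      have := Finset.sum_nonneg fun i (_ : i ∈ I'ᶜ) => hab i (r l)
      linarith
    rw [Fin.sum_univ_succAbove lam j₀, h0, zero_add] at h7
    rw [hμ', add_dotProduct, push_dot]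
    linarith
  rw [h3 _ _ st, h3 _ _ st', hsum fun i => ord w (mono D.x (D.base i))]
  rw [Finset.sum_sub_distrib] at h1
  linarith

end Pool.Agent.Lib.MP_bc213e_ag.TCI.Data
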