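import Pool.Agent.Lib.MP_bc213e_ag.TCI.ADefs

/-! Bases of rays. -/

namespace Pool.Agent.Lib.MP_bc213e_ag.TCI

variable {S R V : Type} [Fintype S] [Fintype R] [Fintype V] {Λ : Submodule ℤ (S → ℤ)}

theorem IsBas.reindex {V' : Type} [Fintype V'] {nn : V → S → ℤ} (h : IsBas Λ nn) (e : V' ≃ V) :
    IsBas Λ fun l => nn (e l) :=
  ⟨(Fintype.card_congr e).trans h.card, fun u hu h0 => h.inj u hu fun l => by
    have := h0 (e.symm l)
    rwa [e.apply_symm_apply] at this⟩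

/-- With `β` from `exists_basis` (independent, since it spans a free module of that rank; or argue
directly) the integer matrix `A a l = β a ⬝ᵥ nn l` is square with nonzero determinant (a vector in
the left kernel gives an element of `Λ` killed by all `nn l`); use its adjugate, and replace
`N = det A` by `N ^ 2` to make it positive. -/
theorem IsBas.dual [DecidableEq V] {nn : V → S → ℤ} (h : IsBas Λ nn) : ∃ N : ℕ, 0 < N ∧
    ∃ U : V → S → ℤ, ∀ l, U l ∈ Λ ∧ ∀ l', U l ⬝ᵥ nn l' = if l = l' then (N : ℤ) else 0 := by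
  let b : Module.Basis V ℤ Λ :=
    (Module.finBasis ℤ Λ).reindex (Fintype.equivFinOfCardEq h.card).symm
  let A : Matrix V V ℤ := Matrix.of fun a l => (b a : S → ℤ) ⬝ᵥ nn l
  have hdot : ∀ (v : V → ℤ) (l : V),
      (∑ a, v a • (b a : S → ℤ)) ⬝ᵥ nn l = ∑ a, v a * A a l := fun v l => by
    simp only [sum_dotProduct, smul_dotProduct, smul_eq_mul, A, Matrix.of_apply]
  have hmem : ∀ v : V → ℤ, ∑ a, v a • (b a : S → ℤ) ∈ Λ := fun v =>
    Λ.sum_mem fun a _ => Λ.smul_mem _ (b a).2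
  have hdet : A.det ≠ 0 := by
    intro h0
    obtain ⟨v, hv, h1⟩ := Matrix.exists_vecMul_eq_zero_iff.2 h0
    have h2 := h.inj _ (hmem v) fun l => (hdot v l).trans (congrFun h1 l)
    refine hv (funext (Fintype.linearIndependent_iff.1 b.linearIndependent v (Subtype.ext ?_)))
    rw [Submodule.coe_sum]
    exact h2
  refine ⟨A.det.natAbs ^ 2, pow_pos (Int.natAbs_pos.2 hdet) 2,
    fun l => ∑ a, (A.det * A.adjugate l a) • (b a : S → ℤ), fun l => ⟨hmem _, fun l' => ?_⟩⟩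
  have h3 := congrFun (congrFun (Matrix.adjugate_mul A) l) l'
  rw [Matrix.mul_apply, Matrix.smul_apply, Matrix.one_apply, smul_eq_mul] at h3
  rw [hdot]
  simp only [mul_assoc, ← Finset.mul_sum, h3]
  split_ifs
  · rw [Nat.cast_pow, Int.natAbs_sq, mul_one, sq]
  · rw [mul_zero, mul_zero]

/-- `N • u - ∑ l, (u ⬝ᵥ nn l) • U l` is killed by all `nn l`. -/
theorem IsBas.expand [DecidableEq V] {nn : V → S → ℤ} (h : IsBas Λ nn) {N : ℕ} {U : V → S → ℤ}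
    (hU : ∀ l, U l ∈ Λ ∧ ∀ l', U l ⬝ᵥ nn l' = if l = l' then (N : ℤ) else 0) {u : S → ℤ}
    (hu : u ∈ Λ) : N • u = ∑ l, (u ⬝ᵥ nn l) • U l := by
  refine sub_eq_zero.1 (h.inj _ (Λ.sub_mem (nsmul_mem hu N)
    (Λ.sum_mem fun l _ => Λ.smul_mem _ (hU l).1)) fun l' => ?_)
  simp only [sub_dotProduct, sum_dotProduct, smul_dotProduct, (hU _).2, smul_eq_mul, mul_ite,
    mul_zero, Finset.sum_ite_eq', Finset.mem_univ, if_true]
  rw [nsmul_eq_mul, mul_comm, sub_self]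

theorem IsBas.psi {nn : V → S → ℤ} (h : IsBas Λ nn) :
    ∃ Ψ : V → S → ℚ, ∀ u ∈ Λ, ∀ s, (u s : ℚ) = ∑ l, ((u ⬝ᵥ nn l : ℤ) : ℚ) * Ψ l s := by
  classical
  obtain ⟨N, hN, U, hU⟩ := h.dual
  have hN' : (N : ℚ) ≠ 0 := Nat.cast_ne_zero.2 hN.ne'
  refine ⟨fun l s => (U l s : ℚ) / N, fun u hu s => ?_⟩
  have h1 := congrArg (Int.cast : ℤ → ℚ) (congrFun (h.expand hU hu) s)
  simp only [Pi.smul_apply, Finset.sum_apply, smul_eq_mul, nsmul_eq_mul, Int.cast_mul,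
    Int.cast_natCast, Int.cast_sum] at h1
  simp only [← mul_div_assoc, ← Finset.sum_div]
  rw [eq_div_iff hN', mul_comm]
  exact h1

theorem IsBas.indep {nn : V → S → ℤ} (h : IsBas Λ nn) : Indep Λ nn := by
  classical
  obtain ⟨N, hN, U, hU⟩ := h.dual
  intro β hβ
  funext l
  have h1 := hβ (U l) (hU l).1
  simp only [(hU l).2, Int.cast_ite, Int.cast_natCast, Int.cast_zero, mul_ite, mul_zero,
    Finset.sum_ite_eq, Finset.mem_univ, if_true] at h1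
  exact (mul_eq_zero.1 h1).resolve_right (Nat.cast_ne_zero.2 hN.ne')

theorem LPb_rows [DecidableEq V] {nn : V → S → ℤ} (h : Indep Λ nn) :
    ∃ η : V → S → ℤ, (∀ a, η a ∈ Λ) ∧ (Matrix.of fun a l => η a ⬝ᵥ nn l).det ≠ 0 := by
  obtain ⟨s, hs⟩ := exists_det_ne_zero (F := ℚ) (X := Λ)
    (fun ξ b => (((ξ : S → ℤ) ⬝ᵥ nn b : ℤ) : ℚ)) fun β hβ => h β fun u hu => hβ ⟨u, hu⟩
  refine ⟨fun a => s a, fun a => (s a).2, fun h0 => hs ?_⟩
  have h1 := congrArg (Int.castRingHom ℚ) h0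
  rwa [RingHom.map_det, map_zero] at h1

/-- The vectors `fun a => β a ⬝ᵥ nn j` of `Fin (finrank Λ) → ℚ` are linearly independent. -/
theorem Indep.card_le {nn : V → S → ℤ} (h : Indep Λ nn) :
    Fintype.card V ≤ Module.finrank ℤ Λ := by
  classical
  obtain ⟨η, hη, hdet⟩ := LPb_rows h
  refine LinearIndependent.fintype_card_le_finrank (b := fun a => (⟨η a, hη a⟩ : Λ))
    (Fintype.linearIndependent_iff.2 fun c hc => congrFun
      (Matrix.eq_zero_of_vecMul_eq_zero hdet (funext fun l => ?_)))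
  have h1 : ∑ a, c a • η a = 0 := by
    have := congrArg Subtype.val hc
    rwa [Submodule.coe_sum] at this
  have h2 := congrArg (· ⬝ᵥ nn l) h1
  simp only [sum_dotProduct, smul_dotProduct, smul_eq_mul, zero_dotProduct] at h2
  exact h2

/-- `u ↦ fun l => u ⬝ᵥ nn l` is an injective linear map `Λ → (V → ℤ)`. -/
theorem finrank_le_of_inj {nn : V → S → ℤ} (h : ∀ u ∈ Λ, (∀ l, u ⬝ᵥ nn l = 0) → u = 0) :
    Module.finrank ℤ Λ ≤ Fintype.card V := by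
  let φ : Λ →ₗ[ℤ] (V → ℤ) :=
    { toFun := fun u l => (u : S → ℤ) ⬝ᵥ nn l
      map_add' := fun u v => funext fun l => add_dotProduct _ _ _
      map_smul' := fun c u => funext fun l => smul_dotProduct c (u : S → ℤ) (nn l) }
  have hφ : Function.Injective φ := (injective_iff_map_eq_zero φ).2 fun u hu =>
    Subtype.ext (h u u.2 fun l => congrFun hu l)
  have := LinearMap.finrank_le_finrank_of_injective hφ
  rwa [Module.finrank_fintype_fun_eq_card] at this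

theorem Circuit.indep {ℓ : ℕ} {nn : Fin (ℓ + 1) → S → ℤ} {c : Fin (ℓ + 1) → ℕ}
    (hc : Circuit Λ nn c) (j₀ : Fin (ℓ + 1)) : Indep Λ fun a => nn (j₀.succAbove a) := by
  intro β hβ
  obtain ⟨s, hs⟩ := hc.uniq (Fin.insertNth j₀ 0 β) fun u hu => by
    rw [Fin.sum_univ_succAbove _ j₀]
    simp only [Fin.insertNth_apply_same, Fin.insertNth_apply_succAbove, zero_mul, zero_add]
    exact hβ u hu
  have h0 := hs j₀
  rw [Fin.insertNth_apply_same] at h0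
  have h1 : s = 0 :=
    (mul_eq_zero.1 h0.symm).resolve_right (Nat.cast_ne_zero.2 (hc.pos j₀).ne')
  funext a
  have h2 := hs (j₀.succAbove a)
  rwa [Fin.insertNth_apply_succAbove, h1, zero_mul] at h2

/-- Integer rows with a nonzero determinant (`exists_det_ne_zero` over `ℚ` with `X = Λ`). -/
theorem Indep.exists_rows [DecidableEq V] {nn : V → S → ℤ} (h : Indep Λ nn) :
    ∃ η : V → S → ℤ, (∀ a, η a ∈ Λ) ∧ (Matrix.of fun a l => η a ⬝ᵥ nn l).det ≠ 0 :=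
  LPb_rows h

/-- One step of the extension. -/
theorem LPb_step {ray : R → S → ℤ} (hp : PosSpan ray) {γ : R → ℚ} {r : V → R}
    (hi : Indep Λ fun l => ray (r l)) {r₀ : ℕ} {m : S → ℤ} (h : FeasAt Λ ray γ r₀ m)
    (ht : ∀ l, r₀ * γ (r l) = (m ⬝ᵥ ray (r l) : ℤ)) {u : S → ℤ} (hu : u ∈ Λ) (hu0 : u ≠ 0)
    (hk : ∀ l, u ⬝ᵥ ray (r l) = 0) :
    ∃ ρ₁ : R, Indep Λ (fun l : V ⊕ Unit => ray (Sum.elim r (fun _ => ρ₁) l)) ∧
      ∃ r₁ m₁, FeasAt Λ ray γ r₁ m₁ ∧ ∀ l : V ⊕ Unit,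
        r₁ * γ (Sum.elim r (fun _ => ρ₁) l) = (m₁ ⬝ᵥ ray (Sum.elim r (fun _ => ρ₁) l) : ℤ) := by
  have hne : (Finset.univ.filter fun ρ => u ⬝ᵥ ray ρ < 0).Nonempty := by
    by_contra hc
    have h1 : ∀ ρ, 0 ≤ u ⬝ᵥ ray ρ := fun ρ => not_lt.1 fun hρ =>
      hc ⟨ρ, Finset.mem_filter.2 ⟨Finset.mem_univ _, hρ⟩⟩
    obtain ⟨N, hN, ν, hν⟩ := hp (-u)
    have h2 := congrArg (u ⬝ᵥ ·) hν
    simp only [dotProduct_sum, dotProduct_smul, dotProduct_neg] at h2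
    simp only [nsmul_eq_mul] at h2
    have h3 : 0 ≤ ∑ ρ, (ν ρ : ℤ) * u ⬝ᵥ ray ρ :=
      Finset.sum_nonneg fun ρ _ => mul_nonneg (Nat.cast_nonneg _) (h1 ρ)
    have h4 : 0 ≤ u ⬝ᵥ u := Finset.sum_nonneg fun s _ => mul_self_nonneg _
    have h5 : 0 < u ⬝ᵥ u := lt_of_le_of_ne h4 fun e => hu0 (dotProduct_self_eq_zero.1 e.symm)
    have h6 : (0 : ℤ) < N := Nat.cast_pos.2 hN
    nlinarith [mul_pos h6 h5]
  obtain ⟨ρ₁, hρ₁, hmin⟩ := Finset.exists_min_image _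
    (fun ρ => (((m ⬝ᵥ ray ρ : ℤ) : ℚ) - r₀ * γ ρ) / (-((u ⬝ᵥ ray ρ : ℤ) : ℚ))) hne
  have hneg : u ⬝ᵥ ray ρ₁ < 0 := (Finset.mem_filter.1 hρ₁).2
  have hneg' : 0 < -((u ⬝ᵥ ray ρ₁ : ℤ) : ℚ) := neg_pos.2 (Int.cast_lt_zero.2 hneg)
  obtain ⟨τ, hτ⟩ : ∃ τ : ℚ,
      τ = (((m ⬝ᵥ ray ρ₁ : ℤ) : ℚ) - r₀ * γ ρ₁) / (-((u ⬝ᵥ ray ρ₁ : ℤ) : ℚ)) := ⟨_, rfl⟩
  rw [← hτ] at hmin
  have hτ0 : 0 ≤ τ := by
    rw [hτ]
    exact div_nonneg (sub_nonneg.2 (h.le ρ₁ ⟨u, hu, hneg.ne⟩)) hneg'.le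
  have hden : (0 : ℚ) < τ.den := Nat.cast_pos.2 τ.den_pos
  have hdot : ∀ ρ, ((((τ.den : ℤ) • m + τ.num • u) ⬝ᵥ ray ρ : ℤ) : ℚ) =
      τ.den * (((m ⬝ᵥ ray ρ : ℤ) : ℚ) + τ * ((u ⬝ᵥ ray ρ : ℤ) : ℚ)) := fun ρ => by
    rw [add_dotProduct, smul_dotProduct, smul_dotProduct, smul_eq_mul, smul_eq_mul, Int.cast_add,
      Int.cast_mul, Int.cast_mul, Int.cast_natCast, ← Rat.den_mul_eq_num]
    ring
  refine ⟨ρ₁, fun β hβ => ?_, τ.den * r₀, (τ.den : ℤ) • m + τ.num • u,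
    ⟨Nat.mul_pos τ.den_pos h.pos, Λ.add_mem (Λ.smul_mem _ h.mem) (Λ.smul_mem _ hu),
      fun ρ hρ => ?_⟩, fun l => ?_⟩
  · have h1 := hβ u hu
    simp only [Fintype.sum_sum_type, Sum.elim_inl, Sum.elim_inr, hk, Int.cast_zero, mul_zero,
      Finset.sum_const_zero, zero_add, Fintype.sum_unique] at h1
    have h2 : β (Sum.inr ()) = 0 :=
      (mul_eq_zero.1 h1).resolve_right (Int.cast_ne_zero.2 hneg.ne)
    have h3 := hi (fun l => β (Sum.inl l)) fun v hv => by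
      have h4 := hβ v hv
      simp only [Fintype.sum_sum_type, Sum.elim_inl, Sum.elim_inr, Fintype.sum_unique] at h4
      rwa [h2, zero_mul, add_zero] at h4
    funext l
    rcases l with l | l
    · exact congrFun h3 l
    · exact h2
  · rw [hdot, Nat.cast_mul, mul_assoc]
    refine mul_le_mul_of_nonneg_left ?_ hden.le
    have h1 := h.le ρ hρ
    rcases le_or_gt 0 (u ⬝ᵥ ray ρ) with h2 | h2
    · have h3 : (0 : ℚ) ≤ ((u ⬝ᵥ ray ρ : ℤ) : ℚ) := Int.cast_nonneg h2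
      exact h1.trans (le_add_of_nonneg_right (mul_nonneg hτ0 h3))
    · have h3 := hmin ρ (Finset.mem_filter.2 ⟨Finset.mem_univ _, h2⟩)
      rw [le_div_iff₀ (neg_pos.2 (Int.cast_lt_zero.2 h2))] at h3
      linarith
  · rw [hdot, Nat.cast_mul, mul_assoc]
    congr 1
    rcases l with l | l
    · rw [Sum.elim_inl, hk, ht, Int.cast_zero, mul_zero, add_zero]
    · rw [Sum.elim_inr]
      rw [eq_div_iff hneg'.ne'] at hτ
      linarith

theorem LPb_ind {ray : R → S → ℤ} (hp : PosSpan ray) (γ : R → ℚ) (k : ℕ) :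
    ∀ (V : Type) [Fintype V] (r : V → R), Module.finrank ℤ Λ ≤ Fintype.card V + k →
      Indep Λ (fun l => ray (r l)) → ∀ (r₀ : ℕ) (m : S → ℤ), FeasAt Λ ray γ r₀ m →
      (∀ l, r₀ * γ (r l) = (m ⬝ᵥ ray (r l) : ℤ)) →
      ∃ (B : Type) (_ : Fintype B) (r' : B → R), IsBas Λ (fun l => ray (Sum.elim r r' l)) ∧
        ∃ r₁ m₁, FeasAt Λ ray γ r₁ m₁ ∧
          ∀ l, r₁ * γ (Sum.elim r r' l) = (m₁ ⬝ᵥ ray (Sum.elim r r' l) : ℤ) := by
  induction k using Nat.strong_induction_on with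
  | _ k ih =>
    intro V _ r hk hi r₀ m h ht
    by_cases hinj : ∀ u ∈ Λ, (∀ l, u ⬝ᵥ ray (r l) = 0) → u = 0
    · refine ⟨Empty, inferInstance, Empty.elim, ⟨?_, fun u hu h0 => hinj u hu fun l =>
        h0 (Sum.inl l)⟩, r₀, m, h, ?_⟩
      · rw [Fintype.card_sum, Fintype.card_empty, add_zero]
        exact le_antisymm hi.card_le (finrank_le_of_inj hinj)
      · rintro (l | l)
        · exact ht l
        · exact l.elim
    · push Not at hinj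
      obtain ⟨u, hu, h0, hu0⟩ := hinj
      obtain ⟨ρ₁, hi', r₁, m₁, h', ht'⟩ := LPb_step hp hi h ht hu hu0 h0
      have hc := hi'.card_le
      rw [Fintype.card_sum, Fintype.card_unit] at hc
      obtain ⟨B, _, r', hb, r₂, m₂, h'', ht''⟩ := ih (k - 1) (by omega) (V ⊕ Unit) _
        (by rw [Fintype.card_sum, Fintype.card_unit]; omega) hi' r₁ m₁ h' ht'
      have he : ∀ l : V ⊕ Unit ⊕ B, Sum.elim r (Sum.elim (fun _ => ρ₁) r') l =
          Sum.elim (Sum.elim r fun _ => ρ₁) r' ((Equiv.sumAssoc V Unit B).symm l) := by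
        rintro (l | l | l) <;> rfl
      refine ⟨Unit ⊕ B, inferInstance, Sum.elim (fun _ => ρ₁) r', ?_, r₂, m₂, h'', fun l => ?_⟩
      · simp only [he]
        exact hb.reindex (Equiv.sumAssoc V Unit B).symm
      · rw [he]
        exact ht'' _

/-- Extension of an independent tight family to a tight basis. Strong induction on
`finrank Λ - card V`, generalizing `V, r, r₀, m`. If every `u ∈ Λ` killed by the family is `0`,
take `B = Empty`. Otherwise let `u ≠ 0` be killed. `PosSpan` for `-u` and `u ⬝ᵥ u > 0` give a ray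
with `u ⬝ᵥ ray ρ < 0`. Among these rays choose `ρ₁` with the least
`τ = (m ⬝ᵥ ray ρ - r₀ * γ ρ) / (-(u ⬝ᵥ ray ρ)) ≥ 0`; then `τ.den • m + τ.num • u` is feasible with
`τ.den * r₀`, tight on the family and on `ρ₁`, and the family `V ⊕ Unit` is independent (test a
relation on `u`). Conclude with `B = Unit ⊕ B'` and `IsBas.reindex` along `Equiv.sumAssoc`. -/
theorem ext_tight {ray : R → S → ℤ} (hp : PosSpan ray) {γ : R → ℚ} {r : V → R}
    (hi : Indep Λ fun l => ray (r l)) {r₀ : ℕ} {m : S → ℤ} (h : FeasAt Λ ray γ r₀ m)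
    (ht : ∀ l, r₀ * γ (r l) = (m ⬝ᵥ ray (r l) : ℤ)) :
    ∃ (B : Type) (_ : Fintype B) (r' : B → R), IsBas Λ (fun l => ray (Sum.elim r r' l)) ∧
      ∃ r₁ m₁, FeasAt Λ ray γ r₁ m₁ ∧
        ∀ l, r₁ * γ (Sum.elim r r' l) = (m₁ ⬝ᵥ ray (Sum.elim r r' l) : ℤ) :=
  LPb_ind hp γ (Module.finrank ℤ Λ) V r (Nat.le_add_left _ _) hi r₀ m h ht

end Pool.Agent.Lib.MP_bc213e_ag.TCI
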