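import Pool.Agent.Lib.MP_bc213e_ag.TCI.LPa
import Pool.Agent.Lib.MP_bc213e_ag.TCI.LPb

/-! Optimal vertices; decompositions along a circuit. -/

namespace Pool.Agent.Lib.MP_bc213e_ag.TCI

variable {S R : Type} [Fintype S] [Fintype R] {Λ : Submodule ℤ (S → ℤ)}

theorem LPc_fin {V : Type} [Fintype V] {ray : R → S → ℤ} (hp : PosSpan ray) {γ : R → ℚ}
    {r : V → R} (hi : Indep Λ fun l => ray (r l)) {r₀ : ℕ} {m : S → ℤ} (h : FeasAt Λ ray γ r₀ m)
    (ht : ∀ l, r₀ * γ (r l) = (m ⬝ᵥ ray (r l) : ℤ)) {v : S → ℤ}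
    (hv : ∀ u ∈ Λ, (∀ l, 0 ≤ u ⬝ᵥ ray (r l)) → 0 ≤ u ⬝ᵥ v) :
    ∃ r : Fin (Module.finrank ℤ Λ) → R, IsBas Λ (fun l => ray (r l)) ∧
      (∃ r₁ m₁, FeasAt Λ ray γ r₁ m₁ ∧ ∀ l, r₁ * γ (r l) = (m₁ ⬝ᵥ ray (r l) : ℤ)) ∧
      ∀ u ∈ Λ, (∀ l, 0 ≤ u ⬝ᵥ ray (r l)) → 0 ≤ u ⬝ᵥ v := by
  obtain ⟨B, _, r', hb, r₁, m₁, hf, ht'⟩ := ext_tight hp hi h ht
  let e := (Fintype.equivFinOfCardEq hb.card).symm
  refine ⟨fun l => Sum.elim r r' (e l), hb.reindex e, ⟨r₁, m₁, hf, fun l => ht' _⟩,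
    fun u hu h0 => hv u hu fun l => ?_⟩
  have := h0 (e.symm (Sum.inl l))
  simpa only [Equiv.apply_symm_apply, Sum.elim_inl] using this

omit [Fintype R] in
theorem LPc_inj {ray : R → S → ℤ} {ℓ : ℕ} {r : Fin (ℓ + 1) → R} {c : Fin (ℓ + 1) → ℕ}
    (hc : Circuit Λ (fun j => ray (r j)) c) : Function.Injective r := by
  intro j j' e
  by_contra hne
  obtain ⟨s, hs⟩ := hc.uniq (Pi.single j 1 - Pi.single j' 1) fun u _ => by
    simp [sub_mul, Finset.sum_sub_distrib, Pi.single_apply, e]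
  have h1 := hs j
  have h2 := hs j'
  have hne' : j' ≠ j := fun h => hne h.symm
  simp only [Pi.sub_apply, Pi.single_eq_same, Pi.single_eq_of_ne hne,
    Pi.single_eq_of_ne hne'] at h1 h2
  have c1 : (0 : ℚ) < c j := by exact_mod_cast hc.pos j
  have c2 : (0 : ℚ) < c j' := by exact_mod_cast hc.pos j'
  rcases le_total s 0 with h | h <;> nlinarith

/-- An optimal basis for the objective `v`. If `¬ Surv Λ v`, apply `ext_tight` to the empty
family. Otherwise use the rays `Option R` with `none ↦ -v`, right hand sides `γ` and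
`none ↦ -(m ⬝ᵥ v) / r₀` (feasible), and `γ' = (none ↦ T, some ρ ↦ 0)` with `T` so large that
`γ + γ'` is infeasible: `N • v = ∑ ν ρ • ray ρ` gives `N * (m' ⬝ᵥ v) ≥ r' * ∑ ν ρ * γ ρ`, the sum
over surviving rays, for every feasible `(r', m')`. So `threshold` gives a tight circuit with some
`r j₀ = none`. The map `r` is injective (`Pi.single j 1 - Pi.single j' 1` would be a relation),
so the other `r j` are `some (r' a)`; they are independent (`Circuit.indep`), tight, and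
`c j₀ * (u ⬝ᵥ v) = ∑ a, c _ * (u ⬝ᵥ ray (r' a))` on `Λ`. Apply `ext_tight` and `IsBas.reindex`
(`Fintype.equivFinOfCardEq`). -/
theorem vertex {ray : R → S → ℤ} (hp : PosSpan ray) {γ : R → ℚ} {r₀ : ℕ} {m : S → ℤ}
    (h : FeasAt Λ ray γ r₀ m) (v : S → ℤ) :
    ∃ r : Fin (Module.finrank ℤ Λ) → R, IsBas Λ (fun l => ray (r l)) ∧
      (∃ r₁ m₁, FeasAt Λ ray γ r₁ m₁ ∧ ∀ l, r₁ * γ (r l) = (m₁ ⬝ᵥ ray (r l) : ℤ)) ∧
      ∀ u ∈ Λ, (∀ l, 0 ≤ u ⬝ᵥ ray (r l)) → 0 ≤ u ⬝ᵥ v := by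
  classical
  by_cases hs : Surv Λ v
  swap
  · refine LPc_fin (V := Empty) hp (r := Empty.elim) (fun _ _ => Subsingleton.elim _ _) h
      (fun l => l.elim) fun u hu _ => ?_
    by_contra h0
    exact hs ⟨u, hu, fun h1 => h0 h1.ge⟩
  obtain ⟨N, hN, ν, hν⟩ := hp v
  have hr₀ : (0 : ℚ) < r₀ := by exact_mod_cast h.pos
  have hN' : (0 : ℚ) < N := by exact_mod_cast hN
  set a : ℚ := ((m ⬝ᵥ v : ℤ) : ℚ) / r₀ with ha
  set G : ℚ := ∑ ρ, (ν ρ : ℚ) * if Surv Λ (ray ρ) then γ ρ else 0 with hG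
  let ray' : Option R → S → ℤ := fun o => o.elim (-v) ray
  let γ₁ : Option R → ℚ := fun o => o.elim (-a) γ
  let γ' : Option R → ℚ := fun o => o.elim (a - G / N + 1) fun _ => 0
  have hf : FeasAt Λ ray' γ₁ r₀ m := by
    refine ⟨h.pos, h.mem, fun o ho => ?_⟩
    cases o with
    | none =>
      simp only [ray', γ₁, Option.elim_none, dotProduct_neg, ha]
      push_cast
      rw [mul_neg, mul_div_cancel₀ _ hr₀.ne']
    | some ρ => exact h.le ρ ho
  rcases threshold γ' hf with ⟨r', m', h'⟩ | ⟨θ, -, -, r₁, m₁, h₁, ℓ, -, r, c, hc, hpos, ht⟩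
  · exfalso
    have hr' : (0 : ℚ) < r' := by exact_mod_cast h'.pos
    have h1 := h'.le none (by
      obtain ⟨u, hu, h0⟩ := hs
      exact ⟨u, hu, by simpa [ray'] using h0⟩)
    simp only [ray', γ₁, γ', Pi.add_apply, Option.elim_none, dotProduct_neg] at h1
    have h2 : (N : ℚ) * ((m' ⬝ᵥ v : ℤ) : ℚ) = ∑ ρ, (ν ρ : ℚ) * ((m' ⬝ᵥ ray ρ : ℤ) : ℚ) := by
      have := congrArg (fun w => m' ⬝ᵥ w) hν
      simp only [dotProduct_smul, dotProduct_sum] at this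
      simp only [nsmul_eq_mul] at this
      exact_mod_cast this
    have h3 : r' * G ≤ ∑ ρ, (ν ρ : ℚ) * ((m' ⬝ᵥ ray ρ : ℤ) : ℚ) := by
      rw [hG, Finset.mul_sum]
      refine Finset.sum_le_sum fun ρ _ => ?_
      rw [mul_left_comm]
      refine mul_le_mul_of_nonneg_left ?_ (Nat.cast_nonneg _)
      split_ifs with h4
      · simpa [ray', γ₁, γ'] using h'.le (some ρ) h4
      · have : m' ⬝ᵥ ray ρ = 0 := by
          by_contra h5
          exact h4 ⟨m', h'.mem, h5⟩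
        simp [this]
    push_cast at h1
    have h4 := mul_le_mul_of_nonneg_left h1 hN'.le
    have h5 : (N : ℚ) * (r' * (-a + (a - G / N + 1))) = r' * N - r' * G := by
      field_simp
      ring
    have h6 := mul_pos hr' hN'
    linarith
  · obtain ⟨j₀, hj₀⟩ : ∃ j₀, r j₀ = none := by
      by_contra h0
      refine hpos.ne' (Finset.sum_eq_zero fun j _ => ?_)
      cases hj : r j with
      | none => exact absurd ⟨j, hj⟩ h0
      | some ρ => simp [γ']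
    have hsome : ∀ b : Fin ℓ, ∃ ρ, r (j₀.succAbove b) = some ρ := fun b =>
      Option.ne_none_iff_exists'.1 fun h0 =>
        Fin.succAbove_ne j₀ b (LPc_inj hc (h0.trans hj₀.symm))
    choose r' hr' using hsome
    refine LPc_fin hp (r := r') ?_ (r₀ := r₁) (m := m₁) ⟨h₁.pos, h₁.mem, fun ρ hρ => ?_⟩
      (fun b => ?_) fun u hu h0 => ?_
    · have := hc.indep j₀
      simpa only [hr', ray', Option.elim_some] using this
    · simpa [ray', γ₁, γ'] using h₁.le (some ρ) hρ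
    · have := ht (j₀.succAbove b)
      simpa [hr', ray', γ₁, γ'] using this
    · have h1 := hc.rel u hu
      rw [Fin.sum_univ_succAbove _ j₀] at h1
      simp only [hr', hj₀, ray', Option.elim_some, Option.elim_none, dotProduct_neg] at h1
      have h2 : 0 ≤ ∑ b : Fin ℓ, (c (j₀.succAbove b) : ℤ) * (u ⬝ᵥ ray (r' b)) :=
        Finset.sum_nonneg fun b _ => mul_nonneg (Nat.cast_nonneg _) (h0 b)
      have h3 : (0 : ℤ) < c j₀ := by exact_mod_cast hc.pos j₀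
      exact nonneg_of_mul_nonneg_right (a := (c j₀ : ℤ)) (by linarith) h3

/-- A functional that vanishes on the common kernel is a combination `β` of the `nn j`: use the
coordinates of `exists_basis Λ` and `mem_span_of_iInf_ker_le_ker` over `ℚ` (clear denominators of
a rational vector in the common kernel with `Farkas_den`), or `farkas_hom`. Then subtract `s • c`
with `s` the minimum of `β j / c j`, attained at `j₀`. -/
theorem ext_dec {ℓ : ℕ} {nn : Fin (ℓ + 1) → S → ℤ} {c : Fin (ℓ + 1) → ℕ} (hc : Circuit Λ nn c)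
    (ψ : (S → ℤ) →+ ℚ) (hψ : ∀ u ∈ perp Λ nn, ψ u = 0) :
    ∃ (lam : Fin (ℓ + 1) → ℚ) (j₀ : Fin (ℓ + 1)), (∀ j, 0 ≤ lam j) ∧ lam j₀ = 0 ∧
      ∀ u ∈ Λ, ψ u = ∑ j, lam j * ((u ⬝ᵥ nn j : ℤ) : ℚ) := by
  obtain ⟨β, hβ, hspan⟩ := exists_basis Λ
  have h1 : ∀ (z : Fin (Module.finrank ℤ Λ) → ℤ) (w : S → ℤ),
      (((∑ a, z a • β a) ⬝ᵥ w : ℤ) : ℚ) = ∑ a, (z a : ℚ) * ((β a ⬝ᵥ w : ℤ) : ℚ) := by
    intro z w
    simp only [sum_dotProduct, smul_dotProduct, smul_eq_mul]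
    push_cast
    rfl
  have h2 : ∀ z : Fin (Module.finrank ℤ Λ) → ℤ, ψ (∑ a, z a • β a) = ∑ a, (z a : ℚ) * ψ (β a) := by
    intro z
    simp only [map_sum, map_zsmul]
    simp only [zsmul_eq_mul]
  have hrel : ∀ u ∈ Λ, ∑ j, (c j : ℚ) * ((u ⬝ᵥ nn j : ℤ) : ℚ) = 0 := fun u hu => by
    exact_mod_cast hc.rel u hu
  have hcp : ∀ j, (0 : ℚ) < c j := fun j => by exact_mod_cast hc.pos j
  obtain ⟨c', -, hc'⟩ := farkas_hom Finset.univ
    (fun j => Fintype.linearCombination ℚ fun a => ((β a ⬝ᵥ nn j : ℤ) : ℚ))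
    (Fintype.linearCombination ℚ fun a => ψ (β a)) fun t ht => by
      obtain ⟨N, hN, z, hz⟩ := Farkas_den t
      have hN' : (0 : ℚ) < N := by exact_mod_cast hN
      simp only [Fintype.linearCombination_apply, smul_eq_mul] at ht ⊢
      have hu : ∑ a, z a • β a ∈ Λ := Λ.sum_mem fun a _ => Λ.smul_mem _ (hβ a)
      have h3 : ∀ j, 0 ≤ (((∑ a, z a • β a) ⬝ᵥ nn j : ℤ) : ℚ) := fun j => by
        rw [h1]
        simp only [hz, mul_assoc, ← Finset.mul_sum]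
        exact mul_nonneg hN'.le (ht j (Finset.mem_univ _))
      have h4 := (Finset.sum_eq_zero_iff_of_nonneg
        fun j _ => mul_nonneg (hcp j).le (h3 j)).1 (hrel _ hu)
      have h5 := hψ _ ⟨hu, fun j => by
        exact_mod_cast (mul_eq_zero.1 (h4 j (Finset.mem_univ _))).resolve_left (hcp j).ne'⟩
      rw [h2] at h5
      simp only [hz, mul_assoc, ← Finset.mul_sum] at h5
      exact ((mul_eq_zero.1 h5).resolve_left hN'.ne').ge
  obtain ⟨j₀, -, hj₀⟩ := Finset.exists_min_image Finset.univ (fun j => c' j / c j)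
    Finset.univ_nonempty
  refine ⟨fun j => c' j - c' j₀ / c j₀ * c j, j₀, fun j => ?_, ?_, fun u hu => ?_⟩
  · exact sub_nonneg.2 ((le_div_iff₀ (hcp j)).1 (hj₀ j (Finset.mem_univ _)))
  · simp only
    rw [div_mul_cancel₀ _ (hcp j₀).ne', sub_self]
  · simp only [sub_mul, Finset.sum_sub_distrib, mul_assoc, ← Finset.mul_sum, hrel u hu, mul_zero,
      sub_zero]
    obtain ⟨t, rfl⟩ := hspan u hu
    have := hc' fun a => (t a : ℚ)
    simp only [Fintype.linearCombination_apply, smul_eq_mul] at this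
    simp only [h1, h2, this]

/-- A circuit completed by further rays: `ext_tight` with `γ = 0`, `m = 0` for the family
`r ∘ Fin.succ`; `V = Fin ℓ ⊕ B`, `r' = Sum.elim (Sum.elim (r ∘ succ) r₁) fun _ => r 0`,
`c' = Sum.elim (Sum.elim (c ∘ succ) 0) fun _ => c 0`. -/
theorem cone_data {ray : R → S → ℤ} (hp : PosSpan ray) {ℓ : ℕ} {r : Fin (ℓ + 1) → R}
    {c : Fin (ℓ + 1) → ℕ} (hc : Circuit Λ (fun j => ray (r j)) c) :
    ∃ (V : Type) (_ : Fintype V) (r' : V ⊕ Unit → R) (c' : V ⊕ Unit → ℕ),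
      IsBas Λ (fun l => ray (r' (Sum.inl l))) ∧ 0 < c' (Sum.inr ()) ∧
      (∀ F : R → ℚ, ∑ l, (c' l : ℚ) * F (r' l) = ∑ j, (c j : ℚ) * F (r j)) ∧
      ∀ j, ∃ l, 0 < c' l ∧ r' l = r j := by
  have hi : Indep Λ fun a : Fin ℓ => ray (r a.succ) := hc.indep 0
  obtain ⟨B, _, r₁, hb, -⟩ := ext_tight hp (γ := 0) hi (r₀ := 1) (m := 0)
    ⟨one_pos, Λ.zero_mem, fun ρ _ => by simp⟩ (fun l => by simp)
  refine ⟨Fin ℓ ⊕ B, inferInstance, Sum.elim (Sum.elim (fun a => r a.succ) r₁) fun _ => r 0,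
    Sum.elim (Sum.elim (fun a => c a.succ) 0) fun _ => c 0, hb, hc.pos 0, fun F => ?_,
    fun j => ?_⟩
  · simp [Fintype.sum_sum_type, Fin.sum_univ_succ, add_comm]
  · refine Fin.cases ⟨Sum.inr (), hc.pos 0, rfl⟩ (fun a => ?_) j
    exact ⟨Sum.inl (Sum.inl a), hc.pos _, rfl⟩

end Pool.Agent.Lib.MP_bc213e_ag.TCI
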