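import Pool.Agent.Lib.MP_bc213e_ag.TCI.Lev
import Pool.Agent.Lib.MP_bc213e_ag.TCI.JB
import Pool.Agent.Lib.MP_bc213e_ag.TCI.LPc

/-! The invariant of the induction. -/

namespace Pool.Agent.Lib.MP_bc213e_ag.TCI.Data

open WithZero

variable {n k : ℕ} {R ι K : Type} [Fintype R] [Field K] [Algebra ℂ K] {D : Data n k R ι K}
  {Λ : Submodule ℤ (Fin n ⊕ Fin k → ℤ)} {I I' : Finset (Fin k)} {lam : ℚ} {e : ℕ} {H : K}
  {γ : R → ℚ}

theorem Inv_ord_add (w : Valuation K ℤᵐ⁰) (u u' : Fin n ⊕ Fin k → ℤ) :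
    ord w (mono D.x (u + u')) = ord w (mono D.x u) + ord w (mono D.x u') := by
  rw [mono_add, ord_mul w (mono_ne_zero _ _) (mono_ne_zero _ _)]

theorem Inv_ord_nsmul (w : Valuation K ℤᵐ⁰) (N : ℕ) (u : Fin n ⊕ Fin k → ℤ) :
    ord w (mono D.x (N • u)) = N * ord w (mono D.x u) := by
  rw [mono_nsmul, ord_pow]

theorem Inv_ord_unit {w : Valuation K ℤᵐ⁰} (hw : ∀ l, w (D.x l) = 1) (u : Fin n ⊕ Fin k → ℤ) :
    ord w (mono D.x u) = 0 := by
  rw [ord_mono]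
  exact Finset.sum_eq_zero fun l _ => by rw [ord_eq_zero w (hw l), mul_zero]

theorem Inv_state_top (D : Data n k R ι K) : D.State ⊤ ∅ := by
  classical
  refine ⟨by simp, ?_, fun _ _ _ _ => Submodule.mem_top⟩
  rw [eq_top_iff, ← D.gen]
  refine IntermediateField.adjoin.mono _ _ _ ?_
  rintro _ ⟨l, rfl⟩
  exact ⟨Pi.single l 1, Submodule.mem_top, mono_single D.x l⟩

/-- `g₀ ∈ g.support` (`D.gne`), `e = 1`, `H = mono g₀`, `γ ρ = -(b ρ + g₀ ⬝ᵥ ray ρ)`. A nonzero ray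
survives on `⊤` (pair it with itself or with `Pi.single`). `ig` is `Dec.ordGe_sum` with `t = 1`,
`s = 0`, `a = b`. -/
theorem inv_init (D : Data n k R ι K) :
    ∃ H γ, D.Inv ⊤ ∅ 0 1 H γ ∧ FeasAt ⊤ D.ray γ 1 0 := by
  obtain ⟨g₀, hg₀⟩ : D.g.support.Nonempty := by
    rw [Finsupp.support_nonempty_iff]
    intro h0
    apply D.gne
    rw [h0, lval, Finsupp.sum_zero_index]
  refine ⟨mono D.x g₀, fun ρ => -((D.b ρ + g₀ ⬝ᵥ D.ray ρ : ℤ) : ℚ),
    ⟨Inv_state_top D, one_pos, mono_ne_zero _ _, le_rfl, fun σ => ?_, fun w μ hd => ?_,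
      fun w _ hw _ => (Inv_ord_unit hw _).le⟩, one_pos, Submodule.mem_top, fun ρ _ => ?_⟩
  · refine lq_mono (fun ρ _ hρ => ?_) (mono_mem_lq g₀)
    have hs : Surv ⊤ (D.ray ρ) :=
      ⟨D.ray ρ, Submodule.mem_top, fun h0 => hρ (dotProduct_self_eq_zero.1 h0)⟩
    rw [if_pos hs]
    push_cast
    linarith
  · have h1 := hd.ordGe_sum D.g.support D.g (fun _ => 1) g₀ (fun _ _ => Submodule.mem_top) D.b 0
      (fun u hu _ => Finset.sum_nonneg fun ρ _ =>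
        mul_nonneg (hd.nonneg ρ) (Int.cast_nonneg (D.hg u hu ρ)))
    simp only [Int.cast_one, one_mul] at h1
    have h2 := h1 D.gne
    have h3 : (μ ⬝ᵥ fun ρ => -((D.b ρ + g₀ ⬝ᵥ D.ray ρ : ℤ) : ℚ)) =
        -(μ ⬝ᵥ fun ρ => ((D.b ρ + g₀ ⬝ᵥ D.ray ρ : ℤ) : ℚ)) := dotProduct_neg _ _
    rw [h3]
    change _ ≤ ord w (lval D.x D.g) at h2
    push_cast at h2 ⊢
    linarith
  · have h1 : (0 : ℚ) ≤ ((g₀ ⬝ᵥ D.ray ρ + D.b ρ : ℤ) : ℚ) := by exact_mod_cast D.hg g₀ hg₀ ρ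
    rw [zero_dotProduct]
    push_cast at h1 ⊢
    linarith

/-- Write `τ = p / d` with naturals (`τ.num.toNat`, `τ.den`); `e' = e * d * r`,
`H' = H ^ (d * r) * phi ^ (p * e * r) * mono ((e * d) • m)`. Use `phi_lev`, `lq_mul`, `lq_pow`,
`mono_mem_lq` (rays orthogonal to `Λ` pair to zero with `m`), `ord_mul`, `ord_pow`, `Dec.eq`.
For `it`: `ord (mono _) = 0` if all `w (x l) = 1`. -/
theorem Inv.adv (h : D.Inv Λ I lam e H γ) {τ : ℚ} (hτ : 0 ≤ τ) {r : ℕ} (hr : 0 < r)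
    {m : Fin n ⊕ Fin k → ℤ} (hm : m ∈ Λ) :
    ∃ e' H', D.Inv Λ I (lam + τ) e' H' fun ρ => γ ρ + τ * D.gq I ρ - D.pq m ρ / r := by
  obtain ⟨p, d, hd, hp⟩ : ∃ p d : ℕ, 0 < d ∧ (p : ℚ) = τ * d := by
    refine ⟨τ.num.toNat, τ.den, τ.den_pos, ?_⟩
    rw [Rat.mul_den_eq_num, ← Int.cast_natCast, Int.toNat_of_nonneg (Rat.num_nonneg.2 hτ)]
  have he : (e : ℚ) ≠ 0 := by exact_mod_cast h.epos.ne'
  have hd' : (d : ℚ) ≠ 0 := by exact_mod_cast hd.ne'
  have hr' : (r : ℚ) ≠ 0 := by exact_mod_cast hr.ne'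
  have hφ := h.st.phi_ne
  have hord : ∀ w : Valuation K ℤᵐ⁰,
      ord w (H ^ (d * r) * D.phi Λ I ^ (p * e * r) * mono D.x ((e * d) • m)) =
        d * r * ord w H + τ * d * e * r * ord w (D.phi Λ I) + e * d * ord w (mono D.x m) := by
    intro w
    rw [ord_mul w (mul_ne_zero (pow_ne_zero _ h.hne) (pow_ne_zero _ hφ)) (mono_ne_zero _ _),
      ord_mul w (pow_ne_zero _ h.hne) (pow_ne_zero _ hφ), ord_pow, ord_pow, Inv_ord_nsmul]
    push_cast
    rw [hp]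
  refine ⟨e * d * r, H ^ (d * r) * D.phi Λ I ^ (p * e * r) * mono D.x ((e * d) • m), h.st,
    Nat.mul_pos (Nat.mul_pos h.epos hd) hr,
    mul_ne_zero (mul_ne_zero (pow_ne_zero _ h.hne) (pow_ne_zero _ hφ)) (mono_ne_zero _ _),
    add_nonneg h.lam0 hτ, fun σ => ?_, fun w μ hw => ?_, fun w hw hx h0 => ?_⟩
  · refine lq_mono (fun ρ _ _ => le_of_eq ?_) (lq_mul (lq_mul (lq_pow (h.lev σ) (d * r))
      (lq_pow (h.st.phi_lev σ) (p * e * r))) (mono_mem_lq ((e * d) • m)))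
    rw [smul_dotProduct, nsmul_eq_mul]
    by_cases hs : Surv Λ (D.ray ρ)
    · simp only [if_pos hs, pq]
      push_cast
      rw [hp]
      field_simp
      ring
    · have h0 : m ⬝ᵥ D.ray ρ = 0 := by
        by_contra h1
        exact hs ⟨m, hm, h1⟩
      simp only [if_neg hs, h0]
      push_cast
      rw [hp]
      ring
  · have h1 := h.ig w μ hw
    have h2 : (μ ⬝ᵥ fun ρ => γ ρ + τ * D.gq I ρ - D.pq m ρ / r) =
        μ ⬝ᵥ γ + τ * (μ ⬝ᵥ D.gq I) - (μ ⬝ᵥ D.pq m) / r := by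
      simp only [dotProduct, Finset.mul_sum, Finset.sum_div, ← Finset.sum_add_distrib,
        ← Finset.sum_sub_distrib]
      exact Finset.sum_congr rfl fun ρ _ => by ring
    have h3 : ord w (H ^ (d * r) * D.phi Λ I ^ (p * e * r) * mono D.x ((e * d) • m)) /
        ((e * d * r : ℕ) : ℚ) = ord w H / e + τ * ord w (D.phi Λ I) + (μ ⬝ᵥ D.pq m) / r := by
      rw [hord, hw.eq m hm]
      push_cast
      field_simp
    rw [h2, h3]
    linarith
  · rw [hord, Inv_ord_unit hx, mul_zero, add_zero]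
    exact add_nonpos (mul_nonpos_of_nonneg_of_nonpos (by positivity) (h.it w hw hx h0))
      (mul_nonpos_of_nonneg_of_nonpos (by positivity) h0)

/-- `lev`: a ray that survives on the small lattice survives on `Λ`; for the others use `hγ`.
`ig`: given `Dec Λ' w μ`, `ext_dec` for `ψ u = ord w (mono u) - μ ⬝ᵥ pq u` gives `lam', j₀` with
`Dec Λ w (μ + push r lam')`; use `h.ig`, `jbound` (times `lam ≥ 0`) and
`push r lam' ⬝ᵥ γ = 0`. `it`: `jbound` with `μ = 0`, `lam' = 0`. -/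
theorem Inv.elim (h : D.Inv Λ I lam e H γ) (hγ : ∀ ρ, Surv Λ (D.ray ρ) → γ ρ ≤ 0) {ℓ : ℕ}
    {r : Fin (ℓ + 1) → R} {c : Fin (ℓ + 1) → ℕ} (hc : Circuit Λ (fun j => D.ray (r j)) c)
    (ht : ∀ j, γ (r j) = 0) (st' : D.State (perp Λ fun j => D.ray (r j)) I') (hI : I ⊆ I') :
    D.Inv (perp Λ fun j => D.ray (r j)) I' lam e H γ := by
  refine ⟨st', h.epos, h.hne, h.lam0, fun σ => ?_, fun w μ hw => ?_, fun w hw hx h0 => ?_⟩
  · refine lq_mono (fun ρ _ _ => ?_) (h.lev σ)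
    refine mul_le_mul_of_nonneg_left (sub_le_sub_left ?_ _) (Nat.cast_nonneg e)
    by_cases hs : Surv (perp Λ fun j => D.ray (r j)) (D.ray ρ)
    · obtain ⟨u, hu, hu'⟩ := hs
      rw [if_pos ⟨u, hu.1, hu'⟩, if_pos ⟨u, hu, hu'⟩]
    · rw [if_neg hs]
      split_ifs with hs'
      · exact hγ ρ hs'
      · exact le_rfl
  · let ψ : (Fin n ⊕ Fin k → ℤ) →+ ℚ := AddMonoidHom.mk'
      (fun u => ord w (mono D.x u) - μ ⬝ᵥ D.pq u) fun u u' => by
        have e1 : D.pq (u + u') = D.pq u + D.pq u' := by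
          funext ρ
          simp only [pq, add_dotProduct, Int.cast_add, Pi.add_apply]
        rw [Inv_ord_add, e1, dotProduct_add]
        ring
    obtain ⟨lam', j₀, hl, hl0, hψ⟩ := ext_dec hc ψ fun u hu => sub_eq_zero.2 (hw.eq u hu)
    have hd : D.Dec Λ w (μ + push r lam') := by
      refine ⟨hw.base, fun ρ => add_nonneg (hw.nonneg ρ) (push_nonneg r hl ρ), fun u hu => ?_⟩
      rw [add_dotProduct, push_dot, ← sub_eq_iff_eq_add']
      exact hψ u hu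
    have h1 := h.ig w _ hd
    have h2 := mul_le_mul_of_nonneg_left (h.st.jbound hc st' hI hw.nonneg hl hl0 hd) h.lam0
    have h3 : (μ + push r lam') ⬝ᵥ γ = μ ⬝ᵥ γ := by
      rw [add_dotProduct, push_dot, Finset.sum_eq_zero fun j _ => by rw [ht j, mul_zero], add_zero]
    rw [h3] at h1
    linarith
  · have hd : D.Dec Λ w (0 + push r (0 : Fin (ℓ + 1) → ℚ)) := by
      rw [push_zero, add_zero]
      exact ⟨hw, fun _ => le_rfl, fun u _ => by rw [Inv_ord_unit hx, zero_dotProduct]⟩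
    have h1 := h.st.jbound hc st' hI (μ := 0) (fun _ => le_rfl) (lam := 0) (fun _ => le_rfl)
      (j₀ := 0) rfl hd
    rw [push_zero, add_zero, zero_dotProduct, zero_dotProduct] at h1
    exact h.it w hw hx (by linarith)

/-- `D.can` gives `r₀, u, N', m'`; `N' * ord (mono m) = N * ord (mono m')` (`ord_eq_of_cone` for
`N' • m`, `N • m'`). First case: `ord (mono m') + N' * ord g ≤ q * N' * ord r₀`, then `win` and
`ig`. Second case: `μ = 0`, `ord (mono m) = 0`, `0 ≤ ord r₀ ≤ -ord phi`, then `it`. -/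
theorem Inv.down (h : D.Inv Λ I D.q e H γ) {w : Valuation K ℤᵐ⁰} {μ : R → ℚ}
    (hw : D.Nice Λ I w μ) {σ : ι} (hσ : ∀ α ∈ chart D.ray (D.cone σ) D.x, w α ≤ 1) {N : ℕ}
    {m : Fin n ⊕ Fin k → ℤ} (hm : LocEq D.ray (D.cone σ) D.kap N m) :
    ord w (mono D.x m) ≤ N * (-(μ ⬝ᵥ γ) - ord w H / e) := by
  obtain ⟨r₀, u, N', m', hres, hu, hN', hm', halt⟩ := D.can σ w hσ hw.trop
  obtain ⟨hr0, hwin⟩ := hw.win r₀ u hres hu
  have he : (0 : ℚ) < e := by exact_mod_cast h.epos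
  have hN : (0 : ℚ) < N' := by exact_mod_cast hN'
  rcases halt with h1 | ⟨h1, h2⟩
  · have h2 := ord_le_ord w (pow_ne_zero _ hr0) h1
    rw [ord_mul w (mono_ne_zero _ _) (pow_ne_zero _ D.gne), ord_pow, ord_pow] at h2
    have h3 : ord w (mono D.x (N' • m)) = ord w (mono D.x (N • m')) :=
      D.ord_eq_of_cone hσ fun ρ hρ => by
        rw [smul_dotProduct, smul_dotProduct, hm ρ hρ, hm' ρ hρ, nsmul_eq_mul, nsmul_eq_mul, kap]
        ring
    rw [Inv_ord_nsmul, Inv_ord_nsmul] at h3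
    have h4 := mul_le_mul_of_nonneg_left (h.ig w μ hw.dec) hN.le
    have h5 := mul_le_mul_of_nonneg_left hwin
      (mul_nonneg (Nat.cast_nonneg (α := ℚ) D.q) hN.le)
    have h6 : ord w (mono D.x m') ≤ N' * (-(μ ⬝ᵥ γ) - ord w H / e) := by
      push_cast at h2
      linarith
    have h7 := mul_le_mul_of_nonneg_left h6 (Nat.cast_nonneg (α := ℚ) N)
    refine le_of_mul_le_mul_left ?_ hN
    linarith
  · have h3 := hw.unit h1
    have h4 := ord_nonneg w h2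
    rw [h3, zero_dotProduct] at hwin
    have h5 := h.it w hw.dec.base h1 (by linarith)
    have h6 : ord w H / e ≤ 0 := div_nonpos_of_nonpos_of_nonneg h5 he.le
    rw [Inv_ord_unit h1, h3, zero_dotProduct]
    exact mul_nonneg (Nat.cast_nonneg N) (by linarith)

/-- Take `σ` from `chart_le`, `mt` from `hφ σ`, so `0 ≤ ord φ + ord (mono mt)`
(`val_le_one_of_isIntegral`). The vector `N₀ • mt - M • m₀ σ` is a local equation of
`(M * N₀ * t) * kap`; apply `down`. -/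
theorem Inv.sec_bound (h : D.Inv Λ I D.q e H γ) {w : Valuation K ℤᵐ⁰} {μ : R → ℚ}
    (hw : D.Nice Λ I w μ) {b : R → ℤ} {N₀ : ℕ} {m₀ : ι → Fin n ⊕ Fin k → ℤ}
    (hm₀ : ∀ σ, LocEq D.ray (D.cone σ) b N₀ (m₀ σ)) {s : ℚ}
    (hs : ∀ σ, 0 ≤ s + ord w (mono D.x (-m₀ σ))) {t M : ℕ} {φ : K} (hφ0 : φ ≠ 0)
    (hφ : Sec D.ray D.cone D.x (fun ρ => t * D.kap ρ + b ρ) M φ) :
    N₀ * M * t * (μ ⬝ᵥ γ + ord w H / e) - M * s ≤ N₀ * ord w φ := by
  obtain ⟨σ, hσ⟩ := D.chart_le w hw.dec.base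
  obtain ⟨mt, hmt, hint⟩ := hφ σ
  have h1 := ord_nonneg w (val_le_one_of_isIntegral w _ hσ hint)
  rw [ord_mul w hφ0 (mono_ne_zero _ _)] at h1
  have h2 : LocEq D.ray (D.cone σ) D.kap (M * N₀ * t) (N₀ • mt + M • (-m₀ σ)) := fun ρ hρ => by
    rw [add_dotProduct, smul_dotProduct, smul_dotProduct, neg_dotProduct, hmt ρ hρ, hm₀ σ ρ hρ,
      nsmul_eq_mul, nsmul_eq_mul]
    push_cast
    ring
  have h3 := h.down hw hσ h2
  rw [Inv_ord_add, Inv_ord_nsmul, Inv_ord_nsmul] at h3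
  have h4 := mul_nonneg (Nat.cast_nonneg (α := ℚ) N₀) h1
  have h5 := mul_nonneg (Nat.cast_nonneg (α := ℚ) M) (hs σ)
  push_cast at h3
  linarith

end Pool.Agent.Lib.MP_bc213e_ag.TCI.Data
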