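import Pool.Agent.Lib.MP_bc213e_ag.TCI.Bez

/-! The Jacobian of a square system multiplies the trace dual into the integral closure. -/

namespace Pool.Agent.Lib.MP_bc213e_ag.TCI

open MvPolynomial

section aux

variable {A₀ K₀ E Ω V : Type} [CommRing A₀] [Field K₀] [Field E] [Field Ω] [Algebra K₀ E]
  [Algebra ℂ K₀] [Algebra ℂ E] [IsScalarTower ℂ K₀ E] [Algebra K₀ Ω] [Algebra E Ω] [Algebra ℂ Ω]
  [IsScalarTower K₀ E Ω] [IsScalarTower ℂ K₀ Ω]

omit [Algebra E Ω] [IsScalarTower K₀ E Ω] in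
theorem JacD_C (τ : E →ₐ[K₀] Ω) (a : ℂ) : τ (algebraMap ℂ E a) = algebraMap ℂ Ω a := by
  rw [IsScalarTower.algebraMap_apply ℂ K₀ E, τ.commutes, ← IsScalarTower.algebraMap_apply]

omit [Algebra E Ω] [IsScalarTower K₀ E Ω] in
theorem JacD_aeval (τ : E →ₐ[K₀] Ω) (v : V → E) (G : MvPolynomial V ℂ) :
    aeval (fun l => τ (v l)) G = τ (aeval v G) := by
  induction G using MvPolynomial.induction_on with
  | C a => rw [aeval_C, aeval_C, JacD_C]
  | add p q hp hq => rw [map_add, map_add, map_add, hp, hq]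
  | mul_X p l hp => rw [map_mul, map_mul, map_mul, hp, aeval_X, aeval_X]

omit [Algebra E Ω] [IsScalarTower K₀ E Ω] in
theorem JacD_ext (v : V → E) (gen : IntermediateField.adjoin ℂ (Set.range v) = ⊤)
    {τ τ' : E →ₐ[K₀] Ω} (h : ∀ l, τ (v l) = τ' (v l)) : τ = τ' := by
  refine AlgHom.ext fun x => ?_
  have hx : x ∈ IntermediateField.adjoin ℂ (Set.range v) := gen ▸ IntermediateField.mem_top
  induction hx using IntermediateField.adjoin_induction with
  | mem x hx =>
    obtain ⟨l, rfl⟩ := hx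
    exact h l
  | algebraMap a => rw [JacD_C, JacD_C]
  | add x y _ _ hx hy => rw [map_add, map_add, hx, hy]
  | inv x _ hx => rw [map_inv₀, map_inv₀, hx]
  | mul x y _ _ hx hy => rw [map_mul, map_mul, hx, hy]

omit [IsScalarTower K₀ E Ω] in
theorem JacD_sum [Algebra A₀ K₀] [Algebra A₀ E] [Algebra A₀ Ω] [IsScalarTower A₀ K₀ Ω]
    [IsScalarTower A₀ E Ω] [IsAlgClosed Ω] [FiniteDimensional K₀ E] [Algebra.IsSeparable K₀ E]
    (v : V → E) (hv : ∀ l, IsIntegral A₀ (v l))
    (hC : ∀ a : ℂ, IsIntegral A₀ (algebraMap ℂ E a)) (Q : MvPolynomial (V ⊕ V) ℂ) (ξ : E)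
    (hξ : ∀ b, IsIntegral A₀ b → Algebra.trace K₀ E (ξ * b) ∈ (algebraMap A₀ K₀).range) :
    IsIntegral A₀ (∑ τ : E →ₐ[K₀] Ω, τ ξ *
      aeval (Sum.elim (fun l => algebraMap E Ω (v l)) fun l => τ (v l)) Q) := by
  induction Q using MvPolynomial.induction_on generalizing ξ with
  | C a =>
    obtain ⟨t, ht⟩ := hξ _ (hC a)
    have h1 : ∑ τ : E →ₐ[K₀] Ω, τ ξ *
        aeval (Sum.elim (fun l => algebraMap E Ω (v l)) fun l => τ (v l))
          (C a : MvPolynomial (V ⊕ V) ℂ) = algebraMap A₀ Ω t := by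
      rw [IsScalarTower.algebraMap_apply A₀ K₀ Ω, ht, trace_eq_sum_embeddings Ω]
      refine Finset.sum_congr rfl fun τ _ => ?_
      rw [aeval_C, map_mul, JacD_C]
    rw [h1]
    exact isIntegral_algebraMap
  | add p q hp hq =>
    simp only [map_add, mul_add, Finset.sum_add_distrib]
    exact (hp ξ hξ).add (hq ξ hξ)
  | mul_X p l hp =>
    rcases l with l | l
    · simp only [map_mul, aeval_X, Sum.elim_inl, ← mul_assoc, ← Finset.sum_mul]
      exact (hp ξ hξ).mul (hv l).algebraMap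
    · have h1 := hp (ξ * v l) fun b hb => by
        rw [mul_assoc]
        exact hξ _ ((hv l).mul hb)
      simp only [map_mul, aeval_X, Sum.elim_inr] at h1 ⊢
      simp only [mul_assoc] at h1
      simp only [mul_comm _ (aeval _ p)] at h1
      exact h1

end aux

/-- Sketch. `Ω = AlgebraicClosure E`, `ι = algebraMap E Ω`. Take `B a l` from `exists_bez 0 0 (P a)`
and `Bz = det ((Matrix.of B).submatrix id e)`, a polynomial in `V ⊕ V`.
For a `K₀`-embedding `τ : E →ₐ[K₀] Ω` we have `aeval (τ ∘ v) (P a) = τ (aeval v (P a)) =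
aeval (ι ∘ v) (P a)` by `hP`, so by `bez_eval` the matrix `aeval (Sum.elim (ι ∘ v) (τ ∘ v)) (B a l)`
kills `ι v - τ v`; if `τ ≠ ι` this vector is nonzero (`gen`: two ring homs that agree on `ℂ` and
`v` agree, `IntermediateField.adjoin_induction` or `AlgHom.ext_of_adjoin`), so the determinant
vanishes (`Matrix.exists_mulVec_eq_zero_iff`); for `τ = ι` it is the Jacobian (`bez_diag`).
Claim, by `MvPolynomial.induction_on` on `Q : MvPolynomial (V ⊕ V) ℂ` generalizing `ξ`: if `ξ`
satisfies `hξ` then `∑ τ, τ ξ * aeval (Sum.elim (ι ∘ v) (τ ∘ v)) Q` is integral over `A₀`.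
`C a`: it is `a * Tr ξ` (`trace_eq_sum_embeddings`); `Q * X (inl l)`: multiply by `ι (v l)`;
`Q * X (inr l)`: replace `ξ` by `ξ * v l`. For `Q = Bz` the sum is `ι (ξ * Jac)`; finish with
`isIntegral_algebraMap_iff`. -/
theorem jac_mul_integral {A₀ K₀ E T V : Type} [CommRing A₀] [Field K₀] [Field E] [Algebra A₀ K₀]
    [Algebra K₀ E] [Algebra A₀ E] [IsScalarTower A₀ K₀ E] [Algebra ℂ K₀] [Algebra ℂ E]
    [IsScalarTower ℂ K₀ E] [FiniteDimensional K₀ E] [Fintype T] [DecidableEq T] [Fintype V]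
    [DecidableEq V] (e : T ≃ V) (v : V → E)
    (gen : IntermediateField.adjoin ℂ (Set.range v) = ⊤) (hv : ∀ l, IsIntegral A₀ (v l))
    (hC : ∀ a : ℂ, IsIntegral A₀ (algebraMap ℂ E a)) (P : T → MvPolynomial V ℂ)
    (hP : ∀ a, aeval v (P a) ∈ (algebraMap K₀ E).range) (ξ : E)
    (hξ : ∀ b, IsIntegral A₀ b → Algebra.trace K₀ E (ξ * b) ∈ (algebraMap A₀ K₀).range) :
    IsIntegral A₀ (((jac P v).submatrix id e).det * ξ) := by
  classical
  have : CharZero K₀ := charZero_of_injective_algebraMap (algebraMap ℂ K₀).injective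
  choose B hB using fun a => exists_bez 0 0 (P a) (fun m _ => by simp)
  set ι : E →ₐ[K₀] AlgebraicClosure E := IsScalarTower.toAlgHom K₀ E (AlgebraicClosure E) with hι
  have key := JacD_sum (K₀ := K₀) (Ω := AlgebraicClosure E) v hv hC
    ((Matrix.of B).submatrix id e).det ξ hξ
  rw [Finset.sum_eq_single ι] at key
  · rw [← isIntegral_algebraMap_iff (B := AlgebraicClosure E)
      (algebraMap E (AlgebraicClosure E)).injective, map_mul, mul_comm]
    have h1 : aeval (Sum.elim (fun l => algebraMap E (AlgebraicClosure E) (v l)) fun l => ι (v l))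
        ((Matrix.of B).submatrix id e).det =
        algebraMap E (AlgebraicClosure E) ((jac P v).submatrix id e).det := by
      rw [AlgHom.map_det, RingHom.map_det]
      congr 1
      ext a b
      exact (bez_diag (hB a).1 (fun l => ι (v l)) (e b)).trans (JacD_aeval ι v _)
    rw [← h1]
    exact key
  · intro τ _ hτ
    rw [AlgHom.map_det, Matrix.exists_mulVec_eq_zero_iff.1, mul_zero]
    refine ⟨fun b => ι (v (e b)) - τ (v (e b)), fun h => hτ (JacD_ext v gen fun l => ?_), ?_⟩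
    · have := congrFun h (e.symm l)
      simp only [Equiv.apply_symm_apply, Pi.zero_apply] at this
      exact (sub_eq_zero.1 this).symm
    · funext a
      obtain ⟨t, ht⟩ := hP a
      have h1 := bez_eval (hB a).1 (fun l => ι (v l)) fun l => τ (v l)
      rw [JacD_aeval, JacD_aeval, ← ht, AlgHom.commutes, AlgHom.commutes, sub_self,
        ← Equiv.sum_comp e] at h1
      exact h1.symm
  · intro h
    exact absurd (Finset.mem_univ _) h

end Pool.Agent.Lib.MP_bc213e_ag.TCI
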