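import Pool.Agent.Lib.MP_bc213e_ag.TCI.ADefs

/-! The linear program with scaling. -/

namespace Pool.Agent.Lib.MP_bc213e_ag.TCI

variable {S R : Type} [Fintype S] [Fintype R]

/-- Clear denominators (`Farkas_den`), then `farkas_lat` and `exists_circuit`. -/
theorem farkas_rat (Λ : Submodule ℤ (S → ℤ)) (ray : R → S → ℤ) (γ : R → ℚ) :
    (∃ r m, FeasAt Λ ray γ r m) ∨ ∃ ℓ : ℕ, 0 < ℓ ∧ ∃ (r : Fin (ℓ + 1) → R) (c : Fin (ℓ + 1) → ℕ),
      Circuit Λ (fun j => ray (r j)) c ∧ 0 < ∑ j, (c j : ℚ) * γ (r j) := by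
  obtain ⟨N, hN, z, hz⟩ := Farkas_den γ
  have hN' : (0 : ℚ) < N := by exact_mod_cast hN
  rcases farkas_lat Λ ray z with ⟨r, hr, m, hm, hle⟩ | hbad
  · refine Or.inl ⟨r * N, m, Nat.mul_pos hr hN, hm, fun ρ hρ => ?_⟩
    have h1 : ((r * z ρ : ℤ) : ℚ) ≤ ((m ⬝ᵥ ray ρ : ℤ) : ℚ) := by exact_mod_cast hle ρ hρ
    rw [Int.cast_mul, hz, Int.cast_natCast, ← mul_assoc, ← Nat.cast_mul] at h1
    exact h1
  · obtain ⟨ℓ, hℓ, r, c, hc, hpos⟩ := exists_circuit Λ ray z hbad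
    refine Or.inr ⟨ℓ, hℓ, r, c, hc, ?_⟩
    have h1 : (0 : ℚ) < ((∑ j, (c j : ℤ) * z (r j) : ℤ) : ℚ) := by exact_mod_cast hpos
    have h2 : ((∑ j, (c j : ℤ) * z (r j) : ℤ) : ℚ) = N * ∑ j, (c j : ℚ) * γ (r j) := by
      rw [Int.cast_sum, Finset.mul_sum]
      refine Finset.sum_congr rfl fun j _ => ?_
      rw [Int.cast_mul, hz, Int.cast_natCast]
      ring
    rw [h2] at h1
    exact (mul_pos_iff_of_pos_left hN').1 h1

/-- If `nn j` vanished on `Λ`, `Pi.single j 1` would be a relation, a multiple of `c`. -/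
theorem Circuit.surv {Λ : Submodule ℤ (S → ℤ)} {ℓ : ℕ} {nn : Fin (ℓ + 1) → S → ℤ}
    {c : Fin (ℓ + 1) → ℕ} (hc : Circuit Λ nn c) (hℓ : 0 < ℓ) (j : Fin (ℓ + 1)) : Surv Λ (nn j) :=
  by
  by_contra hn
  have h0 : ∀ u ∈ Λ, u ⬝ᵥ nn j = 0 := fun u hu => by
    by_contra h
    exact hn ⟨u, hu, h⟩
  obtain ⟨s, hs⟩ := hc.uniq (Pi.single j 1) fun u hu => by
    rw [Finset.sum_eq_single j (fun i _ hi => by rw [Pi.single_eq_of_ne hi, zero_mul])
      (fun h => absurd (Finset.mem_univ j) h), h0 u hu, Int.cast_zero, mul_zero]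
  haveI : Nontrivial (Fin (ℓ + 1)) := Fin.nontrivial_iff_two_le.2 (by omega)
  obtain ⟨i, hi⟩ := exists_ne j
  have h1 := hs i
  have h2 := hs j
  rw [Pi.single_eq_of_ne hi] at h1
  rw [Pi.single_eq_same] at h2
  have h3 : s = 0 :=
    (mul_eq_zero.1 h1.symm).resolve_right (by exact_mod_cast (hc.pos i).ne')
  rw [h3, zero_mul] at h2
  exact one_ne_zero h2

/-- Weak duality with the equality case: `∑ c j * (m ⬝ᵥ n j - r * γ j) = -r * ∑ c j * γ j` is a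
sum of nonnegative terms. -/
theorem FeasAt.circuit {Λ : Submodule ℤ (S → ℤ)} {ray : R → S → ℤ} {γ : R → ℚ} {r₀ : ℕ}
    {m : S → ℤ} (h : FeasAt Λ ray γ r₀ m) {ℓ : ℕ} (hℓ : 0 < ℓ) {r : Fin (ℓ + 1) → R}
    {c : Fin (ℓ + 1) → ℕ} (hc : Circuit Λ (fun j => ray (r j)) c) :
    ∑ j, (c j : ℚ) * γ (r j) ≤ 0 ∧ (∑ j, (c j : ℚ) * γ (r j) = 0 →
      ∀ j, r₀ * γ (r j) = (m ⬝ᵥ ray (r j) : ℤ)) := by
  have hr : (0 : ℚ) < r₀ := by exact_mod_cast h.pos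
  have hcp : ∀ j, (0 : ℚ) < c j := fun j => by exact_mod_cast hc.pos j
  have hnn : ∀ j, 0 ≤ (c j : ℚ) * (((m ⬝ᵥ ray (r j) : ℤ) : ℚ) - r₀ * γ (r j)) := fun j =>
    mul_nonneg (hcp j).le (sub_nonneg.2 (h.le _ (hc.surv hℓ j)))
  have hrel : ∑ j, (c j : ℚ) * ((m ⬝ᵥ ray (r j) : ℤ) : ℚ) = 0 := by
    exact_mod_cast hc.rel m h.mem
  have hsum : ∑ j, (c j : ℚ) * (((m ⬝ᵥ ray (r j) : ℤ) : ℚ) - r₀ * γ (r j)) =
      -(r₀ * ∑ j, (c j : ℚ) * γ (r j)) := by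
    simp only [mul_sub, Finset.sum_sub_distrib, hrel, zero_sub, Finset.mul_sum]
    refine congrArg Neg.neg (Finset.sum_congr rfl fun j _ => ?_)
    ring
  have h0 := Finset.sum_nonneg fun j (_ : j ∈ Finset.univ) => hnn j
  refine ⟨?_, fun hz j => ?_⟩
  · rw [hsum] at h0
    by_contra hlt
    have := mul_pos hr (not_le.1 hlt)
    linarith
  · rw [hz, mul_zero, neg_zero] at hsum
    have h1 := (Finset.sum_eq_zero_iff_of_nonneg fun j _ => hnn j).1 hsum j (Finset.mem_univ j)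
    exact (sub_eq_zero.1 ((mul_eq_zero.1 h1).resolve_left (hcp j).ne')).symm

theorem LPa_same {Λ : Submodule ℤ (S → ℤ)} {ray : R → S → ℤ} {ℓ ℓ' : ℕ} {r : Fin (ℓ + 1) → R}
    {c : Fin (ℓ + 1) → ℕ} {r' : Fin (ℓ' + 1) → R} {c' : Fin (ℓ' + 1) → ℕ}
    (hc : Circuit Λ (fun j => ray (r j)) c) (hc' : Circuit Λ (fun j => ray (r' j)) c')
    (hr : ∀ j', ∃ j, r j = r' j') :
    ∃ s : ℚ, ∀ F : R → ℚ, ∑ j, (c' j : ℚ) * F (r' j) = s * ∑ j, (c j : ℚ) * F (r j) := by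
  choose φ hφ using hr
  have key : ∀ F : R → ℚ, ∑ j, push φ (fun j' => (c' j' : ℚ)) j * F (r j) =
      ∑ j, (c' j : ℚ) * F (r' j) := fun F => by
    have h1 := push_dot φ (fun j' => (c' j' : ℚ)) fun j => F (r j)
    simp only [hφ] at h1
    exact h1
  obtain ⟨s, hs⟩ := hc.uniq (push φ fun j' => (c' j' : ℚ)) fun u hu => by
    rw [key fun ρ => ((u ⬝ᵥ ray ρ : ℤ) : ℚ)]
    exact_mod_cast hc'.rel u hu
  refine ⟨s, fun F => ?_⟩
  rw [← key F, Finset.mul_sum]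
  refine Finset.sum_congr rfl fun j _ => ?_
  rw [hs j, mul_assoc]

omit [Fintype S] [Fintype R] in
theorem LPa_deg {ℓ : ℕ} (r : Fin (ℓ + 1) → R) (c : Fin (ℓ + 1) → ℕ) (γ γ' : R → ℚ) (θ : ℚ) :
    ∑ j, (c j : ℚ) * (γ + θ • γ') (r j) =
      ∑ j, (c j : ℚ) * γ (r j) + θ * ∑ j, (c j : ℚ) * γ' (r j) := by
  rw [Finset.mul_sum, ← Finset.sum_add_distrib]
  refine Finset.sum_congr rfl fun j _ => ?_
  simp only [Pi.add_apply, Pi.smul_apply, smul_eq_mul]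
  ring

/-- The threshold. Write `deg c γ = ∑ c j * γ (r j)`. For `θ` let `P θ` be the set of finsets
`s : Finset R` that are the image of the `r` of a circuit with `0 < ℓ` and `deg c (γ + θ γ') > 0`.
Show by strong induction on the cardinality of `P θ`: if `0 ≤ θ` and `γ + θ γ'` is infeasible, the
second alternative holds with some `θ' < θ`. By `farkas_rat` there is a circuit with
`deg c (γ + θ γ') > 0`; `deg c γ ≤ 0` (`FeasAt.circuit`), so `θ > 0`, `deg c γ' > 0` and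
`θ₁ = -deg c γ / deg c γ' ∈ [0, θ)`. If `γ + θ₁ γ'` is feasible, use the equality case. Otherwise
`P θ₁ ⊂ P θ`: the inclusion holds since `deg c' γ ≤ 0` for every circuit; the image of `r` is not
in `P θ₁`, because a circuit `(r', c')` with the same image has `deg c' F = s * deg c F` for all `F`
with some `s ≥ 0` (apply `hc.uniq` to `β j = ∑ j' with φ j' = j, c' j'`, where `r (φ j') = r' j'`). -/
theorem threshold {Λ : Submodule ℤ (S → ℤ)} {ray : R → S → ℤ} {γ : R → ℚ} (γ' : R → ℚ) {r₀ : ℕ}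
    {m₀ : S → ℤ} (h : FeasAt Λ ray γ r₀ m₀) :
    (∃ r m, FeasAt Λ ray (γ + γ') r m) ∨ ∃ θ : ℚ, 0 ≤ θ ∧ θ < 1 ∧ ∃ r₁ m,
      FeasAt Λ ray (γ + θ • γ') r₁ m ∧ ∃ ℓ : ℕ, 0 < ℓ ∧
        ∃ (r : Fin (ℓ + 1) → R) (c : Fin (ℓ + 1) → ℕ), Circuit Λ (fun j => ray (r j)) c ∧
          0 < ∑ j, (c j : ℚ) * γ' (r j) ∧
          ∀ j, r₁ * (γ + θ • γ') (r j) = (m ⬝ᵥ ray (r j) : ℤ) := by
  classical
  let P : ℚ → Finset (Finset R) := fun θ => Finset.univ.filter fun s => ∃ ℓ : ℕ, 0 < ℓ ∧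
    ∃ (r : Fin (ℓ + 1) → R) (c : Fin (ℓ + 1) → ℕ), Circuit Λ (fun j => ray (r j)) c ∧
      s = Finset.univ.image r ∧ 0 < ∑ j, (c j : ℚ) * (γ + θ • γ') (r j)
  have hP : ∀ θ s, s ∈ P θ ↔ ∃ ℓ : ℕ, 0 < ℓ ∧
      ∃ (r : Fin (ℓ + 1) → R) (c : Fin (ℓ + 1) → ℕ), Circuit Λ (fun j => ray (r j)) c ∧
        s = Finset.univ.image r ∧ 0 < ∑ j, (c j : ℚ) * (γ + θ • γ') (r j) := fun θ s => by
    simp only [P, Finset.mem_filter, Finset.mem_univ, true_and]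
  have main : ∀ (n : ℕ) (θ₀ : ℚ), (P θ₀).card = n → 0 ≤ θ₀ →
      (¬ ∃ r m, FeasAt Λ ray (γ + θ₀ • γ') r m) → ∃ θ : ℚ, 0 ≤ θ ∧ θ < θ₀ ∧ ∃ r₁ m,
        FeasAt Λ ray (γ + θ • γ') r₁ m ∧ ∃ ℓ : ℕ, 0 < ℓ ∧
          ∃ (r : Fin (ℓ + 1) → R) (c : Fin (ℓ + 1) → ℕ), Circuit Λ (fun j => ray (r j)) c ∧
            0 < ∑ j, (c j : ℚ) * γ' (r j) ∧
            ∀ j, r₁ * (γ + θ • γ') (r j) = (m ⬝ᵥ ray (r j) : ℤ) := by
    intro n
    induction n using Nat.strong_induction_on with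
    | _ n ih =>
      intro θ₀ hn h0 hinf
      obtain ⟨ℓ, hℓ, r, c, hc, hpos⟩ := (farkas_rat Λ ray (γ + θ₀ • γ')).resolve_left hinf
      have hmem : Finset.univ.image r ∈ P θ₀ := (hP _ _).2 ⟨ℓ, hℓ, r, c, hc, rfl, hpos⟩
      rw [LPa_deg] at hpos
      have hA := (h.circuit hℓ hc).1
      set A := ∑ j, (c j : ℚ) * γ (r j) with hAdef
      set B := ∑ j, (c j : ℚ) * γ' (r j) with hBdef
      have hB : 0 < B := by
        by_contra hB
        have := mul_nonpos_of_nonneg_of_nonpos h0 (not_lt.1 hB)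
        linarith
      have h1 : 0 ≤ -A / B := div_nonneg (by linarith) hB.le
      have h2 : -A / B < θ₀ := by
        rw [div_lt_iff₀ hB]
        linarith
      have h3 : ∑ j, (c j : ℚ) * (γ + (-A / B) • γ') (r j) = 0 := by
        rw [LPa_deg, ← hAdef, ← hBdef, div_mul_cancel₀ _ hB.ne', add_neg_cancel]
      by_cases hf : ∃ r m, FeasAt Λ ray (γ + (-A / B) • γ') r m
      · obtain ⟨r₁, m, hm⟩ := hf
        exact ⟨-A / B, h1, h2, r₁, m, hm, ℓ, hℓ, r, c, hc, hB, (hm.circuit hℓ hc).2 h3⟩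
      · have hsub : P (-A / B) ⊆ P θ₀ := fun s hs => by
          obtain ⟨ℓ', hℓ', r', c', hc', hs', hp'⟩ := (hP _ _).1 hs
          refine (hP _ _).2 ⟨ℓ', hℓ', r', c', hc', hs', ?_⟩
          rw [LPa_deg] at hp' ⊢
          have hA' := (h.circuit hℓ' hc').1
          have hB' : 0 < ∑ j, (c' j : ℚ) * γ' (r' j) := by
            by_contra hB'
            have := mul_nonpos_of_nonneg_of_nonpos h1 (not_lt.1 hB')
            linarith
          have := mul_lt_mul_of_pos_right h2 hB'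
          linarith
        have hnot : Finset.univ.image r ∉ P (-A / B) := fun hs => by
          obtain ⟨ℓ', -, r', c', hc', hs', hp'⟩ := (hP _ _).1 hs
          obtain ⟨s, hs⟩ := LPa_same hc hc' fun j' => by
            have h4 : r' j' ∈ Finset.univ.image r := by
              rw [hs']
              exact Finset.mem_image_of_mem _ (Finset.mem_univ j')
            obtain ⟨j, -, hj⟩ := Finset.mem_image.1 h4
            exact ⟨j, hj⟩
          rw [hs, h3, mul_zero] at hp'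
          exact lt_irrefl _ hp'
        have hlt : (P (-A / B)).card < n := by
          rw [← hn]
          exact Finset.card_lt_card ⟨hsub, fun hs => hnot (hs hmem)⟩
        obtain ⟨θ, hθ0, hθ1, hrest⟩ := ih _ hlt (-A / B) rfl h1 hf
        exact ⟨θ, hθ0, hθ1.trans h2, hrest⟩
  by_cases hf : ∃ r m, FeasAt Λ ray (γ + γ') r m
  · exact Or.inl hf
  · exact Or.inr (main _ 1 rfl zero_le_one (by rwa [one_smul]))

end Pool.Agent.Lib.MP_bc213e_ag.TCI
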