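import Pool.Agent.Lib.MP_bc213e_ag.TCI.PStep
import Pool.Agent.Lib.MP_bc213e_ag.TCI.Jac
import Pool.Agent.Lib.MP_bc213e_ag.TCI.Trp

/-! Rational levels; sections. -/

namespace Pool.Agent.Lib.MP_bc213e_ag.TCI

section lq

variable {S R K : Type} [Fintype S] [Field K] [Algebra ℂ K] {ray : R → S → ℤ} {C : Set R}
  {x : S → Kˣ}

theorem lq_mono {h h' : R → ℚ} (hh : ∀ ρ ∈ C, ray ρ ≠ 0 → h' ρ ≤ h ρ) {α : K}
    (hα : α ∈ lq ray C x h) : α ∈ lq ray C x h' := by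
  refine Submodule.span_mono ?_ hα
  rintro _ ⟨m, hm, rfl⟩
  exact ⟨m, fun ρ hρ h0 => (hh ρ hρ h0).trans (hm ρ hρ h0), rfl⟩

theorem lq_mul {h h' : R → ℚ} {α β : K} (hα : α ∈ lq ray C x h) (hβ : β ∈ lq ray C x h') :
    α * β ∈ lq ray C x fun ρ => h ρ + h' ρ := by
  have := Submodule.mul_mem_mul hα hβ
  rw [lq, lq, Submodule.span_mul_span] at this
  refine Submodule.span_mono ?_ this
  rintro _ ⟨_, ⟨m, hm, rfl⟩, _, ⟨m', hm', rfl⟩, rfl⟩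
  refine ⟨m + m', fun ρ hρ h0 => ?_, mono_add x m m'⟩
  rw [add_dotProduct, Int.cast_add]
  exact add_le_add (hm ρ hρ h0) (hm' ρ hρ h0)

theorem lq_pow {h : R → ℚ} {α : K} (hα : α ∈ lq ray C x h) (N : ℕ) :
    α ^ N ∈ lq ray C x fun ρ => N * h ρ := by
  induction N with
  | zero =>
    rw [pow_zero, ← mono_zero x]
    exact Submodule.subset_span ⟨0, fun ρ _ _ => by simp, rfl⟩
  | succ N ih =>
    rw [pow_succ]
    refine lq_mono (fun ρ _ _ => le_of_eq ?_) (lq_mul ih hα)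
    push_cast
    ring

theorem mono_mem_lq (m : S → ℤ) : mono x m ∈ lq ray C x fun ρ => (m ⬝ᵥ ray ρ : ℤ) :=
  Submodule.subset_span ⟨m, fun _ _ _ => le_rfl, rfl⟩

theorem lq_le_chart {h : R → ℚ} (hh : ∀ ρ ∈ C, ray ρ ≠ 0 → 0 ≤ h ρ) {α : K}
    (hα : α ∈ lq ray C x h) : α ∈ chart ray C x := by
  have : lq ray C x h ≤ Subalgebra.toSubmodule (chart ray C x) := by
    refine Submodule.span_le.2 ?_
    rintro _ ⟨m, hm, rfl⟩
    refine Algebra.subset_adjoin ⟨m, fun ρ hρ => ?_, rfl⟩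
    by_cases h0 : ray ρ = 0
    · rw [h0, dotProduct_zero]
    · exact_mod_cast (hh ρ hρ h0).trans (hm ρ hρ h0)
  exact this hα

theorem lq_of_lvl {h : R → ℤ} {α : K} (hα : α ∈ lvl ray C x h) :
    α ∈ lq ray C x fun ρ => (h ρ : ℚ) := by
  refine Submodule.span_mono ?_ hα
  rintro _ ⟨m, hm, rfl⟩
  exact ⟨m, fun ρ hρ h0 => Int.cast_le.2 (hm ρ hρ h0), rfl⟩

end lq

namespace Data

variable {n k : ℕ} {R ι K : Type} [Fintype R] [Field K] [Algebra ℂ K] {D : Data n k R ι K}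
  {Λ : Submodule ℤ (Fin n ⊕ Fin k → ℤ)} {I : Finset (Fin k)}

open Classical in
/-- `isJac`, `jac_mem_lvl`, `mono_mem_lq`; for rays orthogonal to `Λ` use `D.hf` at `base i`
(`Finset.sum_add_sum_compl`), compare `pstep` in the old file `PStep`. -/
theorem State.phi_lev (st : D.State Λ I) (σ : ι) :
    D.phi Λ I ∈ lq D.ray (D.cone σ) D.x fun ρ =>
      -(D.kappa ρ : ℚ) - if Surv Λ (D.ray ρ) then D.gq I ρ else 0 := by
  obtain ⟨β, e, hβ, -, hJ⟩ := st.isJac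
  rw [phi, hJ]
  refine lq_mono (fun ρ _ _ => ?_) (lq_mul (lq_of_lvl (jac_mem_lvl (D := D) β hβ e σ))
    (mono_mem_lq (∑ i ∈ Iᶜ, D.base i)))
  have hs := Finset.sum_add_sum_compl I fun i => D.a i ρ
  have h1 : 0 ≤ ∑ i ∈ Iᶜ, (D.base i ⬝ᵥ D.ray ρ + D.a i ρ) :=
    Finset.sum_nonneg fun i _ => D.hf i _ (D.hbase i) ρ
  rw [Finset.sum_add_distrib] at h1
  by_cases hS : Surv Λ (D.ray ρ)
  · have h2 : ¬ ∀ u ∈ Λ, u ⬝ᵥ D.ray ρ = 0 := fun h => by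
      obtain ⟨u, hu, hu'⟩ := hS
      exact hu' (h u hu)
    rw [if_pos hS, if_neg h2, gq, ← Int.cast_neg, ← Int.cast_sub, ← Int.cast_add, Int.cast_le,
      kappa, gam, Finset.sum_add_distrib, sum_dotProduct]
    omega
  · have h2 : ∀ u ∈ Λ, u ⬝ᵥ D.ray ρ = 0 := fun u hu => by
      by_contra h
      exact hS ⟨u, hu, h⟩
    rw [if_neg hS, if_pos h2, sub_zero, ← Int.cast_neg, ← Int.cast_add, Int.cast_le, kappa,
      sum_dotProduct]
    omega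

theorem Lev_common [Fintype ι] {b : R → ℤ}
    (h : ∀ σ, ∃ N : ℕ, 0 < N ∧ ∃ m, LocEq D.ray (D.cone σ) b N m) :
    ∃ N : ℕ, 0 < N ∧ ∀ σ, ∃ m, LocEq D.ray (D.cone σ) b N m := by
  choose N hN m hm using h
  refine ⟨∏ σ, N σ, Finset.prod_pos fun σ _ => hN σ, fun σ => ?_⟩
  obtain ⟨s, hs⟩ : N σ ∣ ∏ σ, N σ := Finset.dvd_prod_of_mem _ (Finset.mem_univ σ)
  refine ⟨s • m σ, fun ρ hρ => ?_⟩
  rw [smul_dotProduct, hm σ ρ hρ, hs, nsmul_eq_mul]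
  push_cast
  ring

/-- `D.can` at the valuation of `exists_triv`; take the product of the `N σ`. -/
theorem exists_N0 [Fintype ι] (D : Data n k R ι K) :
    ∃ N : ℕ, 0 < N ∧ ∀ σ, ∃ m, LocEq D.ray (D.cone σ) D.kap N m := by
  obtain ⟨w, hw, hw'⟩ := exists_triv D.x D.gen D.dim
  refine Lev_common fun σ => ?_
  obtain ⟨_, _, N, m, -, -, hN, hm, -⟩ := D.can σ w (fun α _ => hw α) hw'
  exact ⟨N, hN, m, hm⟩

/-- `H ^ r * mono (e • m)` has level `≥ -(e * r) * kap` in every chart (for rays orthogonal to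
`Λ`, `m ⬝ᵥ ray ρ = 0`). The local equation is `(e * r) • mc`; `lq_le_chart`, and
`isIntegral_algebraMap` for the element of the subalgebra. -/
theorem Inv.up {e : ℕ} {H : K} {γ : R → ℚ} (h : D.Inv Λ I D.q e H γ) {N : ℕ}
    (hN : ∀ σ, ∃ m, LocEq D.ray (D.cone σ) D.kap N m) {r : ℕ} {m : Fin n ⊕ Fin k → ℤ}
    (hm : FeasAt Λ D.ray γ r m) :
    Sec D.ray D.cone D.x D.kap (e * r * N) ((H ^ r * mono D.x (e • m)) ^ N) := by
  classical
  intro σ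
  obtain ⟨mc, hmc⟩ := hN σ
  have hloc : LocEq D.ray (D.cone σ) D.kap (e * r * N) ((e * r) • mc) := fun ρ hρ => by
    rw [smul_dotProduct, hmc ρ hρ, nsmul_eq_mul]
    push_cast
    ring
  refine ⟨_, hloc, ?_⟩
  have hch := lq_le_chart (fun ρ hρ _ => ?_) (lq_mul (lq_pow (lq_mul (lq_pow (h.lev σ) r)
    (mono_mem_lq (e • m))) N) (mono_mem_lq ((e * r) • mc)))
  · exact isIntegral_algebraMap (R := chart D.ray (D.cone σ) D.x) (x := ⟨_, hch⟩)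
  rw [hloc ρ hρ, smul_dotProduct, nsmul_eq_mul]
  have h1 : 0 ≤ (m ⬝ᵥ D.ray ρ : ℤ) - (r : ℚ) * if Surv Λ (D.ray ρ) then γ ρ else 0 := by
    split_ifs with hS
    · exact sub_nonneg.2 (hm.le ρ hS)
    · have h2 : m ⬝ᵥ D.ray ρ = 0 := by
        by_contra h3
        exact hS ⟨m, hm.mem, h3⟩
      simp [h2]
  have h3 := mul_nonneg (mul_nonneg (Nat.cast_nonneg (α := ℚ) N) (Nat.cast_nonneg e)) h1
  refine h3.trans (le_of_eq ?_)
  simp only [kap, kappa]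
  push_cast
  ring

/-- If some positive multiple of `t * kap + b` has local equations, so has `b`:
use `N • m - (t * M) • mc` and the multiple `M * N`. -/
theorem exists_locEq [Fintype ι] (D : Data n k R ι K) {b : R → ℤ} {t M : ℕ} (hM : 0 < M) {φ : K}
    (h : Sec D.ray D.cone D.x (fun ρ => t * D.kap ρ + b ρ) M φ) :
    ∃ N : ℕ, 0 < N ∧ ∀ σ, ∃ m, LocEq D.ray (D.cone σ) b N m := by
  obtain ⟨N, hN, hc⟩ := D.exists_N0
  refine ⟨M * N, Nat.mul_pos hM hN, fun σ => ?_⟩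
  obtain ⟨m, hm, -⟩ := h σ
  obtain ⟨mc, hmc⟩ := hc σ
  refine ⟨N • m - (t * M) • mc, fun ρ hρ => ?_⟩
  rw [sub_dotProduct, smul_dotProduct, smul_dotProduct, hm ρ hρ, hmc ρ hρ, nsmul_eq_mul,
    nsmul_eq_mul]
  push_cast
  ring

end Data

end Pool.Agent.Lib.MP_bc213e_ag.TCI
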