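import Pool.Agent.Lib.MP_bc213e_ag.TCI.Basic

/-! Places of a function field in one variable: the data coming from Dedekind theory. -/

namespace Pool.Agent.Lib.MP_bc213e_ag.TCI

open Polynomial WithZero

/-- Properties of a place `w` of `E` over `k₀[t]`, with uniformiser `s`. -/
structure PlaceData (k₀ : Type) {E : Type} [Field k₀] [Field E] [Algebra k₀ E] (t Jac : E)
    (w : Valuation E ℤᵐ⁰) (s : E) : Prop where
  base : ∀ a : k₀, w (algebraMap k₀ E a) ≤ 1
  wt : w t ≤ 1
  unif : w s = exp (-1 : ℤ)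
  ram : ∃ (e : ℕ) (π : k₀[X]) (ω : E), 0 < e ∧ aeval t π = s ^ e * ω ∧ w ω = 1 ∧
    w Jac ≤ w s ^ (e - 1)
  fin : ∃ (m : ℕ) (T : Fin m → E), ∀ o, w o ≤ 1 → ∃ μ ν : Fin m → k₀[X],
    w (∑ j, aeval t (ν j) * T j) = 1 ∧
      o * ∑ j, aeval t (ν j) * T j = ∑ j, aeval t (μ j) * T j
  res : ∀ o, w o ≤ 1 → ∃ μ : k₀[X], μ ≠ 0 ∧ w (aeval o μ) < 1

theorem LocA_val_sub {F E Γ : Type} [CommRing F] [Field E] [Algebra F E]
    [LinearOrderedCommGroupWithZero Γ] (w : Valuation E Γ)
    (hF : ∀ c : F, w (algebraMap F E c) ≤ 1) {x y : E} (hx : w x ≤ 1) (hy : w y ≤ 1)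
    (h : w (x - y) < 1) (μ : F[X]) : w (aeval y μ) ≤ 1 ∧ w (aeval x μ - aeval y μ) < 1 := by
  induction μ using Polynomial.induction_on with
  | C c => simpa using hF c
  | add P Q hP hQ =>
    rw [map_add (aeval x), map_add (aeval y), add_sub_add_comm]
    exact ⟨(w.map_add _ _).trans (max_le hP.1 hQ.1), (w.map_add _ _).trans_lt (max_lt hP.2 hQ.2)⟩
  | monomial n c ih =>
    have e1 : ∀ z : E, aeval z (C c * X ^ (n + 1)) = aeval z (C c * X ^ n) * z := by
      intro z
      simp only [map_mul, map_pow, aeval_X]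
      ring
    rw [e1, e1]
    refine ⟨by rw [map_mul]; exact mul_le_one' ih.1 hy, ?_⟩
    have : aeval x (C c * X ^ n) * x - aeval y (C c * X ^ n) * y =
        (aeval x (C c * X ^ n) - aeval y (C c * X ^ n)) * x + aeval y (C c * X ^ n) * (x - y) := by
      ring
    rw [this]
    refine (w.map_add _ _).trans_lt (max_lt ?_ ?_)
    · rw [map_mul]; exact mul_lt_one_of_lt_of_le ih.2 hx
    · rw [map_mul, mul_comm]; exact mul_lt_one_of_lt_of_le h ih.1

theorem LocA_aeval {k₀ E : Type} [Field k₀] [Field E] [Algebra k₀[X] E] [Algebra k₀ E]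
    [IsScalarTower k₀ k₀[X] E] (μ : k₀[X]) :
    aeval (algebraMap k₀[X] E X) μ = algebraMap k₀[X] E μ := by
  have := Polynomial.aeval_algHom_apply (IsScalarTower.toAlgHom k₀ k₀[X] E) X μ
  rw [aeval_X_left_apply] at this
  exact this

open IsDedekindDomain in
theorem LocA_place {k₀ K₀ E B : Type} [Field k₀] [CharZero k₀] [Field K₀] [Field E] [CommRing B]
    [Algebra k₀[X] K₀] [IsFractionRing k₀[X] K₀] [Algebra K₀ E] [Algebra k₀[X] E]
    [IsScalarTower k₀[X] K₀ E] [FiniteDimensional K₀ E] [Algebra k₀ E]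
    [IsScalarTower k₀ k₀[X] E] [Algebra k₀[X] B] [Algebra B E] [IsScalarTower k₀[X] B E]
    [IsIntegralClosure B k₀[X] E] [IsDedekindDomain B] [IsFractionRing B E]
    [Algebra k₀ B] [IsScalarTower k₀ k₀[X] B] (Jac : E)
    (hJac : ∀ ξ : E, (∀ b, IsIntegral k₀[X] b →
      Algebra.trace K₀ E (ξ * b) ∈ (algebraMap k₀[X] K₀).range) → IsIntegral k₀[X] (Jac * ξ))
    (P : HeightOneSpectrum B) (s : E) (hs : P.valuation E s = exp (-1 : ℤ)) :
    PlaceData k₀ (algebraMap k₀[X] E X) Jac (P.valuation E) s := by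
  have hK : CharZero K₀ :=
    charZero_of_injective_algebraMap (IsFractionRing.injective k₀[X] K₀)
  have hfin : Module.Finite k₀[X] B := IsIntegralClosure.finite k₀[X] K₀ E B
  have hAE : Function.Injective (algebraMap k₀[X] E) := by
    rw [IsScalarTower.algebraMap_eq k₀[X] K₀ E]
    exact (algebraMap K₀ E).injective.comp (IsFractionRing.injective _ _)
  have hAB : Function.Injective (algebraMap k₀[X] B) := by
    rw [IsScalarTower.algebraMap_eq k₀[X] B E] at hAE
    exact Function.Injective.of_comp hAE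
  have hfa : FaithfulSMul k₀[X] B := (faithfulSMul_iff_algebraMap_injective _ _).2 hAB
  have hA : ∀ μ : k₀[X], P.valuation E (algebraMap k₀[X] E μ) ≤ 1 := by
    intro μ
    rw [IsScalarTower.algebraMap_apply k₀[X] B E]
    exact P.valuation_le_one _
  have hbase : ∀ a : k₀, P.valuation E (algebraMap k₀ E a) ≤ 1 := by
    intro a
    rw [IsScalarTower.algebraMap_apply k₀ k₀[X] E]
    exact hA _
  have hs0 : s ≠ 0 := by
    intro h
    rw [h, map_zero] at hs
    exact exp_ne_zero hs.symm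
  refine ⟨hbase, hA _, hs, ?_, ?_, ?_⟩
  · have hmax : P.asIdeal.IsMaximal := P.isMaximal
    let p : Ideal k₀[X] := P.asIdeal.comap (algebraMap k₀[X] B)
    have hpmax : p.IsMaximal := Ideal.isMaximal_comap_of_isIntegral_of_isMaximal _
    have hp0 : p ≠ ⊥ := by
      obtain ⟨x, hx, hx0⟩ := Submodule.exists_mem_ne_zero_of_ne_bot P.ne_bot
      exact Ideal.comap_ne_bot_of_integral_mem hx0 hx (Algebra.IsIntegral.isIntegral x)
    obtain ⟨π, hπ⟩ := (IsPrincipalIdealRing.principal p).principal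
    have hπp : π ∈ p := by rw [hπ]; exact Submodule.mem_span_singleton_self π
    have hπ0 : π ≠ 0 := by
      rintro rfl
      exact hp0 (by rw [hπ]; simp)
    have hv0 : P.intValuation (algebraMap k₀[X] B π) ≠ 0 :=
      P.intValuation_ne_zero _ fun h => hπ0 (hAB (by rw [h, map_zero]))
    have hv1 : P.intValuation (algebraMap k₀[X] B π) < 1 :=
      (P.intValuation_lt_one_iff_mem _).2 hπp
    have hneg : log (P.intValuation (algebraMap k₀[X] B π)) < 0 := by
      rw [← exp_lt_exp, exp_log hv0, exp_zero]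
      exact hv1
    obtain ⟨e, he⟩ : ∃ e : ℕ, (e : ℤ) = -log (P.intValuation (algebraMap k₀[X] B π)) :=
      ⟨_, Int.toNat_of_nonneg (by omega)⟩
    have he0 : 0 < e := by omega
    have hve : P.intValuation (algebraMap k₀[X] B π) = exp (-(e : ℤ)) := by
      rw [he, neg_neg, exp_log hv0]
    have hsp : ∀ n : ℕ, P.valuation E s ^ n = exp (-(n : ℤ)) := by
      intro n
      rw [hs, ← exp_nsmul]
      simp
    have hdvd : P.asIdeal ^ e ∣ p.map (algebraMap k₀[X] B) := by
      rw [hπ, Ideal.submodule_span_eq, Ideal.map_span, Set.image_singleton]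
      exact (P.intValuation_le_pow_iff_dvd _ _).1 hve.le
    have hD := pow_sub_one_dvd_differentIdeal_aux k₀[X] K₀ E P.asIdeal he0.ne' hp0 hdvd
    have hJ : Jac ∈ IsLocalization.coeSubmodule E (differentIdeal k₀[X] B) := by
      rw [coeSubmodule_differentIdeal k₀[X] K₀, Submodule.mem_div_iff_forall_mul_mem]
      intro ξ hξ
      rw [Submodule.mem_traceDual] at hξ
      have := hJac ξ fun b hb => by
        obtain ⟨b', rfl⟩ := (IsIntegralClosure.isIntegral_iff (A := B)).1 hb
        exact hξ _ (Submodule.mem_one.2 ⟨b', rfl⟩)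
      exact Submodule.mem_one.2 ((IsIntegralClosure.isIntegral_iff (A := B)).1 this)
    obtain ⟨j, hj, rfl⟩ := (IsLocalization.mem_coeSubmodule _ _).1 hJ
    refine ⟨e, π, algebraMap k₀[X] E π / s ^ e, he0, ?_, ?_, ?_⟩
    · rw [LocA_aeval, mul_div_cancel₀ _ (pow_ne_zero _ hs0)]
    · rw [map_div₀, map_pow, hsp, IsScalarTower.algebraMap_apply k₀[X] B E]
      have := P.valuation_of_algebraMap (K := E) (algebraMap k₀[X] B π)
      rw [hve] at this
      exact (congrArg (· / exp (-(e : ℤ))) this).trans (div_self exp_ne_zero)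
    · rw [hsp]
      have := (P.intValuation_le_pow_iff_mem j (e - 1)).2 (Ideal.le_of_dvd hD hj)
      exact (P.valuation_of_algebraMap (K := E) j).trans_le this
  · obtain ⟨m, T, hT⟩ := Module.Finite.exists_fin (R := k₀[X]) (M := B)
    have hrep : ∀ b : B, ∃ μ : Fin m → k₀[X],
        ∑ j, aeval (algebraMap k₀[X] E X) (μ j) * algebraMap B E (T j) = algebraMap B E b := by
      intro b
      obtain ⟨μ, hμ⟩ := (Submodule.mem_span_range_iff_exists_fun k₀[X]).1
        (hT ▸ Submodule.mem_top : b ∈ Submodule.span k₀[X] (Set.range T))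
      refine ⟨μ, ?_⟩
      rw [← hμ, map_sum]
      refine Finset.sum_congr rfl fun j _ => ?_
      rw [LocA_aeval, Algebra.smul_def, map_mul, ← IsScalarTower.algebraMap_apply]
    refine ⟨m, fun j => algebraMap B E (T j), fun o ho => ?_⟩
    obtain ⟨b, c, hbc⟩ := P.exists_primeCompl_mul_eq_of_integer o ho
    obtain ⟨μ, hμ⟩ := hrep b
    obtain ⟨ν, hν⟩ := hrep c
    refine ⟨μ, ν, ?_, ?_⟩
    · rw [hν]
      exact P.valuation_eq_one_iff_notMem.2 c.2
    · rw [hμ, hν, hbc]
  · intro o ho
    obtain ⟨b, hb⟩ := P.exists_valuation_sub_lt_of_integer ho 1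
    have hmax : P.asIdeal.IsMaximal := P.isMaximal
    have hft : Algebra.FiniteType k₀ B :=
      Algebra.FiniteType.trans (S := k₀[X]) inferInstance inferInstance
    let _ : Field (B ⧸ P.asIdeal) := Ideal.Quotient.field _
    have hq : Module.Finite k₀ (B ⧸ P.asIdeal) := finite_of_finite_type_of_isJacobsonRing _ _
    obtain ⟨μ, hμ, hμ0⟩ := Algebra.IsIntegral.isIntegral (R := k₀) (Ideal.Quotient.mk P.asIdeal b)
    refine ⟨μ, hμ.ne_zero, ?_⟩
    have h1 : aeval b μ ∈ P.asIdeal := by
      rw [← Ideal.Quotient.eq_zero_iff_mem]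
      have := Polynomial.aeval_algHom_apply (Ideal.Quotient.mkₐ k₀ P.asIdeal) b μ
      rw [Ideal.Quotient.mkₐ_eq_mk] at this
      rw [← this]
      exact hμ0
    have hkBE : IsScalarTower k₀ B E := IsScalarTower.of_algebraMap_eq fun a => by
      rw [IsScalarTower.algebraMap_apply k₀ k₀[X] E, IsScalarTower.algebraMap_apply k₀ k₀[X] B,
        ← IsScalarTower.algebraMap_apply k₀[X] B E]
    have h2 : P.valuation E (aeval (algebraMap B E b) μ) < 1 := by
      rw [Polynomial.aeval_algebraMap_apply]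
      exact (P.valuation_lt_one_iff_mem _).2 h1
    have h3 := (LocA_val_sub (P.valuation E) hbase (P.valuation_le_one b) ho hb μ).2
    have h4 : aeval o μ = aeval (algebraMap B E b) μ - (aeval (algebraMap B E b) μ - aeval o μ) := by
      ring
    rw [h4]
    exact ((P.valuation E).map_sub _ _).trans_lt (max_lt h2 h3)

/-- Sketch. `A = k₀[X]`, `B = integralClosure A E` is a Dedekind domain
(`IsIntegralClosure.isDedekindDomain A K₀ E B`) with fraction field `E`
(`IsIntegralClosure.isFractionRing_of_finite_extension`), finite over `A`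
(`IsIntegralClosure.finite A K₀ E B`); `algebraMap A E μ = aeval t μ`. By
`IsDedekindDomain.HeightOneSpectrum.mem_integers_of_valuation_le_one` it suffices to show
`P.valuation E Φ ≤ 1` for every `P`; apply `hΦ` with `s` from `valuation_exists_uniformizer`.
ram: `p = P.comap` is a nonzero prime (`Ideal.comap_ne_bot_of_integral_mem`), maximal, `= span {π}`;
`w π = exp (-e)` with `e > 0`, `ω = π / s ^ e`; `P ^ e ∣ p.map` (`intValuation_le_pow_iff_dvd`,
`Ideal.map_span`); `pow_sub_one_dvd_differentIdeal_aux A K₀ E` gives `P ^ (e - 1) ∣ 𝔇`; `Jac` is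
integral (`hJac 1`, traces of integral elements lie in `A`: `Algebra.isIntegral_trace`,
`IsIntegrallyClosed.isIntegral_iff`) and lies in `𝔇` by `coeSubmodule_differentIdeal A K₀`
(`= 1 / Submodule.traceDual A K₀ 1`, `Submodule.mem_div_iff_forall_mul_mem`,
`Submodule.mem_traceDual`); then `intValuation_le_pow_iff_mem`.
fin: `T` a finite spanning family of `B` over `A` (`Module.Finite.exists_fin`); `o = b / c` with
`c ∉ P` (`exists_primeCompl_mul_eq_of_integer` or similar in `AdicValuation.lean`).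
res: `B ⧸ P` is a field of finite type over `k₀`, hence finite
(`finite_of_finite_type_of_isJacobsonRing`); pick `b' ∈ B` with `b' * c ≡ b` mod `P`, so
`w (o - b') < 1`, and a monic `μ` killing the class of `b'`; then `w (aeval b' μ) < 1` and
`w (aeval o μ - aeval b' μ) < 1` (`Polynomial.sub_dvd_eval_sub` style, or induction on `μ`). -/
theorem loc_data {k₀ K₀ E : Type} [Field k₀] [CharZero k₀] [Field K₀] [Field E]
    [Algebra k₀[X] K₀] [IsFractionRing k₀[X] K₀] [Algebra K₀ E] [Algebra k₀[X] E]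
    [IsScalarTower k₀[X] K₀ E] [FiniteDimensional K₀ E] [Algebra k₀ E]
    [IsScalarTower k₀ k₀[X] E] (Jac Φ : E)
    (hJac : ∀ ξ : E, (∀ b, IsIntegral k₀[X] b →
      Algebra.trace K₀ E (ξ * b) ∈ (algebraMap k₀[X] K₀).range) → IsIntegral k₀[X] (Jac * ξ))
    (hΦ : ∀ (w : Valuation E ℤᵐ⁰) (s : E), (∀ b, IsIntegral k₀[X] b → w b ≤ 1) →
      PlaceData k₀ (algebraMap k₀[X] E X) Jac w s → w Φ ≤ 1) :
    IsIntegral k₀[X] Φ := by
  have hK : CharZero K₀ :=
    charZero_of_injective_algebraMap (IsFractionRing.injective k₀[X] K₀)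
  have hD : IsDedekindDomain (integralClosure k₀[X] E) :=
    IsIntegralClosure.isDedekindDomain k₀[X] K₀ E _
  have hF : IsFractionRing (integralClosure k₀[X] E) E :=
    IsIntegralClosure.isFractionRing_of_finite_extension k₀[X] K₀ E _
  obtain ⟨b, hb⟩ := IsDedekindDomain.HeightOneSpectrum.mem_integers_of_valuation_le_one
    (R := integralClosure k₀[X] E) E Φ fun P => by
      obtain ⟨s, hs⟩ := P.valuation_exists_uniformizer E
      exact hΦ _ s (fun b hb => P.valuation_le_one (K := E) ⟨b, hb⟩) (LocA_place Jac hJac P s hs)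
  rw [← hb]
  exact b.2

end Pool.Agent.Lib.MP_bc213e_ag.TCI
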