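import Pool.Agent.Lib.MP_bc213e_ag.TCI.LocA

/-! Derivations at a place. -/

namespace Pool.Agent.Lib.MP_bc213e_ag.TCI

open Polynomial WithZero

variable {k₀ E : Type} [Field k₀] [CharZero k₀] [Field E] [Algebra k₀ E] [Algebra ℂ E]
  {t Jac : E} {w : Valuation E ℤᵐ⁰} {s : E}

omit [CharZero k₀] [Algebra ℂ E] in
theorem LocB_aeval_le (hk : ∀ a : k₀, w (algebraMap k₀ E a) ≤ 1) {o : E} (ho : w o ≤ 1)
    (μ : k₀[X]) : w (aeval o μ) ≤ 1 := by
  induction μ using Polynomial.induction_on' with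
  | add p q hp hq => rw [map_add]; exact (w.map_add _ _).trans (max_le hp hq)
  | monomial n a =>
    rw [aeval_monomial, map_mul, map_pow]
    exact mul_le_one' (hk a) (pow_le_one' ho n)

omit [CharZero k₀] in
theorem LocB_monomial (δ : Derivation ℂ E E) (o : E) (n : ℕ) (a : k₀) :
    δ (aeval o (monomial n a)) - aeval o (derivative (monomial n a)) * δ o =
      o ^ n * δ (algebraMap k₀ E a) := by
  rw [derivative_monomial, aeval_monomial, aeval_monomial, δ.leibniz, δ.leibniz_pow]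
  simp only [smul_eq_mul, nsmul_eq_mul, map_mul, map_natCast]
  ring

theorem LocB_bd {ι : Type} [Fintype ι] (f : ι → ℤᵐ⁰) : ∃ N : ℕ, ∀ i, f i ≤ exp (N : ℤ) := by
  refine ⟨∑ i, (log (f i)).toNat, fun i => le_exp_log.trans (exp_le_exp.2 ?_)⟩
  refine (Int.self_le_toNat _).trans (Int.ofNat_le.2 ?_)
  exact Finset.single_le_sum (f := fun i => (log (f i)).toNat) (fun _ _ => Nat.zero_le _)
    (Finset.mem_univ i)

theorem LocB_one_le (N : ℕ) : (1 : ℤᵐ⁰) ≤ exp (N : ℤ) := by
  rw [← exp_zero]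
  exact exp_le_exp.2 (Int.natCast_nonneg N)

omit [CharZero k₀] in
/-- Chain rule with varying coefficients: the error term has value at most one. Induction on `μ`
(`Polynomial.induction_on'`), for a monomial `δ (a * o ^ m) = δ a * o ^ m + a * m * o ^ (m-1) δ o`. -/
theorem val_der_aeval (δ : Derivation ℂ E E) (hδ : ∀ a : k₀, w (δ (algebraMap k₀ E a)) ≤ 1)
    {o : E} (ho : w o ≤ 1) (μ : k₀[X]) :
    w (δ (aeval o μ) - aeval o (derivative μ) * δ o) ≤ 1 := by
  induction μ using Polynomial.induction_on' with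
  | add p q hp hq =>
    rw [map_add, map_add, derivative_add, map_add, add_mul, add_sub_add_comm]
    exact (w.map_add _ _).trans (max_le hp hq)
  | monomial n a =>
    rw [LocB_monomial, map_mul, map_pow]
    exact mul_le_one' (pow_le_one' ho n) (hδ a)

omit [CharZero k₀] in
theorem der_aeval_of_kill (δ : Derivation ℂ E E) (hδ : ∀ a : k₀, δ (algebraMap k₀ E a) = 0)
    (o : E) (μ : k₀[X]) : δ (aeval o μ) = aeval o (derivative μ) * δ o := by
  induction μ using Polynomial.induction_on' with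
  | add p q hp hq => rw [map_add, map_add, derivative_add, map_add, add_mul, hp, hq]
  | monomial n a => rw [← sub_eq_zero, LocB_monomial, hδ, mul_zero]

omit [CharZero k₀] in
/-- Boundedness. Sketch: with `T` from `h.fin`, choose `N` with `w (T j)`, `w (δ (T j))`,
`w (δ t)` all `≤ exp N`; then `w (δ (aeval t μ * T j)) ≤ exp (2 N)` by `val_der_aeval`
(`w (aeval t μ) ≤ 1`), and `c * δ o = δ b - o * δ c` with `w c = 1`. -/
theorem PlaceData.bounded (h : PlaceData k₀ t Jac w s) (δ : Derivation ℂ E E)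
    (hδ : ∀ a : k₀, w (δ (algebraMap k₀ E a)) ≤ 1) :
    ∃ N : ℕ, ∀ o, w o ≤ 1 → w (δ o) ≤ exp (N : ℤ) := by
  obtain ⟨m, T, hT⟩ := h.fin
  obtain ⟨N1, h1⟩ := LocB_bd fun j => w (T j)
  obtain ⟨N2, h2⟩ := LocB_bd fun j => w (δ (T j))
  obtain ⟨N3, h3⟩ := LocB_bd fun _ : Unit => w (δ t)
  have h4 : ∀ μ : k₀[X], w (δ (aeval t μ)) ≤ exp (N3 : ℤ) := fun μ => by
    rw [← sub_add_cancel (δ (aeval t μ)) (aeval t (derivative μ) * δ t)]
    refine (w.map_add _ _).trans (max_le ((val_der_aeval δ hδ h.wt μ).trans (LocB_one_le _)) ?_)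
    rw [map_mul, ← one_mul (exp (N3 : ℤ))]
    exact mul_le_mul' (LocB_aeval_le h.base h.wt _) (h3 ())
  have key : ∀ μ : Fin m → k₀[X],
      w (δ (∑ j, aeval t (μ j) * T j)) ≤ exp ((N1 + N2 + N3 : ℕ) : ℤ) := fun μ => by
    rw [map_sum]
    refine w.map_sum_le fun j _ => ?_
    rw [δ.leibniz, smul_eq_mul, smul_eq_mul]
    refine (w.map_add _ _).trans (max_le ?_ ?_)
    · rw [map_mul]
      refine (mul_le_mul' (LocB_aeval_le h.base h.wt _) (h2 j)).trans ?_
      rw [one_mul, exp_le_exp]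
      omega
    · rw [map_mul]
      refine (mul_le_mul' (h1 j) (h4 _)).trans ?_
      rw [← exp_add, exp_le_exp]
      omega
  refine ⟨N1 + N2 + N3, fun o ho => ?_⟩
  obtain ⟨μ, ν, hc, e⟩ := hT o ho
  have e1 := congrArg δ e
  rw [δ.leibniz, smul_eq_mul, smul_eq_mul] at e1
  have e2 := congrArg w (eq_sub_of_add_eq' e1)
  rw [map_mul, hc, one_mul] at e2
  rw [e2]
  refine (w.map_sub _ _).trans (max_le (key μ) ?_)
  rw [map_mul, ← one_mul (exp _)]
  exact mul_le_mul' ho (key ν)

/-- Sketch: descending induction on `N` from `bounded`. Assume the bound `exp (N + 1)`. For `o`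
take `μ ≠ 0` of minimal degree with `w (aeval o μ) < 1`; its degree is positive (nonzero constants
have value `1`, `val_eq_one_of_field`), so `derivative μ ≠ 0` (characteristic zero) has smaller
degree and `w (aeval o μ') = 1`. Write `aeval o μ = s * o'` with `w o' ≤ 1` (values `< 1` are
`≤ exp (-1)`). Then `δ (s * o') = s * δ o' + o' * δ s` has value `≤ exp N`, and `val_der_aeval`
gives `w (δ o) ≤ exp N`. -/
theorem PlaceData.preserve (h : PlaceData k₀ t Jac w s) (δ : Derivation ℂ E E)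
    (hδ : ∀ a : k₀, w (δ (algebraMap k₀ E a)) ≤ 1) (hs : w (δ s) ≤ 1) :
    ∀ o, w o ≤ 1 → w (δ o) ≤ 1 := by
  have hs0 : w s ≠ 0 := by rw [h.unif]; exact exp_ne_zero
  have hs1 : s ≠ 0 := fun e => hs0 (by rw [e, map_zero])
  obtain ⟨N, hN⟩ := h.bounded δ hδ
  induction N with
  | zero => simpa using hN
  | succ N ih =>
    refine ih fun o ho => ?_
    obtain ⟨μ, hμ0, hμ⟩ := h.res o ho
    induction hn : μ.natDegree using Nat.strong_induction_on generalizing μ with
    | _ n ihn =>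
      have hd : μ.natDegree ≠ 0 := fun e => by
        rw [eq_C_of_natDegree_eq_zero e] at hμ hμ0
        rw [aeval_C, val_eq_one_of_field w h.base (C_ne_zero.1 hμ0)] at hμ
        exact lt_irrefl _ hμ
      rcases (LocB_aeval_le h.base ho (derivative μ)).lt_or_eq with h1 | h1
      · exact ihn _ (hn ▸ natDegree_derivative_lt hd) _
          (fun e => hd (derivative_eq_zero.1 e)) h1 rfl
      have h2 : w (aeval o μ) ≤ w s := by
        rw [h.unif, ← lt_mul_exp_iff_le exp_ne_zero, ← exp_add, neg_add_cancel, exp_zero]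
        exact hμ
      have h3 : w (aeval o μ / s) ≤ 1 := by
        rw [map_div₀]
        exact div_le_one_of_le₀ h2 zero_le
      have h4 : w (δ (aeval o μ)) ≤ exp (N : ℤ) := by
        rw [← mul_div_cancel₀ (aeval o μ) hs1, δ.leibniz, smul_eq_mul, smul_eq_mul]
        refine (w.map_add _ _).trans (max_le ?_ ?_)
        · rw [map_mul, h.unif]
          refine (mul_le_mul' le_rfl (hN _ h3)).trans ?_
          rw [← exp_add, exp_le_exp]
          omega
        · rw [map_mul]
          exact (mul_le_one' h3 hs).trans (LocB_one_le N)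
      have h5 : w (δ o) = w (δ (aeval o μ) -
          (δ (aeval o μ) - aeval o (derivative μ) * δ o)) := by
        rw [sub_sub_cancel, map_mul, h1, one_mul]
      rw [h5]
      exact (w.map_sub _ _).trans
        (max_le h4 ((val_der_aeval δ hδ ho μ).trans (LocB_one_le N)))

/-- Sketch: apply `δ` to `aeval t π = s ^ e * ω`:
`aeval t π' * δ t = s ^ (e - 1) * (e * ω + s * δ ω)` and the bracket has value `1`
(`w e = 1` as `e` is a nonzero element of `k₀`, `w (s * δ ω) < 1` by `preserve`,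
`Valuation.map_add_eq_of_lt_left`). So `w s ^ (e - 1) ≤ w (δ t)`, and `δ t ≠ 0` as `w s ≠ 0`. -/
theorem PlaceData.jac_le (h : PlaceData k₀ t Jac w s) (δ : Derivation ℂ E E)
    (hδ : ∀ a : k₀, δ (algebraMap k₀ E a) = 0) (hs : δ s = 1) :
    w Jac ≤ w (δ t) ∧ δ t ≠ 0 := by
  have hs0 : w s ≠ 0 := by rw [h.unif]; exact exp_ne_zero
  have hs1 : w s < 1 := by
    rw [h.unif, ← exp_zero, exp_lt_exp]
    norm_num
  have hp := h.preserve δ (fun a => by rw [hδ, map_zero]; exact zero_le)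
    (by rw [hs, map_one])
  obtain ⟨e, π, ω, he, e1, hω, hJ⟩ := h.ram
  obtain ⟨e, rfl⟩ : ∃ e', e = e' + 1 := ⟨e - 1, by omega⟩
  have e2 := congrArg δ e1
  rw [der_aeval_of_kill δ hδ, δ.leibniz, δ.leibniz_pow, hs] at e2
  have e3 : aeval t (derivative π) * δ t =
      s ^ e * (algebraMap k₀ E ((e + 1 : ℕ) : k₀) * ω + s * δ ω) := by
    rw [e2, map_natCast]
    simp only [smul_eq_mul, nsmul_eq_mul, Nat.add_sub_cancel]
    ring
  have h1 : w (algebraMap k₀ E ((e + 1 : ℕ) : k₀) * ω) = 1 := by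
    rw [map_mul, hω, val_eq_one_of_field w h.base (Nat.cast_ne_zero.2 (Nat.succ_ne_zero e)),
      one_mul]
  have h2 : w (s * δ ω) < w (algebraMap k₀ E ((e + 1 : ℕ) : k₀) * ω) := by
    rw [h1, map_mul]
    exact mul_lt_one_of_lt_of_le hs1 (hp ω hω.le)
  have e4 := congrArg w e3
  rw [map_mul, map_mul, w.map_add_eq_of_lt_left h2, h1, mul_one, map_pow] at e4
  have h3 : w s ^ e ≤ w (δ t) := by
    rw [← e4]
    exact (mul_le_mul' (LocB_aeval_le h.base h.wt _) le_rfl).trans (one_mul _).le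
  refine ⟨hJ.trans h3, fun e0 => ?_⟩
  rw [e0, map_zero, le_zero_iff] at h3
  exact pow_ne_zero _ hs0 h3

end Pool.Agent.Lib.MP_bc213e_ag.TCI
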