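import Pool.Agent.Lib.MP_bc213e_ag.TCI.NP
import Pool.Agent.Lib.MP_bc213e_ag.TCI.Fin
import Pool.Agent.Lib.MP_bc213e_ag.TCI.FStep

/-! The induction. -/

namespace Pool.Agent.Lib.MP_bc213e_ag.TCI

namespace Data

variable {n k : ℕ} {R ι K : Type} [Fintype R] [Fintype ι] [Field K] [Algebra ℂ K]
  (D : Data n k R ι K)

theorem main (b : R → ℤ) (psef : ∀ t : ℕ, ∃ M : ℕ, 0 < M ∧ ∃ φ : K, φ ≠ 0 ∧
    Sec D.ray D.cone D.x (fun ρ => t * D.kap ρ + b ρ) M φ) : D.Concl := by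
  suffices h : ∀ (d : ℕ) (Λ : Submodule ℤ (Fin n ⊕ Fin k → ℤ)) (I : Finset (Fin k)) (lam : ℚ)
      (e : ℕ) (H : K) (γ : R → ℚ), Module.finrank ℤ Λ = d → D.Inv Λ I lam e H γ → lam ≤ D.q →
      FeasAt Λ D.ray γ 1 0 → D.Concl by
    obtain ⟨H, γ, h1, h2⟩ := D.inv_init
    exact h _ ⊤ ∅ 0 1 H γ rfl h1 (Nat.cast_nonneg _) h2
  intro d
  induction d using Nat.strong_induction_on with
  | _ d ih =>
    intro Λ I lam e H γ hd inv hq feas
    have hτ : 0 ≤ (D.q : ℚ) - lam := sub_nonneg.2 hq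
    obtain ⟨e₁, H₁, inv₁⟩ := inv.adv hτ one_pos Λ.zero_mem
    have h₁ : (fun ρ => γ ρ + (D.q - lam) * D.gq I ρ - D.pq 0 ρ / (1 : ℕ)) =
        γ + fun ρ => (D.q - lam) * D.gq I ρ := by
      funext ρ
      simp [pq]
    rw [add_sub_cancel, h₁] at inv₁
    rcases threshold (fun ρ => (D.q - lam) * D.gq I ρ) feas with
      ⟨r, m, hm⟩ | ⟨θ, hθ0, hθ1, r₁, m, hm, ℓ, hℓ, r, c, hc, hpos, ht⟩
    · exact inv₁.fin hm
    have hr₁ : (0 : ℚ) < r₁ := by exact_mod_cast hm.pos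
    by_cases alg : Algebra.IsAlgebraic (D.fld (perp Λ fun j => D.ray (r j))) K
    · have hγ : 0 < ∑ j, (c j : ℤ) * D.gam I (r j) := by
        have h2 : ∑ j, (c j : ℚ) * ((D.q - lam) * D.gq I (r j)) =
            (D.q - lam) * ((∑ j, (c j : ℤ) * D.gam I (r j) : ℤ) : ℚ) := by
          push_cast
          rw [Finset.mul_sum]
          exact Finset.sum_congr rfl fun j _ => by rw [gq]; ring
        rw [h2] at hpos
        exact_mod_cast pos_of_mul_pos_right hpos hτ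
      obtain ⟨I', hI, st'⟩ := inv.st.fstep hc hγ alg
      obtain ⟨e₂, H₂, inv₂⟩ := inv.adv (mul_nonneg hθ0 hτ) hm.pos hm.mem
      have hle : ∀ ρ, Surv Λ (D.ray ρ) →
          γ ρ + θ * (D.q - lam) * D.gq I ρ - D.pq m ρ / r₁ ≤ 0 := fun ρ hρ => by
        have h2 := hm.le ρ hρ
        simp only [Pi.add_apply, Pi.smul_apply, smul_eq_mul] at h2
        rw [sub_nonpos, le_div_iff₀ hr₁, pq]
        linarith
      refine ih _ ?_ _ I' _ _ _ _ rfl (inv₂.elim hle hc (fun j => ?_) st' hI) (by nlinarith)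
        ⟨one_pos, Submodule.zero_mem _, fun ρ ⟨u, hu, hu'⟩ => ?_⟩
      · have := hc.finrank_perp
        omega
      · have h2 := ht j
        simp only [Pi.add_apply, Pi.smul_apply, smul_eq_mul] at h2
        rw [sub_eq_zero, eq_div_iff hr₁.ne', pq]
        linarith
      · simpa using hle ρ ⟨u, hu.1, hu'⟩
    · refine (inv₁.np hc ?_ alg b psef).elim
      have h2 : (r₁ : ℚ) * ∑ j, (c j : ℚ) * (γ (r j) + θ * ((D.q - lam) * D.gq I (r j))) = 0 := by
        have h3 := congrArg (Int.cast : ℤ → ℚ) (hc.rel m hm.mem)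
        rw [Int.cast_sum, Int.cast_zero] at h3
        rw [Finset.mul_sum, ← h3]
        refine Finset.sum_congr rfl fun j _ => ?_
        have h4 := ht j
        simp only [Pi.add_apply, Pi.smul_apply, smul_eq_mul] at h4
        rw [Int.cast_mul, ← h4, Int.cast_natCast]
        ring
      have h3 := (mul_eq_zero.1 h2).resolve_left hr₁.ne'
      have h4 : ∑ j, (c j : ℚ) * (γ + fun ρ => (D.q - lam) * D.gq I ρ) (r j) =
          ∑ j, (c j : ℚ) * (γ (r j) + θ * ((D.q - lam) * D.gq I (r j))) +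
            (1 - θ) * ∑ j, (c j : ℚ) * ((D.q - lam) * D.gq I (r j)) := by
        rw [Finset.mul_sum, ← Finset.sum_add_distrib]
        exact Finset.sum_congr rfl fun j _ => by simp only [Pi.add_apply]; ring
      rw [h4, h3, zero_add]
      exact mul_pos (sub_pos.2 hθ1) hpos

end Data

end Pool.Agent.Lib.MP_bc213e_ag.TCI
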