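import Pool.Agent.Lib.MP_bc213e_ag.TCI.Ord

/-! The polynomial system in Cox coordinates and its residue form. -/

namespace Pool.Agent.Lib.MP_bc213e_ag.TCI

open WithZero Matrix MvPolynomial

theorem NPb_cancel {E A A' V : Type} [Field E] [Fintype V] [DecidableEq V] (v : V → E)
    (hv : ∀ l, v l ≠ 0) (H : Matrix A' V E) (Ξ : Matrix A V E) :
    (H * diagonal v) * (Ξ * diagonal fun l => (v l)⁻¹)ᵀ = H * Ξᵀ := by
  have h1 : (diagonal v * diagonal fun l => (v l)⁻¹) = (1 : Matrix V V E) := by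
    rw [diagonal_mul_diagonal, ← diagonal_one]
    exact congrArg _ (funext fun l => mul_inv_cancel₀ (hv l))
  rw [transpose_mul, diagonal_transpose, Matrix.mul_assoc, ← Matrix.mul_assoc (diagonal v), h1,
    Matrix.one_mul]

/-- From the logarithmic form of `exists_varpi` to the ordinary one. Sketch: for `H` use `hlog` with
`H * diagonal v`; `(H * diagonal v) * Ξlogᵀ = H * Ξᵀ`, and `det2_mul_diagonal`. -/
theorem varpi_of_log {E A B V : Type} [Field E] [Fintype A] [DecidableEq A] [Fintype B]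
    [DecidableEq B] [Fintype V] [DecidableEq V] (e : A ⊕ B ≃ V) (v : V → E) (hv : ∀ l, v l ≠ 0)
    (Ξ : Matrix A V E) (g : Matrix B V E) (ϖ : E)
    (hlog : ∀ H : Matrix A V E, (H * (Ξ * diagonal fun l => (v l)⁻¹)ᵀ).det =
      ϖ * det2 e H (g * diagonal v)) (H : Matrix A V E) :
    (H * Ξᵀ).det = ϖ * (∏ l, v l) * det2 e H g := by
  have h := hlog (H * diagonal v)
  rw [NPb_cancel v hv, det2_mul_diagonal] at h
  rw [h]
  ring

/-- `v l * ∂_l` of a sum of monomials. -/
theorem mul_aeval_pderiv {E V U : Type} [Field E] [Algebra ℂ E] [Fintype V] [DecidableEq V]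
    (v : V → E) (T : Finset U) (ex : U → V →₀ ℕ) (a : U → ℂ) (l : V) :
    aeval v (pderiv l (∑ u ∈ T, monomial (ex u) (a u))) * v l =
      ∑ u ∈ T, a u • ((ex u l : E) * ∏ l', v l' ^ ex u l') := by
  rw [map_sum, map_sum, Finset.sum_mul]
  refine Finset.sum_congr rfl fun u _ => ?_
  have h := congrArg (aeval v) (X_mul_pderiv_monomial (i := l) (m := ex u) (r := a u))
  rw [map_mul, aeval_X, map_nsmul, aeval_monomial, Finsupp.prod_fintype _ _ (by simp)] at h
  rw [mul_comm, h, Algebra.smul_def (a u), nsmul_eq_mul]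
  ring

theorem NPb_sum {K E U : Type} [Field K] [Algebra ℂ K] [Field E] [Algebra ℂ E] [Algebra K E]
    [IsScalarTower ℂ K E] (T : Finset U) (a : U → ℂ) (t : U → ℤ) (m : U → K) (κ : K) (Z : E) :
    ∑ u ∈ T, a u • ((t u : E) * (algebraMap K E (κ * m u) * Z)) =
      Z * algebraMap K E (κ * ∑ u ∈ T, a u • ((t u : K) * m u)) := by
  rw [Finset.mul_sum, map_sum, Finset.mul_sum]
  refine Finset.sum_congr rfl fun u _ => ?_
  simp only [Algebra.smul_def, map_mul, map_intCast, ← IsScalarTower.algebraMap_apply]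
  ring

namespace Data

variable {n k : ℕ} {R ι K : Type} [Fintype R] [Field K] [Algebra ℂ K] {D : Data n k R ι K}
  {Λ : Submodule ℤ (Fin n ⊕ Fin k → ℤ)} {I : Finset (Fin k)}
  {E : Type} [Field E] [Algebra ℂ E] [Algebra K E] [IsScalarTower ℂ K E]
  {V : Type} [Fintype V] [DecidableEq V] {r : V → R}

theorem Mod1_ng (D : Data n k R ι K) (i : Fin k) (ρ : R) (t : ℤ) :
    D.ng i ρ = (mono D.x (D.base i))⁻¹ * ∑ u ∈ (D.f i).support,
      D.f i u • (((u ⬝ᵥ D.ray ρ + t : ℤ) : K) * mono D.x u) := by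
  rw [ng, D.logGrad_dot i _ (t : K), div_eq_inv_mul]
  refine congrArg _ (Finset.sum_congr rfl fun u _ => congrArg _ ?_)
  rw [mul_comm, dotProduct]
  push_cast
  rfl

/-- The equations. Simplified form of `np_eqs` in the old file `NPb`: exponents
`ex i u l = toNat (u ⬝ᵥ ray (r l) + a i (r l))` (nonnegative by `D.hf`),
`G i = ∑ u ∈ supp, monomial (ex i u) (f i u)`, and
`∏ z ^ ex i u = algebraMap (mono u / mono (base i)) * mono z (a + base·ray)` by `hz` for
`u - base i`. Use `D.van`, `mul_aeval_pderiv`, `logGrad_dot`. -/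
theorem State.mod_eqs (st : D.State Λ I) (z : V → Eˣ)
    (hz : ∀ u ∈ Λ, algebraMap K E (mono D.x u) = mono z fun l => u ⬝ᵥ D.ray (r l)) :
    ∃ G : {i // i ∉ I} → MvPolynomial V ℂ, (∀ i, aeval (fun l => (z l : E)) (G i) = 0) ∧
      ∀ i l, jac G (fun l => (z l : E)) i l * z l =
        mono z (fun l => D.a i (r l) + D.base i ⬝ᵥ D.ray (r l)) * algebraMap K E (D.ng i (r l)) := by
  classical
  let ex : Fin k → (Fin n ⊕ Fin k → ℤ) → (V →₀ ℕ) := fun i u =>
    Finsupp.equivFunOnFinite.symm fun l => (u ⬝ᵥ D.ray (r l) + D.a i (r l)).toNat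
  have hex : ∀ i, ∀ u ∈ (D.f i).support, ∀ l,
      (ex i u l : ℤ) = u ⬝ᵥ D.ray (r l) + D.a i (r l) := fun i u hu l =>
    Int.toNat_of_nonneg (D.hf i u hu (r l))
  have hprod : ∀ i, i ∉ I → ∀ u ∈ (D.f i).support, ∏ l, (z l : E) ^ ex i u l =
      algebraMap K E ((mono D.x (D.base i))⁻¹ * mono D.x u) *
        mono z fun l => D.a i (r l) + D.base i ⬝ᵥ D.ray (r l) := by
    intro i hi u hu
    rw [← mono_natCast, ← div_eq_inv_mul, ← mono_sub, hz _ (st.diff i hi u hu), ← mono_add]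
    refine congrArg _ (funext fun l => ?_)
    rw [hex i u hu, Pi.add_apply, sub_dotProduct]
    ring
  refine ⟨fun i => ∑ u ∈ (D.f i).support, monomial (ex i u) (D.f i u), fun i => ?_, fun i l => ?_⟩
  · have h1 := NPb_sum (D.f i).support (D.f i) (fun _ => 1) (mono D.x) (mono D.x (D.base i))⁻¹
      (mono z fun l => D.a i (r l) + D.base i ⬝ᵥ D.ray (r l))
    simp only [Int.cast_one, one_mul, D.Tan_van, mul_zero, map_zero] at h1
    rw [map_sum, ← h1]
    refine Finset.sum_congr rfl fun u hu => ?_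
    rw [aeval_monomial, Finsupp.prod_fintype _ _ (by simp), hprod i i.2 u hu, Algebra.smul_def]
  · change aeval _ (pderiv l (∑ u ∈ (D.f i).support, monomial (ex i u) (D.f i u))) * _ = _
    rw [mul_aeval_pderiv (fun l => (z l : E)), D.Mod1_ng i (r l) (D.a i (r l)), ← NPb_sum]
    refine Finset.sum_congr rfl fun u hu => ?_
    rw [hprod i i.2 u hu, ← hex i u hu l, Int.cast_natCast]

/-- A relation `∑ β i * ng i (r l) = 0` for all `l`, paired with `Ψ l s`, gives
`∑ β i / mono (base i) * logGrad (f i) s = 0`, since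
`logGrad (f i) s = ∑ u, f i u • ((u - base i) s * mono u)` by `D.van`; use `D.indep`. -/
theorem State.ng_indep (st : D.State Λ I) (Ψ : V → Fin n ⊕ Fin k → ℚ)
    (hΨ : ∀ u ∈ Λ, ∀ s, (u s : ℚ) = ∑ l, ((u ⬝ᵥ D.ray (r l) : ℤ) : ℚ) * Ψ l s) :
    LinearIndependent K fun (i : {i // i ∉ I}) l => D.ng i (r l) := by
  have : CharZero K := charZero_of_injective_algebraMap (algebraMap ℂ K).injective
  have h1 : ∀ (i : {i // i ∉ I}) s, (mono D.x (D.base i))⁻¹ * logGrad D.x (D.f i) s =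
      ∑ l, D.ng i (r l) * (Ψ l s : K) := fun i s => by
    have h2 : logGrad D.x (D.f i) s = ∑ u ∈ (D.f i).support,
        D.f i u • ((((u - D.base i) s : ℤ) : K) * mono D.x u) := by
      have h0 : ∑ u ∈ (D.f i).support, D.f i u • (((D.base i s : ℤ) : K) * mono D.x u) = 0 := by
        simp only [← mul_smul_comm, ← Finset.mul_sum, D.Tan_van, mul_zero]
      simp only [Pi.sub_apply, Int.cast_sub, sub_mul, smul_sub, Finset.sum_sub_distrib, h0,
        sub_zero]
      rfl
    simp only [fun l => D.Mod1_ng i (r l) (-(D.base i ⬝ᵥ D.ray (r l))), mul_assoc,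
      ← Finset.mul_sum, h2, Finset.sum_mul]
    rw [Finset.sum_comm]
    refine congrArg _ (Finset.sum_congr rfl fun u hu => ?_)
    have h3 := congrArg (Rat.cast : ℚ → K) (hΨ _ (st.diff i i.2 u hu) s)
    simp only [Rat.cast_sum, Rat.cast_mul, Rat.cast_intCast] at h3
    rw [h3, Finset.sum_mul, Finset.smul_sum]
    refine Finset.sum_congr rfl fun l _ => ?_
    rw [smul_mul_assoc, ← sub_eq_add_neg, ← sub_dotProduct, mul_right_comm]
  rw [Fintype.linearIndependent_iff]
  intro β hβ i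
  have hind := Fintype.linearIndependent_iff.1
    (D.indep.comp (Subtype.val : {i // i ∉ I} → Fin k) Subtype.val_injective)
    (fun i => β i * (mono D.x (D.base i))⁻¹) (by
      funext s
      rw [Finset.sum_apply]
      change ∑ i : {i // i ∉ I}, β i * (mono D.x (D.base i))⁻¹ * logGrad D.x (D.f i) s = 0
      simp only [mul_assoc, h1, Finset.mul_sum]
      rw [Finset.sum_comm]
      refine Finset.sum_eq_zero fun l _ => ?_
      have h4 := congrFun hβ l
      rw [Finset.sum_apply] at h4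
      simp only [← mul_assoc, ← Finset.sum_mul]
      exact mul_eq_zero_of_left h4 _) i
  exact (mul_eq_zero.1 hind).resolve_right (inv_ne_zero (mono_ne_zero _ _))

/-- As `np_sys` in the old file `NPb`: `Ξ a l = δ a (z l)`, `g = jac G z`,
`g * diagonal z = diagonal (mono z ..) * ng.map` has independent rows (`linearIndependent_map`) and
`(g * diagonal z) * (Ξ * diagonal z⁻¹)ᵀ = g * Ξᵀ = 0` (`der_aeval`); `exists_varpi` gives `ϖ₀`, and
`ϖ = ϖ₀ * ∏ z` by `varpi_of_log`. Apply the logarithmic identity to the integer matrix `h`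
(`der_mono_self`, `det2_diagonal_mul`, `det2_map`), and `∏ i, mono z (abar i) =
mono z 1 * mono z (-gam)`. -/
theorem State.mod_sys (st : D.State Λ I) (z : V → Eˣ)
    (hz : ∀ u ∈ Λ, algebraMap K E (mono D.x u) = mono z fun l => u ⬝ᵥ D.ray (r l))
    (Ψ : V → Fin n ⊕ Fin k → ℚ)
    (hΨ : ∀ u ∈ Λ, ∀ s, (u s : ℚ) = ∑ l, ((u ⬝ᵥ D.ray (r l) : ℤ) : ℚ) * Ψ l s)
    {A : Type} [Fintype A] [DecidableEq A] (e : A ⊕ {i // i ∉ I} ≃ V)
    (δ : A → Derivation ℂ E E) :
    ∃ (G : {i // i ∉ I} → MvPolynomial V ℂ) (ϖ : E),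
      (∀ i, aeval (fun l => (z l : E)) (G i) = 0) ∧
      (∀ H : Matrix A V E, (H * (Matrix.of fun a l => δ a (z l))ᵀ).det =
        ϖ * det2 e H (jac G fun l => (z l : E))) ∧
      ∀ h : A → V → ℤ, (Matrix.of fun a b => (mono z (h a))⁻¹ * δ b (mono z (h a))).det =
        ϖ * mono z (fun l => -D.gam I (r l)) * algebraMap K E
          (det2 e (Matrix.of fun a l => (h a l : K))
            (Matrix.of fun (i : {i // i ∉ I}) l => D.ng i (r l))) := by
  obtain ⟨G, hG, hjac⟩ := st.mod_eqs z hz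
  set v : V → E := fun l => (z l : E) with hv
  have hv0 : ∀ l, v l ≠ 0 := fun l => (z l).ne_zero
  set γ : {i // i ∉ I} → E := fun i =>
    mono z fun l => D.a i (r l) + D.base i ⬝ᵥ D.ray (r l) with hγ
  have hγ0 : ∀ i, γ i ≠ 0 := fun i => mono_ne_zero _ _
  set g₀ : Matrix {i // i ∉ I} V K := Matrix.of fun i l => D.ng i (r l) with hg₀
  have hg : jac G v * diagonal v = diagonal γ * g₀.map (algebraMap K E) := by
    ext i l
    rw [mul_diagonal, diagonal_mul]
    exact hjac i l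
  set Ξ : Matrix A V E := Matrix.of fun a l => δ a (z l) with hΞ
  have hli : LinearIndependent E fun i => (jac G v * diagonal v) i := by
    have h1 := (linearIndependent_map (E := E) _ (st.ng_indep Ψ hΨ)).units_smul
      fun i => Units.mk0 (γ i) (hγ0 i)
    have h2 : (fun i => (jac G v * diagonal v) i) = (fun i => Units.mk0 (γ i) (hγ0 i)) •
        fun (i : {i // i ∉ I}) l => algebraMap K E (D.ng i (r l)) := by
      funext i l
      rw [hg, diagonal_mul]
      rfl
    rw [h2]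
    exact h1
  have h0 : (jac G v * diagonal v) * (Ξ * diagonal fun l => (v l)⁻¹)ᵀ = 0 := by
    rw [NPb_cancel v hv0]
    ext i a
    have h1 := der_aeval (δ a) v (G i)
    rw [hG i, map_zero] at h1
    exact h1.symm
  obtain ⟨ϖ₀, hlog⟩ := exists_varpi e _ _ hli h0
  refine ⟨G, ϖ₀ * ∏ l, v l, hG, varpi_of_log e v hv0 Ξ (jac G v) ϖ₀ hlog, fun h => ?_⟩
  have hent : (Matrix.of fun a l => (h a l : K)).map (algebraMap K E) *
      (Ξ * diagonal fun l => (v l)⁻¹)ᵀ =
      Matrix.of fun a b => (mono z (h a))⁻¹ * δ b (mono z (h a)) := by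
    ext a a'
    rw [Matrix.of_apply, der_mono_self, inv_mul_cancel_left₀ (mono_ne_zero _ _), Matrix.mul_apply]
    refine Finset.sum_congr rfl fun l _ => ?_
    rw [transpose_apply, mul_diagonal, mul_comm (Ξ a' l)]
    exact congrArg₂ (· * ·) (map_intCast (algebraMap K E) (h a l)) rfl
  have hgam : (∏ l, v l) * (mono z fun l => -D.gam I (r l)) = ∏ i, γ i := by
    rw [show ∏ l, v l = mono z fun _ => 1 by simp only [mono, zpow_one, hv], ← mono_add, hγ,
      ← mono_sum]
    refine congrArg _ (funext fun j => ?_)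
    rw [Finset.sum_apply, Pi.add_apply, gam,
      Finset.sum_subtype (p := fun i => i ∉ I) Iᶜ (fun i => Finset.mem_compl)]
    ring
  rw [← hent, hlog, hg, det2_diagonal_mul, ← det2_map, ← hgam]
  ring

/-- As in the old file `NP` (`hres`, `hrel`, `hΨg`): `det_of_isResidue` gives
`X = algebraMap (d0 μ * r₀) * J` with `J = det (δ b (u a))`. So `d0 μ ≠ 0`, `r₀ ≠ 0`, `ϖ ≠ 0`,
and `algebraMap r₀ * J * algebraMap phi = c * ϖ * Z`; with `w J ≤ w ϖ` this gives
`w Z ≤ w r₀ * w phi`. -/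
theorem State.win_core (st : D.State Λ I) (δ : Fin n → Derivation ℂ K E)
    (μ : Fin n → Fin n ⊕ Fin k → ℤ) {ϖ Z : E} {Δ : K} {c : ℚ} (hc : c ≠ 0)
    (hdet : (Matrix.of fun a b => (algebraMap K E (mono D.x (μ a)))⁻¹ *
      δ b (mono D.x (μ a))).det ≠ 0)
    (hform : (Matrix.of fun a b => (algebraMap K E (mono D.x (μ a)))⁻¹ *
      δ b (mono D.x (μ a))).det = ϖ * Z * algebraMap K E Δ)
    (hΔ : Δ * D.phi Λ I = c * D.d0 μ) (w : Valuation E ℤᵐ⁰)
    (hw : ∀ a : ℂ, w (algebraMap ℂ E a) ≤ 1) {r₀ : K} {u : Fin n → K}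
    (hr : IsResidue D.x D.f r₀ u) (hu : w (Matrix.of fun a b => δ b (u a)).det ≤ w ϖ) :
    r₀ ≠ 0 ∧ ord w (algebraMap K E r₀) ≤ ord w Z - ord w (algebraMap K E (D.phi Λ I)) := by
  have : CharZero K := charZero_of_injective_algebraMap (algebraMap ℂ K).injective
  have : CharZero E := charZero_of_injective_algebraMap (algebraMap ℂ E).injective
  have h1 : _ = algebraMap K E (D.d0 μ * r₀) * _ := det_of_isResidue hr δ μ
  have h2 := mul_ne_zero_iff.1 (h1 ▸ hdet)
  have h3 := mul_ne_zero_iff.1 ((_root_.map_ne_zero _).1 h2.1)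
  have h4 := mul_ne_zero_iff.1 (mul_ne_zero_iff.1 (hform ▸ hdet)).1
  have h5 : D.phi Λ I ≠ 0 :=
    right_ne_zero_of_mul (hΔ ▸ mul_ne_zero (Rat.cast_ne_zero.2 hc) h3.1)
  have h6 : algebraMap K E r₀ * (Matrix.of fun a b => δ b (u a)).det * algebraMap K E (D.phi Λ I) =
      (c : E) * (ϖ * Z) := by
    refine mul_left_cancel₀ ((_root_.map_ne_zero (algebraMap K E)).2 h3.1) ?_
    have h7 := congrArg (algebraMap K E) hΔ
    rw [map_mul, map_mul, map_ratCast] at h7
    rw [hform, map_mul] at h1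
    linear_combination ϖ * Z * h7 - algebraMap K E (D.phi Λ I) * h1
  have h7 := congrArg (ord w) h6
  have h8 := (_root_.map_ne_zero (algebraMap K E)).2 h3.2
  rw [ord_mul w (mul_ne_zero h8 h2.2) ((_root_.map_ne_zero _).2 h5), ord_mul w h8 h2.2,
    ord_mul w (Rat.cast_ne_zero.2 hc) (mul_ne_zero h4.1 h4.2), ord_mul w h4.1 h4.2,
    ord_ratCast hw] at h7
  exact ⟨h3.2, by linarith [ord_le_ord w h2.2 hu]⟩

end Data

end Pool.Agent.Lib.MP_bc213e_ag.TCI
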