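import Pool.Agent.Lib.MP_bc213e_ag.TCI.ModB

/-! The cone over the fibres. -/

namespace Pool.Agent.Lib.MP_bc213e_ag.TCI

open WithZero Matrix MvPolynomial

/-- Expansion along a unit row: `det2_congr`-free proof: with `e = (Equiv.sumAssoc ..)` style
reindexing the matrix becomes one indexed by `(A ⊕ B) ⊕ Unit`; use `det_sum_unit_row`. -/
theorem det2_unit {A B V F : Type} [Fintype A] [Fintype B] [DecidableEq A] [DecidableEq B]
    [CommRing F] (e₀ : A ⊕ B ≃ V) : ∃ e : (A ⊕ Unit) ⊕ B ≃ V ⊕ Unit,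
      ∀ (H : Matrix (A ⊕ Unit) (V ⊕ Unit) F) (g : Matrix B (V ⊕ Unit) F),
        (∀ l, H (Sum.inr ()) (Sum.inl l) = 0) → H (Sum.inr ()) (Sum.inr ()) = 1 →
        det2 e H g = det2 e₀ (Matrix.of fun a l => H (Sum.inl a) (Sum.inl l))
          (Matrix.of fun i l => g i (Sum.inl l)) := by
  let e1 : (A ⊕ Unit) ⊕ B ≃ (A ⊕ B) ⊕ Unit :=
    (Equiv.sumAssoc A Unit B).trans
      ((Equiv.sumCongr (Equiv.refl A) (Equiv.sumComm Unit B)).trans (Equiv.sumAssoc A B Unit).symm)
  refine ⟨e1.trans (Equiv.sumCongr e₀ (Equiv.refl Unit)), fun H g h0 h1 => ?_⟩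
  rw [det2, det2, ← Matrix.det_submatrix_equiv_self e1.symm, det_sum_unit_row]
  · have h2 : ((Matrix.fromRows H g).submatrix id
        (e1.trans (Equiv.sumCongr e₀ (Equiv.refl Unit)))).submatrix e1.symm e1.symm
        (Sum.inr ()) (Sum.inr ()) = 1 := h1
    rw [h2, mul_one]
    congr 1
    ext a b
    rcases a with a | a <;> rcases b with b | b <;> rfl
  · intro b
    rcases b with b | b <;> exact h0 _

/-- Relations between the functionals are multiples of `c`: subtract `(β * / c *) • c` and test on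
the dual vectors `U l` (`IsBas.dual`). -/
theorem IsBas.rel_uniq {S V : Type} [Fintype S] [Fintype V] {Λ : Submodule ℤ (S → ℤ)}
    {nn : V ⊕ Unit → S → ℤ} (hb : IsBas Λ fun l => nn (Sum.inl l)) {c : V ⊕ Unit → ℕ}
    (hc : 0 < c (Sum.inr ())) (rel : ∀ u ∈ Λ, ∑ l, (c l : ℤ) * (u ⬝ᵥ nn l) = 0) {F : Type}
    [Field F] [CharZero F] (β : V ⊕ Unit → F)
    (h : ∀ u ∈ Λ, ∑ l, β l * ((u ⬝ᵥ nn l : ℤ) : F) = 0) : ∃ s : F, ∀ l, β l = s * c l := by
  classical
  obtain ⟨N, hN, U, hU⟩ := hb.dual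
  have hc' : (c (Sum.inr ()) : F) ≠ 0 := Nat.cast_ne_zero.2 hc.ne'
  have hN' : (N : F) ≠ 0 := Nat.cast_ne_zero.2 hN.ne'
  refine ⟨β (Sum.inr ()) / c (Sum.inr ()), fun l => ?_⟩
  rcases l with l | l
  · have h1 := h _ (hU l).1
    have h2 := congrArg (Int.cast : ℤ → F) (rel _ (hU l).1)
    simp only [Fintype.sum_sum_type, (hU l).2, Finset.univ_unique, Finset.sum_singleton,
      PUnit.default_eq_unit, mul_ite, mul_zero, Finset.sum_ite_eq, Finset.mem_univ, if_true,
      Int.cast_ite, Int.cast_zero, Int.cast_natCast, Int.cast_add, Int.cast_mul] at h1 h2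
    field_simp
    refine mul_left_cancel₀ hN' ?_
    linear_combination (c (Sum.inr ()) : F) * h1 - β (Sum.inr ()) * h2
  · exact (div_mul_cancel₀ _ hc').symm

/-- Characters of degree zero: if `∑ c l * h l = 0` then `N • h` is the vector of pairings of
`u = ∑ l, h (inl l) • U l`. -/
theorem IsBas.exists_pair {S V : Type} [Fintype S] [Fintype V] {Λ : Submodule ℤ (S → ℤ)}
    {nn : V ⊕ Unit → S → ℤ} (hb : IsBas Λ fun l => nn (Sum.inl l)) {c : V ⊕ Unit → ℕ}
    (hc : 0 < c (Sum.inr ())) (rel : ∀ u ∈ Λ, ∑ l, (c l : ℤ) * (u ⬝ᵥ nn l) = 0) :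
    ∃ N : ℕ, 0 < N ∧ ∀ h : V ⊕ Unit → ℤ, ∑ l, (c l : ℤ) * h l = 0 →
      ∃ u ∈ Λ, ∀ l, u ⬝ᵥ nn l = N * h l := by
  classical
  obtain ⟨N, hN, U, hU⟩ := hb.dual
  refine ⟨N, hN, fun h hh => ?_⟩
  have hu : ∑ l, h (Sum.inl l) • U l ∈ Λ := Λ.sum_mem fun l _ => Λ.smul_mem _ (hU l).1
  have h1 : ∀ l, (∑ l, h (Sum.inl l) • U l) ⬝ᵥ nn (Sum.inl l) = N * h (Sum.inl l) := fun l => by
    simp only [sum_dotProduct, smul_dotProduct, (hU _).2, smul_eq_mul, mul_ite, mul_zero,
      Finset.sum_ite_eq', Finset.mem_univ, if_true]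
    ring
  refine ⟨_, hu, fun l => ?_⟩
  rcases l with l | l
  · exact h1 l
  · have h2 := rel _ hu
    simp only [Fintype.sum_sum_type, h1, Finset.univ_unique, Finset.sum_singleton,
      PUnit.default_eq_unit] at h2 hh
    have h3 : ∑ l, (c (Sum.inl l) : ℤ) * (N * h (Sum.inl l)) =
        N * ∑ l, (c (Sum.inl l) : ℤ) * h (Sum.inl l) := by
      rw [Finset.mul_sum]
      exact Finset.sum_congr rfl fun l _ => by ring
    refine mul_left_cancel₀ (Nat.cast_ne_zero.2 hc.ne' : (c (Sum.inr ()) : ℤ) ≠ 0) ?_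
    linear_combination h2 - h3 - N * hh

namespace Data

variable {n k : ℕ} {R ι K : Type} [Fintype R] [Field K] [Algebra ℂ K] {D : Data n k R ι K}
  {Λ : Submodule ℤ (Fin n ⊕ Fin k → ℤ)} {I : Finset (Fin k)} {V : Type} [Fintype V]
  {r : V ⊕ Unit → R} {c : V ⊕ Unit → ℕ}

/-- This is `np_der` of the old file `NPa` with `inr ()` in place of `0` and `IsBas.rel_uniq` in
place of `Circuit.uniq_field`. -/
theorem State.cone_der (st : D.State Λ I) (hb : IsBas Λ fun l => D.ray (r (Sum.inl l)))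
    (hc : 0 < c (Sum.inr ())) (rel : ∀ u ∈ Λ, ∑ l, (c l : ℤ) * (u ⬝ᵥ D.ray (r l)) = 0)
    {E : Type} [Field E] [Algebra ℂ E] [Algebra K E] [IsScalarTower ℂ K E]
    (C : Cone D.x Λ (fun l => D.ray (r l)) c E) :
    Algebra.trdeg ℂ E = Fintype.card (Fin n ⊕ Unit) ∧
      ∃ δ : Fin n ⊕ Unit → Derivation ℂ E E,
        (∀ α : K, δ (Sum.inr ()) (algebraMap K E α) = 0) ∧
        (∀ l, δ (Sum.inr ()) (C.z l) = c l * C.z l) ∧
        ∃ μ : Fin n → Fin n ⊕ Fin k → ℤ, (∀ a, μ a ∈ Λ) ∧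
          (Matrix.of fun a b => (algebraMap K E (mono D.x (μ a)))⁻¹ *
            δ (Sum.inl b) (algebraMap K E (mono D.x (μ a)))).det ≠ 0 := by
  classical
  obtain ⟨s, hs⟩ := exists_trBasis D.dim
  have hz0 : Transcendental K (C.z (Sum.inr ()) : E) := by
    refine transcendental_of_val C.w0 C.w0_base (C.z (Sum.inr ())).ne_zero ?_
    rw [C.w0_z, ← exp_zero, exp_lt_exp]
    omega
  have hind : AlgebraicIndependent ℂ
      (Sum.elim (fun _ : Unit => (C.z (Sum.inr ()) : E)) (algebraMap K E ∘ s)) :=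
    hs.1.sumElim_comp (algebraicIndependent_unique_type_iff.mpr hz0)
  let τ : Fin n ⊕ Unit → E := Sum.elim (algebraMap K E ∘ s) (fun _ : Unit => (C.z (Sum.inr ()) : E))
  have hτi : AlgebraicIndependent ℂ τ := by
    have := hind.comp (Equiv.sumComm (Fin n) Unit) (Equiv.injective _)
    convert this using 1
    funext a
    cases a <;> rfl
  have hle : Algebra.trdeg ℂ E ≤ Fintype.card (Fin n ⊕ Unit) := by
    rw [← trdeg_add_eq ℂ K (A := E), D.dim]
    simpa using add_le_add_right C.dim (n : Cardinal)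
  have hτ := isTrBasis_of_card τ hτi hle
  refine ⟨trdeg_eq_card τ hτ, ?_⟩
  obtain ⟨d, hd⟩ := exists_dual τ hτ
  let e : Derivation ℂ E E := ((c (Sum.inr ()) : E) * C.z (Sum.inr ())) • d (Sum.inr ())
  have he : ∀ α : K, e (algebraMap K E α) = 0 := by
    have h0 : e.compAlgebraMap K = 0 := der_eq_zero s hs _ fun a => by
      have := hd (Sum.inr ()) (Sum.inl a)
      rw [if_neg (by simp)] at this
      change ((c (Sum.inr ()) : E) * C.z (Sum.inr ())) • d (Sum.inr ()) (τ (Sum.inl a)) = 0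
      rw [this, smul_zero]
    intro α
    exact DFunLike.congr_fun h0 α
  have he0 : e (C.z (Sum.inr ())) = c (Sum.inr ()) * C.z (Sum.inr ()) := by
    have := hd (Sum.inr ()) (Sum.inr ())
    rw [if_pos rfl] at this
    change ((c (Sum.inr ()) : E) * C.z (Sum.inr ())) • d (Sum.inr ()) (τ (Sum.inr ())) = _
    rw [this, smul_eq_mul, mul_one]
  have : CharZero E := charZero_of_injective_algebraMap (algebraMap ℂ E).injective
  obtain ⟨t, ht⟩ := hb.rel_uniq hc rel (fun j => ((C.z j : E))⁻¹ * e (C.z j)) fun u hu => by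
    obtain ⟨u', -, h1⟩ := C.split u hu
    have h2 := congrArg e h1
    rw [he, Derivation.leibniz, he, smul_zero, add_zero, der_mono_self, smul_eq_mul] at h2
    have h3 := (mul_eq_zero.mp h2.symm).resolve_left
      ((map_ne_zero _).mpr (mono_ne_zero _ _))
    have h4 := (mul_eq_zero.mp h3).resolve_left (mono_ne_zero _ _)
    rw [← h4]
    exact Finset.sum_congr rfl fun j _ => mul_comm _ _
  have ht1 : t = 1 := by
    have h1 := ht (Sum.inr ())
    have h2 : (c (Sum.inr ()) : E) ≠ 0 := Nat.cast_ne_zero.mpr hc.ne'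
    rw [he0, mul_comm (c (Sum.inr ()) : E), ← mul_assoc, inv_mul_cancel₀ (C.z (Sum.inr ())).ne_zero] at h1
    exact (mul_right_cancel₀ h2 h1).symm
  obtain ⟨μ, hμ, hdet⟩ := exists_lambda D.x Λ st.gen
    (fun b => (d (Sum.inl b)).compAlgebraMap K) fun β hβ => by
      funext a
      have := hβ (s a)
      have h1 : ∀ b, ((d (Sum.inl b)).compAlgebraMap K) (s a) = if b = a then 1 else 0 := fun b => by
        have := hd (Sum.inl b) (Sum.inl a)
        simp only [Sum.inl.injEq] at this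
        exact this
      simpa [h1] using this
  refine ⟨Sum.elim (fun b => d (Sum.inl b)) (fun _ => e), he, fun j => ?_, μ, hμ, hdet⟩
  have h1 := ht j
  rw [ht1, one_mul] at h1
  change e (C.z j) = _
  rw [← h1, mul_comm, ← mul_assoc, mul_inv_cancel₀ (C.z j).ne_zero, one_mul]

end Data

end Pool.Agent.Lib.MP_bc213e_ag.TCI
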