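import Pool.Agent.Lib.MP_bc213e_ag.TCI.ModC

/-! Hartogs on the cone over the fibres. -/

namespace Pool.Agent.Lib.MP_bc213e_ag.TCI.Data

open WithZero Matrix MvPolynomial

variable {n k : ℕ} {R ι K : Type} [Fintype R] [Field K] [Algebra ℂ K] {D : Data n k R ι K}
  {Λ : Submodule ℤ (Fin n ⊕ Fin k → ℤ)} {I : Finset (Fin k)} {V : Type} [Fintype V]
  {r : V ⊕ Unit → R} {c : V ⊕ Unit → ℕ}

theorem ModD_denom {E : Type} [Field E] [Algebra ℂ E] {T : Set E}
    (gen : IntermediateField.adjoin ℂ T = ⊤) (α : E) :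
    ∃ q ∈ Algebra.adjoin ℂ T, q ≠ 0 ∧ q * α ∈ Algebra.adjoin ℂ T := by
  have hα : α ∈ IntermediateField.adjoin ℂ T := gen ▸ IntermediateField.mem_top
  obtain ⟨p, hp, q, hq, rfl⟩ := IntermediateField.mem_adjoin_iff_div.1 hα
  by_cases h : q = 0
  · exact ⟨1, one_mem _, one_ne_zero, by simp [h]⟩
  · exact ⟨q, hq, h, by rw [mul_div_cancel₀ _ h]; exact hp⟩

theorem ModD_mono_single {E J : Type} [Field E] [Fintype J] [DecidableEq J] (z : J → Eˣ) (l : J)
    (N : ℤ) : (mono z fun l' => N * (Pi.single l 1 : J → ℤ) l') = (z l : E) ^ N := by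
  rw [← mono_single z l, ← mono_zsmul]
  rfl

theorem ModD_sum_single {J : Type} [Fintype J] [DecidableEq J] (c : J → ℤ) (l : J) :
    ∑ l', c l' * (Pi.single l 1 : J → ℤ) l' = c l := by
  rw [Finset.sum_eq_single l]
  · simp
  · intro b _ hb
    simp [hb]
  · simp

/-- Sketch: `hz` from `C.split` (`perp .. = ⊥` by `hb.inj`), `gen_top`, `cone_der`, `e₀` from
`card_bas`, `e` from `det2_unit`, `mod_sys` (`Ψ` of `IsBas.psi` extended by `0`) applied to the rows
`pairings of μ a` and `Pi.single (inr ()) 1`: `det_sum_unit_col` evaluates the left side to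
`det * c (inr ())`, and `mod_const` gives `Δ * phi = (c₀ / c (inr ())) * d0 μ` for
`Δ = det2 e₀ .. / c (inr ())`. Apply `thmW`. For a `GoodVal` `w`: `exists_unit` with
`p l = 0 < c l` gives `l₀` (if `c l = 0`, `exists_pair` for `Pi.single l 1` gives
`z l ^ N = mono u` with `u ∈ Λ'`). `Trop`: `res_indep` with `X = Unit`, `ζ = z l₀`,
`y l = algebraMap (mono (u l))`, `u l` from `exists_pair` for
`c l₀ • single l 1 - c l • single l₀ 1`. `win`: `GoodVal.form` for `Sum.elim (algebraMap ∘ u) (z l₀)`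
and `det_sum_unit_row`, as in the old file `NP`, then `win_core` with
`(δ (inl b)).compAlgebraMap K`. `unit`: `μ₀` is a relation, so a multiple of `c` (`rel_uniq`),
and `μ₀ l₀ = 0`. -/
theorem State.cone_int (st : D.State Λ I) (hb : IsBas Λ fun l => D.ray (r (Sum.inl l)))
    (hc : 0 < c (Sum.inr ())) (rel : ∀ u ∈ Λ, ∑ l, (c l : ℤ) * (u ⬝ᵥ D.ray (r l)) = 0)
    {Λ' : Submodule ℤ (Fin n ⊕ Fin k → ℤ)}
    (hΛ : ∀ u ∈ Λ, (∀ l, 0 < c l → u ⬝ᵥ D.ray (r l) = 0) → u ∈ Λ')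
    (nalg : ¬ Algebra.IsAlgebraic (D.fld Λ') K)
    {E : Type} [Field E] [Algebra ℂ E] [Algebra K E] [IsScalarTower ℂ K E]
    (C : Cone D.x Λ (fun l => D.ray (r l)) c E) :
    IntermediateField.adjoin ℂ (Set.range fun l => (C.z l : E)) = ⊤ ∧ ∀ Φ : E,
      (∀ w : Valuation E ℤᵐ⁰, (∀ a : ℂ, w (algebraMap ℂ E a) ≤ 1) → (∀ l, w (C.z l) ≤ 1) →
        D.Nice Λ I (w.comap (algebraMap K E)) (push r fun l => ord w (C.z l)) → w Φ ≤ 1) →
      IsIntegral (Algebra.adjoin ℂ (Set.range fun l => (C.z l : E))) Φ := by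
  classical
  have hz : ∀ u ∈ Λ, algebraMap K E (mono D.x u) = mono C.z fun l => u ⬝ᵥ D.ray (r l) := by
    intro u hu
    obtain ⟨u', hu', h⟩ := C.split u hu
    have h0 : u' = 0 := hb.inj u' hu'.1 fun l => hu'.2 (Sum.inl l)
    rw [h, h0, mono_zero, map_one, one_mul]
  have hgen := st.gen_top C.z hz C.gen
  refine ⟨hgen, fun Φ hΦ => ?_⟩
  have hn : 1 ≤ n := by
    by_contra h
    have h0 : n = 0 := by omega
    have h1 : Algebra.trdeg ℂ K = 0 := by rw [D.dim, h0, Nat.cast_zero]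
    have h2 : Algebra.IsAlgebraic ℂ K := trdeg_eq_zero_iff.1 h1
    exact nalg (Algebra.IsAlgebraic.tower_top (K := ℂ) _)
  obtain ⟨hdim, δ, hδ1, hδ2, μ, hμ, hdet⟩ := st.cone_der hb hc rel C
  have e₀ : Fin n ⊕ {i // i ∉ I} ≃ V := Fintype.equivOfCardEq (st.card_bas hb)
  obtain ⟨e, he⟩ := det2_unit (F := K) e₀
  obtain ⟨Ψ, hΨ⟩ := hb.psi
  obtain ⟨G, ϖ, hG, hϖ, hlog⟩ := st.mod_sys C.z hz (Sum.elim Ψ fun _ => 0)
    (fun u hu s => by rw [Fintype.sum_sum_type, hΨ u hu s]; simp) e δ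
  obtain ⟨c₀, hc₀, hconst⟩ := st.mod_const hb e₀
  have hKz : CharZero K := charZero_of_injective_algebraMap (algebraMap ℂ K).injective
  have hEz : CharZero E := charZero_of_injective_algebraMap (algebraMap ℂ E).injective
  have hcK : (c (Sum.inr ()) : K) ≠ 0 := Nat.cast_ne_zero.2 hc.ne'
  have hcE : (c (Sum.inr ()) : E) ≠ 0 := Nat.cast_ne_zero.2 hc.ne'
  have hcQ : (c (Sum.inr ()) : ℚ) ≠ 0 := Nat.cast_ne_zero.2 hc.ne'
  have h1 := hlog (Sum.elim (fun a l => μ a ⬝ᵥ D.ray (r l)) fun _ => Pi.single (Sum.inr ()) 1)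
  rw [det_sum_unit_col _ (fun a => by
      simp only [Matrix.of_apply, Sum.elim_inl]
      rw [← hz _ (hμ a), hδ1, mul_zero]),
    he _ _ (fun l => by simp) (by simp)] at h1
  simp only [Matrix.of_apply, Sum.elim_inl, Sum.elim_inr, mono_single, hδ2] at h1
  have hΔ : (det2 e₀ (Matrix.of fun a l => ((μ a ⬝ᵥ D.ray (r (Sum.inl l)) : ℤ) : K))
      (Matrix.of fun (i : {i // i ∉ I}) l => D.ng i (r (Sum.inl l))) / (c (Sum.inr ()) : K)) *
        D.phi Λ I = ((c₀ / (c (Sum.inr ()) : ℚ) : ℚ) : K) * D.d0 μ := by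
    rw [div_mul_eq_mul_div, hconst μ hμ]
    push_cast
    ring
  have hform : (Matrix.of fun a b => (algebraMap K E (mono D.x (μ a)))⁻¹ *
      ((δ (Sum.inl b)).compAlgebraMap K) (mono D.x (μ a))).det =
      ϖ * mono C.z (fun l => -D.gam I (r l)) * algebraMap K E
        (det2 e₀ (Matrix.of fun a l => ((μ a ⬝ᵥ D.ray (r (Sum.inl l)) : ℤ) : K))
      (Matrix.of fun (i : {i // i ∉ I}) l => D.ng i (r (Sum.inl l))) / (c (Sum.inr ()) : K)) := by
    have h2 : ((C.z (Sum.inr ()) : E))⁻¹ * (c (Sum.inr ()) * (C.z (Sum.inr ()) : E)) =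
        c (Sum.inr ()) := by
      have := (C.z (Sum.inr ())).ne_zero
      field_simp
    rw [h2] at h1
    rw [map_div₀, map_natCast, ← mul_div_assoc, ← h1, mul_div_cancel_right₀ _ hcE]
    refine congrArg Matrix.det ?_
    ext a b
    simp only [Matrix.of_apply]
    rw [← hz _ (hμ a)]
    rfl
  obtain ⟨N, hN, hpair⟩ := hb.exists_pair (nn := fun l => D.ray (r l)) hc rel
  refine thmW e (fun l => (C.z l : E)) hgen hdim G hG δ ϖ hϖ Φ fun w hw => ?_
  refine hΦ w hw.base hw.gens ?_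
  obtain ⟨i, T, hT⟩ := hw.res
  have hA : Fintype.card {a : Fin n ⊕ Unit // a ≠ i} = n := by simp
  obtain ⟨l₀, hl₀, hw₀⟩ := exists_unit D.dim (D.fld Λ') nalg (fun l => (C.z l : E))
    (fun l => 0 < c l) (fun l hl => by
      obtain ⟨u, hu, hu'⟩ := hpair (Pi.single l 1) (by
        rw [ModD_sum_single (fun l => (c l : ℤ)) l]
        omega)
      refine ⟨N, hN, mono D.x u, IntermediateField.subset_adjoin _ _ ⟨u, hΛ u hu fun l' hl' => ?_,
        rfl⟩, ?_⟩
      · have hne : l' ≠ l := fun h => hl (h ▸ hl')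
        rw [hu' l', Pi.single_eq_of_ne hne, mul_zero]
      · rw [hz u hu, funext hu', ModD_mono_single, zpow_natCast])
    w hw.base hw.gens hA T hT
  have heq : ∀ u ∈ Λ, ord w (algebraMap K E (mono D.x u)) =
      ∑ l, ord w (C.z l) * ((u ⬝ᵥ D.ray (r l) : ℤ) : ℚ) := fun u hu => by
    rw [hz u hu, ord_mono]
    exact Finset.sum_congr rfl fun l _ => mul_comm _ _
  refine ⟨⟨fun a => ?_, push_nonneg r fun l => ord_nonneg w (hw.gens l), fun u hu => ?_⟩,
    ?_, fun r₀ u hr hu => ?_, fun hx => ?_⟩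
  · rw [Valuation.comap_apply, ← IsScalarTower.algebraMap_apply]
    exact hw.base a
  · rw [ord_comap, heq u hu, push_dot]
    rfl
  · have hex : ∀ l, ∃ u ∈ Λ, algebraMap K E (mono D.x u) =
        (C.z l : E) ^ (N * c l₀) / (C.z l₀ : E) ^ (N * c l) := fun l => by
      obtain ⟨u, hu, hu'⟩ := hpair (fun l' => (c l₀ : ℤ) * (Pi.single l 1 : V ⊕ Unit → ℤ) l' -
          (c l : ℤ) * (Pi.single l₀ 1 : V ⊕ Unit → ℤ) l') (by
        simp only [mul_sub, Finset.sum_sub_distrib, ← mul_assoc]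
        rw [ModD_sum_single (fun l' => (c l' : ℤ) * c l₀) l,
          ModD_sum_single (fun l' => (c l' : ℤ) * c l) l₀]
        ring)
      refine ⟨u, hu, ?_⟩
      have h3 : (fun l' => u ⬝ᵥ D.ray (r l')) =
          (fun l' => ((N * c l₀ : ℕ) : ℤ) * (Pi.single l 1 : V ⊕ Unit → ℤ) l') -
            fun l' => ((N * c l : ℕ) : ℤ) * (Pi.single l₀ 1 : V ⊕ Unit → ℤ) l' := by
        funext l'
        rw [hu' l', Pi.sub_apply]
        push_cast
        ring
      rw [hz u hu, h3, mono_sub, ModD_mono_single, ModD_mono_single, zpow_natCast, zpow_natCast]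
    choose u hu hu' using hex
    obtain ⟨s, hs⟩ := res_indep (X := Unit) w hw.base (fun l => (C.z l : E))
      (fun l => algebraMap K E (mono D.x (u l))) (fun _ => (C.z l₀ : E)) hw.gens
      (fun l => by
        rw [hu' l, map_div₀, map_pow, map_pow, hw₀, one_pow, div_one]
        exact pow_le_one' (hw.gens l) _)
      (fun _ => hw₀.le)
      (fun l => ⟨N * c l₀, fun _ => N * c l, Nat.mul_pos hN hl₀, by
        rw [hu' l, Fintype.prod_unique, div_mul_cancel₀ _ (pow_ne_zero _ (C.z l₀).ne_zero)]⟩)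
      T hT (d := n - 1) (by rw [hA, Fintype.card_unit]; omega)
    refine ⟨fun a => u (s a), fun Q hQ => ?_⟩
    rw [Valuation.comap_apply, ← hs Q hQ]
    exact congrArg w (MvPolynomial.comp_aeval_apply (f := fun a => mono D.x (u (s a)))
      (IsScalarTower.toAlgHom ℂ K E) Q)
  · have hform' := hw.form (Sum.elim (fun a => algebraMap K E (u a)) fun _ => (C.z l₀ : E)) (by
      rintro (a | _)
      · exact hu a
      · exact hw₀.le)
    rw [det_sum_unit_row _ fun b => hδ1 (u b)] at hform'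
    have hcj : w (c l₀ : E) = 1 := by
      have := val_eq_one_of_field w hw.base (c := (c l₀ : ℂ)) (by exact_mod_cast hl₀.ne')
      simpa using this
    simp only [Matrix.of_apply, Sum.elim_inl, Sum.elim_inr, hδ2, map_mul, hcj, hw₀,
      mul_one] at hform'
    have hJ : (Matrix.of fun a b => δ (Sum.inl a) (algebraMap K E (u b))).det =
        (Matrix.of fun a b => ((δ (Sum.inl b)).compAlgebraMap K) (u a)).det := by
      rw [← Matrix.det_transpose]
      rfl
    rw [hJ] at hform'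
    obtain ⟨h2, h3⟩ := st.win_core (fun b => (δ (Sum.inl b)).compAlgebraMap K) μ
      (div_ne_zero hc₀ hcQ) hdet hform hΔ w hw.base hr hform'
    refine ⟨h2, ?_⟩
    rw [ord_comap, ord_comap, push_dot]
    refine h3.trans (le_of_eq ?_)
    rw [ord_mono, ← Finset.sum_neg_distrib]
    refine congrArg (· - _) (Finset.sum_congr rfl fun l _ => ?_)
    simp only [gq]
    push_cast
    ring
  · obtain ⟨s, hs⟩ := hb.rel_uniq (nn := fun l => D.ray (r l)) hc rel
      (fun l => ord w (C.z l)) fun u hu => by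
        rw [← heq u hu, ← ord_comap]
        refine ord_eq_zero _ ?_
        rw [val_mono]
        simp only [hx, _root_.one_zpow, Finset.prod_const_one]
    have h2 := hs l₀
    rw [ord_eq_zero w hw₀] at h2
    have h3 : s = 0 := (mul_eq_zero.1 h2.symm).resolve_right (Nat.cast_ne_zero.2 hl₀.ne')
    have h4 : (fun l => ord w (C.z l)) = 0 := funext fun l => by rw [hs l, h3, zero_mul]; rfl
    rw [h4, push_zero]

/-- Sketch: `exists_cone`, `cone_int`. As in the old file `NP` (`NP_denom`) take `Θ ≠ 0` in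
`ℂ[z]` with all `Θ * α j ∈ ℂ[z]`, `θ = ord C.w0 Θ`, and `Φ = algebraMap φ * mono z h * Θ ^ M`.
For a test valuation use the hypothesis with `s = ord w Θ`. So `Φ` is integral over `ℂ[z]` and
`C.w0 Φ ≤ 1` (`val_le_one_of_isIntegral`), where `ord w0 (algebraMap φ) = 0`
(`val_eq_one_of_field`) and `ord w0 (z l) = c l`. -/
theorem State.hartogs_cone (st : D.State Λ I) (hb : IsBas Λ fun l => D.ray (r (Sum.inl l)))
    (hc : 0 < c (Sum.inr ())) (rel : ∀ u ∈ Λ, ∑ l, (c l : ℤ) * (u ⬝ᵥ D.ray (r l)) = 0)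
    {Λ' : Submodule ℤ (Fin n ⊕ Fin k → ℤ)}
    (hΛ : ∀ u ∈ Λ, (∀ l, 0 < c l → u ⬝ᵥ D.ray (r l) = 0) → u ∈ Λ')
    (nalg : ¬ Algebra.IsAlgebraic (D.fld Λ') K) {X : Type} [Fintype X] (α : X → K)
    (hα : ∀ j, α j ≠ 0) :
    ∃ θ : ℚ, ∀ (φ : K) (h : V ⊕ Unit → ℤ) (M : ℕ), φ ≠ 0 →
      (∀ (w : Valuation K ℤᵐ⁰) (μ₀ : V ⊕ Unit → ℚ) (s : ℚ), D.Nice Λ I w (push r μ₀) →
        (∀ j, 0 ≤ s + ord w (α j)) → 0 ≤ ord w φ + ∑ l, μ₀ l * h l + M * s) →
      0 ≤ ∑ l, (c l : ℚ) * h l + M * θ := by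
  classical
  obtain ⟨E, _, _, _, _, ⟨C⟩⟩ := exists_cone D.x Λ (fun l => D.ray (r l)) c rel
  obtain ⟨hgen, hint⟩ := st.cone_int hb hc rel hΛ nalg C
  choose q hq hq0 hqm using fun j => ModD_denom hgen (algebraMap K E (α j))
  have hΘ0 : ∏ j, q j ≠ 0 := Finset.prod_ne_zero_iff.2 fun j _ => hq0 j
  have hΘm : ∀ j, (∏ j, q j) * algebraMap K E (α j) ∈
      Algebra.adjoin ℂ (Set.range fun l => (C.z l : E)) := fun j => by
    rw [← Finset.prod_erase_mul _ _ (Finset.mem_univ j), mul_assoc]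
    exact mul_mem (prod_mem fun j' _ => hq j') (hqm j)
  generalize ∏ j, q j = Θ at hΘ0 hΘm
  have hw0C : ∀ a : ℂ, C.w0 (algebraMap ℂ E a) ≤ 1 := fun a => by
    rw [IsScalarTower.algebraMap_apply ℂ K E]
    exact C.w0_base _
  have hw0v : ∀ l, C.w0 (C.z l) ≤ 1 := fun l => by
    rw [C.w0_z, ← exp_zero, exp_le_exp]
    omega
  refine ⟨ord C.w0 Θ, fun φ h M hφ hyp => ?_⟩
  have hφE : algebraMap K E φ ≠ 0 := (_root_.map_ne_zero _).2 hφ
  have hord : ∀ w : Valuation E ℤᵐ⁰, ord w (algebraMap K E φ * mono C.z h * Θ ^ M) =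
      ord w (algebraMap K E φ) + ∑ l, ord w (C.z l) * h l + M * ord w Θ := fun w => by
    rw [ord_mul w (mul_ne_zero hφE (mono_ne_zero _ _)) (pow_ne_zero _ hΘ0),
      ord_mul w hφE (mono_ne_zero _ _), ord_pow, ord_mono]
    exact congrArg (fun t => _ + t + _) (Finset.sum_congr rfl fun l _ => mul_comm _ _)
  have hI := hint (algebraMap K E φ * mono C.z h * Θ ^ M) fun w hw hz hN => by
    refine le_one_of_ord w fun _ => ?_
    have h1 := hyp (w.comap (algebraMap K E)) (fun l => ord w (C.z l)) (ord w Θ) hN fun j => by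
      rw [ord_comap, ← ord_mul w hΘ0 ((_root_.map_ne_zero _).2 (hα j))]
      exact ord_nonneg w
        (val_le_one_of_mem_adjoin w hw (by rintro _ ⟨l, rfl⟩; exact hz l) (hΘm j))
    rw [ord_comap] at h1
    rw [hord]
    exact h1
  have hle := ord_nonneg C.w0 (val_le_one_of_isIntegral C.w0 _
    (fun β hβ => val_le_one_of_mem_adjoin C.w0 hw0C (by rintro _ ⟨l, rfl⟩; exact hw0v l) hβ) hI)
  rw [hord, ord_eq_zero C.w0 (val_eq_one_of_field C.w0 C.w0_base hφ), zero_add] at hle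
  have h1 : ∀ l, ord C.w0 (C.z l) = c l := fun l => by
    rw [ord_exp C.w0 (C.w0_z l), Int.cast_natCast]
  simpa only [h1] using hle

end Pool.Agent.Lib.MP_bc213e_ag.TCI.Data
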