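import Pool.Agent.Lib.MP_bc213e_ag.TCI.Inv
import Pool.Agent.Lib.MP_bc213e_ag.TCI.ModD

/-! Positive dimensional fibres contradict pseudo-effectivity. -/

namespace Pool.Agent.Lib.MP_bc213e_ag.TCI.Data

open WithZero

variable {n k : ℕ} {R ι K : Type} [Fintype R] [Fintype ι] [Field K] [Algebra ℂ K]
  {D : Data n k R ι K} {Λ : Submodule ℤ (Fin n ⊕ Fin k → ℤ)} {I : Finset (Fin k)} {e : ℕ} {H : K}
  {γ : R → ℚ}

/-- Sketch: `cone_data` gives `V, r', c'` (`rel` from `hc.rel` with `F = pq u`). `exists_locEq` for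
`t = 0` gives `N₀, m₀`; `hartogs_cone` with `α σ = mono (-m₀ σ)` gives `θ`. Let `d > 0` and
integers `z ρ = d * γ ρ` (`Farkas_den`). For each `t` with `M, φ` from `psef` apply it to
`(φ ^ e / H ^ (t * M)) ^ (N₀ * d)`, `h l = -(N₀ * e * t * M) * z (r' l)` and `M * e * d`; the
hypothesis is `sec_bound` multiplied by `e * d` (`push_dot`). We get
`N₀ * t * deg ≤ θ` with `deg = ∑ c j * γ (r j) > 0`, absurd for large `t`. -/
theorem Inv.np (h : D.Inv Λ I D.q e H γ) {ℓ : ℕ} {r : Fin (ℓ + 1) → R} {c : Fin (ℓ + 1) → ℕ}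
    (hc : Circuit Λ (fun j => D.ray (r j)) c) (hγ : 0 < ∑ j, (c j : ℚ) * γ (r j))
    (nalg : ¬ Algebra.IsAlgebraic (D.fld (perp Λ fun j => D.ray (r j))) K) (b : R → ℤ)
    (psef : ∀ t : ℕ, ∃ M : ℕ, 0 < M ∧ ∃ φ : K, φ ≠ 0 ∧
      Sec D.ray D.cone D.x (fun ρ => t * D.kap ρ + b ρ) M φ) : False := by
  obtain ⟨V, _, r', c', hb, hc', hF, hr⟩ := cone_data D.posSpan hc
  obtain ⟨M₀, hM₀, φ₀, -, hφ₀⟩ := psef 0
  obtain ⟨N₀, hN₀, hm⟩ := D.exists_locEq hM₀ hφ₀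
  choose m₀ hm₀ using hm
  obtain ⟨θ, hθ⟩ := h.st.hartogs_cone hb hc' (fun u hu => by
      have h1 := hF (D.pq u)
      have h2 := hc.rel u hu
      simp only [pq] at h1
      exact_mod_cast h1.trans (show _ = (0 : ℚ) by exact_mod_cast h2))
    (fun u hu h1 => mem_perp.2 ⟨hu, fun j => by
      obtain ⟨l, h2, h3⟩ := hr j
      rw [← h3]
      exact h1 l h2⟩) nalg (fun σ => mono D.x (-m₀ σ)) fun σ => mono_ne_zero _ _
  obtain ⟨d, hd, z, hz⟩ := Farkas_den γ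
  obtain ⟨t, ht⟩ := exists_nat_gt (θ / ∑ j, (c j : ℚ) * γ (r j))
  obtain ⟨M, hM, φ, hφ0, hφ⟩ := psef t
  have e0 : (0 : ℚ) < e := by exact_mod_cast h.epos
  have d0 : (0 : ℚ) < d := by exact_mod_cast hd
  have M0 : (0 : ℚ) < M := by exact_mod_cast hM
  have N1 : (1 : ℚ) ≤ N₀ := by exact_mod_cast hN₀
  have key : ∀ a : V ⊕ Unit → ℚ, ∑ l, a l * ((-(N₀ * e * t * M) * z (r' l) : ℤ) : ℚ) =
      -(N₀ * e * t * M * d) * ∑ l, a l * γ (r' l) := fun a => by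
    rw [Finset.mul_sum]
    refine Finset.sum_congr rfl fun l _ => ?_
    push_cast
    rw [hz]
    ring
  have h1 := hθ ((φ ^ e / H ^ (t * M)) ^ (N₀ * d)) (fun l => -(N₀ * e * t * M) * z (r' l))
    (M * e * d) (pow_ne_zero _ (div_ne_zero (pow_ne_zero _ hφ0) (pow_ne_zero _ h.hne)))
    fun w μ₀ s hw hs => by
      have h2 := mul_nonneg (mul_pos e0 d0).le (sub_nonneg.2 (h.sec_bound hw hm₀ hs hφ0 hφ))
      rw [push_dot] at h2
      rw [key, ord_pow, ord_div _ (pow_ne_zero _ hφ0) (pow_ne_zero _ h.hne), ord_pow, ord_pow]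
      refine h2.trans_eq ?_
      push_cast
      field_simp
      ring
  rw [key, hF] at h1
  rw [div_lt_iff₀ hγ] at ht
  push_cast at h1
  have h3 : 0 ≤ (M * e * d : ℚ) * (θ - N₀ * (t * ∑ j, (c j : ℚ) * γ (r j))) :=
    h1.trans_eq (by ring)
  have h5 := le_mul_of_one_le_left (mul_nonneg t.cast_nonneg hγ.le) N1
  have h6 := (mul_nonneg_iff_of_pos_left (by positivity)).1 h3
  linarith

end Pool.Agent.Lib.MP_bc213e_ag.TCI.Data
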