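import Pool.Agent.Lib.MP_bc213e_ag.TCI.Tan

/-! The logarithmic Jacobian in the charts. -/

namespace Pool.Agent.Lib.MP_bc213e_ag.TCI

variable {S R K : Type} [Fintype S] [Field K] [Algebra ℂ K]

/-- Span of the characters with pairing at least `h ρ` against all nonzero rays of `C`. -/
def lvl (ray : R → S → ℤ) (C : Set R) (x : S → Kˣ) (h : R → ℤ) : Submodule ℂ K :=
  Submodule.span ℂ (mono x '' {m | ∀ ρ ∈ C, ray ρ ≠ 0 → h ρ ≤ m ⬝ᵥ ray ρ})

variable {ray : R → S → ℤ} {C : Set R} {x : S → Kˣ}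

theorem PStep_mono_mem {h : R → ℤ} {m : S → ℤ} (hm : ∀ ρ ∈ C, ray ρ ≠ 0 → h ρ ≤ m ⬝ᵥ ray ρ) :
    mono x m ∈ lvl ray C x h := Submodule.subset_span ⟨m, hm, rfl⟩

theorem PStep_lvl_mono {h h' : R → ℤ} (hh : ∀ ρ ∈ C, ray ρ ≠ 0 → h' ρ ≤ h ρ) {α : K}
    (hα : α ∈ lvl ray C x h) : α ∈ lvl ray C x h' := by
  refine Submodule.span_mono ?_ hα
  rintro _ ⟨m, hm, rfl⟩
  exact ⟨m, fun ρ hρ h0 => (hh ρ hρ h0).trans (hm ρ hρ h0), rfl⟩

theorem lvl_mul {h h' : R → ℤ} {α β : K} (hα : α ∈ lvl ray C x h) (hβ : β ∈ lvl ray C x h') :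
    α * β ∈ lvl ray C x (h + h') := by
  have := Submodule.mul_mem_mul hα hβ
  rw [lvl, lvl, Submodule.span_mul_span] at this
  refine Submodule.span_mono ?_ this
  rintro _ ⟨_, ⟨m, hm, rfl⟩, _, ⟨m', hm', rfl⟩, rfl⟩
  refine ⟨m + m', fun ρ hρ h0 => ?_, mono_add x m m'⟩
  rw [add_dotProduct]
  exact add_le_add (hm ρ hρ h0) (hm' ρ hρ h0)

theorem lvl_pow {h : R → ℤ} {α : K} (hα : α ∈ lvl ray C x h) (N : ℕ) :
    α ^ N ∈ lvl ray C x (N • h) := by
  induction N with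
  | zero =>
    rw [pow_zero, ← mono_zero x]
    exact PStep_mono_mem fun ρ _ _ => by simp
  | succ N ih =>
    rw [pow_succ, succ_nsmul]
    exact lvl_mul ih hα

theorem mono_mem_lvl (m : S → ℤ) : mono x m ∈ lvl ray C x fun ρ => m ⬝ᵥ ray ρ := by
  exact PStep_mono_mem fun _ _ _ => le_rfl

theorem lvl_le_chart {h : R → ℤ} (hh : ∀ ρ ∈ C, ray ρ ≠ 0 → 0 ≤ h ρ) {α : K}
    (hα : α ∈ lvl ray C x h) : α ∈ chart ray C x := by
  have : lvl ray C x h ≤ Subalgebra.toSubmodule (chart ray C x) := by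
    refine Submodule.span_le.2 ?_
    rintro _ ⟨m, hm, rfl⟩
    refine Algebra.subset_adjoin ⟨m, fun ρ hρ => ?_, rfl⟩
    by_cases h0 : ray ρ = 0
    · rw [h0, dotProduct_zero]
    · exact (hh ρ hρ h0).trans (hm ρ hρ h0)
  exact this hα

namespace Data

variable {n k : ℕ} {ι : Type} [Fintype R] {D : Data n k R ι K}
  {Λ : Submodule ℤ (Fin n ⊕ Fin k → ℤ)} {I : Finset (Fin k)}

theorem PStep_row (i : Fin k) (N : ℕ) (m : Fin n ⊕ Fin k → ℤ) (l : Fin n ⊕ Fin k) :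
    (N : K) * logGrad D.x (D.f i) l =
      ∑ u ∈ (D.f i).support, (D.f i u • mono D.x u) * (((N • u + m) l : ℤ) : K) := by
  have h0 : ∑ u ∈ (D.f i).support, D.f i u • mono D.x u = 0 := D.van i
  have h1 : ∀ u ∈ (D.f i).support, (D.f i u • mono D.x u) * (((N • u + m) l : ℤ) : K) =
      (N : K) * (D.f i u • ((u l : K) * mono D.x u)) + (D.f i u • mono D.x u) * (m l : K) := by
    intro u _
    rw [Pi.add_apply, Pi.smul_apply, nsmul_eq_mul, Algebra.smul_def, Algebra.smul_def]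
    push_cast
    ring
  rw [Finset.sum_congr rfl h1, Finset.sum_add_distrib, ← Finset.sum_mul, h0, zero_mul, add_zero,
    ← Finset.mul_sum]
  rfl

open Classical in
theorem PStep_term {A : Type} [Fintype A] [DecidableEq A] (β : A → Fin n ⊕ Fin k → ℤ)
    (hβ : ∀ a, β a ∈ Λ) (e : A ⊕ I ≃ Fin n ⊕ Fin k) (σ : ι) (N : Fin k → ℕ)
    (m : Fin k → Fin n ⊕ Fin k → ℤ) (hm : ∀ i, LocEq D.ray (D.cone σ) (D.a i) (N i) (m i))
    (π : I → Fin n ⊕ Fin k → ℤ) (hπ : ∀ i : I, π i ∈ (D.f i).support)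
    (hd : det2 e (Matrix.of fun a l => (β a l : K))
      (Matrix.of fun (i : I) l => (((N i • π i + m i) l : ℤ) : K)) ≠ 0) :
    mono D.x (∑ i, π i) ∈ lvl D.ray (D.cone σ) D.x fun ρ =>
      (if ∀ u ∈ Λ, u ⬝ᵥ D.ray ρ = 0 then 1 else 0) - ∑ i ∈ I, D.a i ρ := by
  have : CharZero K := charZero_of_injective_algebraMap (algebraMap ℂ K).injective
  refine PStep_mono_mem fun ρ hρ h0 => ?_
  have hnn : ∀ i : I, 0 ≤ π i ⬝ᵥ D.ray ρ + D.a i ρ := fun i => D.hf i _ (hπ i) ρ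
  have hsum : ∑ i : I, (π i ⬝ᵥ D.ray ρ + D.a i ρ) =
      (∑ i, π i) ⬝ᵥ D.ray ρ + ∑ i ∈ I, D.a i ρ := by
    rw [Finset.sum_add_distrib, sum_dotProduct, Finset.sum_coe_sort I fun i => D.a i ρ]
  have hge : 0 ≤ ∑ i : I, (π i ⬝ᵥ D.ray ρ + D.a i ρ) := Finset.sum_nonneg fun i _ => hnn i
  split_ifs with horth
  · have hne : ∑ i : I, (π i ⬝ᵥ D.ray ρ + D.a i ρ) ≠ 0 := by
      intro hz
      have hz' := (Finset.sum_eq_zero_iff_of_nonneg fun i _ => hnn i).1 hz
      refine hd ((det2_eq_zero_iff _ _ _).2 ⟨fun l => (D.ray ρ l : K), fun hv => h0 ?_, ?_, ?_⟩)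
      · funext l
        have h1 : (D.ray ρ l : K) = 0 := congrFun hv l
        exact Int.cast_eq_zero.1 h1
      · funext a
        have := congrArg (Int.cast : ℤ → K) (horth _ (hβ a))
        simpa [Matrix.mulVec, dotProduct] using this
      · funext i
        have h2 : (N i • π i + m i) ⬝ᵥ D.ray ρ = 0 := by
          have h3 := hz' i (Finset.mem_univ _)
          rw [add_dotProduct, smul_dotProduct, hm i ρ hρ, nsmul_eq_mul, ← mul_add, h3, mul_zero]
        have := congrArg (Int.cast : ℤ → K) h2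
        simpa [Matrix.mulVec, dotProduct] using this
    omega
  · omega

open Classical in
/-- The logarithmic Jacobian in a chart. Sketch: take `N i, m i` from `D.cartier i σ`. By `D.van`,
`N i * logGrad (f i) l = ∑ u ∈ supp, (c u • mono u) * (N i * u l + m i l)`. By
`det2_diagonal_mul`, `det2_sum` and `det2_map (Int.castRingHom K)`,
`(∏ N i) * Jac = ∑ π, (∏ c (π i) • mono (π i)) * (d π : ℤ)` with the integer determinant
`d π = det2 e β (N i • π i + m i)`. If `d π ≠ 0`, `ρ ∈ cone σ`, `ray ρ ≠ 0` and `ray ρ` is orthogonal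
to `Λ`, then some `(N i • π i + m i) ⬝ᵥ ray ρ = N i * (π i ⬝ᵥ ray ρ + a i ρ)` is nonzero
(`det2_eq_zero_iff` over `ℚ` or `K`), so it is `≥ 1` by `D.hf`. Hence `mono (∑ π i)` has the required
level (`mono_sum`). Divide by the nonzero complex number `∏ N i`. -/
theorem jac_mem_lvl {A : Type} [Fintype A] [DecidableEq A] (β : A → Fin n ⊕ Fin k → ℤ)
    (hβ : ∀ a, β a ∈ Λ) (e : A ⊕ I ≃ Fin n ⊕ Fin k) (σ : ι) :
    det2 e (Matrix.of fun a l => (β a l : K)) (Matrix.of fun i : I => logGrad D.x (D.f i)) ∈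
      lvl D.ray (D.cone σ) D.x fun ρ =>
        (if ∀ u ∈ Λ, u ⬝ᵥ D.ray ρ = 0 then 1 else 0) - ∑ i ∈ I, D.a i ρ := by
  have : CharZero K := charZero_of_injective_algebraMap (algebraMap ℂ K).injective
  choose N hN m hm using fun i => D.cartier i σ
  have hmat : Matrix.diagonal (fun i : I => (N i : K)) *
      (Matrix.of fun i : I => logGrad D.x (D.f i)) =
      Matrix.of fun (i : I) l => ∑ u ∈ (D.f i).support,
        (D.f i u • mono D.x u) * (((N i • u + m i) l : ℤ) : K) := by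
    ext i l
    rw [Matrix.diagonal_mul, Matrix.of_apply, Matrix.of_apply, PStep_row]
  have h1 := det2_diagonal_mul e (Matrix.of fun a l => (β a l : K))
    (Matrix.of fun i : I => logGrad D.x (D.f i)) fun i : I => (N i : K)
  rw [hmat, det2_sum e _ (fun i : I => (D.f i).support) (fun i u => D.f i u • mono D.x u)
    fun i u l => (((N i • u + m i) l : ℤ) : K)] at h1
  have h2 : (∏ i : I, (N i : K)) * det2 e (Matrix.of fun a l => (β a l : K))
      (Matrix.of fun i : I => logGrad D.x (D.f i)) ∈ lvl D.ray (D.cone σ) D.x fun ρ =>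
        (if ∀ u ∈ Λ, u ⬝ᵥ D.ray ρ = 0 then 1 else 0) - ∑ i ∈ I, D.a i ρ := by
    rw [← h1]
    refine Submodule.sum_mem _ fun π hπ => ?_
    by_cases hd : det2 e (Matrix.of fun a l => (β a l : K))
      (Matrix.of fun (i : I) l => (((N i • π i + m i) l : ℤ) : K)) = 0
    · rw [hd, mul_zero]
      exact Submodule.zero_mem _
    have h3 := PStep_term β hβ e σ N m hm π (fun i => Fintype.mem_piFinset.1 hπ i) hd
    have h4 := det2_map (Int.castRingHom K) e (Matrix.of β)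
      (Matrix.of fun i : I => N i • π i + m i)
    have h5 : det2 e (Matrix.of fun a l => (β a l : K))
        (Matrix.of fun (i : I) l => (((N i • π i + m i) l : ℤ) : K)) =
        ((det2 e (Matrix.of β) (Matrix.of fun i : I => N i • π i + m i) : ℤ) : K) := h4.symm
    rw [h5, Finset.prod_smul, ← mono_sum, mul_comm, ← zsmul_eq_mul]
    exact zsmul_mem (Submodule.smul_mem _ _ h3) _
  have h6 : (∏ i : I, (N i : ℂ)) ≠ 0 :=
    Finset.prod_ne_zero_iff.2 fun i _ => Nat.cast_ne_zero.2 (hN i).ne'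
  have h7 := Submodule.smul_mem _ (∏ i : I, (N i : ℂ))⁻¹ h2
  have h8 : (∏ i : I, (N i : K)) = algebraMap ℂ K (∏ i : I, (N i : ℂ)) := by simp
  rwa [h8, ← Algebra.smul_def, smul_smul, inv_mul_cancel₀ h6, one_smul] at h7

end Data

end Pool.Agent.Lib.MP_bc213e_ag.TCI
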