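import Pool.Agent.Lib.MP_bc213e_ag.TCI.Der1
import Pool.Agent.Lib.MP_bc213e_ag.TCI.Der2
import Pool.Agent.Lib.MP_bc213e_ag.TCI.Circ

/-! Tangent vectors at the generic point. -/

namespace Pool.Agent.Lib.MP_bc213e_ag.TCI.Data

variable {n k : ℕ} {R ι K : Type} [Fintype R] [Field K] [Algebra ℂ K] (D : Data n k R ι K)

theorem Tan_sum_apply {A : Type} [Fintype A] (β : A → K) (d : A → Derivation ℂ K K) (v : K) :
    (∑ b, β b • d b) v = ∑ b, β b * d b v := by
  have := congrFun (map_sum (Derivation.coeFnAddMonoidHom (R := ℂ) (A := K) (M := K))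
    (fun b => β b • d b) Finset.univ) v
  rw [Finset.sum_apply] at this
  exact this

theorem Tan_van (i : Fin k) : ∑ u ∈ (D.f i).support, D.f i u • mono D.x u = 0 := D.van i

theorem Tan_fld (δ : Derivation ℂ K K) (v : Fin n ⊕ Fin k → K)
    (hδ : ∀ u, δ (mono D.x u) = mono D.x u * ∑ l, (u l : K) * v l)
    (Λ : Submodule ℤ (Fin n ⊕ Fin k → ℤ)) (h : ∀ u ∈ Λ, ∑ l, (u l : K) * v l = 0) :
    ∀ α ∈ D.fld Λ, δ α = 0 := by
  intro α hα
  refine der_adjoin_eq_zero δ ?_ hα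
  rintro _ ⟨u, hu, rfl⟩
  rw [hδ, h u hu, mul_zero]

theorem Tan_zero (v : Fin n ⊕ Fin k → K)
    (hδ : ∀ u, (0 : Derivation ℂ K K) (mono D.x u) = mono D.x u * ∑ l, (u l : K) * v l) :
    v = 0 := by
  funext l
  have h := hδ (Pi.single l 1)
  rw [Derivation.zero_apply, eq_comm, mul_eq_zero] at h
  have h2 := h.resolve_left (mono_ne_zero _ _)
  rw [Finset.sum_eq_single l] at h2
  · simpa using h2
  · intro b _ hb
    simp [Pi.single_eq_of_ne hb]
  · simp

omit [Algebra ℂ K] in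
theorem Tan_comb {A S : Type} [Fintype A] [Fintype S] (β : A → S → ℤ) (t : A → ℤ) (v : S → K)
    (h : (Matrix.of fun a l => (β a l : K)).mulVec v = 0) :
    ∑ l, (((∑ a, t a • β a) l : ℤ) : K) * v l = 0 := by
  simp only [Finset.sum_apply, Pi.smul_apply, smul_eq_mul, Int.cast_sum, Int.cast_mul,
    Finset.sum_mul]
  rw [Finset.sum_comm]
  refine Finset.sum_eq_zero fun a _ => ?_
  have h1 : ∑ l, (β a l : K) * v l = 0 := congrFun h a
  simp only [mul_assoc, ← Finset.mul_sum, h1, mul_zero]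

/-- Expand and use `D.van`. -/
theorem logGrad_dot (i : Fin k) (v : Fin n ⊕ Fin k → K) (γ : K) :
    logGrad D.x (D.f i) ⬝ᵥ v =
      ∑ u ∈ (D.f i).support, D.f i u • (mono D.x u * (∑ l, (u l : K) * v l + γ)) := by
  have h0 : ∑ u ∈ (D.f i).support, D.f i u • (mono D.x u * γ) = 0 := by
    have := congrArg (· * γ) (D.Tan_van i)
    simpa [Finset.sum_mul] using this
  simp only [mul_add, smul_add, Finset.sum_add_distrib, h0, add_zero]
  simp only [dotProduct, logGrad, Finsupp.sum, Finset.sum_mul, Finset.mul_sum, Finset.smul_sum]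
  rw [Finset.sum_comm]
  refine Finset.sum_congr rfl fun u _ => Finset.sum_congr rfl fun l _ => ?_
  rw [smul_mul_assoc]
  congr 1
  ring

theorem state_top : D.State ⊤ ∅ := by
  refine ⟨?_, ?_, fun _ _ _ _ => Submodule.mem_top⟩
  · simp
  · rw [eq_top_iff, ← D.gen]
    refine IntermediateField.adjoin.mono _ _ _ ?_
    rintro _ ⟨l, rfl⟩
    exact ⟨Pi.single l 1, Submodule.mem_top, mono_single D.x l⟩

/-- Every vector killed by the gradients comes from a derivation. Sketch: take `d` dual to a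
transcendence basis (`exists_trBasis`, `exists_dual`), `Ξ a l = (x l)⁻¹ * d a (x l)`. The rows are
independent (if `∑ β a • d a` kills all `x l` it vanishes by `der_adjoin_eq_zero` and `D.gen`;
evaluate on the basis), and killed by the gradients (apply `d a` to `D.van i`, `der_mono_self`).
`mem_span_of_ker (Equiv.refl _)` gives `v = ∑ β a • Ξ a`; take `δ = ∑ β a • d a`. -/
theorem tangent (v : Fin n ⊕ Fin k → K) (hv : ∀ i, logGrad D.x (D.f i) ⬝ᵥ v = 0) :
    ∃ δ : Derivation ℂ K K, ∀ u, δ (mono D.x u) = mono D.x u * ∑ l, (u l : K) * v l := by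
  obtain ⟨τ, hτ⟩ := exists_trBasis D.dim
  obtain ⟨d, hd⟩ := exists_dual τ hτ
  let Ξ : Matrix (Fin n) (Fin n ⊕ Fin k) K :=
    Matrix.of fun a l => (D.x l : K)⁻¹ * d a (D.x l)
  have hsum : ∀ (β : Fin n → K) (l : Fin n ⊕ Fin k),
      (∑ a, β a • Ξ a) l = (D.x l : K)⁻¹ * (∑ a, β a • d a) (D.x l) := fun β l => by
    rw [Tan_sum_apply, Finset.sum_apply, Finset.mul_sum]
    refine Finset.sum_congr rfl fun a _ => ?_
    simp only [Ξ, Pi.smul_apply, Matrix.of_apply, smul_eq_mul]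
    ring
  have hΞ : LinearIndependent K fun a => Ξ a := by
    rw [Fintype.linearIndependent_iff]
    intro β hβ b
    have h1 : ∀ t ∈ Set.range fun l => (D.x l : K), (∑ a, β a • d a) t = 0 := by
      rintro _ ⟨l, rfl⟩
      have h2 := hsum β l
      rw [hβ, Pi.zero_apply, eq_comm, mul_eq_zero] at h2
      exact h2.resolve_left (inv_ne_zero (D.x l).ne_zero)
    have h3 := der_adjoin_eq_zero _ h1 (α := τ b) (by rw [D.gen]; trivial)
    rw [Tan_sum_apply] at h3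
    simpa [hd] using h3
  have hg : (Matrix.of fun i => logGrad D.x (D.f i)) * Ξ.transpose = 0 := by
    ext i a
    have h1 := congrArg (d a) (D.Tan_van i)
    rw [map_sum, map_zero] at h1
    simp only [Derivation.map_smul, der_mono_self] at h1
    have h2 := D.logGrad_dot i (Ξ a) 0
    simp only [add_zero] at h2
    exact h2.trans h1
  obtain ⟨β, hβ⟩ := mem_span_of_ker (Equiv.refl _) Ξ (Matrix.of fun i => logGrad D.x (D.f i)) hΞ
    D.indep hg v (funext hv)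
  refine ⟨∑ a, β a • d a, fun u => ?_⟩
  rw [der_mono_self]
  simp only [← hsum, ← hβ]

variable {D} {Λ : Submodule ℤ (Fin n ⊕ Fin k → ℤ)} {I : Finset (Fin k)}

/-- For `i ∉ I` use `logGrad_dot` with `γ = -∑ l, base i l * v l` and `st.diff`. -/
theorem State.dot_eq_zero (st : D.State Λ I) (v : Fin n ⊕ Fin k → K)
    (h : ∀ u ∈ Λ, ∑ l, (u l : K) * v l = 0) {i : Fin k} (hi : i ∉ I) :
    logGrad D.x (D.f i) ⬝ᵥ v = 0 := by
  rw [D.logGrad_dot i v (-∑ l, (D.base i l : K) * v l)]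
  refine Finset.sum_eq_zero fun u hu => ?_
  have h1 := h _ (st.diff i hi u hu)
  simp only [Pi.sub_apply, Int.cast_sub, sub_mul, Finset.sum_sub_distrib] at h1
  rw [← sub_eq_add_neg, h1, mul_zero, smul_zero]

/-- Sketch: `tangent` gives `δ`, which kills the characters of `Λ`, hence `K` (`st.gen`); then
`δ (mono (Pi.single l 1)) = 0` gives `v l = 0`. -/
theorem State.jac_inj (st : D.State Λ I) (v : Fin n ⊕ Fin k → K)
    (h1 : ∀ u ∈ Λ, ∑ l, (u l : K) * v l = 0) (h2 : ∀ i ∈ I, logGrad D.x (D.f i) ⬝ᵥ v = 0) :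
    v = 0 := by
  have hv : ∀ i, logGrad D.x (D.f i) ⬝ᵥ v = 0 := fun i => by
    by_cases hi : i ∈ I
    · exact h2 i hi
    · exact st.dot_eq_zero v h1 hi
  obtain ⟨δ, hδ⟩ := D.tangent v hv
  have h0 : δ = 0 := by
    ext α
    exact D.Tan_fld δ v hδ Λ h1 α (by rw [st.gen]; trivial)
  rw [h0] at hδ
  exact D.Tan_zero v hδ

/-- `det2_eq_zero_iff` and `jac_inj`. -/
theorem State.jac_ne (st : D.State Λ I) {A : Type} [Fintype A] [DecidableEq A]
    (β : A → Fin n ⊕ Fin k → ℤ) (hβ : ∀ u ∈ Λ, ∃ t : A → ℤ, u = ∑ a, t a • β a)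
    (e : A ⊕ I ≃ Fin n ⊕ Fin k) :
    det2 e (Matrix.of fun a l => (β a l : K))
      (Matrix.of fun i : I => logGrad D.x (D.f i)) ≠ 0 := by
  intro h
  obtain ⟨v, hv0, h1, h2⟩ := (det2_eq_zero_iff e _ _).1 h
  refine hv0 (st.jac_inj v (fun u hu => ?_) fun i hi => congrFun h2 ⟨i, hi⟩)
  obtain ⟨t, rfl⟩ := hβ u hu
  exact Tan_comb β t v h1

/-- `exists_basis`, `Fintype.equivOfCardEq` (by `st.rank`), `jac_ne`, `det2_surj`. -/
theorem State.jac_surj (st : D.State Λ I) (η : Fin k → K) :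
    ∃ v : Fin n ⊕ Fin k → K, (∀ u ∈ Λ, ∑ l, (u l : K) * v l = 0) ∧
      ∀ i ∈ I, logGrad D.x (D.f i) ⬝ᵥ v = η i := by
  obtain ⟨β, -, hβ⟩ := exists_basis Λ
  have hcard : Fintype.card (Fin (Module.finrank ℤ Λ) ⊕ I) = Fintype.card (Fin n ⊕ Fin k) := by
    simpa using st.rank
  obtain ⟨v, h1, h2⟩ := det2_surj _ _ _ (st.jac_ne β hβ (Fintype.equivOfCardEq hcard))
    fun i : I => η i
  refine ⟨v, fun u hu => ?_, fun i hi => congrFun h2 ⟨i, hi⟩⟩
  obtain ⟨t, rfl⟩ := hβ u hu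
  exact Tan_comb β t v h1

/-- Finite case: the only relation is the circuit relation. Sketch: `v₀ = ∑ j, β j • nn j`; by
`jac_surj` pick `v₁` orthogonal to `Λ` with `grad i ⬝ᵥ v₁ = - grad i ⬝ᵥ v₀` on `I`; `v₀ + v₁` is
killed by all gradients (`dot_eq_zero` for `v₁`), its derivation (`tangent`) kills the characters of
`perp Λ nn`, hence `D.fld (perp Λ nn)`, hence `K` (`der_eq_zero_of_algebraic`). So
`∑ l, u l * v₀ l = 0` for `u ∈ Λ`, and `Circuit.uniq_field` applies. -/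
theorem State.ker_finite (st : D.State Λ I) {ℓ : ℕ} {nn : Fin (ℓ + 1) → Fin n ⊕ Fin k → ℤ}
    {c : Fin (ℓ + 1) → ℕ} (hc : Circuit Λ nn c)
    (alg : Algebra.IsAlgebraic (D.fld (perp Λ nn)) K) (β : Fin (ℓ + 1) → K)
    (hβ : ∀ i, i ∉ I → ∑ j, β j * (logGrad D.x (D.f i) ⬝ᵥ fun l => (nn j l : K)) = 0) :
    ∃ s : K, ∀ j, β j = s * c j := by
  let v₀ : Fin n ⊕ Fin k → K := ∑ j, β j • fun l => (nn j l : K)
  have e0 : ∀ u : Fin n ⊕ Fin k → ℤ,
      ∑ l, (u l : K) * v₀ l = ∑ j, β j * ((u ⬝ᵥ nn j : ℤ) : K) := fun u => by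
    simp only [v₀, Finset.sum_apply, Pi.smul_apply, smul_eq_mul, dotProduct, Int.cast_sum,
      Int.cast_mul, Finset.mul_sum]
    rw [Finset.sum_comm]
    exact Finset.sum_congr rfl fun j _ => Finset.sum_congr rfl fun l _ => by ring
  obtain ⟨v₁, h1, h2⟩ := st.jac_surj fun i => -(logGrad D.x (D.f i) ⬝ᵥ v₀)
  have hv : ∀ i, logGrad D.x (D.f i) ⬝ᵥ (v₀ + v₁) = 0 := fun i => by
    rw [dotProduct_add]
    by_cases hi : i ∈ I
    · rw [h2 i hi, add_neg_cancel]
    · rw [st.dot_eq_zero v₁ h1 hi, add_zero, ← hβ i hi]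
      simp only [v₀, dotProduct_sum, dotProduct_smul, smul_eq_mul]
  obtain ⟨δ, hδ⟩ := D.tangent _ hv
  have e1 : ∀ u ∈ Λ, ∑ l, (u l : K) * (v₀ + v₁) l = ∑ j, β j * ((u ⬝ᵥ nn j : ℤ) : K) :=
    fun u hu => by
      simp only [Pi.add_apply, mul_add, Finset.sum_add_distrib]
      rw [h1 u hu, add_zero, e0]
  have h0 : δ = 0 := by
    refine der_eq_zero_of_algebraic δ _ alg (D.Tan_fld δ _ hδ _ fun u hu => ?_)
    rw [e1 u hu.1]
    exact Finset.sum_eq_zero fun j _ => by rw [hu.2 j, Int.cast_zero, mul_zero]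
  rw [h0] at hδ
  have h3 := D.Tan_zero _ hδ
  have : CharZero K := charZero_of_injective_algebraMap (algebraMap ℂ K).injective
  refine hc.uniq_field β fun u hu => ?_
  rw [← e1 u hu, h3]
  simp

end Pool.Agent.Lib.MP_bc213e_ag.TCI.Data
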