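import Pool.Agent.Lib.MP_bc213e_ag.TCI.WVal
import Pool.Agent.Lib.MP_bc213e_ag.TCI.JacD

/-! Integrality over `ℂ(t_a : a ≠ i)[t_i]`. -/

namespace Pool.Agent.Lib.MP_bc213e_ag.TCI

open WithZero Matrix

/-- The valuations used in theorem W: `ℂ[v]` lies in the valuation ring, the residue field has
transcendence degree at least `card A - 1`, and the form `ϖ` generates a module containing all
`du_1 ∧ ... ∧ du_r` with `u_a` in the valuation ring. -/
structure GoodVal {E A V : Type} [Field E] [Algebra ℂ E] [Fintype A] [DecidableEq A] (v : V → E)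
    (δ : A → Derivation ℂ E E) (ϖ : E) (w : Valuation E ℤᵐ⁰) : Prop where
  base : ∀ c : ℂ, w (algebraMap ℂ E c) ≤ 1
  gens : ∀ l, w (v l) ≤ 1
  res : ∃ (i : A) (T : {a // a ≠ i} → MvPolynomial V ℂ), ∀ Q : MvPolynomial {a // a ≠ i} ℂ,
    Q ≠ 0 → w (MvPolynomial.aeval (fun a => MvPolynomial.aeval v (T a)) Q) = 1
  form : ∀ u : A → E, (∀ a, w (u a) ≤ 1) → w (Matrix.of fun a b => δ a (u b)).det ≤ w ϖ

theorem WStep_int {F A₀ E : Type} [CommRing F] [CommRing A₀] [Field E] [Algebra F E]
    [Algebra A₀ E] (S : Subalgebra F E) (hS : ∀ α ∈ S, α ∈ (algebraMap A₀ E).range) {x : E}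
    (hx : IsIntegral S x) : IsIntegral A₀ x := by
  obtain ⟨p, hp, h0⟩ := hx
  have h1 : p.map (algebraMap S E) ∈ Polynomial.lifts (algebraMap A₀ E) := by
    rw [Polynomial.lifts_iff_coeff_lifts]
    intro n
    rw [Polynomial.coeff_map]
    exact hS _ (p.coeff n).2
  obtain ⟨q, hq, -, hm⟩ := Polynomial.lifts_and_natDegree_eq_and_monic h1 (hp.map _)
  refine ⟨q, hm, ?_⟩
  rw [Polynomial.eval₂_eq_eval_map, hq, ← Polynomial.eval₂_eq_eval_map, h0]

theorem WStep_fd {E V : Type} [Field E] [Algebra ℂ E] [Finite V] (K₀ : IntermediateField ℂ E)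
    (v : V → E) (gen : IntermediateField.adjoin ℂ (Set.range v) = ⊤)
    (hv : ∀ l, IsIntegral K₀ (v l)) : FiniteDimensional K₀ E := by
  have h1 : FiniteDimensional K₀ (IntermediateField.adjoin K₀ (Set.range v)) :=
    IntermediateField.finiteDimensional_adjoin (by rintro _ ⟨l, rfl⟩; exact hv l)
  have h2 : IntermediateField.adjoin K₀ (Set.range v) = ⊤ := by
    rw [← IntermediateField.restrictScalars_eq_top_iff (K := ℂ), eq_top_iff, ← gen,
      IntermediateField.adjoin_le_iff]
    exact IntermediateField.subset_adjoin K₀ _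
  rw [h2] at h1
  exact IntermediateField.topEquiv.toLinearEquiv.finiteDimensional

/-- Sketch. Let `t a = aeval v (T a)`, `k₀ = sub t i`, `K₀ = IntermediateField.adjoin ℂ (range t)`.
Instances (by `letI`): `Algebra k₀[X] E := (Polynomial.aeval (t i)).toRingHom.toAlgebra`,
`Algebra k₀[X] K₀` by `RingHom.codRestrict` (`aeval_sub_mem`), scalar towers by
`IsScalarTower.of_algebraMap_eq`, `IsFractionRing k₀[X] K₀` by `IsFractionRing.of_field` from
`transcendental_sub` (`transcendental_iff_injective`) and `exists_div_sub`,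
`FiniteDimensional K₀ E` since `adjoin K₀ (range v) = ⊤` and the `v l` are integral over `K₀`
(`IntermediateField.finiteDimensional_adjoin`). The `v l` are integral over `k₀[X]`
(`exists_aeval_sub`: map the monic polynomial coefficientwise, `Polynomial.lifts_and_degree_eq_and_monic`,
or use `IsIntegral.map_of_comp_eq` / `isIntegral_trans` with the range subring).
Apply `loc_data` with `Jac = det2 e (jac T v) (jac G v)`; `hJac` is `jac_mul_integral` with
`P = Sum.elim T G` (`jac P v = fromRows (jac T v) (jac G v)`). For a place `w`: `base`, `gens` by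
integrality; `res` with `fun a => T a` (a nonzero `Q` has nonzero value in `k₀` by algebraic
independence, then `val_eq_one_of_field`); `form` is `w_val`, where `hϖ (jac T v)`, `der_aeval` and
`Matrix.det_transpose` give `det (δ a (t b)) = ϖ * Jac`. So `Φ` is integral over `k₀[X]` and
`minpoly.isIntegrallyClosed_eq_field_fractions'` gives the claim. -/
theorem w_step {E A B V : Type} [Field E] [Algebra ℂ E] [Fintype A] [DecidableEq A] [Fintype B]
    [DecidableEq B] [Fintype V] [DecidableEq V] (e : A ⊕ B ≃ V) (v : V → E)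
    (gen : IntermediateField.adjoin ℂ (Set.range v) = ⊤) (T : A → MvPolynomial V ℂ) (t : A → E)
    (hT : ∀ a, MvPolynomial.aeval v (T a) = t a) (ht : IsTranscendenceBasis ℂ t)
    (hint : ∀ l, IsIntegral (Algebra.adjoin ℂ (Set.range t)) (v l))
    (G : B → MvPolynomial V ℂ) (hG : ∀ i, MvPolynomial.aeval v (G i) = 0)
    (δ : A → Derivation ℂ E E) (ϖ : E)
    (hϖ : ∀ H : Matrix A V E,
      (H * (Matrix.of fun a l => δ a (v l))ᵀ).det = ϖ * det2 e H (jac G v))
    (Φ : E) (hΦ : ∀ w, GoodVal v δ ϖ w → w Φ ≤ 1) (i : A) (m : ℕ) :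
    ∃ μ : Polynomial (sub t i),
      (((minpoly (IntermediateField.adjoin ℂ (Set.range t)) Φ).coeff m :
        IntermediateField.adjoin ℂ (Set.range t)) : E) = Polynomial.aeval (t i) μ := by
  have : CharZero E := charZero_of_injective_algebraMap (algebraMap ℂ E).injective
  let K₀ := IntermediateField.adjoin ℂ (Set.range t)
  let φ : Polynomial (sub t i) →+* E := (Polynomial.aeval (t i)).toRingHom
  let a1 : Algebra (Polynomial (sub t i)) E := φ.toAlgebra
  have e1 : ∀ μ, algebraMap (Polynomial (sub t i)) E μ = Polynomial.aeval (t i) μ := fun _ => rfl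
  let a2 : Algebra (Polynomial (sub t i)) K₀ :=
    (φ.codRestrict K₀ fun μ => aeval_sub_mem t i μ).toAlgebra
  have e2 : ∀ μ, ((algebraMap (Polynomial (sub t i)) K₀ μ : K₀) : E) = Polynomial.aeval (t i) μ :=
    fun _ => rfl
  have t1 : IsScalarTower (Polynomial (sub t i)) K₀ E :=
    IsScalarTower.of_algebraMap_eq fun _ => rfl
  have t2 : IsScalarTower (sub t i) (Polynomial (sub t i)) E :=
    IsScalarTower.of_algebraMap_eq fun c => by
      rw [e1, Polynomial.algebraMap_eq, Polynomial.aeval_C]
  have hinj : Function.Injective (Polynomial.aeval (t i) : Polynomial (sub t i) →ₐ[sub t i] E) :=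
    transcendental_iff_injective.1 (transcendental_sub ht.1 i)
  have f1 : FaithfulSMul (Polynomial (sub t i)) K₀ :=
    (faithfulSMul_iff_algebraMap_injective _ _).2 fun μ ν h => hinj (by rw [← e2, ← e2, h])
  have fr : IsFractionRing (Polynomial (sub t i)) K₀ := IsFractionRing.of_field _ _ fun z => by
    obtain ⟨μ, ν, h⟩ := exists_div_sub t i z.2
    refine ⟨μ, ν, Subtype.ext ?_⟩
    rw [h, ← e2, ← e2]
    exact (IntermediateField.coe_div K₀ _ _).symm
  have hv : ∀ l, IsIntegral (Polynomial (sub t i)) (v l) := fun l =>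
    WStep_int _ (fun α hα => by
      obtain ⟨μ, h⟩ := exists_aeval_sub t i hα
      exact ⟨μ, h.symm⟩) (hint l)
  have hC : ∀ a : ℂ, IsIntegral (Polynomial (sub t i)) (algebraMap ℂ E a) := fun a => by
    have : algebraMap ℂ E a = algebraMap (Polynomial (sub t i)) E
        (Polynomial.C (algebraMap ℂ (sub t i) a)) := by
      rw [e1, Polynomial.aeval_C, ← IsScalarTower.algebraMap_apply]
    rw [this]
    exact isIntegral_algebraMap
  have fd : FiniteDimensional K₀ E :=
    WStep_fd K₀ v gen fun l => (hv l).tower_top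
  have hΦi : IsIntegral (Polynomial (sub t i)) Φ := by
    refine loc_data (K₀ := K₀) (det2 e (jac T v) (jac G v)) Φ (fun ξ hξ => ?_) fun w s hw hP => ?_
    · have h1 := jac_mul_integral (K₀ := K₀) e v gen hv hC (Sum.elim T G) (by
        rintro (a | a)
        · exact ⟨⟨t a, IntermediateField.subset_adjoin ℂ _ ⟨a, rfl⟩⟩, (hT a).symm⟩
        · exact ⟨0, by rw [Sum.elim_inr, hG, map_zero]⟩) ξ hξ
      have h2 : jac (Sum.elim T G) v = Matrix.fromRows (jac T v) (jac G v) := by
        ext (a | a) l <;> rfl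
      rw [h2] at h1
      exact h1
    · rw [e1, Polynomial.aeval_X] at hP
      refine hΦ w ⟨fun c => hw _ (hC c), fun l => hw _ (hv l), ⟨i, fun a => T a, fun Q hQ => ?_⟩,
        fun u hu => w_val t ht i hP δ ϖ ?_ u hu⟩
      · simp only [hT]
        have hind : AlgebraicIndependent ℂ fun a : {a // a ≠ i} => t a :=
          ht.1.comp _ Subtype.val_injective
        have hmem : MvPolynomial.aeval (fun a : {a // a ≠ i} => t a) Q ∈ sub t i :=
          IntermediateField.algebra_adjoin_le_adjoin ℂ _ (by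
            rw [Algebra.adjoin_range_eq_range_aeval]
            exact ⟨Q, rfl⟩)
        have hne : (⟨_, hmem⟩ : sub t i) ≠ 0 := fun h =>
          hQ (hind (by rw [map_zero]; exact congrArg Subtype.val h))
        exact val_eq_one_of_field w hP.base hne
      · rw [← hϖ (jac T v), ← Matrix.det_transpose]
        congr 1
        ext a b
        rw [Matrix.transpose_apply, Matrix.of_apply, ← hT, der_aeval, Matrix.mul_apply]
        rfl
  refine ⟨(minpoly (Polynomial (sub t i)) Φ).coeff m, ?_⟩
  rw [minpoly.isIntegrallyClosed_eq_field_fractions' K₀ hΦi, Polynomial.coeff_map, e2]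

end Pool.Agent.Lib.MP_bc213e_ag.TCI
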