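import Pool.Agent.Lib.MP_bc213e_ag.TCI.LocB
import Pool.Agent.Lib.MP_bc213e_ag.TCI.Cap
import Pool.Agent.Lib.MP_bc213e_ag.TCI.Der1
import Pool.Agent.Lib.MP_bc213e_ag.TCI.Der2

/-! The residue form has no zero at a place over a height one prime of `ℂ[t]`. -/

namespace Pool.Agent.Lib.MP_bc213e_ag.TCI

open WithZero

/-- A determinant with entries in the valuation ring lies in the valuation ring. -/
theorem val_det_le_one {E A Γ : Type} [Field E] [Fintype A] [DecidableEq A]
    [LinearOrderedCommGroupWithZero Γ] (w : Valuation E Γ) (M : Matrix A A E)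
    (h : ∀ a b, w (M a b) ≤ 1) : w M.det ≤ 1 := by
  have hm : M.det ∈ w.integer := by
    rw [Matrix.det_apply']
    refine sum_mem fun σ _ => mul_mem (intCast_mem _ _) (prod_mem fun a _ => ?_)
    exact h _ _
  exact hm

/-- Sketch. `s` is transcendental over `sub t i` (`transcendental_of_val`), so
`τ = Function.update t i s` is a transcendence basis (`algebraicIndependent_update`,
`isTrBasis_of_card`, `trdeg_eq_card`); let `d` be dual to `τ` (`exists_dual`). Every `d a` maps
`sub t i` into itself (`der_adjoin_mem`, values `0, 1` on generators), so `h.preserve` applies and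
`w (det (d a (u b))) ≤ 1`. `d i` kills `sub t i` (`der_adjoin_eq_zero`) and `d i s = 1`, so
`h.jac_le` gives `w Jac ≤ w (d i (t i))`, `d i (t i) ≠ 0`. The matrix `d a (t b)` is the identity
with column `i` replaced, so its determinant is `d i (t i)` (it equals
`Matrix.updateCol 1 i _`; `Matrix.cramer_apply`, `Matrix.cramer_one`). By `det_der_expand`,
`det (δ a (u b)) = J * det (d a (u b))` and `ϖ * Jac = J * d i (t i)` with `J = det (δ a (τ b))`.
Hence `w (det δ u) * w (d i (t i)) ≤ w J * w (d i (t i)) = w ϖ * w Jac ≤ w ϖ * w (d i (t i))`. -/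
theorem w_val {E A : Type} [Field E] [Algebra ℂ E] [Fintype A] [DecidableEq A] (t : A → E)
    (ht : IsTranscendenceBasis ℂ t) (i : A) {Jac : E} {w : Valuation E ℤᵐ⁰} {s : E}
    (h : PlaceData (sub t i) (t i) Jac w s) (δ : A → Derivation ℂ E E) (ϖ : E)
    (hϖ : (Matrix.of fun a b => δ a (t b)).det = ϖ * Jac) (u : A → E) (hu : ∀ a, w (u a) ≤ 1) :
    w (Matrix.of fun a b => δ a (u b)).det ≤ w ϖ := by
  have : CharZero (sub t i) := algebraRat.charZero _
  have hs0 : s ≠ 0 := by
    intro e
    have h1 := h.unif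
    rw [e, map_zero] at h1
    exact exp_ne_zero h1.symm
  have hs1 : w s < 1 := by
    rw [h.unif, ← exp_zero, exp_lt_exp]
    norm_num
  have hτ : IsTranscendenceBasis ℂ (Function.update t i s) :=
    isTrBasis_of_card _ (algebraicIndependent_update ht.1 i
      (transcendental_of_val w h.base hs0 hs1)) (trdeg_eq_card t ht).le
  obtain ⟨d, hd⟩ := exists_dual _ hτ
  have hdt : ∀ a b, b ≠ i → d a (t b) = if a = b then 1 else 0 := fun a b hb => by
    rw [← hd a b, Function.update_of_ne hb]
  have hds : ∀ a, d a s = if a = i then 1 else 0 := fun a => by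
    rw [← hd a i, Function.update_self]
  have hbase : ∀ a, ∀ c : sub t i, w (d a (algebraMap (sub t i) E c)) ≤ 1 := fun a c => by
    have h1 : d a (c : E) ∈ sub t i := by
      refine der_adjoin_mem (d a) ?_ c.2
      rintro _ ⟨b, rfl⟩
      rw [hdt a b b.2]
      split_ifs
      · exact one_mem _
      · exact zero_mem _
    exact h.base ⟨_, h1⟩
  have hdet : w (Matrix.of fun a b => d a (u b)).det ≤ 1 := by
    refine val_det_le_one w _ fun a b => h.preserve (d a) (hbase a) ?_ _ (hu b)
    rw [hds]
    split_ifs <;> simp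
  have hkill : ∀ c : sub t i, d i (algebraMap (sub t i) E c) = 0 := fun c => by
    refine der_adjoin_eq_zero (d i) ?_ c.2
    rintro _ ⟨b, rfl⟩
    rw [hdt i b b.2, if_neg (fun e => b.2 e.symm)]
  obtain ⟨hJ, hne⟩ := h.jac_le (d i) hkill (by rw [hds, if_pos rfl])
  have hmat : (Matrix.of fun a b => d a (t b)).det = d i (t i) := by
    have e : (Matrix.of fun a b => d a (t b)) =
        (1 : Matrix A A E).updateCol i fun a => d a (t i) := by
      ext a b
      rw [Matrix.of_apply, Matrix.updateCol_apply]
      split_ifs with hb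
      · rw [hb]
      · rw [hdt a b hb, Matrix.one_apply]
    rw [e, ← Matrix.cramer_apply, Matrix.cramer_one]
    rfl
  have e1 := det_der_expand _ hτ d hd δ u
  have e2 := det_der_expand _ hτ d hd δ t
  rw [hϖ, hmat] at e2
  have hpos : 0 < w (d i (t i)) := zero_lt_iff.2 ((map_ne_zero w).2 hne)
  refine le_of_mul_le_mul_right ?_ hpos
  calc w (Matrix.of fun a b => δ a (u b)).det * w (d i (t i))
      ≤ w (Matrix.of fun a b => δ a (Function.update t i s b)).det * w (d i (t i)) := by
        refine mul_le_mul_left ?_ _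
        rw [e1, map_mul]
        exact mul_le_of_le_one_right' hdet
    _ = w ϖ * w Jac := by rw [← map_mul, ← e2, map_mul]
    _ ≤ w ϖ * w (d i (t i)) := mul_le_mul_right hJ _

end Pool.Agent.Lib.MP_bc213e_ag.TCI
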